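import Mathlib

/-! The real inequality behind the estimate of the functional (summation by parts). -/

namespace CPS84

open Finset

theorem Alg_p1 (A : ℝ) (hA : A ≠ 0) (N : ℕ → ℝ) (B : ℕ) (hB : 2 ≤ B) :
    ∑ k ∈ Icc 2 B, ((2 * (A - k) + 1) / A ^ 2) * (N (k + 1) - 2 * N k + N (k - 1)) =
      ((2 * (A - 2) + 1) / A ^ 2) * (N 1 - N 2) - (2 / A ^ 2) * (N 2 - N B) -
        ((2 * (A - B) + 1) / A ^ 2) * (N B - N (B + 1)) := by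
  induction B, hB using Nat.le_induction with
  | base =>
    simp only [Icc_self, sum_singleton]
    push_cast
    field_simp
    ring
  | succ n hn ih =>
    rw [Finset.sum_Icc_succ_top (by omega), ih]
    simp only [Nat.add_sub_cancel]
    push_cast
    field_simp
    ring

theorem Alg_p2 (A : ℝ) (hA : A ≠ 0) (B : ℕ) (hB : 2 ≤ B) :
    ∑ k ∈ Icc 2 B, ((2 * (A - k) + 1) / A ^ 2) = ((A - 1) ^ 2 - (A - B) ^ 2) / A ^ 2 := by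
  induction B, hB using Nat.le_induction with
  | base =>
    simp only [Icc_self, sum_singleton]
    push_cast
    field_simp
    ring
  | succ n hn ih =>
    rw [Finset.sum_Icc_succ_top (by omega), ih]
    push_cast
    field_simp
    ring

theorem Alg_p3 (A : ℝ) (hA : A ≠ 0) (τ : ℕ → ℝ) (B : ℕ) (hB : 2 ≤ B) :
    ∑ k ∈ Icc 2 B, ((2 * (A - k) + 1) / A ^ 2) * (2 * ∑ j ∈ Ico 2 k, τ j + τ k) =
      ∑ j ∈ Icc 2 B, τ j * ((2 * (A - j) + 1) / A ^ 2 + 2 * (((A - j) ^ 2 - (A - B) ^ 2) / A ^ 2)) := by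
  induction B, hB using Nat.le_induction with
  | base =>
    simp only [Icc_self, sum_singleton, Ico_self, sum_empty]
    push_cast
    ring
  | succ n hn ih =>
    rw [Finset.sum_Icc_succ_top (by omega), ih, Finset.sum_Icc_succ_top (by omega)]
    have e1 : Ico 2 (n + 1) = Icc 2 n := by
      ext k
      simp only [mem_Ico, mem_Icc]
      omega
    rw [e1]
    have e2 : ∑ j ∈ Icc 2 n, τ j * ((2 * (A - j) + 1) / A ^ 2 +
        2 * (((A - j) ^ 2 - (A - ((n + 1 : ℕ) : ℝ)) ^ 2) / A ^ 2)) =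
        ∑ j ∈ Icc 2 n, τ j * ((2 * (A - j) + 1) / A ^ 2 + 2 * (((A - j) ^ 2 - (A - n) ^ 2) / A ^ 2)) +
        ((2 * (A - ((n + 1 : ℕ) : ℝ)) + 1) / A ^ 2) * (2 * ∑ j ∈ Icc 2 n, τ j) := by
      rw [Finset.mul_sum, Finset.mul_sum, ← Finset.sum_add_distrib]
      apply Finset.sum_congr rfl
      intro j _
      push_cast
      field_simp
      ring
    rw [e2]
    push_cast
    field_simp
    ring

/-- `γ k = (2 (A - k) + 1) / A ^ 2`, `γ k = (A - k + 1)^2/A^2 - (A - k)^2/A^2`, so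
`∑ k ∈ Icc 2 A, γ k = (A - 1) ^ 2 / A ^ 2 ≤ 1`.
`∑ γ_k (N_{k+1} - 2 N_k + N_{k-1})
  = γ_2 (N_1 - N_2) - (2/A²) (N_2 - N_A) - (1/A²) (N_A - N_{A+1})`;
`∑ γ_k (2 ∑_{2 ≤ j < k} τ_j + τ_k) = ∑_j τ_j (γ_j + 2 ∑_{k > j} γ_k) ≤ 2 ∑_j τ_j`;
`γ_2 + 1/A² ≤ 1`. -/
theorem alg_main (A : ℕ) (hA : 2 ≤ A) (N τ a : ℕ → ℝ) (J e r : ℝ)
    (hN : ∀ k, 1 ≤ k → N (k + 1) ≤ N k) (hN0 : ∀ k, 1 ≤ k → 0 ≤ N k) (hτ : ∀ j, 2 ≤ j → 0 ≤ τ j)
    (he : 0 ≤ e) (hJ0 : 0 ≤ J) (hJ : J ≤ N 1 - N 2 - e)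
    (hτe : ∑ j ∈ Icc 2 A, τ j ≤ e) (hr : r ≤ -2 * (N 1 - N 2) - 2 * e)
    (ha : ∀ k, 2 ≤ k → k ≤ A →
      a k ≤ N (k + 1) - 2 * N k + N (k - 1) + J + 2 * ∑ j ∈ Ico 2 k, τ j + τ k) :
    r + ∑ k ∈ Icc 2 A, ((2 * ((A : ℝ) - k) + 1) / (A : ℝ) ^ 2) * a k ≤
      -(1 / (A : ℝ) ^ 2) * (N 1 - N (A + 1)) := by
  have hA2 : (2 : ℝ) ≤ A := by exact_mod_cast hA
  have hA0 : (A : ℝ) ≠ 0 := by positivity
  have hApos : (0 : ℝ) < (A : ℝ) ^ 2 := by positivity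
  have hg : ∀ k ∈ Icc 2 A, 0 ≤ (2 * ((A : ℝ) - k) + 1) / (A : ℝ) ^ 2 := by
    intro k hk
    have h1 : (k : ℝ) ≤ A := by exact_mod_cast (mem_Icc.1 hk).2
    apply div_nonneg _ hApos.le
    linarith
  have h1 : ∑ k ∈ Icc 2 A, ((2 * ((A : ℝ) - k) + 1) / (A : ℝ) ^ 2) * a k ≤
      ∑ k ∈ Icc 2 A, ((2 * ((A : ℝ) - k) + 1) / (A : ℝ) ^ 2) * (N (k + 1) - 2 * N k + N (k - 1)) +
      J * ∑ k ∈ Icc 2 A, ((2 * ((A : ℝ) - k) + 1) / (A : ℝ) ^ 2) +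
      ∑ k ∈ Icc 2 A, ((2 * ((A : ℝ) - k) + 1) / (A : ℝ) ^ 2) * (2 * ∑ j ∈ Ico 2 k, τ j + τ k) := by
    rw [Finset.mul_sum, ← Finset.sum_add_distrib, ← Finset.sum_add_distrib]
    apply Finset.sum_le_sum
    intro k hk
    have h2 := mul_le_mul_of_nonneg_left (ha k (mem_Icc.1 hk).1 (mem_Icc.1 hk).2) (hg k hk)
    linarith
  rw [Alg_p1 A hA0 N A hA, Alg_p2 A hA0 A hA, Alg_p3 A hA0 τ A hA] at h1
  -- the third sum
  have h3 : ∑ j ∈ Icc 2 A, τ j * ((2 * ((A : ℝ) - j) + 1) / (A : ℝ) ^ 2 +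
      2 * ((((A : ℝ) - j) ^ 2 - ((A : ℝ) - A) ^ 2) / (A : ℝ) ^ 2)) ≤ 2 * e := by
    calc _ ≤ ∑ j ∈ Icc 2 A, τ j * 2 := by
          apply Finset.sum_le_sum
          intro j hj
          apply mul_le_mul_of_nonneg_left _ (hτ j (mem_Icc.1 hj).1)
          have hj1 : (j : ℝ) ≤ A := by exact_mod_cast (mem_Icc.1 hj).2
          have hj2 : (2 : ℝ) ≤ j := by exact_mod_cast (mem_Icc.1 hj).1
          rw [← mul_div_assoc, ← add_div, div_le_iff₀ hApos]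
          nlinarith
      _ = 2 * ∑ j ∈ Icc 2 A, τ j := by rw [← Finset.sum_mul, mul_comm]
      _ ≤ 2 * e := by linarith
  have h4 : J * ((((A : ℝ) - 1) ^ 2 - ((A : ℝ) - A) ^ 2) / (A : ℝ) ^ 2) ≤ J := by
    have : (((A : ℝ) - 1) ^ 2 - ((A : ℝ) - A) ^ 2) / (A : ℝ) ^ 2 ≤ 1 := by
      rw [div_le_one hApos]
      nlinarith
    nlinarith
  have hNA : N A ≤ N 2 := by
    have : ∀ B, 2 ≤ B → N B ≤ N 2 := by
      intro B hB
      induction B, hB using Nat.le_induction with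
      | base => exact le_refl _
      | succ n hn ih => exact (hN n (by omega)).trans ih
    exact this A hA
  have hD1 : 0 ≤ N 1 - N 2 := by
    have := hN 1 le_rfl
    norm_num at this
    linarith
  -- final
  have h5 : ((2 * ((A : ℝ) - 2) + 1) / (A : ℝ) ^ 2) * (N 1 - N 2) + (1 / (A : ℝ) ^ 2) * (N 1 - N 2) ≤
      (N 1 - N 2) := by
    rw [← add_mul, ← add_div]
    have : (2 * ((A : ℝ) - 2) + 1 + 1) / (A : ℝ) ^ 2 ≤ 1 := by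
      rw [div_le_one hApos]
      nlinarith
    nlinarith
  have h6 : (1 / (A : ℝ) ^ 2) * (N 2 - N A) ≤ (2 / (A : ℝ) ^ 2) * (N 2 - N A) := by
    apply mul_le_mul_of_nonneg_right _ (by linarith)
    gcongr
    norm_num
  have h7 : ((2 * ((A : ℝ) - A) + 1) / (A : ℝ) ^ 2) * (N A - N (A + 1)) =
      (1 / (A : ℝ) ^ 2) * (N A - N (A + 1)) := by
    congr 2
    ring
  have h8 : -(1 / (A : ℝ) ^ 2) * (N 1 - N (A + 1)) = -((1 / (A : ℝ) ^ 2) * (N 1 - N 2)) -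
      (1 / (A : ℝ) ^ 2) * (N 2 - N A) - (1 / (A : ℝ) ^ 2) * (N A - N (A + 1)) := by ring
  rw [h8]
  rw [h7] at h1
  linarith

theorem sum_gamma (A : ℕ) (hA : 2 ≤ A) :
    ∑ k ∈ Icc 2 A, ((2 * ((A : ℝ) - k) + 1) / (A : ℝ) ^ 2) ≤ 1 := by
  have hA2 : (2 : ℝ) ≤ A := by exact_mod_cast hA
  have hA0 : (A : ℝ) ≠ 0 := by positivity
  have hApos : (0 : ℝ) < (A : ℝ) ^ 2 := by positivity
  rw [Alg_p2 A hA0 A hA, div_le_one hApos]
  nlinarith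

end CPS84
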