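import Mathlib

/-! Halving. -/

namespace CPS84



/-- Halving: with `r = ρ s > 0` and `A = ⌈8 / r⌉` (so `A ≤ 9 / r`) the functional decreases at rate
at least `r ^ 3 / 648` as long as `ρ > r / 2`, hence `ρ (s + 648 / r ^ 2) ≤ r / 2`. -/
theorem halving (ρ : ℝ → ℝ) (Φ : ℕ → ℝ → ℝ) (hanti : ∀ a b, 0 ≤ a → a ≤ b → ρ b ≤ ρ a)
    (h0 : ∀ t, 0 ≤ t → 0 ≤ ρ t) (h1 : ∀ t, 0 ≤ t → ρ t ≤ 1)
    (hlo : ∀ A t, 2 ≤ A → 0 ≤ t → ρ t ≤ Φ A t) (hup : ∀ A t, 2 ≤ A → 0 ≤ t → Φ A t ≤ 3 / 2 * ρ t)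
    (hd : ∀ (A : ℕ) (a b δ : ℝ), 2 ≤ A → 0 ≤ a → a ≤ b →
      (∀ s, a ≤ s → s ≤ b → -(1 / (A : ℝ) ^ 2) * (ρ s / 2 - 1 / ((A : ℝ) + 1)) ≤ δ) →
      Φ A b - Φ A a ≤ δ * (b - a)) (s : ℝ) (hs : 0 ≤ s) (hpos : 0 < ρ s) :
    ρ (s + 648 / (ρ s) ^ 2) ≤ ρ s / 2 := by
  set r : ℝ := ρ s with hr
  have hr1 : r ≤ 1 := h1 s hs
  set T : ℝ := 648 / r ^ 2 with hT
  have hT0 : 0 < T := by positivity
  by_contra hcon
  push Not at hcon
  set A : ℕ := ⌈8 / r⌉₊ with hA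
  have hA1 : 8 / r ≤ A := Nat.le_ceil _
  have hA8 : (8 : ℝ) ≤ A := by
    refine le_trans ?_ hA1
    rw [le_div_iff₀ hpos]
    linarith
  have hA2 : 2 ≤ A := by
    have : (2 : ℝ) ≤ A := by linarith
    exact_mod_cast this
  have hA9 : (A : ℝ) ≤ 9 / r := by
    have h2 : (A : ℝ) < 8 / r + 1 := Nat.ceil_lt_add_one (by positivity)
    have h3 : 1 ≤ 1 / r := by
      rw [le_div_iff₀ hpos]
      linarith
    have h4 : 9 / r = 8 / r + 1 / r := by ring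
    linarith
  have hA0 : (0 : ℝ) < A := by linarith
  have hinv : 1 / ((A : ℝ) + 1) ≤ r / 8 := by
    rw [div_le_iff₀ hpos] at hA1
    rw [div_le_div_iff₀ (by positivity) (by norm_num)]
    nlinarith
  have hAr : (A : ℝ) * r ≤ 9 := by
    rw [le_div_iff₀ hpos] at hA9
    exact hA9
  have hinv2 : r ^ 2 / 81 ≤ 1 / (A : ℝ) ^ 2 := by
    rw [div_le_div_iff₀ (by norm_num) (by positivity)]
    have h5 : (r * A) ^ 2 ≤ 81 := by
      have h6 : 0 ≤ r * A := by positivity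
      nlinarith
    nlinarith
  have h2 := hd A s (s + T) (-(r ^ 3 / 648)) hA2 hs (by linarith) (fun s' hs1 hs2 => by
    have h3 : ρ (s + T) ≤ ρ s' := hanti s' (s + T) (by linarith) hs2
    have h4 : r / 8 ≤ ρ s' / 2 - 1 / ((A : ℝ) + 1) := by linarith
    have h5 : r ^ 2 / 81 * (r / 8) ≤ 1 / (A : ℝ) ^ 2 * (ρ s' / 2 - 1 / ((A : ℝ) + 1)) :=
      mul_le_mul hinv2 h4 (by positivity) (by positivity)
    have h6 : r ^ 2 / 81 * (r / 8) = r ^ 3 / 648 := by ring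
    linarith)
  have h3 : -(r ^ 3 / 648) * (s + T - s) = -r := by
    rw [hT]
    field_simp
    ring
  rw [h3] at h2
  have h4 := hup A s hA2 hs
  have h5 := hlo A (s + T) hA2 (by linarith)
  linarith

end CPS84
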