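import Pool.Agent.LibCPS84.An1

/-! From the differential inequality to the rate `t ^ (-1/2)`. -/

namespace CPS84

theorem An2_step (ρ : ℝ → ℝ) (hanti : ∀ a b, 0 ≤ a → a ≤ b → ρ b ≤ ρ a)
    (h1 : ∀ t, 0 ≤ t → ρ t ≤ 1)
    (hh : ∀ s, 0 ≤ s → 0 < ρ s → ρ (s + 648 / (ρ s) ^ 2) ≤ ρ s / 2) (n : ℕ) :
    ρ (864 * ((4 : ℝ) ^ n - 1)) ≤ 1 / 2 ^ n := by
  induction n with
  | zero => simpa using h1 0 le_rfl
  | succ n ih =>
    have h4 : (1 : ℝ) ≤ 4 ^ n := one_le_pow₀ (by norm_num)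
    have hT0 : 0 ≤ 864 * ((4 : ℝ) ^ n - 1) := by linarith
    have hle : 864 * ((4 : ℝ) ^ n - 1) ≤ 864 * ((4 : ℝ) ^ (n + 1) - 1) := by
      rw [pow_succ]
      linarith
    by_cases hc : ρ (864 * ((4 : ℝ) ^ n - 1)) ≤ 1 / 2 ^ (n + 1)
    · exact (hanti _ _ hT0 hle).trans hc
    · push Not at hc
      set x := ρ (864 * ((4 : ℝ) ^ n - 1)) with hx
      have hpos : 0 < x := lt_trans (by positivity) hc
      have h2 := hh (864 * ((4 : ℝ) ^ n - 1)) hT0 hpos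
      rw [← hx] at h2
      have h3 : 648 / x ^ 2 ≤ 648 * 4 ^ (n + 1) := by
        rw [div_le_iff₀ (by positivity)]
        have h5 : 1 ≤ x * 2 ^ (n + 1) := by
          rw [div_lt_iff₀ (by positivity)] at hc
          exact hc.le
        have h6 : (1 : ℝ) ≤ (x * 2 ^ (n + 1)) ^ 2 := one_le_pow₀ h5
        have h7 : (x * 2 ^ (n + 1)) ^ 2 = x ^ 2 * 4 ^ (n + 1) := by
          rw [mul_pow, ← pow_mul, mul_comm (n + 1) 2, pow_mul]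
          norm_num
        rw [h7] at h6
        nlinarith
      have h8 : 864 * ((4 : ℝ) ^ n - 1) + 648 / x ^ 2 ≤ 864 * ((4 : ℝ) ^ (n + 1) - 1) := by
        have e4 : (4 : ℝ) ^ (n + 1) = 4 * 4 ^ n := by ring
        rw [e4] at h3 ⊢
        linarith
      have h9 : ρ (864 * ((4 : ℝ) ^ (n + 1) - 1)) ≤ ρ (864 * ((4 : ℝ) ^ n - 1) + 648 / x ^ 2) :=
        hanti _ _ (by positivity) h8
      refine h9.trans (h2.trans ?_)
      rw [pow_succ, ← div_div]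
      linarith

/-- `ρ (T_n) ≤ 2 ^ (-n)` for `T_n = 648 (4 + ... + 4 ^ n) ≤ 864 · 4 ^ n`, by induction with
`halving`; for `t ≥ 864` choose `n` with `864 · 4 ^ n ≤ t < 864 · 4 ^ (n + 1)`. -/
theorem rate (ρ : ℝ → ℝ) (Φ : ℕ → ℝ → ℝ) (hanti : ∀ a b, 0 ≤ a → a ≤ b → ρ b ≤ ρ a)
    (h0 : ∀ t, 0 ≤ t → 0 ≤ ρ t) (h1 : ∀ t, 0 ≤ t → ρ t ≤ 1)
    (hlo : ∀ A t, 2 ≤ A → 0 ≤ t → ρ t ≤ Φ A t) (hup : ∀ A t, 2 ≤ A → 0 ≤ t → Φ A t ≤ 3 / 2 * ρ t)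
    (hd : ∀ (A : ℕ) (a b δ : ℝ), 2 ≤ A → 0 ≤ a → a ≤ b →
      (∀ s, a ≤ s → s ≤ b → -(1 / (A : ℝ) ^ 2) * (ρ s / 2 - 1 / ((A : ℝ) + 1)) ≤ δ) →
      Φ A b - Φ A a ≤ δ * (b - a)) (t : ℝ) (ht : 1 ≤ t) : ρ t ≤ 60 / Real.sqrt t := by
  have hh : ∀ s, 0 ≤ s → 0 < ρ s → ρ (s + 648 / (ρ s) ^ 2) ≤ ρ s / 2 := fun s hs hpos =>
    halving ρ Φ hanti h0 h1 hlo hup hd s hs hpos
  have hsq : 0 < Real.sqrt t := Real.sqrt_pos.2 (by linarith)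
  rw [le_div_iff₀ hsq]
  rcases lt_or_ge t 864 with hlt | hge
  · have h2 : Real.sqrt t ≤ 60 := by
      rw [Real.sqrt_le_left (by norm_num)]
      linarith
    have h3 := h1 t (by linarith)
    have h4 := h0 t (by linarith)
    nlinarith
  · obtain ⟨n, hn1, hn2⟩ := exists_nat_pow_near (x := t / 864) (y := (4 : ℝ))
      (by rw [le_div_iff₀ (by norm_num)]; linarith) (by norm_num)
    have h4 : (1 : ℝ) ≤ 4 ^ n := one_le_pow₀ (by norm_num)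
    rw [le_div_iff₀ (by norm_num)] at hn1
    rw [div_lt_iff₀ (by norm_num)] at hn2
    have h5 : ρ t ≤ 1 / 2 ^ n :=
      (hanti (864 * ((4 : ℝ) ^ n - 1)) t (by linarith) (by linarith)).trans
        (An2_step ρ hanti h1 hh n)
    have h6 : Real.sqrt t ≤ 60 * 2 ^ n := by
      rw [Real.sqrt_le_left (by positivity)]
      rw [mul_pow, ← pow_mul, mul_comm n 2, pow_mul]
      rw [pow_succ] at hn2
      norm_num
      linarith
    have h7 : 0 ≤ ρ t := h0 t (by linarith)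
    calc ρ t * Real.sqrt t ≤ (1 / 2 ^ n) * (60 * 2 ^ n) := mul_le_mul h5 h6 hsq.le (by positivity)
      _ = 60 := by field_simp

end CPS84
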