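import Pool.Agent.LibCPS84.Defs

/-! Elementary facts about `act`, `gen` and `Dep`. -/

namespace CPS84

open Finset
open scoped Classical

variable {S : Type} {u : S → S → S} {f g : (ℤ → S) → ℝ} {Λ Λ' : Finset ℤ}

theorem nb_ne (c : ℤ × Bool) : nb c ≠ c.1 := by
  unfold nb
  split_ifs <;> omega

theorem mem_clk {c : ℤ × Bool} : c ∈ clk Λ ↔ c.1 ∈ Λ := by
  simp [clk]

theorem mem_clkI {c : ℤ × Bool} : c ∈ clkI Λ ↔ c.1 ∈ Λ ∧ nb c ∈ Λ := by
  simp [clkI, mem_clk]

theorem clkI_subset (Λ : Finset ℤ) : clkI Λ ⊆ clk Λ := by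
  unfold clkI
  exact filter_subset _ _

theorem subset_fat (Λ : Finset ℤ) : Λ ⊆ fat Λ := by
  unfold fat
  exact subset_union_left

theorem nb_mem_fat {c : ℤ × Bool} (hc : c.1 ∈ Λ) : nb c ∈ fat Λ := by
  unfold fat
  exact mem_union_right _ (mem_image_of_mem nb (mem_clk.2 hc))

theorem act_same (c : ℤ × Bool) (η : ℤ → S) : act u c η c.1 = u (η (nb c)) (η c.1) := by
  unfold act
  exact Function.update_self _ _ _

theorem act_of_ne {c : ℤ × Bool} {i : ℤ} (h : i ≠ c.1) (η : ℤ → S) : act u c η i = η i := by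
  unfold act
  exact Function.update_of_ne h _ _

theorem Dep.mono (h : Dep f Λ) (hs : Λ ⊆ Λ') : Dep f Λ' :=
  fun η ζ hi => h η ζ (fun i hi' => hi i (hs hi'))

theorem dep_const (a : ℝ) (Λ : Finset ℤ) : Dep (fun _ : ℤ → S => a) Λ :=
  fun _ _ _ => rfl

theorem Dep.add (hf : Dep f Λ) (hg : Dep g Λ) : Dep (fun η => f η + g η) Λ := by
  intro η ζ h
  show f η + g η = f ζ + g ζ
  rw [hf η ζ h, hg η ζ h]

theorem Dep.sub (hf : Dep f Λ) (hg : Dep g Λ) : Dep (fun η => f η - g η) Λ := by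
  intro η ζ h
  show f η - g η = f ζ - g ζ
  rw [hf η ζ h, hg η ζ h]

theorem Dep.mul (hf : Dep f Λ) (hg : Dep g Λ) : Dep (fun η => f η * g η) Λ := by
  intro η ζ h
  show f η * g η = f ζ * g ζ
  rw [hf η ζ h, hg η ζ h]

theorem Dep.const_mul (a : ℝ) (hf : Dep f Λ) : Dep (fun η => a * f η) Λ := by
  intro η ζ h
  show a * f η = a * f ζ
  rw [hf η ζ h]

theorem Dep.sum {ι : Type} (s : Finset ι) (F : ι → (ℤ → S) → ℝ) (h : ∀ i ∈ s, Dep (F i) Λ) :
    Dep (fun η => ∑ i ∈ s, F i η) Λ := by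
  intro η ζ hh
  exact sum_congr rfl (fun i hi => h i hi η ζ hh)

theorem dep_ind (p : (ℤ → S) → Prop) (h : ∀ η ζ, (∀ i ∈ Λ, η i = ζ i) → (p η ↔ p ζ)) :
    Dep (fun η => ind (p η)) Λ := by
  intro η ζ hh
  show ind (p η) = ind (p ζ)
  rw [propext (h η ζ hh)]

/-- a clock of a site outside `Λ` has no effect on `f` -/
theorem Dep.act_of_notMem (hf : Dep f Λ) {c : ℤ × Bool} (hc : c.1 ∉ Λ) (η : ℤ → S) :
    f (act u c η) = f η := by
  apply hf
  intro i hi
  apply act_of_ne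
  intro h
  exact hc (h ▸ hi)

theorem dep_act (hf : Dep f Λ) (c : ℤ × Bool) : Dep (fun η => f (act u c η)) (insert (nb c) Λ) := by
  intro η ζ h
  show f (act u c η) = f (act u c ζ)
  apply hf
  intro i hi
  by_cases hc : i = c.1
  · subst hc
    rw [act_same, act_same, h _ (mem_insert_self _ _), h _ (mem_insert_of_mem hi)]
  · rw [act_of_ne hc, act_of_ne hc]
    exact h _ (mem_insert_of_mem hi)

theorem dep_act_of_mem (hf : Dep f Λ) {c : ℤ × Bool} (hc : nb c ∈ Λ) :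
    Dep (fun η => f (act u c η)) Λ := by
  have h := dep_act (u := u) hf c
  rwa [insert_eq_of_mem hc] at h

theorem dep_gen (hf : Dep f Λ) : Dep (gen u (clk Λ) f) (fat Λ) := by
  intro η ζ h
  unfold gen
  apply sum_congr rfl
  intro c hc
  have h1 : f (act u c η) = f (act u c ζ) :=
    dep_act (u := u) hf c η ζ (fun i hi => h i (by
      rcases mem_insert.1 hi with hi | hi
      · rw [hi]
        exact nb_mem_fat (mem_clk.1 hc)
      · exact subset_fat Λ hi))
  have h2 : f η = f ζ := hf η ζ (fun i hi => h i (subset_fat Λ hi))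
  rw [h1, h2]

theorem dep_genI (hf : Dep f Λ) : Dep (gen u (clkI Λ) f) Λ := by
  intro η ζ h
  unfold gen
  apply sum_congr rfl
  intro c hc
  have h1 : f (act u c η) = f (act u c ζ) :=
    dep_act_of_mem (u := u) hf (mem_clkI.1 hc).2 η ζ h
  have h2 : f η = f ζ := hf η ζ h
  rw [h1, h2]

theorem gen_clk_of_subset (hf : Dep f Λ) (hs : Λ ⊆ Λ') (η : ℤ → S) :
    gen u (clk Λ') f η = gen u (clk Λ) f η := by
  unfold gen
  symm
  apply sum_subset
  · intro c hc
    exact mem_clk.2 (hs (mem_clk.1 hc))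
  · intro c _ hc
    rw [hf.act_of_notMem (fun h => hc (mem_clk.2 h)), sub_self]

theorem abs_gen_le {B : ℝ} (hf : ∀ η, |f η| ≤ B) (K : Finset (ℤ × Bool)) (η : ℤ → S) :
    |gen u K f η| ≤ 2 * B * K.card := by
  unfold gen
  calc |∑ c ∈ K, (f (act u c η) - f η)| ≤ ∑ c ∈ K, |f (act u c η) - f η| :=
        abs_sum_le_sum_abs _ _
    _ ≤ ∑ _c ∈ K, 2 * B := by
        apply sum_le_sum
        intro c _
        have h1 := abs_le.1 (hf (act u c η))
        have h2 := abs_le.1 (hf η)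
        exact abs_le.2 ⟨by linarith [h1.1, h2.2], by linarith [h1.2, h2.1]⟩
    _ = 2 * B * K.card := by
        rw [sum_const, nsmul_eq_mul]
        ring

theorem gen_add (K : Finset (ℤ × Bool)) (η : ℤ → S) :
    gen u K (fun η => f η + g η) η = gen u K f η + gen u K g η := by
  unfold gen
  rw [← sum_add_distrib]
  apply sum_congr rfl
  intro c _
  ring

theorem gen_const_mul (a : ℝ) (K : Finset (ℤ × Bool)) (η : ℤ → S) :
    gen u K (fun η => a * f η) η = a * gen u K f η := by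
  unfold gen
  rw [mul_sum]
  apply sum_congr rfl
  intro c _
  ring

theorem gen_sum {ι : Type} (s : Finset ι) (F : ι → (ℤ → S) → ℝ) (K : Finset (ℤ × Bool))
    (η : ℤ → S) : gen u K (fun η => ∑ i ∈ s, F i η) η = ∑ i ∈ s, gen u K (F i) η := by
  unfold gen
  rw [sum_comm]
  apply sum_congr rfl
  intro c _
  rw [← sum_sub_distrib]

end CPS84
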