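import Pool.Agent.LibCPS84.SymA

/-! Patterns of the cyclic particle system. -/

namespace CPS84

open Finset
open scoped Classical

variable {κ : ℕ}

/-- shift by `p` -/
def sh {S : Type} (p : ℤ) (η : ℤ → S) : ℤ → S := fun i => η (i + p)

/-- the colour at `0` has overtaken everything up to `0`; the sites `1, ..., k` have the same
colour, which it can overtake -/
def EN (k : ℕ) (η : ℤ → ZMod κ) : Prop :=
  η 0 = η 1 + 1 ∧ ∀ i : ℤ, 1 ≤ i → i ≤ k → η i = η 1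

/-- `0` overtakes `1`, `2` overtakes `1` -/
def EE (η : ℤ → ZMod κ) : Prop := η 0 = η 1 + 1 ∧ η 2 = η 1 + 1

def EJ (η : ℤ → ZMod κ) : Prop := η 0 = η 1 + 2 ∧ η 2 = η 1 + 1

def ET (j : ℕ) (η : ℤ → ZMod κ) : Prop :=
  η 0 = η 1 + 1 ∧ (∀ i : ℤ, 1 ≤ i → i < j → η i = η 1) ∧ η j = η 1 - 1 ∧ η (j + 1) = η 1

def EW (η : ℤ → ZMod κ) : Prop := η 0 ≠ η 1

/-- expectation functionals invariant under the lattice symmetries -/
structure Inv {S : Type} (E : ((ℤ → S) → ℝ) → ℝ) : Prop where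
  exp : Exp E
  inv : ∀ (r p : ℤ), (r = 1 ∨ r = -1) → ∀ f Λ, Dep f Λ → E (fun η => f (sym id r p η)) = E f

theorem one_ne_zero_zmod (hκ : 3 ≤ κ) : (1 : ZMod κ) ≠ 0 := by
  have : Fact (1 < κ) := ⟨by omega⟩
  exact one_ne_zero

theorem two_ne_zero_zmod (hκ : 3 ≤ κ) : (2 : ZMod κ) ≠ 0 := by
  intro h
  have h2 : ((2 : ℕ) : ZMod κ) = 0 := by exact_mod_cast h
  rw [ZMod.natCast_eq_zero_iff] at h2
  have := Nat.le_of_dvd (by norm_num) h2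
  omega

theorem Inv.shift {S : Type} {E : ((ℤ → S) → ℝ) → ℝ} (hE : Inv E) (p : ℤ) {f : (ℤ → S) → ℝ}
    {Λ : Finset ℤ} (hf : Dep f Λ) : E (fun η => f (sh p η)) = E f := by
  rw [← hE.inv 1 p (Or.inl rfl) f Λ hf]
  congr 1
  funext η
  congr 1
  funext i
  simp [sh, sym]

theorem dep_sh {S : Type} {f : (ℤ → S) → ℝ} {Λ : Finset ℤ} (hf : Dep f Λ) (p : ℤ) :
    Dep (fun η => f (sh p η)) (Λ.image (fun i => i + p)) := by
  intro η ζ h
  apply hf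
  intro i hi
  exact h (i + p) (mem_image_of_mem _ hi)

theorem dep_EN (k : ℕ) (hk : 1 ≤ k) :
    Dep (fun η : ℤ → ZMod κ => ind (EN k η)) (Icc 0 (k : ℤ)) := by
  apply dep_ind
  intro η ζ h
  have h0 : η 0 = ζ 0 := h 0 (mem_Icc.mpr ⟨le_rfl, by omega⟩)
  have h1 : η 1 = ζ 1 := h 1 (mem_Icc.mpr ⟨by norm_num, by omega⟩)
  unfold EN
  rw [h0, h1]
  refine and_congr Iff.rfl (forall_congr' fun i => ?_)
  constructor
  · intro H a b
    rw [← h i (mem_Icc.mpr ⟨by omega, b⟩)]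
    exact H a b
  · intro H a b
    rw [h i (mem_Icc.mpr ⟨by omega, b⟩)]
    exact H a b

theorem dep_EE : Dep (fun η : ℤ → ZMod κ => ind (EE η)) (Icc 0 2) := by
  apply dep_ind
  intro η ζ h
  have h0 : η 0 = ζ 0 := h 0 (mem_Icc.mpr ⟨le_rfl, by norm_num⟩)
  have h1 : η 1 = ζ 1 := h 1 (mem_Icc.mpr ⟨by norm_num, by norm_num⟩)
  have h2 : η 2 = ζ 2 := h 2 (mem_Icc.mpr ⟨by norm_num, by norm_num⟩)
  unfold EE
  rw [h0, h1, h2]

theorem dep_EJ : Dep (fun η : ℤ → ZMod κ => ind (EJ η)) (Icc 0 2) := by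
  apply dep_ind
  intro η ζ h
  have h0 : η 0 = ζ 0 := h 0 (mem_Icc.mpr ⟨le_rfl, by norm_num⟩)
  have h1 : η 1 = ζ 1 := h 1 (mem_Icc.mpr ⟨by norm_num, by norm_num⟩)
  have h2 : η 2 = ζ 2 := h 2 (mem_Icc.mpr ⟨by norm_num, by norm_num⟩)
  unfold EJ
  rw [h0, h1, h2]

theorem dep_ET (j : ℕ) (hj : 2 ≤ j) :
    Dep (fun η : ℤ → ZMod κ => ind (ET j η)) (Icc 0 ((j : ℤ) + 1)) := by
  apply dep_ind
  intro η ζ h
  have h0 : η 0 = ζ 0 := h 0 (mem_Icc.mpr ⟨le_rfl, by omega⟩)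
  have h1 : η 1 = ζ 1 := h 1 (mem_Icc.mpr ⟨by norm_num, by omega⟩)
  have h2 : η j = ζ j := h j (mem_Icc.mpr ⟨by omega, by omega⟩)
  have h3 : η (j + 1) = ζ (j + 1) := h (j + 1) (mem_Icc.mpr ⟨by omega, by omega⟩)
  unfold ET
  rw [h0, h1, h2, h3]
  refine and_congr Iff.rfl (and_congr (forall_congr' fun i => ?_) Iff.rfl)
  constructor
  · intro H a b
    rw [← h i (mem_Icc.mpr ⟨by omega, by omega⟩)]
    exact H a b
  · intro H a b
    rw [h i (mem_Icc.mpr ⟨by omega, by omega⟩)]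
    exact H a b

theorem dep_EW : Dep (fun η : ℤ → ZMod κ => ind (EW η)) (Icc 0 1) := by
  apply dep_ind
  intro η ζ h
  have h0 : η 0 = ζ 0 := h 0 (mem_Icc.mpr ⟨le_rfl, by norm_num⟩)
  have h1 : η 1 = ζ 1 := h 1 (mem_Icc.mpr ⟨by norm_num, by norm_num⟩)
  unfold EW
  rw [h0, h1]

end CPS84
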