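import Pool.Agent.LibCPS84.Eul2

/-! The Euler scheme for products. -/

namespace CPS84

open Finset
open scoped Classical

variable {S : Type} {u : S → S → S} {m : ℝ → ((ℤ → S) → ℝ) → ℝ}

private theorem decA_clk_union (Λ₁ Λ₂ : Finset ℤ) : clk (Λ₁ ∪ Λ₂) = clk Λ₁ ∪ clk Λ₂ := by
  ext c
  simp only [mem_clk, Finset.mem_union]

private theorem decA_clk_disj {Λ₁ Λ₂ : Finset ℤ} (hd : Disjoint Λ₁ Λ₂) :
    Disjoint (clk Λ₁) (clk Λ₂) := by
  rw [Finset.disjoint_left] at hd ⊢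
  intro c h1 h2
  exact hd (mem_clk.1 h1) (mem_clk.1 h2)

/-- One step for a product: `f` lives on `Λ₁`, `g` on `Λ₂`, disjoint.  A clock of `Λ₁` acts only
on `f`, a clock of `Λ₂` only on `g`. -/
theorem gen_mul {f g : (ℤ → S) → ℝ} {Λ₁ Λ₂ : Finset ℤ} (hf : Dep f Λ₁) (hg : Dep g Λ₂)
    (hd : Disjoint Λ₁ Λ₂) (η : ℤ → S) :
    gen u (clk (Λ₁ ∪ Λ₂)) (fun η => f η * g η) η =
      gen u (clk Λ₁) f η * g η + f η * gen u (clk Λ₂) g η := by
  unfold gen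
  rw [decA_clk_union, Finset.sum_union (decA_clk_disj hd), Finset.sum_mul, Finset.mul_sum]
  rw [Finset.disjoint_left] at hd
  congr 1
  · refine Finset.sum_congr rfl fun c hc => ?_
    beta_reduce
    rw [hg.act_of_notMem (hd (mem_clk.1 hc)) η]
    ring
  · refine Finset.sum_congr rfl fun c hc => ?_
    beta_reduce
    rw [hf.act_of_notMem (fun h => hd h (mem_clk.1 hc)) η]
    ring

/-- one step for the product, in the expectation -/
private theorem decA_step {E : ((ℤ → S) → ℝ) → ℝ} (hE : Exp E) {Λ₁ Λ₂ : Finset ℤ}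
    (hd : Disjoint Λ₁ Λ₂) {h : ℝ} (h0 : 0 ≤ h) {F G : (ℤ → S) → ℝ} {W V : ℤ → ℝ}
    (hF : Dep F Λ₁) (hG : Dep G Λ₂) (hF1 : ∀ η, |F η| ≤ 1) (hG1 : ∀ η, |G η| ≤ 1)
    (hW : Osc F W) (hV : Osc G V) :
    |(E (fun η => F η * G η) + h * E (gen u (clk (Λ₁ ∪ Λ₂)) (fun η => F η * G η))) -
        E (fun η => stp u (clkI Λ₁) h F η * stp u (clkI Λ₂) h G η)| ≤
      h * (∑ c ∈ clk Λ₁ \ clkI Λ₁, W c.1 + ∑ c ∈ clk Λ₂ \ clkI Λ₂, V c.1) +
        4 * ((clkI Λ₁).card : ℝ) * ((clkI Λ₂).card : ℝ) * h ^ 2 := by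
  set Λ : Finset ℤ := Λ₁ ∪ Λ₂ with hΛ
  have hs1 : Λ₁ ⊆ Λ := Finset.subset_union_left
  have hs2 : Λ₂ ⊆ Λ := Finset.subset_union_right
  have hsf : Λ ⊆ fat Λ := subset_fat Λ
  have hFG : Dep (fun η => F η * G η) Λ := (hF.mono hs1).mul (hG.mono hs2)
  have hgen : Dep (gen u (clk Λ) (fun η => F η * G η)) (fat Λ) := dep_gen hFG
  have hst : Dep (fun η => stp u (clkI Λ₁) h F η * stp u (clkI Λ₂) h G η) (fat Λ) :=
    (((dep_stp hF h).mono hs1).mul ((dep_stp hG h).mono hs2)).mono hsf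
  have e1 : E (fun η => F η * G η) + h * E (gen u (clk Λ) (fun η => F η * G η)) =
      E (fun η => (fun η => F η * G η) η + (fun η => h * gen u (clk Λ)
        (fun η => F η * G η) η) η) := by
    rw [hE.add _ _ (fat Λ) (hFG.mono hsf) (hgen.const_mul h), hE.smul h _ (fat Λ) hgen]
  rw [e1]
  refine hE.abs_sub_le ((hFG.mono hsf).add (hgen.const_mul h)) hst ?_
  intro η
  have hgm := gen_mul (u := u) hF hG hd η
  beta_reduce
  rw [← hΛ] at hgm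
  rw [hgm]
  unfold stp
  have hA := gen_sub_genI (u := u) (Λ := Λ₁) W hW η
  have hB := gen_sub_genI (u := u) (Λ := Λ₂) V hV η
  have hC := abs_gen_le (u := u) hF1 (clkI Λ₁) η
  have hD := abs_gen_le (u := u) hG1 (clkI Λ₂) η
  set a := gen u (clk Λ₁) F η
  set a' := gen u (clkI Λ₁) F η
  set b := gen u (clk Λ₂) G η
  set b' := gen u (clkI Λ₂) G η
  have hFη := hF1 η
  have hGη := hG1 η
  have e2 : F η * G η + h * (a * G η + F η * b) - (F η + h * a') * (G η + h * b') =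
      h * ((a - a') * G η + F η * (b - b')) - a' * b' * h ^ 2 := by ring
  rw [e2]
  refine (abs_sub _ _).trans (add_le_add ?_ ?_)
  · rw [abs_mul, abs_of_nonneg h0]
    refine mul_le_mul_of_nonneg_left ?_ h0
    refine (abs_add_le _ _).trans (add_le_add ?_ ?_)
    · rw [abs_mul]
      calc |a - a'| * |G η| ≤ |a - a'| * 1 := mul_le_mul_of_nonneg_left hGη (abs_nonneg _)
        _ = |a - a'| := mul_one _
        _ ≤ _ := hA
    · rw [abs_mul]
      calc |F η| * |b - b'| ≤ 1 * |b - b'| := mul_le_mul_of_nonneg_right hFη (abs_nonneg _)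
        _ = |b - b'| := one_mul _
        _ ≤ _ := hB
  · rw [abs_mul, abs_of_nonneg (sq_nonneg h), abs_mul]
    refine mul_le_mul_of_nonneg_right ?_ (sq_nonneg h)
    calc |a'| * |b'| ≤ (2 * 1 * ((clkI Λ₁).card : ℝ)) * (2 * 1 * ((clkI Λ₂).card : ℝ)) :=
          mul_le_mul hC hD (abs_nonneg _) (by positivity)
      _ = _ := by ring

/-- as `step_euler`, for products -/
theorem step_euler_mul (hm : Sol u m) (Λ₁ Λ₂ : Finset ℤ) (hd : Disjoint Λ₁ Λ₂) :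
    ∃ C : ℝ, 0 ≤ C ∧ ∀ (n : ℕ) (t h θ : ℝ) (f g : (ℤ → S) → ℝ) (w v : ℤ → ℝ), 0 ≤ t → 0 ≤ h →
      h ≤ 1 → 0 ≤ θ → h * (clkI Λ₁).card ≤ 1 → h * (clkI Λ₂).card ≤ 1 →
      (∀ z, 0 ≤ w z) → (∀ z, w (z + 1) ≤ θ * w z) → (∀ z, w (z - 1) ≤ θ * w z) →
      (∀ z, 0 ≤ v z) → (∀ z, v (z + 1) ≤ θ * v z) → (∀ z, v (z - 1) ≤ θ * v z) →
      Osc f w → Dep f Λ₁ → (∀ η, |f η| ≤ 1) → Osc g v → Dep g Λ₂ → (∀ η, |g η| ≤ 1) →
      |m (t + n * h) (fun η => f η * g η) -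
          m t (fun η => (stp u (clkI Λ₁) h)^[n] f η * (stp u (clkI Λ₂) h)^[n] g η)| ≤
        n * (C * h ^ 2) + n * h * (1 + 2 * θ * h) ^ n *
          (∑ c ∈ clk Λ₁ \ clkI Λ₁, w c.1 + ∑ c ∈ clk Λ₂ \ clkI Λ₂, v c.1) := by
  obtain ⟨C₀, hC₀⟩ := hm.step (Λ₁ ∪ Λ₂)
  refine ⟨|C₀| + 4 * ((clkI Λ₁).card : ℝ) * ((clkI Λ₂).card : ℝ), by positivity, ?_⟩
  intro n
  induction n with
  | zero =>
    intro t h θ f g w v ht h0 h1 hθ hK1 hK2 hw hw1 hw2 hv hv1 hv2 hfo hfd hf1 hgo hgd hg1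
    simp
  | succ n ih =>
    intro t h θ f g w v ht h0 h1 hθ hK1 hK2 hw hw1 hw2 hv hv1 hv2 hfo hfd hf1 hgo hgd hg1
    obtain ⟨hFd, hF1, hFo⟩ := iter_props (u := u) h θ h0 hK1 w hw hw1 hw2 hfo hfd hf1 n
    obtain ⟨hGd, hG1, hGo⟩ := iter_props (u := u) h θ h0 hK2 v hv hv1 hv2 hgo hgd hg1 n
    have hI := ih (t + h) h θ f g w v (by linarith) h0 h1 hθ hK1 hK2 hw hw1 hw2 hv hv1 hv2
      hfo hfd hf1 hgo hgd hg1
    have et : t + h + (n : ℝ) * h = t + ((n + 1 : ℕ) : ℝ) * h := by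
      push_cast
      ring
    rw [et] at hI
    have hsu : ∀ (K : Finset (ℤ × Bool)) (q : (ℤ → S) → ℝ),
        (stp u K h)^[n + 1] q = stp u K h ((stp u K h)^[n] q) := fun K q =>
      Function.iterate_succ_apply' _ _ _
    rw [hsu, hsu]
    set F := (stp u (clkI Λ₁) h)^[n] f with hF
    set G := (stp u (clkI Λ₂) h)^[n] g with hG
    have hFG : Dep (fun η => F η * G η) (Λ₁ ∪ Λ₂) :=
      (hFd.mono Finset.subset_union_left).mul (hGd.mono Finset.subset_union_right)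
    have hFG1 : ∀ η, |(fun η => F η * G η) η| ≤ 1 := by
      intro η
      beta_reduce
      rw [abs_mul]
      exact mul_le_one₀ (hF1 η) (abs_nonneg _) (hG1 η)
    have hstep := hC₀ (fun η => F η * G η) hFG hFG1 t h ht h0 h1
    have hone := decA_step (u := u) (hm.exp t ht) hd h0 hFd hGd hF1 hG1 hFo hGo
    have hsum : ∑ c ∈ clk Λ₁ \ clkI Λ₁, (fun z => (1 + 2 * θ * h) ^ n * w z) c.1 +
        ∑ c ∈ clk Λ₂ \ clkI Λ₂, (fun z => (1 + 2 * θ * h) ^ n * v z) c.1 =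
        (1 + 2 * θ * h) ^ n *
          (∑ c ∈ clk Λ₁ \ clkI Λ₁, w c.1 + ∑ c ∈ clk Λ₂ \ clkI Λ₂, v c.1) := by
      beta_reduce
      rw [← Finset.mul_sum, ← Finset.mul_sum, mul_add]
    rw [hsum] at hone
    set R : ℝ := ∑ c ∈ clk Λ₁ \ clkI Λ₁, w c.1 + ∑ c ∈ clk Λ₂ \ clkI Λ₂, v c.1 with hR
    have hR0 : 0 ≤ R := add_nonneg (Finset.sum_nonneg fun c _ => hw c.1)
      (Finset.sum_nonneg fun c _ => hv c.1)
    have hbase : 1 ≤ 1 + 2 * θ * h := by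
      have := mul_nonneg hθ h0
      linarith
    have hpow : (1 + 2 * θ * h) ^ n ≤ (1 + 2 * θ * h) ^ (n + 1) :=
      pow_le_pow_right₀ hbase (Nat.le_succ n)
    have hmono : ((n : ℝ) + 1) * h * (1 + 2 * θ * h) ^ n * R ≤
        ((n : ℝ) + 1) * h * (1 + 2 * θ * h) ^ (n + 1) * R :=
      mul_le_mul_of_nonneg_right (mul_le_mul_of_nonneg_left hpow (by positivity)) hR0
    have hCabs : C₀ * h ^ 2 ≤ |C₀| * h ^ 2 :=
      mul_le_mul_of_nonneg_right (le_abs_self _) (sq_nonneg h)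
    set A := m (t + ((n + 1 : ℕ) : ℝ) * h) (fun η => f η * g η)
    set B := m (t + h) (fun η => F η * G η)
    set D := m t (fun η => F η * G η)
    set Q := m t (gen u (clk (Λ₁ ∪ Λ₂)) (fun η => F η * G η))
    set Z := m t (fun η => stp u (clkI Λ₁) h F η * stp u (clkI Λ₂) h G η)
    have htri : |A - Z| ≤ |A - B| + |B - D - h * Q| + |D + h * Q - Z| := by
      have e : A - Z = (A - B) + (B - D - h * Q) + (D + h * Q - Z) := by ring
      rw [e]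
      exact abs_add_three _ _ _
    push_cast
    refine htri.trans ?_
    refine (add_le_add (add_le_add hI hstep) hone).trans ?_
    nlinarith [hmono, hCabs]

end CPS84
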