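import Pool.Agent.LibCPS84.ExpL

/-! Weights. -/

namespace CPS84

open Finset
open scoped Classical

variable {S : Type}

/-- the two clocks through the boundary of an interval -/
theorem bdry_Icc (p : ℤ) (M : ℕ) (w : ℤ → ℝ) :
    ∑ c ∈ clk (Icc (p - M) (p + M)) \ clkI (Icc (p - M) (p + M)), w c.1 =
      w (p - M) + w (p + M) := by
  have h : clk (Icc (p - M) (p + M)) \ clkI (Icc (p - M) (p + M)) =
      {((p - M : ℤ), false), ((p + M : ℤ), true)} := by
    ext ⟨y, d⟩
    simp only [clk, clkI, mem_sdiff, mem_filter, mem_product, mem_univ, and_true, mem_Icc,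
      mem_insert, mem_singleton, Prod.mk.injEq, nb]
    cases d
    · simp only [Bool.false_eq_true, if_false, and_true, and_false, or_false]
      omega
    · simp only [if_true, Bool.true_eq_false, and_true, and_false, false_or]
      omega
  rw [h, Finset.sum_pair]
  simp

/-- the weight `2 exp (k - |z - p|)` -/
theorem weight_props (p : ℤ) (k : ℕ) :
    (∀ z : ℤ, 0 ≤ 2 * Real.exp (k - |(z : ℝ) - p|)) ∧
    (∀ z : ℤ, 2 * Real.exp (k - |((z + 1 : ℤ) : ℝ) - p|) ≤
      Real.exp 1 * (2 * Real.exp (k - |(z : ℝ) - p|))) ∧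
    (∀ z : ℤ, 2 * Real.exp (k - |((z - 1 : ℤ) : ℝ) - p|) ≤
      Real.exp 1 * (2 * Real.exp (k - |(z : ℝ) - p|))) := by
  have key : ∀ a b : ℝ, |a - b| ≤ 1 → 2 * Real.exp (k - |a - p|) ≤
      Real.exp 1 * (2 * Real.exp (k - |b - p|)) := by
    intro a b hab
    have h1 : |b - p| ≤ |a - p| + 1 := by
      have h2 : b - p = (a - p) + (b - a) := by ring
      rw [h2]
      refine (abs_add_le _ _).trans ?_
      rw [abs_sub_comm b a]
      linarith
    have h3 : Real.exp (k - |a - p|) ≤ Real.exp (1 + (k - |b - p|)) :=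
      Real.exp_le_exp.2 (by linarith)
    rw [Real.exp_add] at h3
    linarith
  refine ⟨fun z => by positivity, fun z => key _ _ ?_, fun z => key _ _ ?_⟩
  · push_cast
    rw [add_sub_cancel_left, abs_one]
  · push_cast
    have : (z : ℝ) - 1 - z = -1 := by ring
    rw [this, abs_neg, abs_one]

theorem osc_weight {f : (ℤ → S) → ℝ} (p : ℤ) (k : ℕ) (hf : Dep f (Icc (p - k) (p + k)))
    (h1 : ∀ η, |f η| ≤ 1) : Osc f (fun z => 2 * Real.exp (k - |(z : ℝ) - p|)) := by
  intro z η ζ hz
  by_cases hm : z ∈ Icc (p - k) (p + k)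
  · rw [mem_Icc] at hm
    have h2 : |(z : ℝ) - p| ≤ k := by
      rw [abs_le]
      have h3 : ((p - k : ℤ) : ℝ) ≤ (z : ℝ) := by exact_mod_cast hm.1
      have h4 : (z : ℝ) ≤ ((p + k : ℤ) : ℝ) := by exact_mod_cast hm.2
      push_cast at h3 h4
      constructor <;> linarith
    have h5 : 1 ≤ Real.exp (k - |(z : ℝ) - p|) := Real.one_le_exp (by linarith)
    have h6 := abs_sub (f η) (f ζ)
    have h7 := h1 η
    have h8 := h1 ζ
    show |f η - f ζ| ≤ 2 * Real.exp (k - |(z : ℝ) - p|)
    linarith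
  · have h2 : f η = f ζ := hf η ζ fun i hi => hz i fun h => hm (h ▸ hi)
    rw [h2, sub_self, abs_zero]
    positivity

end CPS84
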