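import Pool.Agent.LibCPS84.EulA
import Pool.Agent.LibCPS84.EulB

/-! Approximation of the expectations. -/

namespace CPS84

open Finset
open scoped Classical

variable {S : Type} {u : S → S → S} {m m' : ℝ → ((ℤ → S) → ℝ) → ℝ}

/-- `(1 + 2 e t / n) ^ n ≤ exp (2 e t)` and `n C (t/n)^2 → 0` -/
theorem approx (hm : Sol u m) (p : ℤ) (k M : ℕ) (hkM : k ≤ M) {f : (ℤ → S) → ℝ}
    (hf : Dep f (Icc (p - k) (p + k))) (h1 : ∀ η, |f η| ≤ 1) (t : ℝ) (ht : 0 ≤ t)
    (ε : ℝ) (hε : 0 < ε) : ∃ n0 : ℕ, ∀ n : ℕ, n0 ≤ n → 0 < n →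
      |m t f - m 0 ((stp u (clkI (Icc (p - M) (p + M))) (t / n))^[n] f)| ≤
        ε + 4 * t * Real.exp (k - M + 2 * Real.exp 1 * t) := by
  obtain ⟨C, hC, hstep⟩ := step_euler hm (Icc (p - (M : ℤ)) (p + M))
  obtain ⟨n0, hn0⟩ := exists_nat_ge
    (C * t ^ 2 / ε + t + t * ((clkI (Icc (p - (M : ℤ)) (p + M))).card : ℝ))
  refine ⟨n0, fun n hn hpos => ?_⟩
  have hnR : (0 : ℝ) < n := by exact_mod_cast hpos
  have hnn : C * t ^ 2 / ε + t + t * ((clkI (Icc (p - (M : ℤ)) (p + M))).card : ℝ) ≤ n :=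
    hn0.trans (by exact_mod_cast hn)
  have e1 : 0 ≤ C * t ^ 2 / ε := by positivity
  have e2 : 0 ≤ t * ((clkI (Icc (p - (M : ℤ)) (p + M))).card : ℝ) := by positivity
  have hh0 : 0 ≤ t / n := by positivity
  have hh1 : t / n ≤ 1 := by
    rw [div_le_one hnR]
    linarith
  have hcard : t / n * ((clkI (Icc (p - (M : ℤ)) (p + M))).card : ℝ) ≤ 1 := by
    rw [div_mul_eq_mul_div, div_le_one hnR]
    linarith
  obtain ⟨hw0, hw1, hw2⟩ := weight_props p k
  have hosc : Osc f (fun z => 2 * Real.exp (k - |(z : ℝ) - p|)) := osc_weight p k hf h1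
  have hdep : Dep f (Icc (p - (M : ℤ)) (p + M)) := by
    apply hf.mono
    apply Icc_subset_Icc
    · have : (k : ℤ) ≤ M := by exact_mod_cast hkM
      omega
    · have : (k : ℤ) ≤ M := by exact_mod_cast hkM
      omega
  have key := hstep n 0 (t / n) (Real.exp 1) f (fun z => 2 * Real.exp (k - |(z : ℝ) - p|))
    le_rfl hh0 hh1 (Real.exp_pos 1).le hcard hw0 hw1 hw2 hosc hdep h1
  have hnt : (n : ℝ) * (t / n) = t := by
    field_simp
  rw [zero_add, hnt, bdry_Icc p M (fun z => 2 * Real.exp (k - |(z : ℝ) - p|))] at key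
  refine key.trans ?_
  have b1 : (n : ℝ) * (C * (t / n) ^ 2) ≤ ε := by
    have : (n : ℝ) * (C * (t / n) ^ 2) = C * t ^ 2 / n := by
      field_simp
    rw [this, div_le_iff₀ hnR]
    have h3 : C * t ^ 2 / ε ≤ n := by linarith
    rw [div_le_iff₀ hε] at h3
    linarith
  have b2 : (1 + 2 * Real.exp 1 * (t / n)) ^ n ≤ Real.exp (2 * Real.exp 1 * t) := by
    have h4 : 1 + 2 * Real.exp 1 * (t / n) ≤ Real.exp (2 * Real.exp 1 * (t / n)) := by
      have := Real.add_one_le_exp (2 * Real.exp 1 * (t / n))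
      linarith
    have h5 : 0 ≤ 1 + 2 * Real.exp 1 * (t / n) := by positivity
    calc (1 + 2 * Real.exp 1 * (t / n)) ^ n ≤ (Real.exp (2 * Real.exp 1 * (t / n))) ^ n :=
          pow_le_pow_left₀ h5 h4 n
      _ = Real.exp (2 * Real.exp 1 * t) := by
          rw [← Real.exp_nat_mul]
          congr 1
          calc (n : ℝ) * (2 * Real.exp 1 * (t / n)) = 2 * Real.exp 1 * ((n : ℝ) * (t / n)) := by ring
            _ = 2 * Real.exp 1 * t := by rw [hnt]
  have b3 : 2 * Real.exp (k - |((p - (M : ℤ) : ℤ) : ℝ) - p|) +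
      2 * Real.exp (k - |((p + (M : ℤ) : ℤ) : ℝ) - p|) = 4 * Real.exp (k - M) := by
    have a1 : |((p - (M : ℤ) : ℤ) : ℝ) - p| = M := by
      push_cast
      rw [show (p : ℝ) - M - p = -(M : ℝ) by ring, abs_neg, abs_of_nonneg (Nat.cast_nonneg M)]
    have a2 : |((p + (M : ℤ) : ℤ) : ℝ) - p| = M := by
      push_cast
      rw [show (p : ℝ) + M - p = (M : ℝ) by ring, abs_of_nonneg (Nat.cast_nonneg M)]
    rw [a1, a2]
    ring
  have b4 : t * (1 + 2 * Real.exp 1 * (t / n)) ^ n *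
      (2 * Real.exp (k - |((p - (M : ℤ) : ℤ) : ℝ) - p|) +
        2 * Real.exp (k - |((p + (M : ℤ) : ℤ) : ℝ) - p|)) ≤
      4 * t * Real.exp (k - M + 2 * Real.exp 1 * t) := by
    rw [b3, Real.exp_add]
    have h6 : 0 ≤ 4 * t * Real.exp ((k : ℝ) - M) := by positivity
    calc t * (1 + 2 * Real.exp 1 * (t / n)) ^ n * (4 * Real.exp ((k : ℝ) - M))
        = 4 * t * Real.exp ((k : ℝ) - M) * (1 + 2 * Real.exp 1 * (t / n)) ^ n := by ring
      _ ≤ 4 * t * Real.exp ((k : ℝ) - M) * Real.exp (2 * Real.exp 1 * t) :=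
          mul_le_mul_of_nonneg_left b2 h6
      _ = 4 * t * (Real.exp ((k : ℝ) - M) * Real.exp (2 * Real.exp 1 * t)) := by ring
  exact add_le_add b1 b4

end CPS84
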