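import Pool.Agent.LibCPS84.DecA
import Pool.Agent.LibCPS84.EulC

/-! Decorrelation. -/

namespace CPS84

open Finset
open scoped Classical

variable {S : Type} {u : S → S → S} {m : ℝ → ((ℤ → S) → ℝ) → ℝ}

/-- decorrelation of distant local functions for independent initial states -/
theorem decor (hm : Sol u m)
    (hprod : ∀ f g Λ Λ', Dep f Λ → Dep g Λ' → Disjoint Λ Λ' →
      m 0 (fun η => f η * g η) = m 0 f * m 0 g)
    (p q : ℤ) (k M : ℕ) (hkM : k ≤ M) (hpq : p + 2 * M < q) {f g : (ℤ → S) → ℝ}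
    (hf : Dep f (Icc (p - k) (p + k))) (hf1 : ∀ η, |f η| ≤ 1)
    (hg : Dep g (Icc (q - k) (q + k))) (hg1 : ∀ η, |g η| ≤ 1) (t : ℝ) (ht : 0 ≤ t) :
    |m t (fun η => f η * g η) - m t f * m t g| ≤
      16 * t * Real.exp (k - M + 2 * Real.exp 1 * t) := by
  have hkM' : (k : ℤ) ≤ M := by exact_mod_cast hkM
  have hd : Disjoint (Icc (p - (M : ℤ)) (p + M)) (Icc (q - (M : ℤ)) (q + M)) := by
    rw [Finset.disjoint_left]
    intro i hi hi'
    rw [mem_Icc] at hi hi'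
    omega
  have hdepf : Dep f (Icc (p - (M : ℤ)) (p + M)) :=
    hf.mono (Icc_subset_Icc (by omega) (by omega))
  have hdepg : Dep g (Icc (q - (M : ℤ)) (q + M)) :=
    hg.mono (Icc_subset_Icc (by omega) (by omega))
  refine le_of_forall_pos_le_add (fun ε hε => ?_)
  obtain ⟨C, hC, hstep⟩ := step_euler_mul hm (Icc (p - (M : ℤ)) (p + M))
    (Icc (q - (M : ℤ)) (q + M)) hd
  obtain ⟨nf, hnf⟩ := approx hm p k M hkM hf hf1 t ht (ε / 3) (by positivity)
  obtain ⟨ng, hng⟩ := approx hm q k M hkM hg hg1 t ht (ε / 3) (by positivity)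
  obtain ⟨n1, hn1⟩ := exists_nat_ge
    (C * t ^ 2 / (ε / 3) + t + t * ((clkI (Icc (p - (M : ℤ)) (p + M))).card : ℝ) +
      t * ((clkI (Icc (q - (M : ℤ)) (q + M))).card : ℝ))
  set n : ℕ := max (max nf ng) (max n1 1) with hndef
  have hn_f : nf ≤ n := le_trans (le_max_left _ _) (le_max_left _ _)
  have hn_g : ng ≤ n := le_trans (le_max_right _ _) (le_max_left _ _)
  have hn_1 : n1 ≤ n := le_trans (le_max_left _ _) (le_max_right _ _)
  have hpos : 0 < n := lt_of_lt_of_le Nat.one_pos (le_trans (le_max_right _ _) (le_max_right _ _))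
  have hnR : (0 : ℝ) < n := by exact_mod_cast hpos
  have hnn : C * t ^ 2 / (ε / 3) + t + t * ((clkI (Icc (p - (M : ℤ)) (p + M))).card : ℝ) +
      t * ((clkI (Icc (q - (M : ℤ)) (q + M))).card : ℝ) ≤ n :=
    hn1.trans (by exact_mod_cast hn_1)
  have e1 : 0 ≤ C * t ^ 2 / (ε / 3) := by positivity
  have e2 : 0 ≤ t * ((clkI (Icc (p - (M : ℤ)) (p + M))).card : ℝ) := by positivity
  have e3 : 0 ≤ t * ((clkI (Icc (q - (M : ℤ)) (q + M))).card : ℝ) := by positivity
  have hh0 : 0 ≤ t / n := by positivity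
  have hh1 : t / n ≤ 1 := by
    rw [div_le_one hnR]
    linarith
  have hcard1 : t / n * ((clkI (Icc (p - (M : ℤ)) (p + M))).card : ℝ) ≤ 1 := by
    rw [div_mul_eq_mul_div, div_le_one hnR]
    linarith
  have hcard2 : t / n * ((clkI (Icc (q - (M : ℤ)) (q + M))).card : ℝ) ≤ 1 := by
    rw [div_mul_eq_mul_div, div_le_one hnR]
    linarith
  obtain ⟨hw0, hw1, hw2⟩ := weight_props p k
  obtain ⟨hv0, hv1, hv2⟩ := weight_props q k
  have hoscf : Osc f (fun z => 2 * Real.exp (k - |(z : ℝ) - p|)) := osc_weight p k hf hf1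
  have hoscg : Osc g (fun z => 2 * Real.exp (k - |(z : ℝ) - q|)) := osc_weight q k hg hg1
  have key := hstep n 0 (t / n) (Real.exp 1) f g (fun z => 2 * Real.exp (k - |(z : ℝ) - p|))
    (fun z => 2 * Real.exp (k - |(z : ℝ) - q|))
    le_rfl hh0 hh1 (Real.exp_pos 1).le hcard1 hcard2 hw0 hw1 hw2 hv0 hv1 hv2 hoscf hdepf hf1
    hoscg hdepg hg1
  have hnt : (n : ℝ) * (t / n) = t := by
    field_simp
  rw [zero_add, hnt, bdry_Icc p M (fun z => 2 * Real.exp (k - |(z : ℝ) - p|)),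
    bdry_Icc q M (fun z => 2 * Real.exp (k - |(z : ℝ) - q|))] at key
  have b1 : (n : ℝ) * (C * (t / n) ^ 2) ≤ ε / 3 := by
    have : (n : ℝ) * (C * (t / n) ^ 2) = C * t ^ 2 / n := by
      field_simp
    rw [this, div_le_iff₀ hnR]
    have h3 : C * t ^ 2 / (ε / 3) ≤ n := by linarith
    rw [div_le_iff₀ (by positivity)] at h3
    linarith
  have b2 : (1 + 2 * Real.exp 1 * (t / n)) ^ n ≤ Real.exp (2 * Real.exp 1 * t) := by
    have h4 : 1 + 2 * Real.exp 1 * (t / n) ≤ Real.exp (2 * Real.exp 1 * (t / n)) := by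
      have := Real.add_one_le_exp (2 * Real.exp 1 * (t / n))
      linarith
    have h5 : 0 ≤ 1 + 2 * Real.exp 1 * (t / n) := by positivity
    calc (1 + 2 * Real.exp 1 * (t / n)) ^ n ≤ (Real.exp (2 * Real.exp 1 * (t / n))) ^ n :=
          pow_le_pow_left₀ h5 h4 n
      _ = Real.exp (2 * Real.exp 1 * t) := by
          rw [← Real.exp_nat_mul]
          congr 1
          calc (n : ℝ) * (2 * Real.exp 1 * (t / n)) = 2 * Real.exp 1 * ((n : ℝ) * (t / n)) := by ring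
            _ = 2 * Real.exp 1 * t := by rw [hnt]
  have b3 : ∀ z : ℤ, 2 * Real.exp (k - |((z - (M : ℤ) : ℤ) : ℝ) - z|) +
      2 * Real.exp (k - |((z + (M : ℤ) : ℤ) : ℝ) - z|) = 4 * Real.exp (k - M) := by
    intro z
    have a1 : |((z - (M : ℤ) : ℤ) : ℝ) - z| = M := by
      push_cast
      rw [show (z : ℝ) - M - z = -(M : ℝ) by ring, abs_neg, abs_of_nonneg (Nat.cast_nonneg M)]
    have a2 : |((z + (M : ℤ) : ℤ) : ℝ) - z| = M := by
      push_cast
      rw [show (z : ℝ) + M - z = (M : ℝ) by ring, abs_of_nonneg (Nat.cast_nonneg M)]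
    rw [a1, a2]
    ring
  rw [b3 p, b3 q] at key
  set F := (stp u (clkI (Icc (p - (M : ℤ)) (p + M))) (t / n))^[n] f with hF
  set G := (stp u (clkI (Icc (q - (M : ℤ)) (q + M))) (t / n))^[n] g with hG
  obtain ⟨hFd, hF1, _⟩ := iter_props (u := u) (Λ := Icc (p - (M : ℤ)) (p + M)) (t / n) (Real.exp 1)
    hh0 hcard1 _ hw0 hw1 hw2 hoscf hdepf hf1 n
  obtain ⟨hGd, hG1, _⟩ := iter_props (u := u) (Λ := Icc (q - (M : ℤ)) (q + M)) (t / n) (Real.exp 1)
    hh0 hcard2 _ hv0 hv1 hv2 hoscg hdepg hg1 n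
  rw [hprod F G _ _ hFd hGd hd] at key
  have kf := hnf n hn_f hpos
  have kg := hng n hn_g hpos
  have bmg : |m t g| ≤ 1 := (hm.exp t ht).abs_le hg hg1
  have bmF : |m 0 F| ≤ 1 := (hm.exp 0 le_rfl).abs_le hFd hF1
  set T := Real.exp ((k : ℝ) - M + 2 * Real.exp 1 * t) with hT
  have b4 : t * (1 + 2 * Real.exp 1 * (t / n)) ^ n *
      (4 * Real.exp ((k : ℝ) - M) + 4 * Real.exp ((k : ℝ) - M)) ≤ 8 * t * T := by
    rw [hT, Real.exp_add]
    have h6 : 0 ≤ 8 * t * Real.exp ((k : ℝ) - M) := by positivity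
    calc t * (1 + 2 * Real.exp 1 * (t / n)) ^ n *
          (4 * Real.exp ((k : ℝ) - M) + 4 * Real.exp ((k : ℝ) - M))
        = 8 * t * Real.exp ((k : ℝ) - M) * (1 + 2 * Real.exp 1 * (t / n)) ^ n := by ring
      _ ≤ 8 * t * Real.exp ((k : ℝ) - M) * Real.exp (2 * Real.exp 1 * t) :=
          mul_le_mul_of_nonneg_left b2 h6
      _ = 8 * t * (Real.exp ((k : ℝ) - M) * Real.exp (2 * Real.exp 1 * t)) := by ring
  have key2 : |m t (fun η => f η * g η) - m 0 F * m 0 G| ≤ ε / 3 + 8 * t * T := by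
    refine key.trans (add_le_add b1 b4)
  have p1 : |(m t f - m 0 F) * m t g| ≤ ε / 3 + 4 * t * T := by
    rw [abs_mul]
    calc |m t f - m 0 F| * |m t g| ≤ |m t f - m 0 F| * 1 :=
          mul_le_mul_of_nonneg_left bmg (abs_nonneg _)
      _ = |m t f - m 0 F| := mul_one _
      _ ≤ _ := kf
  have p2 : |m 0 F * (m t g - m 0 G)| ≤ ε / 3 + 4 * t * T := by
    rw [abs_mul]
    calc |m 0 F| * |m t g - m 0 G| ≤ 1 * |m t g - m 0 G| :=
          mul_le_mul_of_nonneg_right bmF (abs_nonneg _)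
      _ = |m t g - m 0 G| := one_mul _
      _ ≤ _ := kg
  have e4 : m t (fun η => f η * g η) - m t f * m t g =
      (m t (fun η => f η * g η) - m 0 F * m 0 G) - (m t f - m 0 F) * m t g -
        m 0 F * (m t g - m 0 G) := by ring
  rw [e4]
  have q1 := abs_sub ((m t (fun η => f η * g η) - m 0 F * m 0 G) - (m t f - m 0 F) * m t g)
    (m 0 F * (m t g - m 0 G))
  have q2 := abs_sub (m t (fun η => f η * g η) - m 0 F * m 0 G) ((m t f - m 0 F) * m t g)
  linarith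

end CPS84
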