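import Mathlib

/-!
# MP_9fecc7_pr, cyclic particle systems on `ℤ`: common definitions

A *clock* is a pair `c = (y, d)`: when it rings, the site `y` looks at its right (`d = true`) or
left (`d = false`) neighbour `nb c` and its state `b` becomes `u a b`, where `a` is the state of
the neighbour.
-/

namespace CPS84

open Finset MeasureTheory Filter Topology
open scoped Classical

noncomputable section

/-- the site at which the site `c.1` looks when the clock `c` rings -/
def nb (c : ℤ × Bool) : ℤ := if c.2 then c.1 + 1 else c.1 - 1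

variable {S : Type}

/-- the effect of a ring of the clock `c` -/
def act (u : S → S → S) (c : ℤ × Bool) (η : ℤ → S) : ℤ → S :=
  Function.update η c.1 (u (η (nb c)) (η c.1))

/-- the clocks of the sites of `Λ` -/
def clk (Λ : Finset ℤ) : Finset (ℤ × Bool) := Λ ×ˢ univ

/-- the clocks inside `Λ` -/
def clkI (Λ : Finset ℤ) : Finset (ℤ × Bool) := (clk Λ).filter (fun c => nb c ∈ Λ)

/-- `Λ` and all neighbours -/
def fat (Λ : Finset ℤ) : Finset ℤ := Λ ∪ (clk Λ).image nb

/-- the generator of the clocks in `K` -/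
def gen (u : S → S → S) (K : Finset (ℤ × Bool)) (f : (ℤ → S) → ℝ) (η : ℤ → S) : ℝ :=
  ∑ c ∈ K, (f (act u c η) - f η)

/-- `f` depends only on the sites of `Λ` -/
def Dep (f : (ℤ → S) → ℝ) (Λ : Finset ℤ) : Prop :=
  ∀ η ζ : ℤ → S, (∀ i ∈ Λ, η i = ζ i) → f η = f ζ

/-- an expectation functional on local functions -/
structure Exp (E : ((ℤ → S) → ℝ) → ℝ) : Prop where
  add : ∀ f g Λ, Dep f Λ → Dep g Λ → E (fun η => f η + g η) = E f + E g
  smul : ∀ (a : ℝ) f Λ, Dep f Λ → E (fun η => a * f η) = a * E f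
  mono : ∀ f g Λ, Dep f Λ → Dep g Λ → (∀ η, f η ≤ g η) → E f ≤ E g
  one : E (fun _ => 1) = 1

/-- The expectations of local functions for a particle system with the update rule `u`:
the Kolmogorov equation in integrated form. -/
structure Sol (u : S → S → S) (m : ℝ → ((ℤ → S) → ℝ) → ℝ) : Prop where
  exp : ∀ t, 0 ≤ t → Exp (m t)
  step : ∀ Λ : Finset ℤ, ∃ C : ℝ, ∀ f, Dep f Λ → (∀ η, |f η| ≤ 1) → ∀ t h, 0 ≤ t → 0 ≤ h → h ≤ 1 →
    |m (t + h) f - m t f - h * m t (gen u (clk Λ) f)| ≤ C * h ^ 2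

/-- The particle system with the update rule `u`: `U c ω` is the set of the times at which the
clock `c` rings; with respect to the filtration `𝓕` the clocks are independent Poisson processes
with intensity 1. -/
structure IsPS (u : S → S → S) {Ω : Type} {mΩ : MeasurableSpace Ω} (P : Measure Ω)
    (𝓕 : Filtration ℝ mΩ) (U : ℤ × Bool → Ω → Set ℝ) (X : ℝ → Ω → ℤ → S) : Prop where
  prob : IsProbabilityMeasure P
  adapted : ∀ t, 0 ≤ t → ∀ (y : ℤ) (a : S), MeasurableSet[𝓕 t] {ω | X t ω y = a}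
  measU : ∀ (c : ℤ × Bool) (s t : ℝ) (n : ℕ),
    MeasurableSet {ω | (U c ω ∩ Set.Ioc s t).encard = n}
  poisson : ∀ s t, 0 ≤ s → s < t → ∀ (K : Finset (ℤ × Bool)) (n : ℤ × Bool → ℕ) (A : Set Ω),
    MeasurableSet[𝓕 s] A →
    P.real (A ∩ {ω | ∀ c ∈ K, (U c ω ∩ Set.Ioc s t).encard = n c}) =
      P.real A * ∏ c ∈ K, (Real.exp (-(t - s)) * (t - s) ^ (n c) / (n c).factorial)
  const : ∀ᵐ ω ∂P, ∀ (y : ℤ) (s t : ℝ), 0 ≤ s → s ≤ t →
    (∀ d, U (y, d) ω ∩ Set.Ioc s t = ∅) → X t ω y = X s ω y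
  jump : ∀ᵐ ω ∂P, ∀ c : ℤ × Bool, ∀ τ ∈ U c ω, 0 < τ →
    ∀ᶠ s in 𝓝[<] τ, X τ ω c.1 = u (X s ω (nb c)) (X s ω c.1)

/-- one step of the Euler scheme -/
def stp (u : S → S → S) (K : Finset (ℤ × Bool)) (h : ℝ) (f : (ℤ → S) → ℝ) (η : ℤ → S) : ℝ :=
  f η + h * gen u K f η

/-- bound for the dependence of `f` on the single sites -/
def Osc (f : (ℤ → S) → ℝ) (w : ℤ → ℝ) : Prop :=
  ∀ (z : ℤ) (η ζ : ℤ → S), (∀ i, i ≠ z → η i = ζ i) → |f η - f ζ| ≤ w z

/-- the configuration seen through the lattice symmetry `i ↦ r i + p` and the map `φ` of states -/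
def sym (φ : S → S) (r p : ℤ) (η : ℤ → S) : ℤ → S := fun i => φ (η (r * i + p))

/-- the independent uniform distribution -/
structure Unif [Fintype S] (E : ((ℤ → S) → ℝ) → ℝ) : Prop where
  exp : Exp E
  cyl : ∀ (Λ : Finset ℤ) (σ : ℤ → S),
    E (fun η => if ∀ i ∈ Λ, η i = σ i then 1 else 0) = (1 / (Fintype.card S : ℝ)) ^ Λ.card

/-- the rule of the cyclic particle system: the colour `b` is replaced by the colour `a` of the
neighbour if `b = a - 1` -/
def cyc (κ : ℕ) (a b : ZMod κ) : ZMod κ := if b = a - 1 then a else b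

/-- indicator function -/
def ind (p : Prop) : ℝ := if p then 1 else 0

end

end CPS84
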