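import Pool.Agent.LibCPS84.ExpL

/-! The Euler scheme: oscillation of one step. -/

namespace CPS84

open Finset
open scoped Classical

variable {S : Type} {u : S → S → S} {f g : (ℤ → S) → ℝ} {Λ : Finset ℤ}

private theorem osc_aux1 (w : ℤ → ℝ) (hf : Osc f w) (c : ℤ × Bool) (z : ℤ) (hz : nb c ≠ z)
    (η ζ : ℤ → S) (h : ∀ i, i ≠ z → η i = ζ i) :
    |f (act u c η) - f (act u c ζ)| ≤ w z := by
  apply hf z
  intro i hi
  by_cases hc : i = c.1
  · subst hc
    rw [act_same, act_same, h (nb c) hz, h c.1 hi]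
  · rw [act_of_ne hc, act_of_ne hc, h i hi]

private theorem osc_aux2 (w : ℤ → ℝ) (hf : Osc f w) (c : ℤ × Bool) (z : ℤ)
    (η ζ : ℤ → S) (h : ∀ i, i ≠ z → η i = ζ i) :
    |f (act u c η) - f (act u c ζ)| ≤ w z + w c.1 := by
  have h1 : |f (act u c η) - f (Function.update (act u c ζ) c.1 (act u c η c.1))| ≤ w z := by
    apply hf z
    intro i hi
    by_cases hc : i = c.1
    · subst hc
      rw [Function.update_self]
    · rw [Function.update_of_ne hc, act_of_ne hc, act_of_ne hc, h i hi]
  have h2 : |f (Function.update (act u c ζ) c.1 (act u c η c.1)) - f (act u c ζ)| ≤ w c.1 := by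
    apply hf c.1
    intro i hi
    rw [Function.update_of_ne hi]
  calc |f (act u c η) - f (act u c ζ)|
      = |(f (act u c η) - f (Function.update (act u c ζ) c.1 (act u c η c.1))) +
        (f (Function.update (act u c ζ) c.1 (act u c η c.1)) - f (act u c ζ))| := by ring_nf
    _ ≤ _ := abs_add_le _ _
    _ ≤ w z + w c.1 := add_le_add h1 h2

private theorem card_nb_le (K : Finset (ℤ × Bool)) (z : ℤ) :
    (K.filter (fun c => nb c = z)).card ≤ 2 := by
  have hsub : K.filter (fun c => nb c = z) ⊆ {(z - 1, true), (z + 1, false)} := by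
    intro c hc
    rw [mem_filter] at hc
    obtain ⟨_, hc⟩ := hc
    obtain ⟨y, d⟩ := c
    rw [mem_insert, mem_singleton]
    cases d
    · right
      simp only [nb] at hc
      simp only [Bool.false_eq_true, if_false] at hc
      rw [Prod.mk.injEq]
      exact ⟨by omega, rfl⟩
    · left
      simp only [nb, if_true] at hc
      rw [Prod.mk.injEq]
      exact ⟨by omega, rfl⟩
  refine le_trans (card_le_card hsub) ?_
  exact card_le_two

/-- Write `stp u K h f = (1 - h |K|) f + h ∑ c ∈ K, f ∘ act u c`.  If `η` and `ζ` agree off `z`,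
then `act u c η` and `act u c ζ` agree off `z` if `nb c ≠ z`, and off `z` and `c.1` if `nb c = z`;
at most two clocks satisfy `nb c = z`, for them `c.1 = z ± 1`. -/
theorem osc_stp (K : Finset (ℤ × Bool)) (h θ : ℝ) (h0 : 0 ≤ h) (hK : h * K.card ≤ 1)
    (w : ℤ → ℝ) (hw : ∀ z, 0 ≤ w z) (hθ1 : ∀ z, w (z + 1) ≤ θ * w z)
    (hθ2 : ∀ z, w (z - 1) ≤ θ * w z) (hf : Osc f w) :
    Osc (stp u K h f) (fun z => (1 + 2 * θ * h) * w z) := by
  intro z η ζ hηζ
  have hθw : 0 ≤ θ * w z := le_trans (hw (z + 1)) (hθ1 z)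
  have hrw : stp u K h f η - stp u K h f ζ =
      (1 - h * K.card) * (f η - f ζ) +
        h * ∑ c ∈ K, (f (act u c η) - f (act u c ζ)) := by
    unfold stp gen
    rw [sum_sub_distrib, sum_sub_distrib, sum_sub_distrib, sum_const, sum_const, nsmul_eq_mul,
      nsmul_eq_mul]
    ring
  have hterm : ∀ c ∈ K, |f (act u c η) - f (act u c ζ)| ≤
      w z + (if nb c = z then θ * w z else 0) := by
    intro c _
    by_cases hc : nb c = z
    · rw [if_pos hc]
      refine le_trans (osc_aux2 w hf c z η ζ hηζ) ?_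
      have : w c.1 ≤ θ * w z := by
        obtain ⟨y, d⟩ := c
        cases d
        · simp only [nb, Bool.false_eq_true, if_false] at hc
          have : y = z + 1 := by omega
          subst this
          exact hθ1 z
        · simp only [nb, if_true] at hc
          have : y = z - 1 := by omega
          subst this
          exact hθ2 z
      linarith
    · rw [if_neg hc, add_zero]
      exact osc_aux1 w hf c z hc η ζ hηζ
  have hsum : |∑ c ∈ K, (f (act u c η) - f (act u c ζ))| ≤
      K.card * w z + 2 * (θ * w z) := by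
    refine le_trans (abs_sum_le_sum_abs _ _) ?_
    refine le_trans (sum_le_sum hterm) ?_
    rw [sum_add_distrib, sum_const, nsmul_eq_mul, ← sum_filter, sum_const, nsmul_eq_mul]
    have hcard : ((K.filter (fun c => nb c = z)).card : ℝ) ≤ 2 := by
      exact_mod_cast card_nb_le K z
    have := mul_le_mul_of_nonneg_right hcard hθw
    linarith
  have hD : |f η - f ζ| ≤ w z := hf z η ζ hηζ
  show |stp u K h f η - stp u K h f ζ| ≤ (1 + 2 * θ * h) * w z
  rw [hrw]
  refine le_trans (abs_add_le _ _) ?_
  rw [abs_mul, abs_mul, abs_of_nonneg (by linarith : (0 : ℝ) ≤ 1 - h * K.card), abs_of_nonneg h0]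
  have e1 : (1 - h * K.card) * |f η - f ζ| ≤ (1 - h * K.card) * w z :=
    mul_le_mul_of_nonneg_left hD (by linarith)
  have e2 : h * |∑ c ∈ K, (f (act u c η) - f (act u c ζ))| ≤
      h * (K.card * w z + 2 * (θ * w z)) := mul_le_mul_of_nonneg_left hsum h0
  calc _ ≤ (1 - h * K.card) * w z + h * (K.card * w z + 2 * (θ * w z)) := add_le_add e1 e2
    _ = (1 + 2 * θ * h) * w z := by ring

end CPS84
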