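import Pool.Agent.LibCPS84.Eul1

/-! The Euler scheme: one step. -/

namespace CPS84

open Finset
open scoped Classical

variable {S : Type} {u : S → S → S} {f g : (ℤ → S) → ℝ} {Λ : Finset ℤ}

theorem abs_stp_le (K : Finset (ℤ × Bool)) (h : ℝ) (h0 : 0 ≤ h) (hK : h * K.card ≤ 1)
    {B : ℝ} (hf : ∀ η, |f η| ≤ B) (η : ℤ → S) : |stp u K h f η| ≤ B := by
  have hrw : stp u K h f η = (1 - h * K.card) * f η + h * ∑ c ∈ K, f (act u c η) := by
    unfold stp gen
    rw [sum_sub_distrib, sum_const, nsmul_eq_mul]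
    ring
  have hsum : |∑ c ∈ K, f (act u c η)| ≤ K.card * B := by
    refine le_trans (abs_sum_le_sum_abs _ _) ?_
    refine le_trans (sum_le_sum (fun c _ => hf (act u c η))) ?_
    rw [sum_const, nsmul_eq_mul]
  rw [hrw]
  refine le_trans (abs_add_le _ _) ?_
  rw [abs_mul, abs_mul, abs_of_nonneg (by linarith : (0 : ℝ) ≤ 1 - h * K.card), abs_of_nonneg h0]
  have e1 : (1 - h * K.card) * |f η| ≤ (1 - h * K.card) * B :=
    mul_le_mul_of_nonneg_left (hf η) (by linarith)
  have e2 : h * |∑ c ∈ K, f (act u c η)| ≤ h * (K.card * B) :=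
    mul_le_mul_of_nonneg_left hsum h0
  calc _ ≤ (1 - h * K.card) * B + h * (K.card * B) := add_le_add e1 e2
    _ = B := by ring

theorem dep_stp (hf : Dep f Λ) (h : ℝ) : Dep (stp u (clkI Λ) h f) Λ :=
  hf.add ((dep_genI hf).const_mul h)

private theorem abs_act_sub_le (w : ℤ → ℝ) (hw : Osc f w) (c : ℤ × Bool) (η : ℤ → S) :
    |f (act u c η) - f η| ≤ w c.1 :=
  hw c.1 _ _ (fun _ hi => act_of_ne hi η)

theorem gen_sub_genI (w : ℤ → ℝ) (hw : Osc f w) (η : ℤ → S) :
    |gen u (clk Λ) f η - gen u (clkI Λ) f η| ≤ ∑ c ∈ clk Λ \ clkI Λ, w c.1 := by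
  have h1 : gen u (clk Λ) f η - gen u (clkI Λ) f η =
      ∑ c ∈ clk Λ \ clkI Λ, (f (act u c η) - f η) := by
    unfold gen
    rw [← sum_sdiff (clkI_subset Λ)]
    ring
  rw [h1]
  refine le_trans (abs_sum_le_sum_abs _ _) ?_
  exact sum_le_sum (fun c _ => abs_act_sub_le w hw c η)

/-- the properties of the iterates of the Euler scheme in `Λ` -/
theorem iter_props (h θ : ℝ) (h0 : 0 ≤ h) (hK : h * (clkI Λ).card ≤ 1)
    (w : ℤ → ℝ) (hw : ∀ z, 0 ≤ w z) (hθ1 : ∀ z, w (z + 1) ≤ θ * w z)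
    (hθ2 : ∀ z, w (z - 1) ≤ θ * w z) (hf : Osc f w) (hd : Dep f Λ) (h1 : ∀ η, |f η| ≤ 1) (n : ℕ) :
    Dep ((stp u (clkI Λ) h)^[n] f) Λ ∧ (∀ η, |(stp u (clkI Λ) h)^[n] f η| ≤ 1) ∧
      Osc ((stp u (clkI Λ) h)^[n] f) (fun z => (1 + 2 * θ * h) ^ n * w z) := by
  induction n with
  | zero =>
    refine ⟨hd, h1, ?_⟩
    intro z η ζ hz
    have := hf z η ζ hz
    simpa using this
  | succ n ih =>
    obtain ⟨i1, i2, i3⟩ := ih
    rw [Function.iterate_succ_apply']
    refine ⟨dep_stp i1 h, fun η => abs_stp_le _ h h0 hK i2 η, ?_⟩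
    -- the factor `1 + 2 θ h` may be assumed nonnegative
    by_cases hpos : 0 ≤ (1 + 2 * θ * h) ^ n
    · have hnew := osc_stp (u := u) (f := (stp u (clkI Λ) h)^[n] f) (clkI Λ) h θ h0 hK
        (fun z => (1 + 2 * θ * h) ^ n * w z) (fun z => mul_nonneg hpos (hw z))
        (fun z => by
          have := mul_le_mul_of_nonneg_left (hθ1 z) hpos
          calc (1 + 2 * θ * h) ^ n * w (z + 1) ≤ (1 + 2 * θ * h) ^ n * (θ * w z) := this
            _ = θ * ((1 + 2 * θ * h) ^ n * w z) := by ring)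
        (fun z => by
          have := mul_le_mul_of_nonneg_left (hθ2 z) hpos
          calc (1 + 2 * θ * h) ^ n * w (z - 1) ≤ (1 + 2 * θ * h) ^ n * (θ * w z) := this
            _ = θ * ((1 + 2 * θ * h) ^ n * w z) := by ring) i3
      intro z η ζ hz
      have := hnew z η ζ hz
      refine le_trans this (le_of_eq ?_)
      ring
    · -- then `w = 0`
      have hθ : θ < 0 := by
        by_contra hc
        exact hpos (pow_nonneg (by nlinarith [mul_nonneg (not_lt.mp hc) h0]) n)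
      have hw0 : ∀ z, w z = 0 := by
        intro z
        have h2 := hθ1 z
        have h3 := hw (z + 1)
        have h4 := hw z
        nlinarith
      have hosc0 : Osc ((stp u (clkI Λ) h)^[n] f) (fun _ => 0) := by
        intro z η ζ hz
        have := i3 z η ζ hz
        simpa [hw0] using this
      have hnew := osc_stp (u := u) (f := (stp u (clkI Λ) h)^[n] f) (clkI Λ) h θ h0 hK
        (fun _ => 0) (fun _ => le_rfl) (fun _ => by simp) (fun _ => by simp) hosc0
      intro z η ζ hz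
      have := hnew z η ζ hz
      simpa [hw0] using this

end CPS84
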