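import Pool.Agent.LibCPS84.Eul2

/-! The Euler scheme: many steps. -/

namespace CPS84

open Finset
open scoped Classical

variable {S : Type} {u : S → S → S} {m m' : ℝ → ((ℤ → S) → ℝ) → ℝ}

/-- Induction on `n` (for all `t`), with `Sol.step`, `iter_props` and `gen_sub_genI`:
`m (t + (n+1) h) f ≈ m (t + h) (f_n)` and `m (t + h) g ≈ m t (g + h gen (clk Λ) g)
≈ m t (stp g)` for `g = f_n`. -/
theorem step_euler (hm : Sol u m) (Λ : Finset ℤ) : ∃ C : ℝ, 0 ≤ C ∧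
    ∀ (n : ℕ) (t h θ : ℝ) (f : (ℤ → S) → ℝ) (w : ℤ → ℝ), 0 ≤ t → 0 ≤ h → h ≤ 1 → 0 ≤ θ →
      h * (clkI Λ).card ≤ 1 → (∀ z, 0 ≤ w z) → (∀ z, w (z + 1) ≤ θ * w z) →
      (∀ z, w (z - 1) ≤ θ * w z) → Osc f w → Dep f Λ → (∀ η, |f η| ≤ 1) →
      |m (t + n * h) f - m t ((stp u (clkI Λ) h)^[n] f)| ≤
        n * (C * h ^ 2) + n * h * (1 + 2 * θ * h) ^ n * ∑ c ∈ clk Λ \ clkI Λ, w c.1 := by
  obtain ⟨C₁, hC₁⟩ := hm.step Λ
  refine ⟨|C₁|, abs_nonneg _, ?_⟩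
  intro n t h θ f w ht h0 hh1 hθ hK hw hw1 hw2 hosc hdep hf1
  have hSg : 0 ≤ ∑ c ∈ clk Λ \ clkI Λ, w c.1 := sum_nonneg (fun c _ => hw c.1)
  have hq1 : 1 ≤ 1 + 2 * θ * h := by
    have : 0 ≤ 2 * θ * h := by positivity
    linarith
  have hq0 : 0 ≤ 1 + 2 * θ * h := by linarith
  induction n generalizing t with
  | zero =>
    simp
  | succ n ih =>
    have ih' := ih (t + h) (by linarith)
    obtain ⟨hd, hg1, ho⟩ := iter_props (u := u) (Λ := Λ) h θ h0 hK w hw hw1 hw2 hosc hdep hf1 n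
    set g : (ℤ → S) → ℝ := (stp u (clkI Λ) h)^[n] f with hg
    set q : ℝ := (1 + 2 * θ * h) ^ n with hq
    have hq' : 0 ≤ q := by positivity
    have hexp := hm.exp t ht
    have hstep := hC₁ g hd hg1 t h ht h0 hh1
    -- the inner generator
    have e1 : m t (stp u (clkI Λ) h g) = m t g + h * m t (gen u (clkI Λ) g) := by
      have h1 : stp u (clkI Λ) h g = fun η => g η + h * gen u (clkI Λ) g η := rfl
      rw [h1, hexp.add g (fun η => h * gen u (clkI Λ) g η) Λ hd ((dep_genI hd).const_mul h),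
        hexp.smul h (gen u (clkI Λ) g) Λ (dep_genI hd)]
    have e2 : |m t (gen u (clk Λ) g) - m t (gen u (clkI Λ) g)| ≤
        q * ∑ c ∈ clk Λ \ clkI Λ, w c.1 := by
      apply hexp.abs_sub_le (dep_gen hd) ((dep_genI hd).mono (subset_fat Λ))
      intro η
      have h1 := gen_sub_genI (u := u) (Λ := Λ) _ ho η
      rw [mul_sum]
      exact h1
    have e3 : (stp u (clkI Λ) h)^[n + 1] f = stp u (clkI Λ) h g := by
      rw [Function.iterate_succ_apply']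
    have e4 : t + ((n + 1 : ℕ) : ℝ) * h = (t + h) + n * h := by
      push_cast
      ring
    rw [e3, e4, e1]
    have hCh : C₁ * h ^ 2 ≤ |C₁| * h ^ 2 :=
      mul_le_mul_of_nonneg_right (le_abs_self _) (by positivity)
    have e5 : |h * m t (gen u (clk Λ) g) - h * m t (gen u (clkI Λ) g)| ≤
        h * (q * ∑ c ∈ clk Λ \ clkI Λ, w c.1) := by
      rw [← mul_sub, abs_mul, abs_of_nonneg h0]
      exact mul_le_mul_of_nonneg_left e2 h0
    have e6 : h * q * (∑ c ∈ clk Λ \ clkI Λ, w c.1) ≤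
        h * (1 + 2 * θ * h) ^ (n + 1) * ∑ c ∈ clk Λ \ clkI Λ, w c.1 := by
      have h1 : q ≤ (1 + 2 * θ * h) ^ (n + 1) := by
        rw [hq]
        exact pow_le_pow_right₀ hq1 (Nat.le_succ n)
      gcongr
    have e7 : (n : ℝ) * (h * q * (∑ c ∈ clk Λ \ clkI Λ, w c.1)) ≤
        n * (h * (1 + 2 * θ * h) ^ (n + 1) * ∑ c ∈ clk Λ \ clkI Λ, w c.1) :=
      mul_le_mul_of_nonneg_left e6 (by positivity)
    rw [abs_le] at ih' hstep e5 ⊢
    push_cast
    constructor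
    · linarith [ih'.1, hstep.1, e5.1]
    · linarith [ih'.2, hstep.2, e5.2]

end CPS84
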