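import Pool.Agent.LibCPS84.EulC

/-! Uniqueness and integration. -/

namespace CPS84

open Finset
open scoped Classical

variable {S : Type} {u : S → S → S} {m m' : ℝ → ((ℤ → S) → ℝ) → ℝ}

/-- a local function is bounded -/
theorem Dep.bounded [Finite S] {f : (ℤ → S) → ℝ} {Λ : Finset ℤ} (hf : Dep f Λ) :
    ∃ B : ℝ, 0 < B ∧ ∀ η, |f η| ≤ B := by
  rcases isEmpty_or_nonempty S with hS | ⟨⟨s0⟩⟩
  · refine ⟨1, one_pos, fun η => ?_⟩
    exact (hS.false (η 0)).elim
  · have : Fintype S := Fintype.ofFinite S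
    set F : (Λ → S) → ℝ := fun σ => f (fun i => if h : i ∈ Λ then σ ⟨i, h⟩ else s0) with hF
    refine ⟨∑ σ, |F σ| + 1, by positivity, fun η => ?_⟩
    have h1 : f η = F (fun i => η i) := by
      apply hf
      intro i hi
      simp [hi]
    rw [h1]
    have h2 := Finset.single_le_sum (f := fun σ => |F σ|) (fun σ _ => abs_nonneg _)
      (mem_univ (fun i : Λ => η i))
    linarith

private theorem eulD_sub (Λ : Finset ℤ) : ∃ k : ℕ, Λ ⊆ Icc (0 - (k : ℤ)) (0 + (k : ℤ)) := by
  refine ⟨∑ i ∈ Λ, i.natAbs, fun i hi => ?_⟩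
  have h1 := Finset.single_le_sum (f := fun i : ℤ => i.natAbs) (fun _ _ => Nat.zero_le _) hi
  rw [mem_Icc]
  omega

private theorem eulD_div {f : (ℤ → S) → ℝ} {Λ : Finset ℤ} (hf : Dep f Λ) {B : ℝ} (hB : 0 < B)
    (h : ∀ η, |f η| ≤ B) : Dep (fun η => B⁻¹ * f η) Λ ∧ ∀ η, |B⁻¹ * f η| ≤ 1 := by
  refine ⟨hf.const_mul _, fun η => ?_⟩
  rw [abs_mul, abs_of_pos (inv_pos.2 hB), inv_mul_le_iff₀ hB, mul_one]
  exact h η

/-- uniqueness of the solution: use `approx` for `m` and `m'` with the same `n`, `f / B`, then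
`n → ∞` and `M → ∞` -/
theorem unique (hm : Sol u m) (hm' : Sol u m')
    (h0 : ∀ f Λ, Dep f Λ → m 0 f = m' 0 f) [Finite S] (t : ℝ) (ht : 0 ≤ t) {f : (ℤ → S) → ℝ}
    {Λ : Finset ℤ} (hf : Dep f Λ) : m t f = m' t f := by
  obtain ⟨B, hB, hfB⟩ := hf.bounded
  obtain ⟨k, hk⟩ := eulD_sub Λ
  obtain ⟨hg, hg1⟩ := eulD_div hf hB hfB
  set g : (ℤ → S) → ℝ := fun η => B⁻¹ * f η with hgdef
  have hg' := hg.mono hk
  -- the main estimate
  have key : ∀ M : ℕ, k ≤ M → ∀ ε : ℝ, 0 < ε →
      |m t g - m' t g| ≤ 2 * ε + 8 * t * Real.exp (k - M + 2 * Real.exp 1 * t) := by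
    intro M hkM ε hε
    obtain ⟨n1, hn1⟩ := approx hm 0 k M hkM hg' hg1 t ht ε hε
    obtain ⟨n2, hn2⟩ := approx hm' 0 k M hkM hg' hg1 t ht ε hε
    have e1 := hn1 (max (max n1 n2) 1) ((le_max_left _ _).trans (le_max_left _ _))
      (lt_of_lt_of_le one_pos (le_max_right _ _))
    have e2 := hn2 (max (max n1 n2) 1) ((le_max_right _ _).trans (le_max_left _ _))
      (lt_of_lt_of_le one_pos (le_max_right _ _))
    set n := max (max n1 n2) 1
    have hdep : ∀ j : ℕ, Dep ((stp u (clkI (Icc (0 - (M : ℤ)) (0 + (M : ℤ)))) (t / n))^[j] g)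
        (Icc (0 - (M : ℤ)) (0 + (M : ℤ))) := by
      intro j
      induction j with
      | zero =>
        refine hg'.mono ?_
        intro i hi
        rw [mem_Icc] at hi ⊢
        omega
      | succ j ih =>
        rw [Function.iterate_succ_apply']
        exact dep_stp ih _
    rw [h0 _ _ (hdep n)] at e1
    have e3 := abs_le.1 e1
    have e4 := abs_le.1 e2
    rw [abs_le]
    constructor <;> linarith [e3.1, e3.2, e4.1, e4.2]
  -- the limit
  have hzero : |m t g - m' t g| ≤ 0 := by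
    have hlim : Filter.Tendsto (fun M : ℕ => 2 * (1 / ((M : ℝ) + 1)) +
        8 * t * Real.exp (k - M + 2 * Real.exp 1 * t)) Filter.atTop (nhds 0) := by
      have l1 : Filter.Tendsto (fun M : ℕ => 2 * (1 / ((M : ℝ) + 1))) Filter.atTop (nhds (2 * 0)) :=
        tendsto_one_div_add_atTop_nhds_zero_nat.const_mul 2
      have l2 : Filter.Tendsto (fun M : ℕ => Real.exp ((k : ℝ) - M + 2 * Real.exp 1 * t)) Filter.atTop
          (nhds 0) := by
        refine Real.tendsto_exp_atBot.comp ?_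
        have l3 : Filter.Tendsto (fun M : ℕ => -(M : ℝ) + ((k : ℝ) + 2 * Real.exp 1 * t)) Filter.atTop
            Filter.atBot :=
          (Filter.tendsto_neg_atTop_atBot.comp tendsto_natCast_atTop_atTop).atBot_add tendsto_const_nhds
        refine l3.congr fun M => ?_
        ring
      have l4 := l1.add (l2.const_mul (8 * t))
      simpa using l4
    refine ge_of_tendsto hlim ?_
    filter_upwards [Filter.eventually_ge_atTop k] with M hM
    exact key M hM (1 / ((M : ℝ) + 1)) (by positivity)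
  have heq : m t g = m' t g := by
    have := abs_nonneg (m t g - m' t g)
    have h1 : |m t g - m' t g| = 0 := le_antisymm hzero this
    exact sub_eq_zero.1 (abs_eq_zero.1 h1)
  rw [hgdef, (hm.exp t ht).smul _ _ _ hf, (hm'.exp t ht).smul _ _ _ hf] at heq
  exact mul_left_cancel₀ (inv_ne_zero hB.ne') heq

/-- if the generator is bounded by `δ` on `[a, b]`, then the increment is at most `δ (b - a)`:
sum over `n` steps of length `(b - a) / n` with `Sol.step` (`f / B`), `n → ∞` -/
theorem Sol.le_of_gen_le (hm : Sol u m) [Finite S] {f : (ℤ → S) → ℝ} {Λ : Finset ℤ}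
    (hf : Dep f Λ) (a b δ : ℝ) (ha : 0 ≤ a) (hab : a ≤ b)
    (h : ∀ s, a ≤ s → s ≤ b → m s (gen u (clk Λ) f) ≤ δ) : m b f - m a f ≤ δ * (b - a) := by
  obtain ⟨B, hB, hfB⟩ := hf.bounded
  obtain ⟨hg, hg1⟩ := eulD_div hf hB hfB
  set g : (ℤ → S) → ℝ := fun η => B⁻¹ * f η with hgdef
  obtain ⟨C, hC⟩ := hm.step Λ
  have hCnn : 0 ≤ C := by
    have h1 := hC g hg hg1 0 1 le_rfl zero_le_one le_rfl
    have h2 := abs_nonneg (m (0 + 1) g - m 0 g - 1 * m 0 (gen u (clk Λ) g))
    linarith
  have hgen : ∀ s, a ≤ s → s ≤ b → m s (gen u (clk Λ) g) ≤ B⁻¹ * δ := by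
    intro s h1 h2
    have e : gen u (clk Λ) g = fun η => B⁻¹ * gen u (clk Λ) f η := by
      funext η
      exact gen_const_mul _ _ _
    rw [e, (hm.exp s (ha.trans h1)).smul _ _ _ (dep_gen hf)]
    exact mul_le_mul_of_nonneg_left (h s h1 h2) (inv_nonneg.2 hB.le)
  -- n steps
  have key : ∀ n : ℕ, 0 < n → b - a ≤ n → m b g - m a g ≤ B⁻¹ * δ * (b - a) + C * (b - a) ^ 2 / n := by
    intro n hn hban
    have hn0 : (0 : ℝ) < n := by exact_mod_cast hn
    set hh : ℝ := (b - a) / n with hhdef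
    have hh0 : 0 ≤ hh := div_nonneg (by linarith) hn0.le
    have hh1 : hh ≤ 1 := by
      rw [hhdef, div_le_one hn0]
      exact hban
    have hnh : n * hh = b - a := by
      rw [hhdef]
      field_simp
    have hstep : ∀ i : ℕ, i ≤ n → m (a + i * hh) g - m a g ≤ i * (B⁻¹ * δ * hh + C * hh ^ 2) := by
      intro i
      induction i with
      | zero => intro _; simp
      | succ i ih =>
        intro hi
        have h1 := ih (by omega)
        have hi' : (i : ℝ) + 1 ≤ n := by exact_mod_cast hi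
        have hi0 : (0 : ℝ) ≤ i := Nat.cast_nonneg i
        have hs0 : a ≤ a + i * hh := by
          have := mul_nonneg hi0 hh0
          linarith
        have hs1 : a + i * hh ≤ b := by
          have : i * hh ≤ n * hh := mul_le_mul_of_nonneg_right (by linarith) hh0
          linarith
        have h2 := hC g hg hg1 (a + i * hh) hh (ha.trans hs0) hh0 hh1
        have h3 := hgen (a + i * hh) hs0 hs1
        have h4 := (abs_le.1 h2).2
        have h5 := mul_le_mul_of_nonneg_left h3 hh0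
        have e : a + ((i + 1 : ℕ) : ℝ) * hh = a + i * hh + hh := by
          push_cast
          ring
        rw [e]
        push_cast
        nlinarith
    have h1 := hstep n le_rfl
    have e1 : a + n * hh = b := by linarith
    rw [e1] at h1
    have e2 : (n : ℝ) * (B⁻¹ * δ * hh + C * hh ^ 2) = B⁻¹ * δ * (b - a) + C * (b - a) ^ 2 / n := by
      rw [hhdef]
      field_simp
    rw [e2] at h1
    exact h1
  have hlimit : m b g - m a g ≤ B⁻¹ * δ * (b - a) := by
    have hlim : Filter.Tendsto (fun n : ℕ => B⁻¹ * δ * (b - a) + C * (b - a) ^ 2 / n) Filter.atTop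
        (nhds (B⁻¹ * δ * (b - a) + 0)) :=
      tendsto_const_nhds.add (tendsto_const_div_atTop_nhds_zero_nat _)
    rw [add_zero] at hlim
    refine ge_of_tendsto hlim ?_
    obtain ⟨N, hN⟩ := exists_nat_ge (b - a)
    filter_upwards [Filter.eventually_ge_atTop (max N 1)] with n hn
    have h1 : N ≤ n := (le_max_left _ _).trans hn
    have h2 : 1 ≤ n := (le_max_right _ _).trans hn
    exact key n h2 (hN.trans (by exact_mod_cast h1))
  rw [hgdef, (hm.exp b (ha.trans hab)).smul _ _ _ hf, (hm.exp a ha).smul _ _ _ hf, ← mul_sub,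
    mul_assoc] at hlimit
  exact le_of_mul_le_mul_left hlimit (inv_pos.2 hB)

end CPS84
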