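import Pool.Agent.LibCPS84.PatB1

/-! Expectations of the patterns for invariant functionals, 1. -/

namespace CPS84

open Finset
open scoped Classical

variable {κ : ℕ} {E : ((ℤ → ZMod κ) → ℝ) → ℝ}

private theorem expC1_EN1 (η : ℤ → ZMod κ) : EN 1 η ↔ η 0 = η 1 + 1 := by
  unfold EN
  constructor
  · exact fun h => h.1
  · intro h
    refine ⟨h, fun i h1 h2 => ?_⟩
    have : i = 1 := by
      push_cast at h2
      omega
    rw [this]

private theorem expC1_EN2 (η : ℤ → ZMod κ) : EN 2 η ↔ η 0 = η 1 + 1 ∧ η 2 = η 1 := by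
  unfold EN
  constructor
  · exact fun h => ⟨h.1, h.2 2 (by norm_num) (by norm_num)⟩
  · rintro ⟨h, h'⟩
    refine ⟨h, fun i h1 h2 => ?_⟩
    push_cast at h2
    have : i = 1 ∨ i = 2 := by omega
    rcases this with rfl | rfl
    · rfl
    · exact h'

/-- `ρ' = -2 (N_1 - N_2) - 2 e` -/
theorem exp_EW (hκ : 3 ≤ κ) (hE : Inv E) :
    E (gen (cyc κ) (clk (Icc 0 1)) (fun η => ind (EW η))) =
      -2 * (E (fun η => ind (EN 1 η)) - E (fun η => ind (EN 2 η))) - 2 * E (fun η => ind (EE η)) := by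
  have hmem : ∀ i : ℤ, -1 ≤ i → i ≤ 2 → i ∈ Icc (-1 : ℤ) 2 := fun i h1 h2 => mem_Icc.2 ⟨h1, h2⟩
  -- the six functions
  have dA : Dep (fun η : ℤ → ZMod κ => ind (η 0 = η 1 + 1)) (Icc (-1) 2) := by
    apply dep_ind
    intro η ζ h
    rw [h 0 (hmem 0 (by norm_num) (by norm_num)), h 1 (hmem 1 (by norm_num) (by norm_num))]
  have dB : Dep (fun η : ℤ → ZMod κ => ind (η 1 = η 0 + 1)) (Icc (-1) 2) := by
    apply dep_ind
    intro η ζ h
    rw [h 0 (hmem 0 (by norm_num) (by norm_num)), h 1 (hmem 1 (by norm_num) (by norm_num))]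
  have dC : Dep (fun η : ℤ → ZMod κ => ind (η (-1) = η 0 + 1 ∧ η 0 = η 1)) (Icc (-1) 2) := by
    apply dep_ind
    intro η ζ h
    rw [h 0 (hmem 0 (by norm_num) (by norm_num)), h 1 (hmem 1 (by norm_num) (by norm_num)),
      h (-1) (hmem (-1) (by norm_num) (by norm_num))]
  have dD : Dep (fun η : ℤ → ZMod κ => ind (η (-1) = η 0 + 1 ∧ η 1 = η 0 + 1)) (Icc (-1) 2) := by
    apply dep_ind
    intro η ζ h
    rw [h 0 (hmem 0 (by norm_num) (by norm_num)), h 1 (hmem 1 (by norm_num) (by norm_num)),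
      h (-1) (hmem (-1) (by norm_num) (by norm_num))]
  have dF : Dep (fun η : ℤ → ZMod κ => ind (η 2 = η 1 + 1 ∧ η 0 = η 1)) (Icc (-1) 2) := by
    apply dep_ind
    intro η ζ h
    rw [h 0 (hmem 0 (by norm_num) (by norm_num)), h 1 (hmem 1 (by norm_num) (by norm_num)),
      h 2 (hmem 2 (by norm_num) (by norm_num))]
  have dG : Dep (fun η : ℤ → ZMod κ => ind (η 0 = η 1 + 1 ∧ η 2 = η 1 + 1)) (Icc (-1) 2) := by
    apply dep_ind
    intro η ζ h
    rw [h 0 (hmem 0 (by norm_num) (by norm_num)), h 1 (hmem 1 (by norm_num) (by norm_num)),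
      h 2 (hmem 2 (by norm_num) (by norm_num))]
  -- the expectations of the six functions
  have eA : E (fun η => ind (η 0 = η 1 + 1)) = E (fun η => ind (EN 1 η)) := by
    congr 1
    funext η
    rw [propext (expC1_EN1 η)]
  have eB : E (fun η => ind (η 1 = η 0 + 1)) = E (fun η => ind (EN 1 η)) := by
    rw [← hE.inv (-1) 1 (Or.inr rfl) _ _ (dep_EN (κ := κ) 1 le_rfl)]
    congr 1
    funext η
    rw [propext (expC1_EN1 (sym id (-1) 1 η))]
    simp [sym]
  have eC : E (fun η => ind (η (-1) = η 0 + 1 ∧ η 0 = η 1)) = E (fun η => ind (EN 2 η)) := by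
    rw [← hE.shift (-1) (dep_EN (κ := κ) 2 (by norm_num))]
    congr 1
    funext η
    rw [propext (expC1_EN2 (sh (-1) η))]
    simp only [sh]
    norm_num
    congr 1
    rw [eq_comm (a := η 0) (b := η 1)]
  have eD : E (fun η => ind (η (-1) = η 0 + 1 ∧ η 1 = η 0 + 1)) = E (fun η => ind (EE η)) := by
    rw [← hE.shift (-1) (dep_EE (κ := κ))]
    congr 1
  have eF : E (fun η => ind (η 2 = η 1 + 1 ∧ η 0 = η 1)) = E (fun η => ind (EN 2 η)) := by
    rw [← hE.inv (-1) 2 (Or.inr rfl) _ _ (dep_EN (κ := κ) 2 (by norm_num))]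
    congr 1
    funext η
    rw [propext (expC1_EN2 (sym id (-1) 2 η))]
    simp [sym]
  have eG : E (fun η => ind (η 0 = η 1 + 1 ∧ η 2 = η 1 + 1)) = E (fun η => ind (EE η)) := rfl
  have hgen : gen (cyc κ) (clk (Icc 0 1)) (fun η => ind (EW η)) = fun η =>
      ((((((-1) * ind (η 0 = η 1 + 1)) - ind (η 1 = η 0 + 1))
      + ind (η (-1) = η 0 + 1 ∧ η 0 = η 1)) - ind (η (-1) = η 0 + 1 ∧ η 1 = η 0 + 1))
      + ind (η 2 = η 1 + 1 ∧ η 0 = η 1)) - ind (η 0 = η 1 + 1 ∧ η 2 = η 1 + 1) := by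
    funext η
    rw [genEW hκ η]
    ring
  have d1 := dA.const_mul (-1)
  have d2 := d1.sub dB
  have d3 := d2.add dC
  have d4 := d3.sub dD
  have d5 := d4.add dF
  rw [hgen, hE.exp.sub d5 dG, hE.exp.add _ _ _ d4 dF, hE.exp.sub d3 dD, hE.exp.add _ _ _ d2 dC,
    hE.exp.sub d1 dB, hE.exp.smul _ _ _ dA, eA, eB, eC, eD, eF, eG]
  ring

/-- reflect `EJ` at the site `1`: the events `η 0 = η 1 + 1 ∧ η 2 = η 1 + 2`, `EE` and `EN 2` are
disjoint subsets of `EN 1` -/
theorem exp_EJ (hκ : 3 ≤ κ) (hE : Inv E) :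
    E (fun η => ind (EJ η)) ≤ E (fun η => ind (EN 1 η)) - E (fun η => ind (EN 2 η)) -
      E (fun η => ind (EE η)) := by
  have h1 : E (fun η => ind (EJ (sym id (-1) 2 η))) = E (fun η => ind (EJ η)) :=
    hE.inv (-1) 2 (Or.inr rfl) _ _ (dep_EJ (κ := κ))
  have dJ : Dep (fun η : ℤ → ZMod κ => ind (EJ (sym id (-1) 2 η))) (Icc 0 2) := by
    apply dep_ind
    intro η ζ h
    have h0 : η 0 = ζ 0 := h 0 (mem_Icc.mpr ⟨le_rfl, by norm_num⟩)
    have h1 : η 1 = ζ 1 := h 1 (mem_Icc.mpr ⟨by norm_num, by norm_num⟩)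
    have h2 : η 2 = ζ 2 := h 2 (mem_Icc.mpr ⟨by norm_num, by norm_num⟩)
    unfold EJ sym
    norm_num
    rw [h0, h1, h2]
  have d1 : Dep (fun η : ℤ → ZMod κ => ind (EN 1 η)) (Icc 0 2) :=
    (dep_EN (κ := κ) 1 le_rfl).mono (by
      intro i hi
      rw [mem_Icc] at hi ⊢
      push_cast at hi
      omega)
  have d2 : Dep (fun η : ℤ → ZMod κ => ind (EN 2 η)) (Icc 0 2) := by
    have := dep_EN (κ := κ) 2 (by norm_num)
    exact_mod_cast this
  have dE : Dep (fun η : ℤ → ZMod κ => ind (EE η)) (Icc 0 2) := dep_EE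
  rw [← h1, ← hE.exp.sub d1 d2, ← hE.exp.sub (d1.sub d2) dE]
  apply hE.exp.mono _ _ _ dJ ((d1.sub d2).sub dE)
  intro η
  have h10 := one_ne_zero_zmod hκ
  have h20 := two_ne_zero_zmod hκ
  have hJ : EJ (sym id (-1) 2 η) ↔ η 2 = η 1 + 2 ∧ η 0 = η 1 + 1 := by
    unfold EJ sym
    norm_num
  show ind (EJ (sym id (-1) 2 η)) ≤ ind (EN 1 η) - ind (EN 2 η) - ind (EE η)
  rw [propext hJ, propext (expC1_EN1 η), propext (expC1_EN2 η)]
  unfold EE ind
  by_cases hA : η 0 = η 1 + 1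
  · by_cases hB : η 2 = η 1
    · have hC : ¬ (η 2 = η 1 + 2) := by
        rw [hB]
        intro h
        exact h20 (left_eq_add.1 h)
      have hD : ¬ (η 2 = η 1 + 1) := by
        rw [hB]
        intro h
        exact h10 (left_eq_add.1 h)
      rw [if_neg (fun h => hC h.1), if_pos hA, if_pos ⟨hA, hB⟩, if_neg (fun h => hD h.2)]
      norm_num
    · by_cases hD : η 2 = η 1 + 1
      · have hC : ¬ (η 2 = η 1 + 2) := by
          rw [hD]
          intro h
          have h3 : (1 : ZMod κ) = 2 := add_left_cancel h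
          apply h10
          have h4 : (2 : ZMod κ) = 1 + 1 := by norm_num
          rw [h4] at h3
          exact left_eq_add.1 h3
        rw [if_neg (fun h => hC h.1), if_pos hA, if_neg (fun h => hB h.2), if_pos ⟨hA, hD⟩]
        norm_num
      · rw [if_pos hA, if_neg (show ¬ (η 0 = η 1 + 1 ∧ η 2 = η 1) from fun h => hB h.2),
          if_neg (show ¬ (η 0 = η 1 + 1 ∧ η 2 = η 1 + 1) from fun h => hD h.2)]
        split_ifs <;> norm_num
  · rw [if_neg (fun h => hA h.2), if_neg hA, if_neg (fun h => hA h.1), if_neg (fun h => hA h.1)]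
    norm_num

end CPS84
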