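import Pool.Agent.LibCPS84.PatA3

/-! Expectations of the patterns for invariant functionals, 2. -/

namespace CPS84

open Finset
open scoped Classical

variable {κ : ℕ} {E : ((ℤ → ZMod κ) → ℝ) → ℝ}

theorem exp_genEN (hκ : 3 ≤ κ) (hE : Inv E) (k : ℕ) (hk : 2 ≤ k) :
    E (gen (cyc κ) (clk (Icc 0 (k : ℤ))) (fun η => ind (EN k η))) ≤
      E (fun η => ind (EN (k + 1) η)) - 2 * E (fun η => ind (EN k η)) +
        E (fun η => ind (EN (k - 1) η)) + E (fun η => ind (EJ η)) +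
        2 * ∑ j ∈ Ico 2 k, E (fun η => ind (ET j η)) + E (fun η => ind (ET k η)) := by
  have hX := hE.exp
  set Λ : Finset ℤ := fat (Icc 0 (k : ℤ)) ∪ Icc (-2) ((k : ℤ) + 2) with hΛ
  have hsub : Icc (-2) ((k : ℤ) + 2) ⊆ Λ := subset_union_right
  have hIcc : ∀ a b : ℤ, -2 ≤ a → b ≤ (k : ℤ) + 2 → Icc a b ⊆ Λ := by
    intro a b ha hb
    refine subset_trans ?_ hsub
    intro i hi
    rw [mem_Icc] at hi ⊢
    omega
  have dL : Dep (gen (cyc κ) (clk (Icc 0 (k : ℤ))) (fun η => ind (EN k η))) Λ :=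
    (dep_gen (dep_EN k (by omega))).mono subset_union_left
  have dk1 : Dep (fun η : ℤ → ZMod κ => ind (EN (k + 1) η)) (Icc 0 ((k + 1 : ℕ) : ℤ)) := dep_EN _ (by omega)
  have d1 : Dep (fun η : ℤ → ZMod κ => ind (EN (k + 1) (sh (-1) η))) Λ := by
    refine (dep_sh dk1 (-1)).mono ?_
    intro i hi
    obtain ⟨j, hj, rfl⟩ := mem_image.1 hi
    apply hsub
    rw [mem_Icc] at hj ⊢
    push_cast at hj
    omega
  have d2 : Dep (fun η : ℤ → ZMod κ => ind (EN k η)) Λ :=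
    (dep_EN k (by omega)).mono (hIcc _ _ (by omega) (by omega))
  have d3 : Dep (fun η : ℤ → ZMod κ => ind (EN (k - 1) η)) Λ :=
    (dep_EN (k - 1) (by omega)).mono (hIcc _ _ (by omega) (by omega))
  have d4 : Dep (fun η : ℤ → ZMod κ => ind (EJ η)) Λ := dep_EJ.mono (hIcc _ _ (by omega) (by omega))
  have dT : ∀ j, 2 ≤ j → j ≤ k → Dep (fun η : ℤ → ZMod κ => ind (ET j η)) Λ := fun j h1 h2 =>
    (dep_ET j h1).mono (hIcc _ _ (by omega) (by omega))
  have dTs : Dep (fun η : ℤ → ZMod κ => ∑ j ∈ Ico 2 k, ind (ET j η)) Λ := by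
    refine Dep.sum _ _ fun j hj => ?_
    rw [mem_Ico] at hj
    exact dT j hj.1 hj.2.le
  have e1 : E (fun η => ind (EN (k + 1) (sh (-1) η))) = E (fun η => ind (EN (k + 1) η)) :=
    hE.shift (-1) dk1
  have e2 : E (fun η => ∑ j ∈ Ico 2 k, ind (ET j η)) = ∑ j ∈ Ico 2 k, E (fun η => ind (ET j η)) := by
    refine hX.sum (Λ := Λ) _ (fun j η => ind (ET j η)) fun j hj => ?_
    rw [mem_Ico] at hj
    exact dT j hj.1 hj.2.le
  have s2 := d2.const_mul 2
  have s5 := dTs.const_mul 2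
  have a1 := d1.sub s2
  have a2 := a1.add d3
  have a3 := a2.add d4
  have a4 := a3.add s5
  have a5 := a4.add (dT k hk le_rfl)
  have key := hX.mono _ _ Λ dL a5 (fun η => genEN hκ k hk η)
  rw [hX.add _ _ _ a4 (dT k hk le_rfl), hX.add _ _ _ a3 s5, hX.add _ _ _ a2 d4, hX.add _ _ _ a1 d3,
    hX.sub d1 s2, hX.smul 2 _ _ d2, hX.smul 2 _ _ dTs, e1, e2] at key
  exact key

end CPS84
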