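import Pool.Agent.LibCPS84.CycDefs

/-! Disjointness of the shifted events `EN`. -/

namespace CPS84

open Finset
open scoped Classical

variable {κ : ℕ}

private theorem EN_disjoint (hκ : 3 ≤ κ) (A : ℕ) (η : ℤ → ZMod κ) {j j' : ℕ} (hj : j < j')
    (hj' : j' ≤ A) (h : EN (A + 1) (sh (j : ℤ) η)) (h' : EN (A + 1) (sh (j' : ℤ) η)) : False := by
  obtain ⟨_, h2⟩ := h
  obtain ⟨h3, _⟩ := h'
  have e1 := h2 ((j' : ℤ) - j) (by omega) (by push_cast; omega)
  have e2 := h2 ((j' : ℤ) - j + 1) (by omega) (by push_cast; omega)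
  unfold sh at e1 e2 h3
  have a1 : (j' : ℤ) - j + j = 0 + (j' : ℤ) := by ring
  have a2 : (j' : ℤ) - j + 1 + j = 1 + (j' : ℤ) := by ring
  rw [a1] at e1
  rw [a2] at e2
  rw [e1, e2] at h3
  have h4 : (1 : ZMod κ) = 0 := by
    have := h3.symm
    rwa [add_eq_left] at this
  exact one_ne_zero_zmod hκ h4

/-- the events are disjoint -/
theorem sum_EN (hκ : 3 ≤ κ) (A : ℕ) (η : ℤ → ZMod κ) :
    ∑ j ∈ range (A + 1), ind (EN (A + 1) (sh (j : ℤ) η)) ≤ 1 := by
  by_cases h : ∃ j ∈ range (A + 1), EN (A + 1) (sh (j : ℤ) η)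
  · obtain ⟨j, hj, hE⟩ := h
    rw [Finset.sum_eq_single j]
    · unfold ind
      split_ifs <;> norm_num
    · intro i hi hij
      unfold ind
      rw [if_neg]
      intro hEi
      rw [Finset.mem_range] at hi hj
      rcases lt_or_gt_of_ne hij with hlt | hlt
      · exact EN_disjoint hκ A η hlt (by omega) hEi hE
      · exact EN_disjoint hκ A η hlt (by omega) hE hEi
    · intro hn; exact absurd hj hn
  · push Not at h
    rw [Finset.sum_eq_zero]
    · norm_num
    · intro j hj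
      unfold ind
      rw [if_neg (h j hj)]

end CPS84
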