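import Pool.Agent.LibCPS84.PatB2
import Pool.Agent.LibCPS84.PatB3

/-! Expectations of the patterns for invariant functionals, 3. -/

namespace CPS84

open Finset
open scoped Classical

variable {κ : ℕ} {E : ((ℤ → ZMod κ) → ℝ) → ℝ}

private theorem ind_le_ind_C3 {p q : Prop} (h : p → q) : ind p ≤ ind q := by
  unfold ind
  by_cases hp : p
  · rw [if_pos hp, if_pos (h hp)]
  · rw [if_neg hp]
    split_ifs <;> norm_num

theorem exp_sum_ET (hκ : 3 ≤ κ) (hE : Inv E) (A : ℕ) :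
    ∑ j ∈ Icc 2 A, E (fun η => ind (ET j η)) ≤ E (fun η => ind (EE η)) := by
  have hΛ : ∀ j ∈ Icc 2 A,
      Dep (fun η : ℤ → ZMod κ => ind (ET j (sh (-(j : ℤ)) η))) (Icc (-(A : ℤ) - 1) 1) := by
    intro j hj
    rw [Finset.mem_Icc] at hj
    refine (dep_sh (dep_ET (κ := κ) j hj.1) (-(j : ℤ))).mono ?_
    intro i hi
    rw [Finset.mem_image] at hi
    obtain ⟨a, ha, rfl⟩ := hi
    rw [Finset.mem_Icc] at ha ⊢
    have : (j : ℤ) ≤ A := by exact_mod_cast hj.2
    constructor <;> omega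
  have hΛE : Dep (fun η : ℤ → ZMod κ => ind (EE (sh (-1) η))) (Icc (-(A : ℤ) - 1) 1) := by
    refine (dep_sh (dep_EE (κ := κ)) (-1)).mono ?_
    intro i hi
    rw [Finset.mem_image] at hi
    obtain ⟨a, ha, rfl⟩ := hi
    rw [Finset.mem_Icc] at ha ⊢
    have : (0 : ℤ) ≤ A := Int.natCast_nonneg A
    constructor <;> omega
  calc ∑ j ∈ Icc 2 A, E (fun η => ind (ET j η))
      = ∑ j ∈ Icc 2 A, E (fun η => ind (ET j (sh (-(j : ℤ)) η))) := by
        refine Finset.sum_congr rfl fun j hj => ?_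
        rw [Finset.mem_Icc] at hj
        exact (hE.shift (-(j : ℤ)) (dep_ET (κ := κ) j hj.1)).symm
    _ = E (fun η => ∑ j ∈ Icc 2 A, ind (ET j (sh (-(j : ℤ)) η))) :=
        (hE.exp.sum (Icc 2 A) (fun j η => ind (ET j (sh (-(j : ℤ)) η))) hΛ).symm
    _ ≤ E (fun η => ind (EE (sh (-1) η))) :=
        hE.exp.mono _ _ _
          (Dep.sum (Icc 2 A) (fun j (η : ℤ → ZMod κ) => ind (ET j (sh (-(j : ℤ)) η))) hΛ) hΛE
          (fun η => sum_ET hκ A η)
    _ = E (fun η => ind (EE η)) := hE.shift (-1) (dep_EE (κ := κ))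

theorem exp_EN_long (hκ : 3 ≤ κ) (hE : Inv E) (A : ℕ) :
    ((A : ℝ) + 1) * E (fun η => ind (EN (A + 1) η)) ≤ 1 := by
  have hΛ : ∀ j ∈ range (A + 1),
      Dep (fun η : ℤ → ZMod κ => ind (EN (A + 1) (sh (j : ℤ) η))) (Icc 0 (2 * (A : ℤ) + 2)) := by
    intro j hj
    rw [Finset.mem_range] at hj
    refine (dep_sh (dep_EN (κ := κ) (A + 1) (by omega)) (j : ℤ)).mono ?_
    intro i hi
    rw [Finset.mem_image] at hi
    obtain ⟨a, ha, rfl⟩ := hi
    rw [Finset.mem_Icc] at ha ⊢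
    have h1 : (j : ℤ) < (A : ℤ) + 1 := by exact_mod_cast hj
    have h2 : (0 : ℤ) ≤ j := Int.natCast_nonneg j
    have h3 := ha.2
    push_cast at h3
    constructor <;> omega
  calc ((A : ℝ) + 1) * E (fun η => ind (EN (A + 1) η))
      = ∑ j ∈ range (A + 1), E (fun η => ind (EN (A + 1) η)) := by
        rw [Finset.sum_const, Finset.card_range, nsmul_eq_mul]
        push_cast
        ring
    _ = ∑ j ∈ range (A + 1), E (fun η => ind (EN (A + 1) (sh (j : ℤ) η))) := by
        refine Finset.sum_congr rfl fun j hj => ?_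
        exact (hE.shift (j : ℤ) (dep_EN (κ := κ) (A + 1) (by omega))).symm
    _ = E (fun η => ∑ j ∈ range (A + 1), ind (EN (A + 1) (sh (j : ℤ) η))) :=
        (hE.exp.sum (range (A + 1)) (fun j η => ind (EN (A + 1) (sh (j : ℤ) η))) hΛ).symm
    _ ≤ E (fun _ => 1) :=
        hE.exp.mono _ _ _
          (Dep.sum (range (A + 1)) (fun j (η : ℤ → ZMod κ) => ind (EN (A + 1) (sh (j : ℤ) η))) hΛ)
          (dep_const 1 _) (fun η => sum_EN hκ A η)
    _ = 1 := hE.exp.one

theorem exp_EN_anti (hE : Inv E) (k : ℕ) (hk : 1 ≤ k) :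
    E (fun η => ind (EN (k + 1) η)) ≤ E (fun η => ind (EN k η)) := by
  have hsub : Icc 0 (k : ℤ) ⊆ Icc 0 ((k + 1 : ℕ) : ℤ) := by
    intro i hi
    rw [Finset.mem_Icc] at hi ⊢
    push_cast
    omega
  refine hE.exp.mono _ _ _ (dep_EN (κ := κ) (k + 1) (by omega)) ((dep_EN (κ := κ) k hk).mono hsub)
    (fun η => ind_le_ind_C3 ?_)
  rintro ⟨h1, h2⟩
  refine ⟨h1, fun i hi hi' => h2 i hi ?_⟩
  push_cast
  omega

/-- for three colours every wall moves: `ρ = 2 N_1` -/
theorem exp_EW_three {E : ((ℤ → ZMod 3) → ℝ) → ℝ} (hE : Inv E) :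
    E (fun η => ind (EW η)) = 2 * E (fun η => ind (EN 1 η)) := by
  have hN : Dep (fun η : ℤ → ZMod 3 => ind (EN 1 η)) (Icc 0 1) := by
    have := dep_EN (κ := 3) 1 le_rfl
    simpa using this
  have hNs : Dep (fun η : ℤ → ZMod 3 => ind (EN 1 (sym id (-1) 1 η))) (Icc 0 1) := by
    intro η ζ h
    have h0 := h 0 (by simp)
    have h1 := h 1 (by simp)
    have hiff : ∀ ξ : ℤ → ZMod 3, EN 1 (sym id (-1) 1 ξ) ↔ ξ 1 = ξ 0 + 1 := by
      intro ξ
      simp only [EN, sym, id]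
      constructor
      · rintro ⟨h, -⟩
        simpa using h
      · intro h
        refine ⟨by simpa using h, fun i hi hi' => ?_⟩
        have : i = 1 := by push_cast at hi'; omega
        rw [this]
    show ind (EN 1 (sym id (-1) 1 η)) = ind (EN 1 (sym id (-1) 1 ζ))
    have : EN 1 (sym id (-1) 1 η) = EN 1 (sym id (-1) 1 ζ) := by
      apply propext
      rw [hiff, hiff, h0, h1]
    rw [this]
  have hinv := hE.inv (-1) 1 (Or.inr rfl) (fun η => ind (EN 1 η)) (Icc 0 1) hN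
  have hadd := hE.exp.add _ _ _ hN hNs
  have hpt : (fun η : ℤ → ZMod 3 => ind (EW η))
      = fun η => ind (EN 1 η) + ind (EN 1 (sym id (-1) 1 η)) := by
    funext η
    have hiff1 : EN 1 η ↔ η 0 = η 1 + 1 := by
      constructor
      · rintro ⟨h, -⟩
        exact h
      · intro h
        refine ⟨h, fun i hi hi' => ?_⟩
        have : i = 1 := by push_cast at hi'; omega
        rw [this]
    have hiff2 : EN 1 (sym id (-1) 1 η) ↔ η 1 = η 0 + 1 := by
      simp only [EN, sym, id]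
      constructor
      · rintro ⟨h, -⟩
        simpa using h
      · intro h
        refine ⟨by simpa using h, fun i hi hi' => ?_⟩
        have : i = 1 := by push_cast at hi'; omega
        rw [this]
    rw [show EN 1 η = (η 0 = η 1 + 1) from propext hiff1,
      show EN 1 (sym id (-1) 1 η) = (η 1 = η 0 + 1) from propext hiff2]
    unfold EW ind
    generalize η 0 = a
    generalize η 1 = b
    have key : ∀ a b : ZMod 3, (a ≠ b ↔ (a = b + 1 ∨ b = a + 1)) ∧ ¬ (a = b + 1 ∧ b = a + 1) := by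
      decide
    obtain ⟨k1, k2⟩ := key a b
    by_cases h1 : a = b + 1
    · have h2 : ¬ b = a + 1 := fun h2 => k2 ⟨h1, h2⟩
      rw [if_pos (k1.2 (Or.inl h1)), if_pos h1, if_neg h2]
      norm_num
    · by_cases h2 : b = a + 1
      · rw [if_pos (k1.2 (Or.inr h2)), if_neg h1, if_pos h2]
        norm_num
      · rw [if_neg (fun h => (k1.1 h).elim h1 h2), if_neg h1, if_neg h2]
        norm_num
  rw [hpt, hadd, hinv]
  ring

end CPS84
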