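import Pool.Agent.LibCPS84.Basic

/-! Elementary facts about expectation functionals on local functions. -/

namespace CPS84

open Finset
open scoped Classical

variable {S : Type} {E : ((ℤ → S) → ℝ) → ℝ} {f g : (ℤ → S) → ℝ} {Λ : Finset ℤ}

theorem Exp.const (hE : Exp E) (a : ℝ) : E (fun _ => a) = a := by
  have h := hE.smul a (fun _ => 1) ∅ (dep_const 1 ∅)
  simp only [mul_one] at h
  rw [h, hE.one, mul_one]

theorem Exp.sub (hE : Exp E) (hf : Dep f Λ) (hg : Dep g Λ) :
    E (fun η => f η - g η) = E f - E g := by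
  have h1 := hE.add f (fun η => (-1) * g η) Λ hf (hg.const_mul (-1))
  have h2 := hE.smul (-1) g Λ hg
  have h3 : (fun η => f η - g η) = (fun η => f η + (-1) * g η) := by
    funext η
    ring
  rw [h3, h1, h2]
  ring

theorem Exp.nonneg (hE : Exp E) (hf : Dep f Λ) (h : ∀ η, 0 ≤ f η) : 0 ≤ E f := by
  have h1 := hE.mono (fun _ => 0) f Λ (dep_const 0 Λ) hf h
  rwa [hE.const] at h1

theorem Exp.abs_le (hE : Exp E) (hf : Dep f Λ) {B : ℝ} (h : ∀ η, |f η| ≤ B) : |E f| ≤ B := by
  have h1 := hE.mono f (fun _ => B) Λ hf (dep_const B Λ) (fun η => (_root_.abs_le.1 (h η)).2)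
  have h2 := hE.mono (fun _ => -B) f Λ (dep_const (-B) Λ) hf (fun η => (_root_.abs_le.1 (h η)).1)
  rw [hE.const] at h1 h2
  exact _root_.abs_le.2 ⟨h2, h1⟩

theorem Exp.sum (hE : Exp E) {ι : Type} (s : Finset ι) (F : ι → (ℤ → S) → ℝ)
    (h : ∀ i ∈ s, Dep (F i) Λ) : E (fun η => ∑ i ∈ s, F i η) = ∑ i ∈ s, E (F i) := by
  induction s using Finset.induction_on with
  | empty =>
    simp only [sum_empty]
    exact hE.const 0
  | insert a s ha ih =>
    simp only [sum_insert ha]
    have h1 : Dep (fun η => ∑ i ∈ s, F i η) Λ :=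
      Dep.sum s F (fun i hi => h i (mem_insert_of_mem hi))
    rw [hE.add (F a) (fun η => ∑ i ∈ s, F i η) Λ (h a (mem_insert_self a s)) h1]
    rw [ih (fun i hi => h i (mem_insert_of_mem hi))]

theorem Exp.abs_sub_le (hE : Exp E) (hf : Dep f Λ) (hg : Dep g Λ) {B : ℝ}
    (h : ∀ η, |f η - g η| ≤ B) : |E f - E g| ≤ B := by
  rw [← hE.sub hf hg]
  exact hE.abs_le (hf.sub hg) h

/-- a local function is a combination of cylinder indicators -/
theorem Dep.eq_sum [Fintype S] [Nonempty S] (hf : Dep f Λ) (η : ℤ → S) :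
    f η = ∑ σ : Λ → S, f (fun i => if h : i ∈ Λ then σ ⟨i, h⟩ else Classical.arbitrary S) *
      (if ∀ i ∈ Λ, η i = (fun i => if h : i ∈ Λ then σ ⟨i, h⟩ else Classical.arbitrary S) i
        then 1 else 0) := by
  rw [sum_eq_single (fun i : Λ => η i)]
  · rw [if_pos]
    · rw [mul_one]
      apply hf
      intro i hi
      simp only [hi, dif_pos]
    · intro i hi
      simp only [hi, dif_pos]
  · intro σ _ hσ
    rw [if_neg, mul_zero]
    intro hc
    apply hσ
    funext i
    have h1 := hc i.1 i.2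
    simp only [i.2, dif_pos] at h1
    exact h1.symm
  · intro h
    exact absurd (mem_univ _) h

/-- two expectation functionals which agree on cylinders agree on local functions -/
theorem Exp.ext_cyl [Fintype S] {E' : ((ℤ → S) → ℝ) → ℝ} (hE : Exp E) (hE' : Exp E')
    (h : ∀ σ : ℤ → S, E (fun η => if ∀ i ∈ Λ, η i = σ i then 1 else 0) =
      E' (fun η => if ∀ i ∈ Λ, η i = σ i then 1 else 0)) (hf : Dep f Λ) : E f = E' f := by
  rcases isEmpty_or_nonempty S with hS | hS
  · have h1 : f = fun _ => 1 := by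
      funext η
      exact (IsEmpty.false (η 0)).elim
    rw [h1, hE.one, hE'.one]
  · have hcyl : ∀ σ : ℤ → S, Dep (fun η : ℤ → S => if ∀ i ∈ Λ, η i = σ i then (1 : ℝ) else 0) Λ := by
      intro σ η ζ hh
      have h1 : (∀ i ∈ Λ, η i = σ i) ↔ (∀ i ∈ Λ, ζ i = σ i) := by
        constructor
        · intro h2 i hi
          rw [← hh i hi]
          exact h2 i hi
        · intro h2 i hi
          rw [hh i hi]
          exact h2 i hi
      simp only [h1]
    have key : ∀ {F : ((ℤ → S) → ℝ) → ℝ}, Exp F → F f = ∑ σ : Λ → S,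
        f (fun i => if h : i ∈ Λ then σ ⟨i, h⟩ else Classical.arbitrary S) *
        F (fun η => if ∀ i ∈ Λ, η i =
          (fun i => if h : i ∈ Λ then σ ⟨i, h⟩ else Classical.arbitrary S) i
          then 1 else 0) := by
      intro F hF
      have h1 : f = fun η => ∑ σ : Λ → S,
          f (fun i => if h : i ∈ Λ then σ ⟨i, h⟩ else Classical.arbitrary S) *
          (if ∀ i ∈ Λ, η i = (fun i => if h : i ∈ Λ then σ ⟨i, h⟩ else Classical.arbitrary S) i
            then 1 else 0) := funext (fun η => hf.eq_sum η)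
      calc F f = F (fun η => ∑ σ : Λ → S,
          f (fun i => if h : i ∈ Λ then σ ⟨i, h⟩ else Classical.arbitrary S) *
          (if ∀ i ∈ Λ, η i = (fun i => if h : i ∈ Λ then σ ⟨i, h⟩ else Classical.arbitrary S) i
            then 1 else 0)) := congrArg F h1
        _ = ∑ σ : Λ → S, F (fun η =>
          f (fun i => if h : i ∈ Λ then σ ⟨i, h⟩ else Classical.arbitrary S) *
          (if ∀ i ∈ Λ, η i = (fun i => if h : i ∈ Λ then σ ⟨i, h⟩ else Classical.arbitrary S) i
            then 1 else 0)) := hF.sum (Λ := Λ) univ _ (fun σ _ => (hcyl _).const_mul _)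
        _ = _ := by
          apply sum_congr rfl
          intro σ _
          exact hF.smul _ _ Λ (hcyl _)
    rw [key hE, key hE']
    apply sum_congr rfl
    intro σ _
    rw [h]

end CPS84
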