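import Mathlib

/-! A density between `1/(200 t)` and `60/√t` has its exponent, if any, in `[1/2, 1]`. -/

namespace CPS84

open Filter Topology

/-- If `p` is at least `1/(200 t)` and `p ∼ C t ^ (-α)` then `α ≤ 1`. -/
theorem expo_le_one {p : ℝ → ℝ} (hp : ∀ t, 2 ≤ t → 1 / (200 * t) ≤ p t) {C α : ℝ}
    (hC : 0 < C) (h : Tendsto (fun t => p t / (C * t ^ (-α))) atTop (𝓝 1)) : α ≤ 1 := by
  by_contra hα
  rw [not_le] at hα
  have h1 : Tendsto (fun t : ℝ => t ^ (α - 1) / (200 * C)) atTop atTop :=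
    (tendsto_rpow_atTop (by linarith)).atTop_div_const (by positivity)
  have h2 : ∀ᶠ t in atTop, t ^ (α - 1) / (200 * C) ≤ p t / (C * t ^ (-α)) := by
    filter_upwards [eventually_ge_atTop 2] with t ht
    have ht0 : (0 : ℝ) < t := by linarith
    have hne : 0 < t ^ (-α) := Real.rpow_pos_of_pos ht0 _
    rw [le_div_iff₀ (by positivity)]
    have e1 : t ^ (α - 1) / (200 * C) * (C * t ^ (-α)) = 1 / (200 * t) := by
      have e2 : t ^ (α - 1) * t ^ (-α) = t⁻¹ := by
        rw [← Real.rpow_add ht0, ← Real.rpow_neg_one]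
        congr 1
        ring
      have e3 : t ^ (α - 1) / (200 * C) * (C * t ^ (-α)) = (t ^ (α - 1) * t ^ (-α)) / 200 := by
        field_simp
      rw [e3, e2]
      field_simp
    rw [e1]
    exact hp t ht
  have h3 : Tendsto (fun t => p t / (C * t ^ (-α))) atTop atTop := tendsto_atTop_mono' _ h2 h1
  exact not_tendsto_nhds_of_tendsto_atTop h3 1 h

/-- If `p` is at most `60/√t` and `p ∼ C t ^ (-α)` then `1/2 ≤ α`. -/
theorem half_le_expo {p : ℝ → ℝ} (hp : ∀ t, 1 ≤ t → p t ≤ 60 / Real.sqrt t) {C α : ℝ}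
    (hC : 0 < C) (h : Tendsto (fun t => p t / (C * t ^ (-α))) atTop (𝓝 1)) : 1 / 2 ≤ α := by
  by_contra hα
  rw [not_le] at hα
  have h1 : Tendsto (fun t : ℝ => 60 / C * t ^ (-(1 / 2 - α))) atTop (𝓝 (60 / C * 0)) :=
    (tendsto_rpow_neg_atTop (by linarith)).const_mul _
  rw [mul_zero] at h1
  have h2 : ∀ᶠ t in atTop, p t / (C * t ^ (-α)) ≤ 60 / C * t ^ (-(1 / 2 - α)) := by
    filter_upwards [eventually_ge_atTop 1] with t ht
    have ht0 : (0 : ℝ) < t := by linarith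
    have hne : 0 < t ^ (-α) := Real.rpow_pos_of_pos ht0 _
    rw [div_le_iff₀ (by positivity)]
    have e2 : t ^ (-(1 / 2 - α)) * t ^ (-α) = (Real.sqrt t)⁻¹ := by
      rw [← Real.rpow_add ht0, Real.sqrt_eq_rpow, ← Real.rpow_neg ht0.le]
      congr 1
      ring
    have e3 : 60 / C * t ^ (-(1 / 2 - α)) * (C * t ^ (-α)) = 60 / Real.sqrt t := by
      have e4 : 60 / C * t ^ (-(1 / 2 - α)) * (C * t ^ (-α))
          = 60 * (t ^ (-(1 / 2 - α)) * t ^ (-α)) := by
        field_simp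
      rw [e4, e2]
      rfl
    rw [e3]
    exact hp t ht
  have := le_of_tendsto_of_tendsto h h1 h2
  linarith

end CPS84
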