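import Mathlib

/-! A density at most `K t^(-1/3) (log t)^(4/3)` has its exponent, if any, at least `1/3`. -/

namespace CPS84

open Filter Topology

/-- If `p` is at most `K t^(-1/3) (log t)^(4/3)` and `p ∼ C t ^ (-α)` then `1/3 ≤ α`. -/
theorem third_le_expo {p : ℝ → ℝ} {K : ℝ}
    (hp : ∀ t, 2 ≤ t → p t ≤ K * t ^ (-(1 / 3 : ℝ)) * (Real.log t) ^ (4 / 3 : ℝ)) {C α : ℝ}
    (hC : 0 < C) (h : Tendsto (fun t => p t / (C * t ^ (-α))) atTop (𝓝 1)) : 1 / 3 ≤ α := by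
  by_contra hα
  rw [not_le] at hα
  have hl : Tendsto (fun t : ℝ => (Real.log t) ^ (4 / 3 : ℝ) / t ^ (1 / 3 - α)) atTop (𝓝 0) :=
    (isLittleO_log_rpow_rpow_atTop (4 / 3) (by linarith : (0 : ℝ) < 1 / 3 - α)).tendsto_div_nhds_zero
  have h1 := hl.const_mul (K / C)
  rw [mul_zero] at h1
  have h2 : ∀ᶠ t in atTop, p t / (C * t ^ (-α)) ≤
      K / C * ((Real.log t) ^ (4 / 3 : ℝ) / t ^ (1 / 3 - α)) := by
    filter_upwards [eventually_ge_atTop 2] with t ht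
    have ht0 : (0 : ℝ) < t := by linarith
    have hne : 0 < t ^ (-α) := Real.rpow_pos_of_pos ht0 _
    have hne2 : 0 < t ^ (1 / 3 - α) := Real.rpow_pos_of_pos ht0 _
    rw [div_le_iff₀ (by positivity)]
    have e2 : t ^ (-(1 / 3 : ℝ)) = t ^ (-α) / t ^ (1 / 3 - α) := by
      rw [← Real.rpow_sub ht0]
      congr 1
      ring
    have e3 : K / C * ((Real.log t) ^ (4 / 3 : ℝ) / t ^ (1 / 3 - α)) * (C * t ^ (-α)) =
        K * t ^ (-(1 / 3 : ℝ)) * (Real.log t) ^ (4 / 3 : ℝ) := by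
      rw [e2]
      field_simp
    rw [e3]
    exact hp t ht
  have := le_of_tendsto_of_tendsto h h1 h2
  linarith

end CPS84
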