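import Pool.Agent.LibCPS84.Model
import Pool.Agent.LibCPS84.Basic

/-! The process of the problem as a particle system. -/

namespace CPS84

open Finset MeasureTheory Filter Topology

variable {κ : ℕ} {Ω : Type} {mΩ : MeasurableSpace Ω} {P : Measure Ω} {𝓕 : Filtration ℝ mΩ}
  {U : ℤ → ℤ → Ω → Set ℝ} {X : ℝ → Ω → ℤ → ZMod κ}

private theorem abs_nb_sub (c : ℤ × Bool) : |nb c - c.1| = 1 := by
  rcases c with ⟨y, d⟩
  cases d <;> simp [nb]

private theorem clock_inj (c c' : ℤ × Bool) (h1 : nb c = nb c') (h2 : c.1 = c'.1) : c = c' := by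
  rcases c with ⟨y, d⟩
  rcases c' with ⟨y', d'⟩
  simp only at h2
  subst h2
  cases d <;> cases d' <;> simp [nb] at h1 ⊢ <;> omega

/-- the clock `c` is the process `U (nb c) c.1`; for `poisson` use the injection
`c ↦ (nb c, c.1)` of the clocks into the pairs of neighbours -/
theorem IsCPS.isPS (h : IsCPS κ P 𝓕 U X) : IsPS (cyc κ) P 𝓕 (fun c => U (nb c) c.1) X := by
  classical
  refine ⟨h.prob, h.adapted, fun c s t n => h.meas (nb c) c.1 s t n, ?_, ?_, ?_⟩
  · intro s t hs hst K n A hA
    -- the pair of neighbours of a clock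
    let g : ℤ × Bool → ℤ × ℤ := fun c => (nb c, c.1)
    let g' : ℤ × ℤ → ℤ × Bool := fun e => (e.2, decide (e.1 = e.2 + 1))
    have hg : Function.Injective g := by
      intro c c' hcc
      have h1 : nb c = nb c' := congrArg Prod.fst hcc
      have h2 : c.1 = c'.1 := congrArg Prod.snd hcc
      exact clock_inj c c' h1 h2
    have hg' : ∀ c, g' (g c) = c := by
      rintro ⟨y, d⟩
      cases d
      · simp only [g, g', nb]
        simp
        omega
      · simp only [g, g', nb]
        simp
    have hK : ∀ e ∈ K.image g, |e.1 - e.2| = 1 := by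
      intro e he
      obtain ⟨c, hc, rfl⟩ := Finset.mem_image.1 he
      exact abs_nb_sub c
    have hp := h.poisson s t hs hst (K.image g) hK (fun e => n (g' e)) A hA
    have hset : {ω | ∀ c ∈ K, (U (nb c) c.1 ω ∩ Set.Ioc s t).encard = n c}
        = {ω | ∀ e ∈ K.image g, (U e.1 e.2 ω ∩ Set.Ioc s t).encard = (fun e => n (g' e)) e} := by
      ext ω
      constructor
      · intro hω e he
        obtain ⟨c, hc, rfl⟩ := Finset.mem_image.1 he
        have := hω c hc
        simp only [hg']
        exact this
      · intro hω c hc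
        have := hω (g c) (Finset.mem_image_of_mem g hc)
        simp only [hg'] at this
        exact this
    have hprod : ∏ e ∈ K.image g, (Real.exp (-(t - s)) * (t - s) ^ ((fun e => n (g' e)) e) /
          (((fun e => n (g' e)) e).factorial : ℝ))
        = ∏ c ∈ K, (Real.exp (-(t - s)) * (t - s) ^ (n c) / ((n c).factorial : ℝ)) := by
      rw [Finset.prod_image (fun a _ b _ hab => hg hab)]
      refine Finset.prod_congr rfl fun c _ => ?_
      simp only [hg']
    rw [← hprod, ← hp]
    exact congrArg (fun B => P.real (A ∩ B)) hset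
  · filter_upwards [h.const] with ω hω y s t hs hst hU
    refine hω y s t hs hst fun x hx => ?_
    have hx' : x = y + 1 ∨ x = y - 1 := by
      rcases abs_eq (zero_le_one' ℤ) |>.1 hx with h1 | h1
      · left; omega
      · right; omega
    rcases hx' with rfl | rfl
    · have := hU true
      simpa [nb] using this
    · have := hU false
      simpa [nb] using this
  · filter_upwards [h.jump] with ω hω c τ hτ h0
    exact hω (nb c) c.1 (abs_nb_sub c) τ hτ h0

end CPS84
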