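import Pool.Agent.LibCPS84.ExpL

/-! From the process to expectations: measurability. -/

namespace CPS84

open Finset MeasureTheory Filter Topology
open scoped Classical

variable {S : Type} {u : S → S → S} {Ω : Type} {mΩ : MeasurableSpace Ω} {P : Measure Ω}
  {𝓕 : Filtration ℝ mΩ} {U : ℤ × Bool → Ω → Set ℝ} {X : ℝ → Ω → ℤ → S}

theorem IsPS.meas_cyl (h : IsPS u P 𝓕 U X) (t : ℝ) (ht : 0 ≤ t) (Λ : Finset ℤ) (σ : ℤ → S) :
    MeasurableSet[𝓕 t] {ω | ∀ i ∈ Λ, X t ω i = σ i} := by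
  have e : {ω | ∀ i ∈ Λ, X t ω i = σ i} = ⋂ i ∈ Λ, {ω | X t ω i = σ i} := by
    ext ω
    simp only [Set.mem_setOf_eq, Set.mem_iInter]
  rw [e]
  exact Finset.measurableSet_biInter Λ (fun i _ => h.adapted t ht i (σ i))

theorem IsPS.integrable [Fintype S] [Nonempty S] (h : IsPS u P 𝓕 U X) (t : ℝ) (ht : 0 ≤ t)
    {f : (ℤ → S) → ℝ} {Λ : Finset ℤ} (hf : Dep f Λ) : Integrable (fun ω => f (X t ω)) P := by
  haveI := h.prob
  have e : (fun ω => f (X t ω)) = fun ω => ∑ σ : Λ → S,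
      f (fun i => if h : i ∈ Λ then σ ⟨i, h⟩ else Classical.arbitrary S) *
      ({ω | ∀ i ∈ Λ, X t ω i = (fun i => if h : i ∈ Λ then σ ⟨i, h⟩
        else Classical.arbitrary S) i}.indicator (fun _ => (1 : ℝ)) ω) := by
    funext ω
    rw [hf.eq_sum (X t ω)]
    refine Finset.sum_congr rfl (fun σ _ => ?_)
    rw [Set.indicator_apply]
    simp only [Set.mem_setOf_eq]
  rw [e]
  refine integrable_finset_sum _ (fun σ _ => ?_)
  refine Integrable.const_mul ?_ _
  exact (integrable_const (1 : ℝ)).indicator (𝓕.le t _ (h.meas_cyl t ht Λ _))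

theorem IsPS.exp [Fintype S] [Nonempty S] (h : IsPS u P 𝓕 U X) (t : ℝ) (ht : 0 ≤ t) :
    Exp (fun f : (ℤ → S) → ℝ => ∫ ω, f (X t ω) ∂P) where
  add f g Λ hf hg := integral_add (h.integrable t ht hf) (h.integrable t ht hg)
  smul a f Λ hf := integral_const_mul a _
  mono f g Λ hf hg hfg := integral_mono (h.integrable t ht hf) (h.integrable t ht hg)
    (fun ω => hfg (X t ω))
  one := by
    haveI := h.prob
    simp

/-- the event that in `(s, t]` the clock `c ∈ K` rings `n c` times -/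
def cnt (U : ℤ × Bool → Ω → Set ℝ) (K : Finset (ℤ × Bool)) (n : ℤ × Bool → ℕ) (s t : ℝ) : Set Ω :=
  {ω | ∀ c ∈ K, (U c ω ∩ Set.Ioc s t).encard = n c}

theorem IsPS.meas_cnt (h : IsPS u P 𝓕 U X) (K : Finset (ℤ × Bool)) (n : ℤ × Bool → ℕ) (s t : ℝ) :
    MeasurableSet (cnt U K n s t) := by
  have e : cnt U K n s t = ⋂ c ∈ K, {ω | (U c ω ∩ Set.Ioc s t).encard = n c} := by
    ext ω
    simp only [cnt, Set.mem_setOf_eq, Set.mem_iInter]
  rw [e]
  exact Finset.measurableSet_biInter K (fun c _ => h.measU c s t (n c))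

end CPS84
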