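import Pool.Agent.LibCPS84.Model
import Pool.Agent.LibCPS84.PrA
import Pool.Agent.LibCPS84.FinA

/-! The initial distribution. -/

namespace CPS84

open Finset MeasureTheory Filter Topology

variable {κ : ℕ} {Ω : Type} {mΩ : MeasurableSpace Ω} {P : Measure Ω} {𝓕 : Filtration ℝ mΩ}
  {U : ℤ → ℤ → Ω → Set ℝ} {X : ℝ → Ω → ℤ → ZMod κ}

theorem IsCPS.unif [NeZero κ] (h : IsCPS κ P 𝓕 U X) :
    Unif (fun f : (ℤ → ZMod κ) → ℝ => ∫ ω, f (X 0 ω) ∂P) := by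
  have hP := h.prob
  refine ⟨h.isPS.exp 0 le_rfl, fun Λ σ => ?_⟩
  have hm : MeasurableSet {ω | ∀ i ∈ Λ, X 0 ω i = σ i} :=
    (𝓕.le 0) _ (h.isPS.meas_cyl 0 le_rfl Λ σ)
  have h2 : (∫ ω, Set.indicator {ω | ∀ i ∈ Λ, X 0 ω i = σ i} (1 : Ω → ℝ) ω ∂P)
      = (1 / (Fintype.card (ZMod κ) : ℝ)) ^ Λ.card := by
    rw [integral_indicator_one hm, h.init Λ σ, ZMod.card]
  refine Eq.trans (integral_congr_ae (Filter.Eventually.of_forall fun ω => ?_)) h2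
  by_cases hω : ∀ i ∈ Λ, X 0 ω i = σ i
  · rw [Set.indicator_of_mem (show ω ∈ {ω | ∀ i ∈ Λ, X 0 ω i = σ i} from hω)]
    exact if_pos hω
  · rw [Set.indicator_of_notMem (show ω ∉ {ω | ∀ i ∈ Λ, X 0 ω i = σ i} from hω)]
    exact if_neg hω

end CPS84
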