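import Pool.Agent.LibCPS84.PrB

/-! The event with at least two rings. -/

namespace CPS84

open Finset MeasureTheory Filter Topology
open scoped Classical

variable {S : Type} {u : S → S → S} {Ω : Type} {mΩ : MeasurableSpace Ω} {P : Measure Ω}
  {𝓕 : Filtration ℝ mΩ} {U : ℤ × Bool → Ω → Set ℝ} {X : ℝ → Ω → ℤ → S}

private theorem disj_zero (K : Finset (ℤ × Bool)) (s t : ℝ) (c₀ : ℤ × Bool) (hc : c₀ ∈ K) :
    Disjoint (cnt U K (fun _ => 0) s t) (cnt U K (fun c => if c = c₀ then 1 else 0) s t) := by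
  rw [Set.disjoint_left]
  intro ω h0 h1
  have a0 := h0 c₀ hc
  have a1 := h1 c₀ hc
  simp only [if_true] at a1
  rw [a0] at a1
  simp at a1

private theorem disj_one (K : Finset (ℤ × Bool)) (s t : ℝ) :
    Set.Pairwise (↑K : Set (ℤ × Bool))
      (Function.onFun Disjoint (fun c₀ => cnt U K (fun c => if c = c₀ then 1 else 0) s t)) := by
  intro c₀ hc₀ c₁ _ hne
  show Disjoint _ _
  rw [Set.disjoint_left]
  intro ω h0 h1
  have a0 := h0 c₀ hc₀
  have a1 := h1 c₀ hc₀
  simp only [if_true] at a0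
  simp only [if_neg hne] at a1
  rw [a0] at a1
  simp at a1

private theorem split_int (h : IsPS u P 𝓕 U X) (K : Finset (ℤ × Bool)) (s t : ℝ) {g : Ω → ℝ}
    (hg : Integrable g P) :
    ∫ ω in cnt U K (fun _ => 0) s t ∪
        ⋃ c₀ ∈ K, cnt U K (fun c => if c = c₀ then 1 else 0) s t, g ω ∂P =
      (∫ ω in cnt U K (fun _ => 0) s t, g ω ∂P) +
        ∑ c₀ ∈ K, ∫ ω in cnt U K (fun c => if c = c₀ then 1 else 0) s t, g ω ∂P := by
  have hm : MeasurableSet (⋃ c₀ ∈ K, cnt U K (fun c => if c = c₀ then 1 else 0) s t) :=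
    Finset.measurableSet_biUnion _ fun c _ => h.meas_cnt _ _ _ _
  have hd : Disjoint (cnt U K (fun _ => 0) s t)
      (⋃ c₀ ∈ K, cnt U K (fun c => if c = c₀ then 1 else 0) s t) := by
    rw [Set.disjoint_iUnion₂_right]
    intro c hc
    exact disj_zero K s t c hc
  rw [setIntegral_union hd hm hg.integrableOn hg.integrableOn,
    integral_biUnion_finset K (fun c _ => h.meas_cnt _ _ _ _) (disj_one K s t)
      (fun c _ => hg.integrableOn)]

private theorem real_ineq (x : ℝ) (hx : 0 ≤ x) : 1 - (Real.exp (-x) + x * Real.exp (-x)) ≤ x ^ 2 := by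
  have h1 : 1 - x ≤ Real.exp (-x) := by
    have := Real.add_one_le_exp (-x)
    linarith
  have h2 : (1 - x) * (1 + x) ≤ Real.exp (-x) * (1 + x) :=
    mul_le_mul_of_nonneg_right h1 (by linarith)
  nlinarith

/-- the remaining event has probability at most `(m r)^2`, `m = |clk (fat Λ)|` -/
theorem IsPS.integral_rest [Fintype S] [Nonempty S] (h : IsPS u P 𝓕 U X) (t r : ℝ) (ht : 0 ≤ t)
    (hr : 0 < r) {f : (ℤ → S) → ℝ} {Λ : Finset ℤ} (hf : Dep f Λ) (h1 : ∀ η, |f η| ≤ 1) :
    |(∫ ω, f (X (t + r) ω) ∂P) -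
      ((∫ ω in cnt U (clk (fat Λ)) (fun _ => 0) t (t + r), f (X (t + r) ω) ∂P) +
        ∑ c₀ ∈ clk (fat Λ), ∫ ω in cnt U (clk (fat Λ)) (fun c => if c = c₀ then 1 else 0) t (t + r),
          f (X (t + r) ω) ∂P)| ≤ ((clk (fat Λ)).card * r) ^ 2 := by
  have : IsProbabilityMeasure P := h.prob
  have hint : Integrable (fun ω => f (X (t + r) ω)) P := h.integrable (t + r) (by linarith) hf
  set K := clk (fat Λ) with hK
  set V : Set Ω := cnt U K (fun _ => 0) t (t + r) ∪
    ⋃ c₀ ∈ K, cnt U K (fun c => if c = c₀ then 1 else 0) t (t + r) with hV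
  have hVm : MeasurableSet V :=
    (h.meas_cnt _ _ _ _).union (Finset.measurableSet_biUnion _ fun c _ => h.meas_cnt _ _ _ _)
  rw [← split_int h K t (t + r) hint, ← hV]
  have h2 : ‖(∫ ω, f (X (t + r) ω) ∂P) - ∫ ω in V, f (X (t + r) ω) ∂P‖ ≤ P.real Vᶜ * 1 :=
    norm_integral_sub_setIntegral_le (Eventually.of_forall fun ω => by
      rw [Real.norm_eq_abs]; exact h1 _) hVm hint
  rw [Real.norm_eq_abs, mul_one] at h2
  refine h2.trans ?_
  -- the probability of `V`
  have hone : Integrable (fun _ : Ω => (1 : ℝ)) P := integrable_const 1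
  have hdep : Dep (fun _ : ℤ → S => (1 : ℝ)) ∅ := dep_const 1 ∅
  have h3 : P.real V = Real.exp (-(K.card * r)) + K.card * r * Real.exp (-(K.card * r)) := by
    have e1 : P.real V = ∫ ω in V, (1 : ℝ) ∂P := by
      rw [setIntegral_const]; simp
    rw [e1, hV, split_int h K t (t + r) hone]
    have hz := h.integral_cnt t (t + r) ht (by linarith) K (fun _ => 0) hdep
    have ho : ∀ c₀ : ℤ × Bool, _ := fun c₀ =>
      h.integral_cnt t (t + r) ht (by linarith) K (fun c => if c = c₀ then 1 else 0) hdep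
    rw [hz, Finset.sum_congr rfl fun c₀ _ => ho c₀]
    have hI : ∫ _ : Ω, (1 : ℝ) ∂P = 1 := by simp
    rw [hI]
    have p0 : (∏ c ∈ K, (Real.exp (-(t + r - t)) * (t + r - t) ^ 0 / ((0 : ℕ).factorial : ℝ))) =
        Real.exp (-(K.card * r)) := by
      rw [Finset.prod_const, add_sub_cancel_left, pow_zero, Nat.factorial_zero, Nat.cast_one,
        mul_one, div_one, ← Real.exp_nat_mul]
      congr 1
      ring
    have p1 : ∀ c₀ ∈ K, (∏ c ∈ K, (Real.exp (-(t + r - t)) *
        (t + r - t) ^ (if c = c₀ then 1 else 0) / ((if c = c₀ then 1 else 0 : ℕ).factorial : ℝ))) * 1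
        = r * Real.exp (-(K.card * r)) := by
      intro c₀ hc₀
      have q : ∀ c ∈ K, (Real.exp (-(t + r - t)) *
        (t + r - t) ^ (if c = c₀ then 1 else 0) / ((if c = c₀ then 1 else 0 : ℕ).factorial : ℝ)) =
          Real.exp (-r) * (if c = c₀ then r else 1) := by
        intro c _
        rw [add_sub_cancel_left]
        split_ifs <;> simp
      rw [Finset.prod_congr rfl q, Finset.prod_mul_distrib, Finset.prod_const,
        Finset.prod_ite_eq' K c₀ (fun _ => r), if_pos hc₀, ← Real.exp_nat_mul, mul_one, mul_comm]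
      congr 2
      ring
    rw [p0, Finset.sum_congr rfl p1, Finset.sum_const, nsmul_eq_mul, mul_one]
    ring
  have h4 : P.real Vᶜ = 1 - P.real V := by
    rw [measureReal_compl hVm]; simp
  rw [h4, h3]
  exact real_ineq _ (by positivity)

end CPS84
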