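import Pool.Agent.LibCPS84.PrD
import Pool.Agent.LibCPS84.PrE

/-! The Kolmogorov equation. -/

namespace CPS84

open Finset MeasureTheory Filter Topology
open scoped Classical

variable {S : Type} {u : S → S → S} {Ω : Type} {mΩ : MeasurableSpace Ω} {P : Measure Ω}
  {𝓕 : Filtration ℝ mΩ} {U : ℤ × Bool → Ω → Set ℝ} {X : ℝ → Ω → ℤ → S}

private theorem exp_bound1 (x : ℝ) (hx : 0 ≤ x) : |Real.exp (-x) - 1 + x| ≤ x ^ 2 := by
  rcases le_total x 1 with h | h
  · have h1 := Real.abs_exp_sub_one_sub_id_le (x := -x) (by rw [abs_neg, abs_of_nonneg hx]; exact h)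
    have e : Real.exp (-x) - 1 + x = Real.exp (-x) - 1 - (-x) := by ring
    rw [e]
    calc |Real.exp (-x) - 1 - (-x)| ≤ (-x) ^ 2 := h1
      _ = x ^ 2 := by ring
  · have h1 : Real.exp (-x) ≤ 1 := Real.exp_le_one_iff.mpr (by linarith)
    have h2 : 0 < Real.exp (-x) := Real.exp_pos _
    rw [abs_le]
    constructor
    · nlinarith
    · nlinarith

private theorem exp_bound2 (x : ℝ) (hx : 0 ≤ x) : |Real.exp (-x) - 1| ≤ x := by
  have h1 : Real.exp (-x) ≤ 1 := Real.exp_le_one_iff.mpr (by linarith)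
  have h2 := Real.add_one_le_exp (-x)
  rw [abs_le]
  constructor
  · linarith
  · linarith

/-- `C = 3 m^2`, `m = |clk (fat Λ)|`; `|e^{-x} - 1 + x| ≤ x^2`, `|e^{-x} - 1| ≤ x` -/
theorem IsPS.sol [Fintype S] [Nonempty S] (h : IsPS u P 𝓕 U X) :
    Sol u (fun t (f : (ℤ → S) → ℝ) => ∫ ω, f (X t ω) ∂P) where
  exp t ht := h.exp t ht
  step Λ := by
    refine ⟨3 * ((clk (fat Λ)).card : ℝ) ^ 2, fun f hf h1 t r ht hr hr1 => ?_⟩
    rcases eq_or_lt_of_le hr with hr0 | hr0
    · rw [← hr0]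
      simp
    · have hE := h.exp t ht
      have hmono : ∀ c ∈ clk (fat Λ), insert (nb c) Λ ⊆ fat (fat Λ) := by
        intro c hc i hi
        rcases Finset.mem_insert.mp hi with hi | hi
        · rw [hi]
          exact nb_mem_fat (mem_clk.mp hc)
        · exact subset_fat _ (subset_fat _ hi)
      have hdep : ∀ c ∈ clk (fat Λ), Dep (fun η => f (act u c η)) (fat (fat Λ)) :=
        fun c hc => (dep_act (u := u) hf c).mono (hmono c hc)
      have hf' : Dep f (fat (fat Λ)) :=
        hf.mono (fun i hi => subset_fat _ (subset_fat _ hi))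
      set E0 : ℝ := ∫ ω, f (X t ω) ∂P with hE0
      set E1 : ℤ × Bool → ℝ := fun c => ∫ ω, f (act u c (X t ω)) ∂P with hE1
      have hgen : ∫ ω, gen u (clk Λ) f (X t ω) ∂P =
          ∑ c ∈ clk (fat Λ), E1 c - (clk (fat Λ)).card * E0 := by
        have e1 : ∫ ω, gen u (clk Λ) f (X t ω) ∂P =
            ∫ ω, (∑ c ∈ clk (fat Λ), (f (act u c (X t ω)) - f (X t ω))) ∂P := by
          refine integral_congr_ae (Filter.Eventually.of_forall (fun ω => ?_))
          exact (gen_clk_of_subset (u := u) hf (subset_fat Λ) (X t ω)).symm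
        have e2 := hE.sum (clk (fat Λ)) (fun c η => f (act u c η) - f η)
          (fun c hc => (hdep c hc).sub hf')
        have e3 : ∀ c ∈ clk (fat Λ), ∫ ω, (f (act u c (X t ω)) - f (X t ω)) ∂P = E1 c - E0 :=
          fun c hc => hE.sub (hdep c hc) hf'
        rw [e1]
        refine Eq.trans e2 ?_
        rw [Finset.sum_congr rfl e3, Finset.sum_sub_distrib, Finset.sum_const, nsmul_eq_mul]
      have hrest := h.integral_rest t r ht hr0 hf h1
      rw [h.integral_zero t r ht hr0 hf,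
        Finset.sum_congr rfl (fun c hc => h.integral_one t r ht hr0 hf c hc)] at hrest
      have hb0 : |E0| ≤ 1 := hE.abs_le hf h1
      have hb1 : |∑ c ∈ clk (fat Λ), E1 c| ≤ (clk (fat Λ)).card := by
        calc |∑ c ∈ clk (fat Λ), E1 c| ≤ ∑ c ∈ clk (fat Λ), |E1 c| :=
              Finset.abs_sum_le_sum_abs _ _
          _ ≤ ∑ _c ∈ clk (fat Λ), (1 : ℝ) :=
              Finset.sum_le_sum (fun c hc => hE.abs_le (hdep c hc) (fun η => h1 _))
          _ = (clk (fat Λ)).card := by simp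
      have hsum : ∑ c ∈ clk (fat Λ), r * Real.exp (-((clk (fat Λ)).card : ℝ) * r) *
          ∫ ω, f (act u c (X t ω)) ∂P =
          r * Real.exp (-((clk (fat Λ)).card : ℝ) * r) * ∑ c ∈ clk (fat Λ), E1 c := by
        rw [Finset.mul_sum]
      rw [hsum] at hrest
      set N : ℝ := ((clk (fat Λ)).card : ℝ) with hN
      have hN0 : 0 ≤ N := Nat.cast_nonneg _
      set A : ℝ := ∑ c ∈ clk (fat Λ), E1 c with hA
      have hx : 0 ≤ N * r := mul_nonneg hN0 hr
      have b1 := exp_bound1 (N * r) hx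
      have b2 := exp_bound2 (N * r) hx
      have eexp : Real.exp (-N * r) = Real.exp (-(N * r)) := by
        rw [neg_mul]
      rw [eexp] at hrest
      show |(∫ ω, f (X (t + r) ω) ∂P) - E0 - r * ∫ ω, gen u (clk Λ) f (X t ω) ∂P| ≤ _
      rw [hgen]
      have c1 : |E0 * (Real.exp (-(N * r)) - 1 + N * r)| ≤ (N * r) ^ 2 := by
        rw [abs_mul]
        calc |E0| * |Real.exp (-(N * r)) - 1 + N * r| ≤ 1 * (N * r) ^ 2 :=
              mul_le_mul hb0 b1 (abs_nonneg _) (by norm_num)
          _ = (N * r) ^ 2 := one_mul _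
      have c2 : |r * A * (Real.exp (-(N * r)) - 1)| ≤ (N * r) ^ 2 := by
        rw [abs_mul, abs_mul, abs_of_nonneg hr]
        calc r * |A| * |Real.exp (-(N * r)) - 1| ≤ r * N * (N * r) := by
              refine mul_le_mul ?_ b2 (abs_nonneg _) (mul_nonneg hr hN0)
              exact mul_le_mul_of_nonneg_left hb1 hr
          _ = (N * r) ^ 2 := by ring
      have key : (∫ ω, f (X (t + r) ω) ∂P) - E0 - r * (A - N * E0) =
          ((∫ ω, f (X (t + r) ω) ∂P) - (Real.exp (-(N * r)) * E0 +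
            r * Real.exp (-(N * r)) * A)) + E0 * (Real.exp (-(N * r)) - 1 + N * r) +
            r * A * (Real.exp (-(N * r)) - 1) := by ring
      rw [key]
      calc _ ≤ |((∫ ω, f (X (t + r) ω) ∂P) - (Real.exp (-(N * r)) * E0 +
            r * Real.exp (-(N * r)) * A)) + E0 * (Real.exp (-(N * r)) - 1 + N * r)| +
            |r * A * (Real.exp (-(N * r)) - 1)| := abs_add_le _ _
        _ ≤ |(∫ ω, f (X (t + r) ω) ∂P) - (Real.exp (-(N * r)) * E0 +
            r * Real.exp (-(N * r)) * A)| + |E0 * (Real.exp (-(N * r)) - 1 + N * r)| +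
            |r * A * (Real.exp (-(N * r)) - 1)| := by
              have := abs_add_le ((∫ ω, f (X (t + r) ω) ∂P) - (Real.exp (-(N * r)) * E0 +
                r * Real.exp (-(N * r)) * A)) (E0 * (Real.exp (-(N * r)) - 1 + N * r))
              linarith
        _ ≤ (N * r) ^ 2 + (N * r) ^ 2 + (N * r) ^ 2 := by
              linarith
        _ = 3 * N ^ 2 * r ^ 2 := by ring

end CPS84
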