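import Pool.Agent.LibCPS84.ExpC1
import Pool.Agent.LibCPS84.ExpC2
import Pool.Agent.LibCPS84.ExpC3
import Pool.Agent.LibCPS84.Alg

/-! The functional. -/

namespace CPS84

open Finset
open scoped Classical

variable {κ : ℕ}

/-- the functional -/
noncomputable def Phi (A : ℕ) (η : ℤ → ZMod κ) : ℝ :=
  ind (EW η) + ∑ k ∈ Icc 2 A, ((2 * ((A : ℝ) - k) + 1) / (A : ℝ) ^ 2) * ind (EN k η)

private theorem ind_nonneg_P (p : Prop) : 0 ≤ ind p := by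
  unfold ind
  split_ifs <;> norm_num

private theorem coef_nonneg {A k : ℕ} (hk : k ∈ Icc 2 A) :
    0 ≤ (2 * ((A : ℝ) - k) + 1) / (A : ℝ) ^ 2 := by
  rw [Finset.mem_Icc] at hk
  have : (k : ℝ) ≤ A := by exact_mod_cast hk.2
  apply div_nonneg
  · linarith
  · positivity

private theorem dep_EW_A (A : ℕ) (hA : 2 ≤ A) :
    Dep (fun η : ℤ → ZMod κ => ind (EW η)) (Icc 0 (A : ℤ)) := by
  refine (dep_EW (κ := κ)).mono ?_
  intro i hi
  rw [Finset.mem_Icc] at hi ⊢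
  constructor <;> omega

private theorem dep_EN_A {A k : ℕ} (hk : k ∈ Icc 2 A) :
    Dep (fun η : ℤ → ZMod κ => ind (EN k η)) (Icc 0 (A : ℤ)) := by
  rw [Finset.mem_Icc] at hk
  refine (dep_EN (κ := κ) k (by omega)).mono ?_
  intro i hi
  rw [Finset.mem_Icc] at hi ⊢
  constructor <;> omega

private theorem dep_sum_A (A : ℕ) :
    Dep (fun η : ℤ → ZMod κ =>
      ∑ k ∈ Icc 2 A, ((2 * ((A : ℝ) - k) + 1) / (A : ℝ) ^ 2) * ind (EN k η)) (Icc 0 (A : ℤ)) :=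
  Dep.sum (Icc 2 A)
    (fun k (η : ℤ → ZMod κ) => ((2 * ((A : ℝ) - k) + 1) / (A : ℝ) ^ 2) * ind (EN k η))
    (fun _ hk => Dep.const_mul _ (dep_EN_A hk))

theorem dep_Phi (A : ℕ) (hA : 2 ≤ A) : Dep (Phi (κ := κ) A) (Icc 0 (A : ℤ)) :=
  Dep.add (dep_EW_A A hA) (dep_sum_A A)

private theorem E_Phi {E : ((ℤ → ZMod κ) → ℝ) → ℝ} (hE : Inv E) (A : ℕ) (hA : 2 ≤ A) :
    E (Phi A) = E (fun η => ind (EW η)) +
      ∑ k ∈ Icc 2 A, ((2 * ((A : ℝ) - k) + 1) / (A : ℝ) ^ 2) * E (fun η => ind (EN k η)) := by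
  have h1 : E (Phi A) = E (fun η => ind (EW η)) + E (fun η : ℤ → ZMod κ =>
      ∑ k ∈ Icc 2 A, ((2 * ((A : ℝ) - k) + 1) / (A : ℝ) ^ 2) * ind (EN k η)) :=
    hE.exp.add _ _ _ (dep_EW_A A hA) (dep_sum_A A)
  have h2 := hE.exp.sum (Icc 2 A)
    (fun k (η : ℤ → ZMod κ) => ((2 * ((A : ℝ) - k) + 1) / (A : ℝ) ^ 2) * ind (EN k η))
    (fun _ hk => Dep.const_mul _ (dep_EN_A hk))
  rw [h1, h2]
  congr 1
  exact Finset.sum_congr rfl fun k hk => hE.exp.smul _ _ _ (dep_EN_A hk)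

/-- `gen_add`, `gen_sum`, `gen_const_mul`, `gen_clk_of_subset`, then `alg_main` -/
theorem gen_Phi (hκ : 3 ≤ κ) {E : ((ℤ → ZMod κ) → ℝ) → ℝ} (hE : Inv E) (A : ℕ) (hA : 2 ≤ A) :
    E (gen (cyc κ) (clk (Icc 0 (A : ℤ))) (Phi A)) ≤
      -(1 / (A : ℝ) ^ 2) * (E (fun η => ind (EN 1 η)) - 1 / ((A : ℝ) + 1)) := by
  -- the generator of the functional
  have hgen : gen (cyc κ) (clk (Icc 0 (A : ℤ))) (Phi A) = fun η =>
      gen (cyc κ) (clk (Icc 0 (A : ℤ))) (fun η => ind (EW η)) η +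
        ∑ k ∈ Icc 2 A, ((2 * ((A : ℝ) - k) + 1) / (A : ℝ) ^ 2) *
          gen (cyc κ) (clk (Icc 0 (A : ℤ))) (fun η => ind (EN k η)) η := by
    funext η
    have h1 : gen (cyc κ) (clk (Icc 0 (A : ℤ))) (Phi A) η =
        gen (cyc κ) (clk (Icc 0 (A : ℤ))) (fun η => ind (EW η)) η +
        gen (cyc κ) (clk (Icc 0 (A : ℤ))) (fun η =>
          ∑ k ∈ Icc 2 A, ((2 * ((A : ℝ) - k) + 1) / (A : ℝ) ^ 2) * ind (EN k η)) η :=
      gen_add _ η
    rw [h1, gen_sum]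
    congr 1
    exact Finset.sum_congr rfl fun k _ => gen_const_mul _ _ η
  have hW : Dep (gen (cyc κ) (clk (Icc 0 (A : ℤ))) (fun η => ind (EW η)))
      (fat (Icc 0 (A : ℤ))) := dep_gen (dep_EW_A A hA)
  have hN : ∀ k ∈ Icc 2 A, Dep (gen (cyc κ) (clk (Icc 0 (A : ℤ))) (fun η => ind (EN k η)))
      (fat (Icc 0 (A : ℤ))) := fun k hk => dep_gen (dep_EN_A hk)
  have hEsum : E (gen (cyc κ) (clk (Icc 0 (A : ℤ))) (Phi A)) =
      E (gen (cyc κ) (clk (Icc 0 (A : ℤ))) (fun η => ind (EW η))) +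
        ∑ k ∈ Icc 2 A, ((2 * ((A : ℝ) - k) + 1) / (A : ℝ) ^ 2) *
          E (gen (cyc κ) (clk (Icc 0 (A : ℤ))) (fun η => ind (EN k η))) := by
    rw [hgen]
    have h1 := hE.exp.add _ _ _ hW
      (Dep.sum (Icc 2 A) (fun k (η : ℤ → ZMod κ) => ((2 * ((A : ℝ) - k) + 1) / (A : ℝ) ^ 2) *
          gen (cyc κ) (clk (Icc 0 (A : ℤ))) (fun η => ind (EN k η)) η)
        (fun k hk => Dep.const_mul _ (hN k hk)))
    have h2 := hE.exp.sum (Icc 2 A)
      (fun k (η : ℤ → ZMod κ) => ((2 * ((A : ℝ) - k) + 1) / (A : ℝ) ^ 2) *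
          gen (cyc κ) (clk (Icc 0 (A : ℤ))) (fun η => ind (EN k η)) η)
        (fun k hk => Dep.const_mul _ (hN k hk))
    rw [h1, h2]
    congr 1
    exact Finset.sum_congr rfl fun k hk => hE.exp.smul _ _ _ (hN k hk)
  have hWA : gen (cyc κ) (clk (Icc 0 (A : ℤ))) (fun η : ℤ → ZMod κ => ind (EW η)) =
      gen (cyc κ) (clk (Icc 0 1)) (fun η => ind (EW η)) := by
    funext η
    refine gen_clk_of_subset (dep_EW (κ := κ)) ?_ η
    intro i hi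
    rw [Finset.mem_Icc] at hi ⊢
    constructor <;> omega
  have hNA : ∀ k ∈ Icc 2 A,
      gen (cyc κ) (clk (Icc 0 (A : ℤ))) (fun η : ℤ → ZMod κ => ind (EN k η)) =
      gen (cyc κ) (clk (Icc 0 (k : ℤ))) (fun η => ind (EN k η)) := by
    intro k hk
    funext η
    rw [Finset.mem_Icc] at hk
    refine gen_clk_of_subset (dep_EN (κ := κ) k (by omega)) ?_ η
    intro i hi
    rw [Finset.mem_Icc] at hi ⊢
    constructor <;> omega
  have hmain := alg_main A hA (fun k => E (fun η => ind (EN k η)))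
    (fun j => E (fun η => ind (ET j η)))
    (fun k => E (gen (cyc κ) (clk (Icc 0 (k : ℤ))) (fun η => ind (EN k η))))
    (E (fun η => ind (EJ η))) (E (fun η => ind (EE η)))
    (E (gen (cyc κ) (clk (Icc 0 1)) (fun η => ind (EW η))))
    (fun k hk => exp_EN_anti hE k hk)
    (fun k hk => hE.exp.nonneg (dep_EN (κ := κ) k hk) (fun η => ind_nonneg_P _))
    (fun j hj => hE.exp.nonneg (dep_ET (κ := κ) j hj) (fun η => ind_nonneg_P _))
    (hE.exp.nonneg (dep_EE (κ := κ)) (fun η => ind_nonneg_P _))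
    (hE.exp.nonneg (dep_EJ (κ := κ)) (fun η => ind_nonneg_P _))
    (exp_EJ hκ hE) (exp_sum_ET hκ hE A) (le_of_eq (exp_EW hκ hE))
    (fun k hk _ => exp_genEN hκ hE k hk)
  have hlong := exp_EN_long hκ hE A
  have hA1 : (0 : ℝ) < (A : ℝ) + 1 := by positivity
  have hlong' : E (fun η => ind (EN (A + 1) η)) ≤ 1 / ((A : ℝ) + 1) := by
    rw [le_div_iff₀ hA1]
    linarith
  rw [hEsum, hWA, Finset.sum_congr rfl fun k hk => by rw [hNA k hk]]
  refine hmain.trans ?_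
  have hc : 0 ≤ 1 / (A : ℝ) ^ 2 := by positivity
  have := mul_le_mul_of_nonneg_left hlong' hc
  show -(1 / (A : ℝ) ^ 2) * (E (fun η => ind (EN 1 η)) - E (fun η => ind (EN (A + 1) η))) ≤ _
  linarith

theorem Phi_ge {E : ((ℤ → ZMod κ) → ℝ) → ℝ} (hE : Inv E) (A : ℕ) (hA : 2 ≤ A) :
    E (fun η => ind (EW η)) ≤ E (Phi A) := by
  rw [E_Phi hE A hA]
  have : 0 ≤ ∑ k ∈ Icc 2 A, ((2 * ((A : ℝ) - k) + 1) / (A : ℝ) ^ 2) *
      E (fun η => ind (EN k η)) := by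
    refine Finset.sum_nonneg fun k hk => mul_nonneg (coef_nonneg hk) ?_
    exact hE.exp.nonneg (dep_EN_A hk) (fun η => ind_nonneg_P _)
  linarith

theorem Phi_le {E : ((ℤ → ZMod κ) → ℝ) → ℝ} (hE : Inv E) (A : ℕ) (hA : 2 ≤ A) :
    E (Phi A) ≤ E (fun η => ind (EW η)) + E (fun η => ind (EN 1 η)) := by
  rw [E_Phi hE A hA]
  have h1 : ∀ k ∈ Icc 2 A, ((2 * ((A : ℝ) - k) + 1) / (A : ℝ) ^ 2) *
      E (fun η => ind (EN k η)) ≤ ((2 * ((A : ℝ) - k) + 1) / (A : ℝ) ^ 2) *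
      E (fun η => ind (EN 1 η)) := by
    intro k hk
    refine mul_le_mul_of_nonneg_left ?_ (coef_nonneg hk)
    have hk' : 1 ≤ k := by rw [Finset.mem_Icc] at hk; omega
    clear hk
    induction k, hk' using Nat.le_induction with
    | base => exact le_rfl
    | succ n hn ih => exact (exp_EN_anti hE n hn).trans ih
  have h2 := Finset.sum_le_sum h1
  rw [← Finset.sum_mul] at h2
  have h3 : 0 ≤ E (fun η => ind (EN 1 η)) :=
    hE.exp.nonneg (dep_EN (κ := κ) 1 le_rfl) (fun η => ind_nonneg_P _)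
  have h4 := mul_le_mul_of_nonneg_right (sum_gamma A hA) h3
  linarith

end CPS84
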