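import Pool.Agent.LibCPS84.Low4
import Pool.Agent.LibCPS84.PhiL
import Pool.Agent.LibCPS84.An2

/-! The upper bound for three colours. -/

namespace CPS84

open Finset
open scoped Classical

/-- the density of the walls does not increase (`exp_EW`, `Sol.le_of_gen_le` with `δ = 0`) -/
theorem EW_anti {κ : ℕ} [NeZero κ] (hκ : 3 ≤ κ) {m : ℝ → ((ℤ → ZMod κ) → ℝ) → ℝ}
    (hm : Sol (cyc κ) m) (h0 : Unif (m 0)) (a b : ℝ) (ha : 0 ≤ a) (hab : a ≤ b) :
    m b (fun η => ind (EW η)) ≤ m a (fun η => ind (EW η)) := by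
  have h := hm.le_of_gen_le (f := fun η => ind (EW η)) dep_EW a b 0 ha hab (fun s hs _ => by
    have hs0 : 0 ≤ s := le_trans ha hs
    have hE : Inv (m s) := inv_of_unif hm h0 s hs0
    rw [exp_EW hκ hE]
    have h1 := exp_EN_anti hE 1 le_rfl
    have h2 : 0 ≤ m s (fun η => ind (EE η)) :=
      hE.exp.nonneg dep_EE (fun η => by unfold ind; split_ifs <;> norm_num)
    have h3 : m s (fun η => ind (EN 2 η)) ≤ m s (fun η => ind (EN 1 η)) := h1
    linarith)
  linarith

/-- `rate` with `ρ t = m t (ind EW)`, `Φ A t = m t (Phi A)` -/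
theorem upper_three {m : ℝ → ((ℤ → ZMod 3) → ℝ) → ℝ} (hm : Sol (cyc 3) m) (h0 : Unif (m 0))
    (t : ℝ) (ht : 1 ≤ t) : m t (fun η => ind (EW η)) ≤ 60 / Real.sqrt t := by
  have hinv : ∀ s, 0 ≤ s → Inv (m s) := fun s hs => inv_of_unif hm h0 s hs
  refine rate (fun s => m s (fun η => ind (EW η))) (fun A s => m s (Phi A))
    (fun a b ha hab => EW_anti le_rfl hm h0 a b ha hab) ?_ ?_ ?_ ?_ ?_ t ht
  · intro s hs
    exact (hinv s hs).exp.nonneg dep_EW (fun η => by unfold ind; split_ifs <;> norm_num)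
  · intro s hs
    have h1 : m s (fun η => ind (EW η)) ≤ m s (fun _ => 1) :=
      (hinv s hs).exp.mono _ _ (Icc 0 1) dep_EW (dep_const 1 _)
        (fun η => by unfold ind; split_ifs <;> norm_num)
    rw [(hinv s hs).exp.one] at h1
    exact h1
  · intro A s hA hs
    exact Phi_ge (hinv s hs) A hA
  · intro A s hA hs
    have h1 := Phi_le (hinv s hs) A hA
    have h2 := exp_EW_three (hinv s hs)
    show m s (Phi A) ≤ 3 / 2 * m s (fun η => ind (EW η))
    linarith
  · intro A a b δ hA ha hab hδ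
    refine hm.le_of_gen_le (dep_Phi A hA) a b δ ha hab (fun s hs hs' => ?_)
    have hs0 : 0 ≤ s := le_trans ha hs
    have h1 := gen_Phi le_rfl (hinv s hs0) A hA
    have h2 := exp_EW_three (hinv s hs0)
    have h3 := hδ s hs hs'
    have h4 : m s (fun η => ind (EN 1 η)) = m s (fun η => ind (EW η)) / 2 := by linarith
    rw [h4] at h1
    exact h1.trans h3

end CPS84
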