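import Pool.Agent.LibCPS84.FinA
import Pool.Agent.LibCPS84.FinB
import Pool.Agent.LibCPS84.PrF
import Pool.Agent.LibCPS84.Up3

/-! The final theorem for three colours. -/

namespace CPS84

open Finset MeasureTheory Filter Topology

variable {κ : ℕ} {Ω : Type} {mΩ : MeasurableSpace Ω} {P : Measure Ω} {𝓕 : Filtration ℝ mΩ}
  {U : ℤ → ℤ → Ω → Set ℝ} {X : ℝ → Ω → ℤ → ZMod κ}

private theorem meas_ne3 {X : ℝ → Ω → ℤ → ZMod 3} (h : IsCPS 3 P 𝓕 U X) (t : ℝ) (ht : 0 ≤ t)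
    (x y : ℤ) : MeasurableSet {ω | X t ω x ≠ X t ω y} := by
  have h1 : {ω | X t ω x ≠ X t ω y}
      = (⋃ a : ZMod 3, ({ω | X t ω x = a} ∩ {ω | X t ω y = a}))ᶜ := by
    ext ω
    simp only [Set.mem_ofPred_eq, Set.mem_compl_iff, Set.mem_iUnion, Set.mem_inter_iff, ne_eq]
    constructor
    · rintro hne ⟨a, ha, hb⟩
      exact hne (ha.trans hb.symm)
    · intro hne he
      exact hne ⟨X t ω y, he, rfl⟩
  rw [h1]
  refine (MeasurableSet.iUnion fun a => ?_).compl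
  exact ((𝓕.le t) _ (h.adapted t ht x a)).inter ((𝓕.le t) _ (h.adapted t ht y a))

theorem final3 {X : ℝ → Ω → ℤ → ZMod 3} (h : IsCPS 3 P 𝓕 U X) (t : ℝ) (ht : 1 ≤ t) (x : ℤ) :
    1 / (200 * t) ≤ P.real {ω | X t ω x ≠ X t ω (x + 1)} ∧
      P.real {ω | X t ω x ≠ X t ω (x + 1)} ≤ 60 / Real.sqrt t := by
  have hP := h.prob
  have ht0 : (0 : ℝ) ≤ t := le_trans zero_le_one ht
  have hsol : Sol (cyc 3) (fun t (f : (ℤ → ZMod 3) → ℝ) => ∫ ω, f (X t ω) ∂P) := h.isPS.sol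
  have hunif : Unif ((fun t (f : (ℤ → ZMod 3) → ℝ) => ∫ ω, f (X t ω) ∂P) 0) := h.unif
  have hinv := hsol.inv_of_inv (φ := id) (fun _ _ => rfl) (r := 1) (Or.inl rfl) x
    (fun f Λ hf => unif_sym hunif Function.bijective_id (Or.inl rfl) x hf) t ht0
    (f := fun η => ind (EW η)) dep_EW
  have hlow := lower (le_of_lt (by norm_num)) (by norm_num) hsol hunif t ht
  have hup := upper_three hsol hunif t ht
  have hval : (∫ ω, ind (EW (sym id 1 x (X t ω))) ∂P)
      = P.real {ω | X t ω x ≠ X t ω (x + 1)} := by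
    have hfun : (fun ω => ind (EW (sym id 1 x (X t ω))))
        = Set.indicator {ω | X t ω x ≠ X t ω (x + 1)} (1 : Ω → ℝ) := by
      funext ω
      have hiff : EW (sym id 1 x (X t ω)) ↔ X t ω x ≠ X t ω (x + 1) := by
        simp only [EW, sym, id, mul_zero, mul_one, zero_add]
        rw [add_comm 1 x]
      by_cases hω : X t ω x ≠ X t ω (x + 1)
      · rw [Set.indicator_of_mem (show ω ∈ {ω | X t ω x ≠ X t ω (x + 1)} from hω)]
        simp only [ind]
        rw [if_pos (hiff.2 hω), Pi.one_apply]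
      · rw [Set.indicator_of_notMem (show ω ∉ {ω | X t ω x ≠ X t ω (x + 1)} from hω)]
        simp only [ind]
        rw [if_neg (fun hc => hω (hiff.1 hc))]
    rw [hfun, integral_indicator_one (meas_ne3 h t ht0 x (x + 1))]
  have hinv' : (∫ ω, ind (EW (sym id 1 x (X t ω))) ∂P) = ∫ ω, ind (EW (X t ω)) ∂P := hinv
  rw [← hval, hinv']
  exact ⟨hlow, hup⟩

end CPS84
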