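import Pool.Agent.LibCPS84.RcA

/-! Real analysis for the logarithmic rate: recursion. -/

namespace CPS84

open Filter Topology

theorem exists_delta (c : ℝ) (hc : 0 < c) (hc1 : c < 1) :
    ∃ δ : ℝ, 0 < δ ∧ δ ≤ 1 / 8 ∧ (1 / 2 + 2 * δ) * (2 + δ) ^ c ≤ 1 := by
  have hcont : ContinuousAt (fun δ : ℝ => (1 / 2 + 2 * δ) * (2 + δ) ^ c) 0 := by
    apply ContinuousAt.mul
    · fun_prop
    · apply ContinuousAt.rpow_const
      · fun_prop
      · left
        norm_num
  have h0 : (fun δ : ℝ => (1 / 2 + 2 * δ) * (2 + δ) ^ c) 0 < 1 := by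
    have h1 : (2 : ℝ) ^ c < 2 ^ (1 : ℝ) := Real.rpow_lt_rpow_of_exponent_lt (by norm_num) hc1
    rw [Real.rpow_one] at h1
    show (1 / 2 + 2 * (0 : ℝ)) * (2 + 0) ^ c < 1
    rw [add_zero]
    linarith
  have hev := hcont.eventually_lt_const h0
  rw [Metric.eventually_nhds_iff] at hev
  obtain ⟨ε, hε, hball⟩ := hev
  refine ⟨min (ε / 2) (1 / 8), by positivity, min_le_right _ _, ?_⟩
  have hlt : dist (min (ε / 2) (1 / 8)) (0 : ℝ) < ε := by
    have h2 : (0 : ℝ) < min (ε / 2) (1 / 8) := by positivity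
    have h3 : min (ε / 2) (1 / 8) ≤ ε / 2 := min_le_left _ _
    rw [Real.dist_eq, sub_zero, abs_of_pos h2]
    linarith
  exact (hball hlt).le

private theorem pow_big (Z q : ℝ) (j : ℕ) (hZ : 2 ≤ Z) (hq : (2 : ℝ) ^ j ≤ q) :
    Z * 2 ^ j ≤ Z ^ q := by
  have h1 : Z ^ (((2 ^ j : ℕ) : ℝ)) ≤ Z ^ q :=
    Real.rpow_le_rpow_of_exponent_le (by linarith) (by push_cast; exact hq)
  rw [Real.rpow_natCast] at h1
  refine le_trans ?_ h1
  have h2 : j ≤ 2 ^ j - 1 := by
    have := Nat.lt_two_pow_self (n := j)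
    omega
  have h3 : 2 ^ j = (2 ^ j - 1) + 1 := by
    have := Nat.one_le_two_pow (n := j)
    omega
  have h4 : Z ^ (2 ^ j : ℕ) = Z ^ (2 ^ j - 1 : ℕ) * Z := by
    conv_lhs => rw [h3]
    rw [pow_succ]
  rw [h4, mul_comm]
  have h5 : (2 : ℝ) ^ j ≤ Z ^ (2 ^ j - 1 : ℕ) := by
    calc (2 : ℝ) ^ j ≤ 2 ^ (2 ^ j - 1 : ℕ) := pow_le_pow_right₀ (by norm_num) h2
      _ ≤ Z ^ (2 ^ j - 1 : ℕ) := pow_le_pow_left₀ (by norm_num) hZ _
  exact mul_le_mul_of_nonneg_right h5 (by linarith)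

/-- `s_j = S ^ ((2 + δ) ^ j)`, `θ = 1/2 + 2 δ`, `ρ (s_j) ≤ θ ^ j` by induction: if
`ρ (s_j) > θ ^ (j + 1)` then `b (s_j) ≥ s_j ^ (-δ/8)` and `3 N (s_j) ≤ (δ / 2) θ ^ j`, because
`N (s) ≤ 4 s ^ (-1/3)` and `S` is large (`S ^ (δ/8) ≥ 4`, `S ^ (1/3) ≥ 32`, `S ^ (1/3) ≥ 24 / δ`);
use `log_step` and `ρ = b + 2 N`.  For `s_j ≤ t < s_{j+1}`: `θ ^ j (log t) ^ c ≤ 2 (log S) ^ c`. -/
theorem log_rate (c : ℝ) (hc : 0 < c) (hc1 : c < 1) : ∃ C : ℝ, 0 < C ∧
    ∀ (ρ b N : ℝ → ℝ), (∀ t, 0 ≤ t → ρ t = b t + 2 * N t) → (∀ t, 0 ≤ t → 0 ≤ b t) →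
      (∀ t, 0 ≤ t → 0 ≤ N t) → (∀ t, 0 ≤ t → ρ t ≤ 1) →
      (∀ s t, 0 ≤ s → s ≤ t → ρ t ≤ ρ s) → (∀ s t, 0 ≤ s → s ≤ t → N t ≤ N s) →
      (∀ t, 0 ≤ t → (N t) ^ 3 * t ≤ 36) →
      (∀ (s T μ l : ℝ) (W M : ℕ), 0 ≤ s → 0 < T → 0 < μ → 0 < l → 1 ≤ W → 1 ≤ M →
        b (s + T) ≤ b s / 2 + μ / (4 * W) +
          W * ((4 * M + 1) * b s + W * (16 * s * Real.exp (1 - M + 2 * Real.exp 1 * s))) /
            (4 * μ * W) + l / (2 * W) + 3 * (W : ℝ) ^ 3 / (2 * l * T) + N s) →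
      ∀ t, 2 ≤ t → ρ t ≤ C * (Real.log t) ^ (-c) := by
  obtain ⟨δ, hδ, hδ8, hθc⟩ := exists_delta c hc hc1
  obtain ⟨s₀, hs₀, hstep⟩ := log_step δ hδ hδ8
  have e1 : ∀ᶠ S : ℝ in atTop, (4 : ℝ) ≤ S ^ (δ / 8) :=
    (tendsto_rpow_atTop (by positivity)).eventually_ge_atTop 4
  have e2 : ∀ᶠ S : ℝ in atTop, (32 : ℝ) ≤ S ^ ((1 : ℝ) / 3) :=
    (tendsto_rpow_atTop (by positivity)).eventually_ge_atTop 32
  have e3 : ∀ᶠ S : ℝ in atTop, 24 / δ ≤ S ^ ((1 : ℝ) / 3) :=
    (tendsto_rpow_atTop (by positivity)).eventually_ge_atTop (24 / δ)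
  obtain ⟨S, ⟨⟨hY, hX⟩, hX'⟩, hS⟩ := (((e1.and e2).and e3).and (eventually_ge_atTop s₀)).exists
  have hS2 : 2 ≤ S := hs₀.trans hS
  have hL : 0 < Real.log S := Real.log_pos (by linarith)
  refine ⟨3 * (Real.log S) ^ c, by positivity, ?_⟩
  intro ρ b N hρ hb hN hρ1 hanti hNanti hN3 hkey t ht
  have hstep' := hstep b N hb (fun t ht => by
    have h1 := hρ t ht
    have h2 := hN t ht
    have h3 := hρ1 t ht
    linarith) hkey
  set θ : ℝ := 1 / 2 + 2 * δ with hθ
  have hθ0 : 1 / 2 ≤ θ := by rw [hθ]; linarith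
  set u : ℝ := 2 + δ with hu
  have hu2 : 2 ≤ u := by rw [hu]; linarith
  have hq : ∀ j : ℕ, (2 : ℝ) ^ j ≤ u ^ j := fun j => pow_le_pow_left₀ (by norm_num) hu2 j
  have hq1 : ∀ j : ℕ, (1 : ℝ) ≤ u ^ j := fun j => one_le_pow₀ (by linarith)
  -- the sequence
  have hs1 : ∀ j : ℕ, S ≤ S ^ (u ^ j) := fun j => by
    calc S = S ^ (1 : ℝ) := (Real.rpow_one S).symm
      _ ≤ S ^ (u ^ j) := Real.rpow_le_rpow_of_exponent_le (by linarith) (hq1 j)
  have hs0 : ∀ j : ℕ, 0 < S ^ (u ^ j) := fun j => by positivity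
  have hsucc : ∀ j : ℕ, S ^ (u ^ (j + 1)) = (S ^ (u ^ j)) ^ u := fun j => by
    rw [← Real.rpow_mul (by linarith), pow_succ]
  have hmono : ∀ j : ℕ, S ^ (u ^ j) ≤ S ^ (u ^ (j + 1)) := fun j =>
    Real.rpow_le_rpow_of_exponent_le (by linarith) (pow_le_pow_right₀ (by linarith) (by omega))
  have hmain : ∀ j : ℕ, ρ (S ^ (u ^ j)) ≤ θ ^ j := by
    intro j
    induction j with
    | zero =>
      rw [pow_zero]
      exact hρ1 _ (hs0 0).le
    | succ j ih =>
      by_cases hcase : ρ (S ^ (u ^ j)) ≤ θ ^ (j + 1)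
      · exact (hanti _ _ (hs0 j).le (hmono j)).trans hcase
      · push Not at hcase
        set s : ℝ := S ^ (u ^ j) with hs
        have hs0' : 0 < s := hs0 j
        set x : ℝ := s ^ ((1 : ℝ) / 3) with hx
        have hx0 : 0 < x := by positivity
        have hx3 : x ^ 3 = s := by
          rw [hx, ← Real.rpow_natCast, ← Real.rpow_mul hs0'.le]
          norm_num
        have hxq : x = (S ^ ((1 : ℝ) / 3)) ^ (u ^ j) := by
          rw [hx, hs, ← Real.rpow_mul (by linarith), ← Real.rpow_mul (by linarith), mul_comm]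
        have hx1 : S ^ ((1 : ℝ) / 3) * 2 ^ j ≤ x := by
          rw [hxq]
          exact pow_big _ _ j (by linarith) (hq j)
        have hyq : s ^ (δ / 8) = (S ^ (δ / 8)) ^ (u ^ j) := by
          rw [hs, ← Real.rpow_mul (by linarith), ← Real.rpow_mul (by linarith), mul_comm]
        have hy1 : S ^ (δ / 8) * 2 ^ j ≤ s ^ (δ / 8) := by
          rw [hyq]
          exact pow_big _ _ j (by linarith) (hq j)
        have h2j : (0 : ℝ) < 2 ^ j := by positivity
        have hNx : N s * x ≤ 4 := by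
          by_contra hcon
          push Not at hcon
          have h1 : (4 : ℝ) ^ 3 < (N s * x) ^ 3 := pow_lt_pow_left₀ hcon (by norm_num) (by norm_num)
          rw [mul_pow, hx3] at h1
          have h2 := hN3 s hs0'.le
          norm_num at h1
          linarith
        have hNs : N s ≤ 4 / x := by
          rw [le_div_iff₀ hx0]
          exact hNx
        have hNa : 2 * N s ≤ (1 / 2) ^ (j + 2) := by
          have h1 : 32 * 2 ^ j ≤ x := le_trans (mul_le_mul_of_nonneg_right hX h2j.le) hx1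
          have h2 : 4 / x ≤ 4 / (32 * 2 ^ j) := div_le_div_of_nonneg_left (by norm_num)
            (by positivity) h1
          have h3 : (4 : ℝ) / (32 * 2 ^ j) * 2 = (1 / 2) ^ (j + 2) := by
            rw [pow_add, one_div_pow]
            field_simp
            norm_num
          linarith
        have hNb : 3 * N s ≤ δ / 2 * (1 / 2) ^ j := by
          have h1 : 24 / δ * 2 ^ j ≤ x := le_trans (mul_le_mul_of_nonneg_right hX' h2j.le) hx1
          have h2 : 4 / x ≤ 4 / (24 / δ * 2 ^ j) := div_le_div_of_nonneg_left (by norm_num)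
            (by positivity) h1
          have h3 : (4 : ℝ) / (24 / δ * 2 ^ j) * 3 = δ / 2 * (1 / 2) ^ j := by
            rw [one_div_pow]
            field_simp
            norm_num
          linarith
        have hyb : s ^ (-(δ / 8)) ≤ (1 / 2) ^ (j + 2) := by
          have h1 : 4 * 2 ^ j ≤ s ^ (δ / 8) := le_trans (mul_le_mul_of_nonneg_right hY h2j.le) hy1
          rw [Real.rpow_neg hs0'.le, one_div_pow, ← one_div]
          apply one_div_le_one_div_of_le (by positivity)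
          calc (2 : ℝ) ^ (j + 2) = 4 * 2 ^ j := by rw [pow_add]; ring
            _ ≤ _ := h1
        have hθj : (1 / 2 : ℝ) ^ (j + 1) ≤ θ ^ (j + 1) := pow_le_pow_left₀ (by norm_num) hθ0 _
        have hθj' : (1 / 2 : ℝ) ^ j ≤ θ ^ j := pow_le_pow_left₀ (by norm_num) hθ0 _
        have hhalf : (1 / 2 : ℝ) ^ (j + 1) = (1 / 2) ^ (j + 2) + (1 / 2) ^ (j + 2) := by
          rw [pow_succ _ (j + 1)]
          ring
        have hρs := hρ s hs0'.le
        have hbs : s ^ (-(δ / 8)) ≤ b s := by linarith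
        have h5 := hstep' s (hS.trans (hs1 j)) hbs
        have h6 := hsucc j
        rw [h6]
        have h7 : s ≤ s ^ u := by
          have := hmono j
          rw [h6] at this
          exact this
        have h8 := hρ (s ^ u) (by positivity)
        have h9 := hNanti s (s ^ u) hs0'.le h7
        have h10 := hN s hs0'.le
        have h11 : b s ≤ θ ^ j := by linarith
        have h12 : (1 / 2 + 3 * δ / 2) * b s ≤ (1 / 2 + 3 * δ / 2) * θ ^ j :=
          mul_le_mul_of_nonneg_left h11 (by positivity)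
        have h13 : δ / 2 * (1 / 2) ^ j ≤ δ / 2 * θ ^ j :=
          mul_le_mul_of_nonneg_left hθj' (by positivity)
        have h14 : θ ^ (j + 1) = (1 / 2 + 3 * δ / 2) * θ ^ j + δ / 2 * θ ^ j := by
          rw [pow_succ, hθ]
          ring
        rw [h8, h14]
        linarith
  -- the conclusion
  have hlt0 : 0 < Real.log t := Real.log_pos (by linarith)
  have hgoal : ρ t * (Real.log t) ^ c ≤ 3 * (Real.log S) ^ c := by
    rcases lt_or_ge t S with htS | htS
    · have h1 : (Real.log t) ^ c ≤ (Real.log S) ^ c :=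
        Real.rpow_le_rpow hlt0.le (Real.log_le_log (by linarith) htS.le) hc.le
      have h2 : ρ t ≤ 1 := hρ1 t (by linarith)
      have h3 : ρ t * (Real.log t) ^ c ≤ 1 * (Real.log t) ^ c :=
        mul_le_mul_of_nonneg_right h2 (by positivity)
      have h4 : 0 < (Real.log S) ^ c := by positivity
      linarith
    · have hx1 : 1 ≤ Real.log t / Real.log S := by
        rw [le_div_iff₀ hL, one_mul]
        exact Real.log_le_log (by linarith) htS
      obtain ⟨j, hj1, hj2⟩ := exists_nat_pow_near hx1 (show 1 < u by linarith)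
      have hsj : S ^ (u ^ j) ≤ t := by
        rw [le_div_iff₀ hL] at hj1
        rw [← Real.exp_log (show 0 < t by linarith), Real.rpow_def_of_pos (by linarith)]
        apply Real.exp_le_exp.2
        rw [mul_comm]
        exact hj1
      have h1 : ρ t ≤ θ ^ j := (hanti _ _ (hs0 j).le hsj).trans (hmain j)
      have h2 : Real.log t ≤ u ^ (j + 1) * Real.log S := by
        rw [div_lt_iff₀ hL] at hj2
        exact hj2.le
      have h3 : (Real.log t) ^ c ≤ (u ^ (j + 1) * Real.log S) ^ c :=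
        Real.rpow_le_rpow hlt0.le h2 hc.le
      have h4 : (u ^ (j + 1) * Real.log S) ^ c = (u ^ c) ^ (j + 1) * (Real.log S) ^ c := by
        rw [Real.mul_rpow (by positivity) hL.le, ← Real.rpow_natCast, ← Real.rpow_mul (by positivity),
          mul_comm ((j + 1 : ℕ) : ℝ) c, Real.rpow_mul (by positivity), Real.rpow_natCast]
      have h5 : θ ^ j * (u ^ c) ^ j ≤ 1 := by
        rw [← mul_pow]
        exact pow_le_one₀ (by positivity) hθc
      have h6 : u ^ c ≤ 3 := by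
        calc u ^ c ≤ u ^ (1 : ℝ) := Real.rpow_le_rpow_of_exponent_le (by linarith) hc1.le
          _ = u := Real.rpow_one u
          _ ≤ 3 := by rw [hu]; linarith
      have h7 : 0 < (Real.log S) ^ c := by positivity
      calc ρ t * (Real.log t) ^ c ≤ θ ^ j * ((u ^ c) ^ (j + 1) * (Real.log S) ^ c) := by
            rw [← h4]
            exact mul_le_mul h1 h3 (by positivity) (by positivity)
        _ = (θ ^ j * (u ^ c) ^ j) * (u ^ c * (Real.log S) ^ c) := by rw [pow_succ]; ring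
        _ ≤ 1 * (u ^ c * (Real.log S) ^ c) :=
            mul_le_mul_of_nonneg_right h5 (by positivity)
        _ = u ^ c * (Real.log S) ^ c := one_mul _
        _ ≤ 3 * (Real.log S) ^ c := mul_le_mul_of_nonneg_right h6 h7.le
  rw [Real.rpow_neg hlt0.le, ← div_eq_mul_inv, le_div_iff₀ (by positivity)]
  exact hgoal

end CPS84
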