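import Pool.Agent.LibCPS84.KeyS
import Pool.Agent.LibCPS84.RcB
import Pool.Agent.LibCPS84.FinC

/-! The final theorem for four colours. -/

namespace CPS84

open Finset MeasureTheory Filter Topology

private theorem meas_ne4 {Ω : Type} {mΩ : MeasurableSpace Ω} {P : Measure Ω} {𝓕 : Filtration ℝ mΩ}
    {U : ℤ → ℤ → Ω → Set ℝ} {X : ℝ → Ω → ℤ → ZMod 4} (h : IsCPS 4 P 𝓕 U X) (t : ℝ) (ht : 0 ≤ t)
    (x y : ℤ) : MeasurableSet {ω | X t ω x ≠ X t ω y} := by
  have h1 : {ω | X t ω x ≠ X t ω y}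
      = (⋃ a : ZMod 4, ({ω | X t ω x = a} ∩ {ω | X t ω y = a}))ᶜ := by
    ext ω
    simp only [Set.mem_ofPred_eq, Set.mem_compl_iff, Set.mem_iUnion, Set.mem_inter_iff, ne_eq]
    constructor
    · rintro hne ⟨a, ha, hb⟩
      exact hne (ha.trans hb.symm)
    · intro hne he
      exact hne ⟨X t ω y, he, rfl⟩
  rw [h1]
  refine (MeasurableSet.iUnion fun a => ?_).compl
  exact ((𝓕.le t) _ (h.adapted t ht x a)).inter ((𝓕.le t) _ (h.adapted t ht y a))

private theorem EN1_iff (η : ℤ → ZMod 4) : EN 1 η ↔ η 0 = η 1 + 1 := by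
  constructor
  · rintro ⟨h, -⟩
    exact h
  · intro h
    refine ⟨h, fun i hi hi' => ?_⟩
    have : i = 1 := by push_cast at hi'; omega
    rw [this]

private theorem dep2' {S : Type} (q : S → S → Prop) :
    Dep (fun η : ℤ → S => ind (q (η 0) (η 1))) (Icc 0 1) := by
  intro η ζ h
  show ind (q (η 0) (η 1)) = ind (q (ζ 0) (ζ 1))
  rw [h 0 (by simp), h 1 (by simp)]

private theorem ind_nonneg4 (p : Prop) : 0 ≤ ind p := by
  unfold ind
  split_ifs <;> norm_num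

private theorem ind_le_one4 (p : Prop) : ind p ≤ 1 := by
  unfold ind
  split_ifs <;> norm_num

/-- walls are blockers or moving walls -/
private theorem wall4 {E : ((ℤ → ZMod 4) → ℝ) → ℝ} (hE : Inv E) :
    E (fun η => ind (EW η)) =
      E (fun η => ind (η 1 = η 0 + 2)) + 2 * E (fun η => ind (η 0 = η 1 + 1)) := by
  have hd0 : Dep (fun η : ℤ → ZMod 4 => ind (η 1 = η 0 + 2)) (Icc 0 1) :=
    dep2' (fun a b : ZMod 4 => b = a + 2)
  have hd1 : Dep (fun η : ℤ → ZMod 4 => ind (η 0 = η 1 + 1)) (Icc 0 1) :=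
    dep2' (fun a b : ZMod 4 => a = b + 1)
  have hd2 : Dep (fun η : ℤ → ZMod 4 => ind (η 1 = η 0 + 1)) (Icc 0 1) :=
    dep2' (fun a b : ZMod 4 => b = a + 1)
  have h3 := hE.inv (-1) 1 (Or.inr rfl) _ (Icc 0 1) hd1
  have h4 : (fun η : ℤ → ZMod 4 => ind (sym id (-1) 1 η 0 = sym id (-1) 1 η 1 + 1)) =
      fun η => ind (η 1 = η 0 + 1) := by
    funext η
    simp [sym]
  rw [h4] at h3
  have h5 := hE.exp.add _ _ _ hd1 hd2
  have h6 := hE.exp.add _ _ _ hd0 (hd1.add hd2)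
  have h7 : (fun η : ℤ → ZMod 4 => ind (EW η)) =
      fun η => ind (η 1 = η 0 + 2) + (ind (η 0 = η 1 + 1) + ind (η 1 = η 0 + 1)) := by
    funext η
    unfold EW ind
    generalize η 0 = a
    generalize η 1 = b
    have key : ∀ a b : ZMod 4, (a ≠ b ↔ (b = a + 2 ∨ a = b + 1 ∨ b = a + 1)) ∧
        ¬ (b = a + 2 ∧ a = b + 1) ∧ ¬ (b = a + 2 ∧ b = a + 1) ∧ ¬ (a = b + 1 ∧ b = a + 1) := by
      decide
    obtain ⟨k1, k2, k3, k4⟩ := key a b
    by_cases h1 : b = a + 2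
    · rw [if_pos (k1.2 (Or.inl h1)), if_pos h1, if_neg (fun h2 => k2 ⟨h1, h2⟩),
        if_neg (fun h2 => k3 ⟨h1, h2⟩)]
      norm_num
    · by_cases h2 : a = b + 1
      · rw [if_pos (k1.2 (Or.inr (Or.inl h2))), if_neg h1, if_pos h2,
          if_neg (fun h3 => k4 ⟨h2, h3⟩)]
        norm_num
      · by_cases h3 : b = a + 1
        · rw [if_pos (k1.2 (Or.inr (Or.inr h3))), if_neg h1, if_neg h2, if_pos h3]
          norm_num
        · rw [if_neg (fun h => (k1.1 h).elim h1 (fun h => h.elim h2 h3)), if_neg h1, if_neg h2,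
            if_neg h3]
          norm_num
  rw [h7, h6, h5, h3]
  ring

/-- `log_rate` with `ρ = P(wall)`, `b = P(η 1 = η 0 + 2)`, `N = P(η 0 = η 1 + 1) = P(EN 1)` -/
theorem final4 (c : ℝ) (hc : 0 < c) (hc1 : c < 1) : ∃ C : ℝ, 0 < C ∧
    ∀ {Ω : Type} {mΩ : MeasurableSpace Ω} {P : Measure Ω} {𝓕 : Filtration ℝ mΩ}
      {U : ℤ → ℤ → Ω → Set ℝ} {X : ℝ → Ω → ℤ → ZMod 4}, IsCPS 4 P 𝓕 U X →
      ∀ (t : ℝ), 2 ≤ t → ∀ x : ℤ, 1 / (200 * t) ≤ P.real {ω | X t ω x ≠ X t ω (x + 1)} ∧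
        P.real {ω | X t ω x ≠ X t ω (x + 1)} ≤ C * (Real.log t) ^ (-c) := by
  obtain ⟨C, hC, hrate⟩ := log_rate c hc hc1
  refine ⟨C, hC, ?_⟩
  intro Ω mΩ P 𝓕 U X h t ht2 x
  have hP := h.prob
  have ht0 : (0 : ℝ) ≤ t := by linarith
  have hsol : Sol (cyc 4) (fun t (f : (ℤ → ZMod 4) → ℝ) => ∫ ω, f (X t ω) ∂P) := h.isPS.sol
  have hunif : Unif (fun f : (ℤ → ZMod 4) → ℝ => ∫ ω, f (X 0 ω) ∂P) := h.unif
  have hinvt : ∀ t, 0 ≤ t → Inv (fun f : (ℤ → ZMod 4) → ℝ => ∫ ω, f (X t ω) ∂P) :=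
    fun t ht => inv_of_unif hsol hunif t ht
  have hEN : (fun η : ℤ → ZMod 4 => ind (EN 1 η)) = fun η => ind (η 0 = η 1 + 1) := by
    funext η
    rw [show EN 1 η = (η 0 = η 1 + 1) from propext (EN1_iff η)]
  have hd0 : Dep (fun η : ℤ → ZMod 4 => ind (η 1 = η 0 + 2)) (Icc 0 1) :=
    dep2' (fun a b : ZMod 4 => b = a + 2)
  have hd1 : Dep (fun η : ℤ → ZMod 4 => ind (η 0 = η 1 + 1)) (Icc 0 1) :=
    dep2' (fun a b : ZMod 4 => a = b + 1)
  have hlow := lower (by norm_num) (by norm_num) hsol hunif t (by linarith)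
  have hup : (∫ ω, ind (EW (X t ω)) ∂P) ≤ C * (Real.log t) ^ (-c) := by
    refine hrate (fun t => ∫ ω, ind (EW (X t ω)) ∂P)
      (fun t => ∫ ω, ind (X t ω 1 = X t ω 0 + 2) ∂P)
      (fun t => ∫ ω, ind (X t ω 0 = X t ω 1 + 1) ∂P) ?_ ?_ ?_ ?_ ?_ ?_ ?_ ?_ t ht2
    · intro t ht
      exact wall4 (hinvt t ht)
    · intro t ht
      exact (hinvt t ht).exp.nonneg hd0 (fun η => ind_nonneg4 _)
    · intro t ht
      exact (hinvt t ht).exp.nonneg hd1 (fun η => ind_nonneg4 _)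
    · intro t ht
      have h1 := (hinvt t ht).exp.mono _ _ (Icc 0 1) (dep_EW (κ := 4)) (dep_const 1 _)
        (fun η => ind_le_one4 _)
      have h2 := (hinvt t ht).exp.one
      have h3 : (∫ ω, ind (EW (X t ω)) ∂P) ≤ ∫ ω, (fun _ : ℤ → ZMod 4 => (1 : ℝ)) (X t ω) ∂P := h1
      have h4 : (∫ ω, (fun _ : ℤ → ZMod 4 => (1 : ℝ)) (X t ω) ∂P) = 1 := h2
      linarith
    · intro s t hs hst
      exact EW_anti (by norm_num) hsol hunif s t hs hst
    · intro s t hs hst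
      have h1 := N1_anti (by norm_num) hsol hunif s t hs hst
      rw [hEN] at h1
      exact h1
    · intro t ht
      have h1 := N1_cube (by norm_num) hsol hunif t ht
      rw [hEN] at h1
      exact h1
    · intro s T μ l W M hs hT hμ hl hW hM
      exact key_step h.isPS hunif s T μ l W M hs hT hμ hl hW hM
  have hinv := hsol.inv_of_inv (φ := id) (fun _ _ => rfl) (r := 1) (Or.inl rfl) x
    (fun f Λ hf => unif_sym hunif Function.bijective_id (Or.inl rfl) x hf) t ht0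
    (f := fun η => ind (EW η)) dep_EW
  have hval : (∫ ω, ind (EW (sym id 1 x (X t ω))) ∂P)
      = P.real {ω | X t ω x ≠ X t ω (x + 1)} := by
    have hfun : (fun ω => ind (EW (sym id 1 x (X t ω))))
        = Set.indicator {ω | X t ω x ≠ X t ω (x + 1)} (1 : Ω → ℝ) := by
      funext ω
      have hiff : EW (sym id 1 x (X t ω)) ↔ X t ω x ≠ X t ω (x + 1) := by
        simp only [EW, sym, id, mul_zero, mul_one, zero_add]
        rw [add_comm 1 x]
      by_cases hω : X t ω x ≠ X t ω (x + 1)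
      · rw [Set.indicator_of_mem (show ω ∈ {ω | X t ω x ≠ X t ω (x + 1)} from hω)]
        simp only [ind]
        rw [if_pos (hiff.2 hω), Pi.one_apply]
      · rw [Set.indicator_of_notMem (show ω ∉ {ω | X t ω x ≠ X t ω (x + 1)} from hω)]
        simp only [ind]
        rw [if_neg (fun hc => hω (hiff.1 hc))]
    rw [hfun, integral_indicator_one (meas_ne4 h t ht0 x (x + 1))]
  have hinv' : (∫ ω, ind (EW (sym id 1 x (X t ω))) ∂P) = ∫ ω, ind (EW (X t ω)) ∂P := hinv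
  rw [← hval, hinv']
  exact ⟨hlow, hup⟩

end CPS84
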