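import Pool.Agent.LibCPS84.UDefs
import Pool.Agent.LibCPS92.QE

/-! The quenched bound in the form used in part 4. -/

namespace CPS84

open Finset
open scoped Classical

theorem quen : Quen 128 := by
  intro n _ h k h0 hh hk η
  have hs : 0 < Real.sqrt (k * h) := Real.sqrt_pos.2 (by linarith)
  have hk0 : 0 < k := by
    rcases Nat.eq_zero_or_pos k with h1 | h1
    · rw [h1] at hk
      norm_num at hk
    · exact h1
  have hn1 : 1 ≤ n := Nat.one_le_iff_ne_zero.2 (NeZero.ne n)
  have hnn : (0 : ℝ) ≤ (n : ℝ) / Real.sqrt (k * h) := by positivity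
  change ((tstp (fun _ => cyc 4) h)^[k] CPS92.tM) η ≤ _
  rcases Nat.lt_or_ge n 2 with h2 | h2
  · have hn : n = 1 := by omega
    have h1 := iter_mono (u := fun _ => cyc 4) h0.le hh (f := CPS92.tM)
      (g := fun _ : ZMod n → ZMod 4 => (n : ℝ)) CPS92.tM_le k η
    rw [iter_const] at h1
    have h3 : (n : ℝ) = 1 := by rw [hn]; norm_num
    have h4 : ((tstp (fun _ => cyc 4) h)^[k] CPS92.tM) η ≤ (n : ℝ) := h1
    nlinarith
  · have h1 := CPS92.quenched h2 h0 hh η k hk0
    have h3 : 32 * (n : ℝ) / Real.sqrt (k * h) = 32 * ((n : ℝ) / Real.sqrt (k * h)) := by ring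
    rw [h3] at h1
    linarith

end CPS84
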