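import Pool.Agent.LibCPS84.U14
import Pool.Agent.LibCPS84.FinQ
import Pool.Agent.LibCPS84.Expo
import Pool.Agent.LibCPS84.Expo3

/-! Four colours: the final statement. -/

namespace CPS84

open Finset MeasureTheory Filter Topology

/-- `1 / (200 t) ≤ P(X_t(x) ≠ X_t(x+1)) ≤ C t^(-1/3) (log t)^(4/3)` -/
theorem final4V : ∃ C : ℝ, 0 < C ∧
    ∀ {Ω : Type} {mΩ : MeasurableSpace Ω} {P : Measure Ω} {𝓕 : Filtration ℝ mΩ}
      {U : ℤ → ℤ → Ω → Set ℝ} {X : ℝ → Ω → ℤ → ZMod 4}, IsCPS 4 P 𝓕 U X →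
      ∀ (t : ℝ), 2 ≤ t → ∀ x : ℤ, 1 / (200 * t) ≤ P.real {ω | X t ω x ≠ X t ω (x + 1)} ∧
        P.real {ω | X t ω x ≠ X t ω (x + 1)} ≤
          C * t ^ (-(1 / 3 : ℝ)) * (Real.log t) ^ (4 / 3 : ℝ) :=
  final4U (by norm_num) quen

end CPS84
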