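import Pool.Agent.LibCPS84.SymB
import Pool.Agent.LibCPS84.EulD

/-! Invariance at all times. -/

namespace CPS84

open Finset
open scoped Classical

variable {S : Type} {u : S → S → S} {m : ℝ → ((ℤ → S) → ℝ) → ℝ}

/-- If the initial expectations are invariant, all are. -/
theorem Sol.inv_of_inv [Finite S] (hm : Sol u m) {φ : S → S}
    (hφ : ∀ a b, u (φ a) (φ b) = φ (u a b)) {r : ℤ} (hr : r = 1 ∨ r = -1) (p : ℤ)
    (h0 : ∀ f Λ, Dep f Λ → m 0 (fun η => f (sym φ r p η)) = m 0 f) (t : ℝ) (ht : 0 ≤ t)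
    {f : (ℤ → S) → ℝ} {Λ : Finset ℤ} (hf : Dep f Λ) :
    m t (fun η => f (sym φ r p η)) = m t f := by
  exact unique (sol_sym hm hφ hr p) hm h0 t ht hf

end CPS84
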