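import Pool.Agent.LibCPS84.CycDefs
import Pool.Agent.LibCPS84.SymC

/-! Invariance and colours. -/

namespace CPS84

open Finset
open scoped Classical

variable {κ : ℕ} {m : ℝ → ((ℤ → ZMod κ) → ℝ) → ℝ}

theorem cyc_add (c a b : ZMod κ) : cyc κ (a + c) (b + c) = cyc κ a b + c := by
  unfold cyc
  have h : (b + c = a + c - 1) ↔ (b = a - 1) := by
    constructor
    · intro h
      have : b + c = (a - 1) + c := by rw [h]; ring
      exact add_right_cancel this
    · rintro rfl
      ring
  simp only [h]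
  split_ifs <;> rfl

/-- invariance at all times: `Sol.inv_of_inv` and `unif_sym` with `φ = id` -/
theorem inv_of_unif [NeZero κ] (hm : Sol (cyc κ) m) (h0 : Unif (m 0)) (t : ℝ) (ht : 0 ≤ t) :
    Inv (m t) := by
  refine ⟨hm.exp t ht, ?_⟩
  intro r p hr f Λ hf
  exact Sol.inv_of_inv hm (φ := id) (fun a b => rfl) hr p
    (fun g Λ' hg => unif_sym h0 Function.bijective_id hr p hg) t ht hf

theorem Low1_dep (p : ℤ) (a : ZMod κ) : Dep (fun η : ℤ → ZMod κ => ind (η p = a)) {p} := by
  intro η ζ h
  simp only [h p (Finset.mem_singleton_self p)]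

theorem Low1_sum {E : ((ℤ → ZMod κ) → ℝ) → ℝ} (hE : Exp E) {ι : Type} (K : Finset ι)
    (f : ι → (ℤ → ZMod κ) → ℝ) (Λ : Finset ℤ) (hf : ∀ i, Dep (f i) Λ) :
    E (fun η => ∑ i ∈ K, f i η) = ∑ i ∈ K, E (f i) := by
  induction K using Finset.induction_on with
  | empty =>
    simp only [Finset.sum_empty]
    have h1 := hE.smul 0 (fun _ => 1) Λ (fun _ _ _ => rfl)
    simpa using h1
  | insert a s ha ih =>
    simp only [Finset.sum_insert ha]
    rw [hE.add (f a) (fun η => ∑ i ∈ s, f i η) Λ (hf a) (fun η ζ h => ?_), ih]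
    exact Finset.sum_congr rfl (fun i _ => hf i η ζ h)

/-- all colours have the same probability: `Sol.inv_of_inv`, `unif_sym` with `φ = (· + c)` -/
theorem prob_color [NeZero κ] (hm : Sol (cyc κ) m) (h0 : Unif (m 0)) (t : ℝ) (ht : 0 ≤ t)
    (p : ℤ) (a : ZMod κ) : m t (fun η => ind (η p = a)) = 1 / κ := by
  have hE := hm.exp t ht
  have key : ∀ b : ZMod κ, m t (fun η => ind (η p = b)) = m t (fun η => ind (η p = a)) := by
    intro b
    have h1 := Sol.inv_of_inv hm (φ := fun x => x + (a - b)) (fun x y => cyc_add (a - b) x y)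
      (Or.inl rfl : (1 : ℤ) = 1 ∨ (1 : ℤ) = -1) 0
      (fun g Λ' hg => unif_sym h0 (Equiv.addRight (a - b)).bijective (Or.inl rfl) 0 hg) t ht
      (Low1_dep p a)
    rw [← h1]
    congr 1
    funext η
    unfold sym
    congr 1
    apply propext
    rw [one_mul, add_zero]
    constructor
    · rintro rfl
      ring
    · intro h
      have h' : η p + (a - b) = a := h
      linear_combination h'
  have hsum : m t (fun η => ∑ b ∈ (Finset.univ : Finset (ZMod κ)), ind (η p = b)) = 1 := by
    rw [← hE.one]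
    congr 1
    funext η
    unfold ind
    rw [Finset.sum_eq_single (η p), if_pos rfl]
    · intro b _ hb
      exact if_neg (Ne.symm hb)
    · intro hb
      exact absurd (Finset.mem_univ _) hb
  rw [Low1_sum hE Finset.univ (fun b η => ind (η p = b)) {p} (fun b => Low1_dep p b),
    Finset.sum_congr rfl (fun b _ => key b), Finset.sum_const, Finset.card_univ, ZMod.card,
    nsmul_eq_mul] at hsum
  have hκ : (κ : ℝ) ≠ 0 := by exact_mod_cast NeZero.ne κ
  rw [eq_div_iff hκ, mul_comm]
  exact hsum

end CPS84
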