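import Pool.Agent.LibCPS84.PhiL
import Pool.Agent.LibCPS84.Low1

/-! The density of the moving walls. -/

namespace CPS84

open Finset
open scoped Classical

variable {κ : ℕ} {m : ℝ → ((ℤ → ZMod κ) → ℝ) → ℝ}

private theorem MvA_sum (F : ℤ → ℝ) : ∑ y ∈ Icc (0 : ℤ) 1, F y = F 0 + F 1 := by
  have : Icc (0 : ℤ) 1 = {0, 1} := by
    ext y
    simp only [mem_Icc, mem_insert, mem_singleton]
    omega
  rw [this, sum_pair (by norm_num)]

private theorem ind_nonneg' (p : Prop) : 0 ≤ ind p := by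
  unfold ind
  split_ifs <;> norm_num

private theorem ind_le_one' (p : Prop) : ind p ≤ 1 := by
  unfold ind
  split_ifs <;> norm_num

private theorem MvA_0r (hκ : 3 ≤ κ) (η : ℤ → ZMod κ) :
    ind (act (cyc κ) (0, true) η 0 = act (cyc κ) (0, true) η 1 + 1 ∨
        act (cyc κ) (0, true) η 1 = act (cyc κ) (0, true) η 0 + 1) -
      ind (η 0 = η 1 + 1 ∨ η 1 = η 0 + 1) ≤ - ind (η 1 = η 0 + 1) := by
  have h1 := one_ne_zero_zmod hκ
  have e0 : act (cyc κ) (0, true) η 0 = cyc κ (η 1) (η 0) := by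
    have := act_same (u := cyc κ) ((0 : ℤ), true) η
    simpa [nb] using this
  have e1 : act (cyc κ) (0, true) η 1 = η 1 := act_of_ne (by norm_num) η
  rw [e0, e1]
  unfold cyc
  by_cases h : η 1 = η 0 + 1
  · have h' : η 0 = η 1 - 1 := by rw [h]; ring
    rw [if_pos h']
    have h2 : ¬ (η 1 = η 1 + 1 ∨ η 1 = η 1 + 1) := by
      rintro (hh | hh) <;> exact h1 (left_eq_add.1 hh)
    unfold ind
    rw [if_neg h2, if_pos (Or.inr h), if_pos h]
    norm_num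
  · have h' : ¬ η 0 = η 1 - 1 := fun hh => h (by rw [hh]; ring)
    rw [if_neg h']
    unfold ind
    rw [if_neg h]
    simp

private theorem MvA_1l (hκ : 3 ≤ κ) (η : ℤ → ZMod κ) :
    ind (act (cyc κ) (1, false) η 0 = act (cyc κ) (1, false) η 1 + 1 ∨
        act (cyc κ) (1, false) η 1 = act (cyc κ) (1, false) η 0 + 1) -
      ind (η 0 = η 1 + 1 ∨ η 1 = η 0 + 1) ≤ - ind (η 0 = η 1 + 1) := by
  have h1 := one_ne_zero_zmod hκ
  have e0 : act (cyc κ) (1, false) η 1 = cyc κ (η 0) (η 1) := by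
    have := act_same (u := cyc κ) ((1 : ℤ), false) η
    simpa [nb] using this
  have e1 : act (cyc κ) (1, false) η 0 = η 0 := act_of_ne (by norm_num) η
  rw [e0, e1]
  unfold cyc
  by_cases h : η 0 = η 1 + 1
  · have h' : η 1 = η 0 - 1 := by rw [h]; ring
    rw [if_pos h']
    have h2 : ¬ (η 0 = η 0 + 1 ∨ η 0 = η 0 + 1) := by
      rintro (hh | hh) <;> exact h1 (left_eq_add.1 hh)
    unfold ind
    rw [if_neg h2, if_pos (Or.inl h), if_pos h]
    norm_num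
  · have h' : ¬ η 1 = η 0 - 1 := fun hh => h (by rw [hh]; ring)
    rw [if_neg h']
    unfold ind
    rw [if_neg h]
    simp

private theorem MvA_0l (η : ℤ → ZMod κ) :
    ind (act (cyc κ) (0, false) η 0 = act (cyc κ) (0, false) η 1 + 1 ∨
        act (cyc κ) (0, false) η 1 = act (cyc κ) (0, false) η 0 + 1) -
      ind (η 0 = η 1 + 1 ∨ η 1 = η 0 + 1) ≤ ind (η (-1) = η 0 + 1) := by
  have e0 : act (cyc κ) (0, false) η 0 = cyc κ (η (-1)) (η 0) := by
    have := act_same (u := cyc κ) ((0 : ℤ), false) η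
    simpa [nb] using this
  have e1 : act (cyc κ) (0, false) η 1 = η 1 := act_of_ne (by norm_num) η
  by_cases h : η (-1) = η 0 + 1
  · have a1 := ind_le_one' (act (cyc κ) (0, false) η 0 = act (cyc κ) (0, false) η 1 + 1 ∨
        act (cyc κ) (0, false) η 1 = act (cyc κ) (0, false) η 0 + 1)
    have a2 := ind_nonneg' (η 0 = η 1 + 1 ∨ η 1 = η 0 + 1)
    have a3 : ind (η (-1) = η 0 + 1) = 1 := by unfold ind; rw [if_pos h]
    rw [a3]
    linarith
  · rw [e0, e1]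
    have h' : ¬ η 0 = η (-1) - 1 := fun hh => h (by rw [hh]; ring)
    unfold cyc
    rw [if_neg h']
    have := ind_nonneg' (η (-1) = η 0 + 1)
    linarith

private theorem MvA_1r (η : ℤ → ZMod κ) :
    ind (act (cyc κ) (1, true) η 0 = act (cyc κ) (1, true) η 1 + 1 ∨
        act (cyc κ) (1, true) η 1 = act (cyc κ) (1, true) η 0 + 1) -
      ind (η 0 = η 1 + 1 ∨ η 1 = η 0 + 1) ≤ ind (η 2 = η 1 + 1) := by
  have e0 : act (cyc κ) (1, true) η 1 = cyc κ (η 2) (η 1) := by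
    have := act_same (u := cyc κ) ((1 : ℤ), true) η
    simpa [nb] using this
  have e1 : act (cyc κ) (1, true) η 0 = η 0 := act_of_ne (by norm_num) η
  by_cases h : η 2 = η 1 + 1
  · have a1 := ind_le_one' (act (cyc κ) (1, true) η 0 = act (cyc κ) (1, true) η 1 + 1 ∨
        act (cyc κ) (1, true) η 1 = act (cyc κ) (1, true) η 0 + 1)
    have a2 := ind_nonneg' (η 0 = η 1 + 1 ∨ η 1 = η 0 + 1)
    have a3 : ind (η 2 = η 1 + 1) = 1 := by unfold ind; rw [if_pos h]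
    rw [a3]
    linarith
  · rw [e0, e1]
    have h' : ¬ η 1 = η 2 - 1 := fun hh => h (by rw [hh]; ring)
    unfold cyc
    rw [if_neg h']
    have := ind_nonneg' (η 2 = η 1 + 1)
    linarith

private theorem ind_or_le (p q : Prop) : ind (p ∨ q) ≤ ind p + ind q := by
  unfold ind
  by_cases hp : p
  · rw [if_pos (Or.inl hp), if_pos hp]
    split_ifs <;> norm_num
  · by_cases hq : q
    · rw [if_pos (Or.inr hq), if_pos hq]
      split_ifs
      all_goals norm_num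
    · rw [if_neg (by tauto), if_neg hp, if_neg hq]
      norm_num

theorem gen_mov (hκ : 3 ≤ κ) (η : ℤ → ZMod κ) :
    gen (cyc κ) (clk (Icc 0 1)) (fun η => ind (η 0 = η 1 + 1 ∨ η 1 = η 0 + 1)) η ≤
      - ind (η 0 = η 1 + 1 ∨ η 1 = η 0 + 1) + ind (η (-1) = η 0 + 1) + ind (η 2 = η 1 + 1) := by
  unfold gen clk
  rw [sum_product]
  simp only [Fintype.sum_bool]
  rw [MvA_sum]
  have h1 := MvA_0r hκ η
  have h2 := MvA_1l hκ η
  have h3 := MvA_0l η
  have h4 := MvA_1r η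
  have h5 := ind_or_le (η 0 = η 1 + 1) (η 1 = η 0 + 1)
  linarith

private theorem MvA_EN1 (η : ℤ → ZMod κ) : EN 1 η ↔ η 0 = η 1 + 1 := by
  unfold EN
  constructor
  · exact fun h => h.1
  · intro h
    refine ⟨h, fun i h1 h2 => ?_⟩
    have : i = 1 := by
      push_cast at h2
      omega
    rw [this]

private theorem MvA_A {E : ((ℤ → ZMod κ) → ℝ) → ℝ} :
    E (fun η => ind (η 0 = η 1 + 1)) = E (fun η => ind (EN 1 η)) := by
  congr 1
  funext η
  rw [propext (MvA_EN1 η)]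

private theorem MvA_B {E : ((ℤ → ZMod κ) → ℝ) → ℝ} (hE : Inv E) :
    E (fun η => ind (η 1 = η 0 + 1)) = E (fun η => ind (EN 1 η)) := by
  rw [← hE.inv (-1) 1 (Or.inr rfl) _ _ (dep_EN (κ := κ) 1 le_rfl)]
  congr 1
  funext η
  rw [propext (MvA_EN1 (sym id (-1) 1 η))]
  simp [sym]

private theorem MvA_C {E : ((ℤ → ZMod κ) → ℝ) → ℝ} (hE : Inv E) :
    E (fun η => ind (η (-1) = η 0 + 1)) = E (fun η => ind (EN 1 η)) := by
  rw [← hE.shift (-1) (dep_EN (κ := κ) 1 le_rfl)]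
  congr 1
  funext η
  rw [propext (MvA_EN1 (sh (-1) η))]
  simp [sh]

private theorem MvA_D {E : ((ℤ → ZMod κ) → ℝ) → ℝ} (hE : Inv E) :
    E (fun η => ind (η 2 = η 1 + 1)) = E (fun η => ind (EN 1 η)) := by
  rw [← hE.inv (-1) 2 (Or.inr rfl) _ _ (dep_EN (κ := κ) 1 le_rfl)]
  congr 1
  funext η
  rw [propext (MvA_EN1 (sym id (-1) 2 η))]
  simp [sym]

private theorem MvA_dmov : Dep (fun η : ℤ → ZMod κ => ind (η 0 = η 1 + 1 ∨ η 1 = η 0 + 1))
    (Icc 0 1) := by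
  apply dep_ind
  intro η ζ h
  rw [h 0 (mem_Icc.2 ⟨le_rfl, by norm_num⟩), h 1 (mem_Icc.2 ⟨by norm_num, le_rfl⟩)]

theorem mov_eq (hκ : 3 ≤ κ) {E : ((ℤ → ZMod κ) → ℝ) → ℝ} (hE : Inv E) :
    E (fun η => ind (η 0 = η 1 + 1 ∨ η 1 = η 0 + 1)) = 2 * E (fun η => ind (EN 1 η)) := by
  have dA : Dep (fun η : ℤ → ZMod κ => ind (η 0 = η 1 + 1)) (Icc 0 1) := by
    apply dep_ind
    intro η ζ h
    rw [h 0 (mem_Icc.2 ⟨le_rfl, by norm_num⟩), h 1 (mem_Icc.2 ⟨by norm_num, le_rfl⟩)]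
  have dB : Dep (fun η : ℤ → ZMod κ => ind (η 1 = η 0 + 1)) (Icc 0 1) := by
    apply dep_ind
    intro η ζ h
    rw [h 0 (mem_Icc.2 ⟨le_rfl, by norm_num⟩), h 1 (mem_Icc.2 ⟨by norm_num, le_rfl⟩)]
  have h20 := two_ne_zero_zmod hκ
  have hsum : (fun η : ℤ → ZMod κ => ind (η 0 = η 1 + 1 ∨ η 1 = η 0 + 1)) =
      fun η => ind (η 0 = η 1 + 1) + ind (η 1 = η 0 + 1) := by
    funext η
    unfold ind
    by_cases h : η 0 = η 1 + 1
    · have h' : ¬ η 1 = η 0 + 1 := by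
        intro hh
        apply h20
        have h3 : η 1 = η 1 + 1 + 1 := by rw [← h]; exact hh
        linear_combination -h3
      rw [if_pos (Or.inl h), if_pos h, if_neg h']
      norm_num
    · by_cases h' : η 1 = η 0 + 1
      · rw [if_pos (Or.inr h'), if_neg h, if_pos h']
        norm_num
      · rw [if_neg (by tauto), if_neg h, if_neg h']
        norm_num
  rw [hsum, hE.exp.add _ _ _ dA dB, MvA_A (E := E), MvA_B hE]
  ring

theorem N1_anti [NeZero κ] (hκ : 3 ≤ κ) (hm : Sol (cyc κ) m) (h0 : Unif (m 0)) (a b : ℝ)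
    (ha : 0 ≤ a) (hab : a ≤ b) :
    m b (fun η => ind (EN 1 η)) ≤ m a (fun η => ind (EN 1 η)) := by
  have h := hm.le_of_gen_le (f := fun η => ind (η 0 = η 1 + 1 ∨ η 1 = η 0 + 1)) MvA_dmov a b 0
    ha hab (fun s hs _ => by
    have hs0 : 0 ≤ s := le_trans ha hs
    have hE : Inv (m s) := inv_of_unif hm h0 s hs0
    have hmem : ∀ i : ℤ, -1 ≤ i → i ≤ 2 → i ∈ fat (Icc (0 : ℤ) 1) ∪ Icc (-1 : ℤ) 2 :=
      fun i h1 h2 => mem_union_right _ (mem_Icc.2 ⟨h1, h2⟩)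
    have d0 : Dep (fun η : ℤ → ZMod κ => ind (η 0 = η 1 + 1 ∨ η 1 = η 0 + 1))
        (fat (Icc (0 : ℤ) 1) ∪ Icc (-1 : ℤ) 2) := by
      apply dep_ind
      intro η ζ h
      rw [h 0 (hmem 0 (by norm_num) (by norm_num)), h 1 (hmem 1 (by norm_num) (by norm_num))]
    have dC : Dep (fun η : ℤ → ZMod κ => ind (η (-1) = η 0 + 1))
        (fat (Icc (0 : ℤ) 1) ∪ Icc (-1 : ℤ) 2) := by
      apply dep_ind
      intro η ζ h
      rw [h 0 (hmem 0 (by norm_num) (by norm_num)), h (-1) (hmem (-1) (by norm_num) (by norm_num))]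
    have dD : Dep (fun η : ℤ → ZMod κ => ind (η 2 = η 1 + 1))
        (fat (Icc (0 : ℤ) 1) ∪ Icc (-1 : ℤ) 2) := by
      apply dep_ind
      intro η ζ h
      rw [h 1 (hmem 1 (by norm_num) (by norm_num)), h 2 (hmem 2 (by norm_num) (by norm_num))]
    have dG : Dep (gen (cyc κ) (clk (Icc 0 1))
        (fun η => ind (η 0 = η 1 + 1 ∨ η 1 = η 0 + 1))) (fat (Icc (0 : ℤ) 1) ∪ Icc (-1 : ℤ) 2) :=
      (dep_gen MvA_dmov).mono subset_union_left
    have d1 := d0.const_mul (-1)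
    have d2 := d1.add dC
    have d3 := d2.add dD
    have hle := hE.exp.mono _ _ _ dG d3 (fun η => by
      have := gen_mov hκ η
      linarith)
    rw [hE.exp.add _ _ _ d2 dD, hE.exp.add _ _ _ d1 dC, hE.exp.smul _ _ _ d0, mov_eq hκ hE,
      MvA_C hE, MvA_D hE] at hle
    linarith)
  have hEa : Inv (m a) := inv_of_unif hm h0 a ha
  have hEb : Inv (m b) := inv_of_unif hm h0 b (ha.trans hab)
  rw [mov_eq hκ hEa, mov_eq hκ hEb] at h
  linarith

/-- with `r = N_1 (t)`, `A = ⌈2 / r⌉ ≤ 3 / r`: on `[0, t]` the functional `Phi A` decreases at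
rate at least `r / (2 A^2) ≥ r^3 / 18`, and `0 ≤ Phi ≤ 2` -/
theorem N1_cube [NeZero κ] (hκ : 3 ≤ κ) (hm : Sol (cyc κ) m) (h0 : Unif (m 0)) (t : ℝ)
    (ht : 0 ≤ t) : (m t (fun η => ind (EN 1 η))) ^ 3 * t ≤ 36 := by
  have hinv : ∀ s, 0 ≤ s → Inv (m s) := fun s hs => inv_of_unif hm h0 s hs
  have hEN0 : ∀ s, 0 ≤ s → 0 ≤ m s (fun η => ind (EN 1 η)) := fun s hs =>
    (hinv s hs).exp.nonneg (dep_EN (κ := κ) 1 le_rfl) (fun η => ind_nonneg' _)
  have hEN1 : ∀ s, 0 ≤ s → m s (fun η => ind (EN 1 η)) ≤ 1 := fun s hs => by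
    have h1 := (hinv s hs).exp.mono (fun η => ind (EN 1 η)) (fun _ => 1) _
      (dep_EN (κ := κ) 1 le_rfl) (dep_const 1 _) (fun η => ind_le_one' _)
    rw [(hinv s hs).exp.one] at h1
    exact h1
  have hEW0 : ∀ s, 0 ≤ s → 0 ≤ m s (fun η => ind (EW η)) := fun s hs =>
    (hinv s hs).exp.nonneg (dep_EW (κ := κ)) (fun η => ind_nonneg' _)
  have hEW1 : ∀ s, 0 ≤ s → m s (fun η => ind (EW η)) ≤ 1 := fun s hs => by
    have h1 := (hinv s hs).exp.mono (fun η => ind (EW η)) (fun _ => 1) _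
      (dep_EW (κ := κ)) (dep_const 1 _) (fun η => ind_le_one' _)
    rw [(hinv s hs).exp.one] at h1
    exact h1
  set r : ℝ := m t (fun η => ind (EN 1 η)) with hr
  have hr0 : 0 ≤ r := hEN0 t ht
  have hr1 : r ≤ 1 := hEN1 t ht
  rcases hr0.eq_or_lt with h | hpos
  · rw [← h]
    norm_num
  set A : ℕ := ⌈2 / r⌉₊ with hA
  have hA1 : 2 / r ≤ A := Nat.le_ceil _
  have hA2' : (2 : ℝ) ≤ A := by
    refine le_trans ?_ hA1
    rw [le_div_iff₀ hpos]
    linarith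
  have hA2 : 2 ≤ A := by exact_mod_cast hA2'
  have hA0 : (0 : ℝ) < A := by linarith
  have hA3 : (A : ℝ) * r ≤ 3 := by
    have h2 : (A : ℝ) < 2 / r + 1 := Nat.ceil_lt_add_one (by positivity)
    have h3 : (A : ℝ) * r < (2 / r + 1) * r := mul_lt_mul_of_pos_right h2 hpos
    have h4 : (2 / r + 1) * r = 2 + r := by
      field_simp
    linarith
  have hinv1 : 1 / ((A : ℝ) + 1) ≤ r / 2 := by
    rw [div_le_iff₀ hpos] at hA1
    rw [div_le_div_iff₀ (by positivity) (by norm_num)]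
    nlinarith
  have hinv2 : r ^ 2 / 9 ≤ 1 / (A : ℝ) ^ 2 := by
    rw [div_le_div_iff₀ (by norm_num) (by positivity)]
    have h5 : (A * r) ^ 2 ≤ 9 := by
      have h6 : 0 ≤ A * r := by positivity
      nlinarith
    nlinarith
  have h2 := hm.le_of_gen_le (dep_Phi A hA2) 0 t (-(r ^ 3 / 18)) le_rfl ht (fun s hs hs' => by
    have h3 := gen_Phi hκ (hinv s hs) A hA2
    have h4 : r ≤ m s (fun η => ind (EN 1 η)) := N1_anti hκ hm h0 s t hs hs'
    have h5 : r / 2 ≤ m s (fun η => ind (EN 1 η)) - 1 / ((A : ℝ) + 1) := by linarith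
    have h6 : r ^ 2 / 9 * (r / 2) ≤
        1 / (A : ℝ) ^ 2 * (m s (fun η => ind (EN 1 η)) - 1 / ((A : ℝ) + 1)) :=
      mul_le_mul hinv2 h5 (by positivity) (by positivity)
    have h7 : r ^ 2 / 9 * (r / 2) = r ^ 3 / 18 := by ring
    linarith)
  have h3 := Phi_le (hinv 0 le_rfl) A hA2
  have h4 := Phi_ge (hinv t ht) A hA2
  have h5 := hEW0 t ht
  have h6 := hEW1 0 le_rfl
  have h7 := hEN1 0 le_rfl
  linarith

end CPS84
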