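import Pool.Agent.LibCPS84.NbA
import Pool.Agent.LibCPS84.EulD

/-! New blockers: expectation. -/

namespace CPS84

open Finset
open scoped Classical

variable {m : ℝ → ((ℤ → MS 4) → ℝ) → ℝ}

private theorem nbb_dep_EBn : Dep (fun η : ℤ → MS 4 => ind (EBn η)) (Icc 0 1) := by
  refine dep_ind _ fun η ζ h => ?_
  unfold EBn
  rw [h 0 (by simp), h 1 (by simp)]

private theorem nbb_dep_EM : Dep (fun η : ℤ → MS 4 => ind (EM η)) (Icc 0 1) := by
  refine dep_ind _ fun η ζ h => ?_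
  unfold EM
  rw [h 0 (by simp), h 1 (by simp)]

private theorem nbb_dep_f1 : Dep (fun η : ℤ → MS 4 => ind (cur (η 0) = cur (η 1) + 1)) (Icc 0 1) := by
  refine dep_ind _ fun η ζ h => ?_
  rw [h 0 (by simp), h 1 (by simp)]

private theorem nbb_dep_f2 : Dep (fun η : ℤ → MS 4 => ind (cur (η 1) = cur (η 0) + 1)) (Icc 0 1) := by
  refine dep_ind _ fun η ζ h => ?_
  rw [h 0 (by simp), h 1 (by simp)]

private theorem nbb_dep_L : Dep (fun η : ℤ → MS 4 => ind (cur (η (-1)) = cur (η 0) + 1))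
    (Icc (-1) 2) := by
  refine dep_ind _ fun η ζ h => ?_
  rw [h 0 (by simp), h (-1) (by simp)]

private theorem nbb_dep_R : Dep (fun η : ℤ → MS 4 => ind (cur (η 2) = cur (η 1) + 1))
    (Icc (-1) 2) := by
  refine dep_ind _ fun η ζ h => ?_
  rw [h 1 (by simp), h 2 (by simp)]

private theorem nbb_fat : fat (Icc 0 1) ⊆ Icc (-1) 2 := by
  intro i hi
  simp only [fat, Finset.mem_union, Finset.mem_image, clk, Finset.mem_product, Finset.mem_univ,
    and_true, Finset.mem_Icc] at hi ⊢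
  rcases hi with h | ⟨c, h, rfl⟩
  · omega
  · unfold nb
    split_ifs <;> omega

private theorem nbb_ind_nonneg (p : Prop) : 0 ≤ ind p := by
  unfold ind
  split_ifs <;> norm_num

private theorem nbb_dep_f : Dep (fun η : ℤ → MS 4 => ind (EBn η) + 1 / 2 * ind (EM η)) (Icc 0 1) :=
  nbb_dep_EBn.add (nbb_dep_EM.const_mul _)

theorem exp_EM_EBn {E : ((ℤ → MS 4) → ℝ) → ℝ} (hE : Inv E) :
    E (gen (cycM 4) (clk (Icc 0 1)) (fun η => ind (EBn η) + 1 / 2 * ind (EM η))) ≤ 0 := by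
  have hEM : Dep (fun η : ℤ → MS 4 => ind (EM η)) (Icc (-1) 2) :=
    nbb_dep_EM.mono (Finset.Icc_subset_Icc (by norm_num) (by norm_num))
  have hmaj : Dep (fun η : ℤ → MS 4 => 1 / 2 * (ind (cur (η (-1)) = cur (η 0) + 1) +
      ind (cur (η 2) = cur (η 1) + 1)) + -(1 / 2) * ind (EM η)) (Icc (-1) 2) :=
    ((nbb_dep_L.add nbb_dep_R).const_mul _).add (hEM.const_mul _)
  have h1 : E (gen (cycM 4) (clk (Icc 0 1)) (fun η => ind (EBn η) + 1 / 2 * ind (EM η))) ≤
      E (fun η : ℤ → MS 4 => 1 / 2 * (ind (cur (η (-1)) = cur (η 0) + 1) +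
      ind (cur (η 2) = cur (η 1) + 1)) + -(1 / 2) * ind (EM η)) := by
    refine hE.exp.mono _ _ (Icc (-1) 2) ((dep_gen nbb_dep_f).mono nbb_fat) hmaj fun η => ?_
    have e1 := gen_EM η
    have e2 := gen_EBn η
    rw [gen_add, gen_const_mul, e1]
    linarith
  refine h1.trans (le_of_eq ?_)
  rw [hE.exp.add _ _ (Icc (-1) 2) ((nbb_dep_L.add nbb_dep_R).const_mul _) (hEM.const_mul _),
    hE.exp.smul _ _ (Icc (-1) 2) (nbb_dep_L.add nbb_dep_R), hE.exp.smul _ _ (Icc (-1) 2) hEM,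
    hE.exp.add _ _ (Icc (-1) 2) nbb_dep_L nbb_dep_R]
  have hL : E (fun η : ℤ → MS 4 => ind (cur (η (-1)) = cur (η 0) + 1)) =
      E (fun η : ℤ → MS 4 => ind (cur (η 0) = cur (η 1) + 1)) := by
    rw [← hE.shift (-1) nbb_dep_f1]
    rfl
  have hR : E (fun η : ℤ → MS 4 => ind (cur (η 2) = cur (η 1) + 1)) =
      E (fun η : ℤ → MS 4 => ind (cur (η 1) = cur (η 0) + 1)) := by
    rw [← hE.shift 1 nbb_dep_f2]
    rfl
  have hM : E (fun η : ℤ → MS 4 => ind (EM η)) =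
      E (fun η : ℤ → MS 4 => ind (cur (η 0) = cur (η 1) + 1)) +
      E (fun η : ℤ → MS 4 => ind (cur (η 1) = cur (η 0) + 1)) := by
    rw [← hE.exp.add _ _ (Icc 0 1) nbb_dep_f1 nbb_dep_f2]
    congr 1
    funext η
    unfold EM
    generalize cur (η 0) = a
    generalize cur (η 1) = b
    have hno : ∀ a b : ZMod 4, ¬ (b = a + 1 ∧ a = b + 1) := by decide
    have hab := hno a b
    unfold ind
    by_cases h1 : b = a + 1
    · have h2 : ¬ (a = b + 1) := fun h3 => hab ⟨h1, h3⟩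
      rw [if_pos (Or.inl h1), if_neg h2, if_pos h1, zero_add]
    · by_cases h2 : a = b + 1
      · rw [if_pos (Or.inr h2), if_pos h2, if_neg h1, add_zero]
      · rw [if_neg (fun h => h.elim h1 h2), if_neg h2, if_neg h1, add_zero]
  rw [hL, hR, hM]
  ring

theorem new_block (hm : Sol (cycM 4) m) (hinv : ∀ t, 0 ≤ t → Inv (m t)) (T : ℝ) (hT : 0 ≤ T) :
    m T (fun η => ind (EBn η)) ≤
      m 0 (fun η => ind (EBn η)) + 1 / 2 * m 0 (fun η => ind (EM η)) := by
  have h1 := hm.le_of_gen_le nbb_dep_f 0 T 0 le_rfl hT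
    (fun s hs _ => exp_EM_EBn (hinv s hs))
  have hx : ∀ t, 0 ≤ t → m t (fun η => ind (EBn η) + 1 / 2 * ind (EM η)) =
      m t (fun η => ind (EBn η)) + 1 / 2 * m t (fun η => ind (EM η)) := fun t ht => by
    rw [(hm.exp t ht).add _ _ (Icc 0 1) nbb_dep_EBn (nbb_dep_EM.const_mul _),
      (hm.exp t ht).smul _ _ (Icc 0 1) nbb_dep_EM]
  rw [hx T hT, hx 0 le_rfl] at h1
  have h0 : 0 ≤ m T (fun η => ind (EM η)) := by
    have h2 := (hm.exp T hT).mono (fun _ => 0 * 1) (fun η => ind (EM η)) (Icc 0 1)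
      (dep_const _ _) nbb_dep_EM (fun η => by simpa using nbb_ind_nonneg _)
    rw [(hm.exp T hT).smul 0 (fun _ => 1) (Icc 0 1) (dep_const _ _), zero_mul] at h2
    exact h2
  linarith

end CPS84
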