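import Pool.Agent.LibCPS84.SvA

/-! Surviving blockers: the expectation. -/

namespace CPS84

open Finset
open scoped Classical

private theorem dep_two {S : Type} (g : S → S → ℝ) (z : ℤ) {Λ : Finset ℤ} (h : z ∈ Λ)
    (h' : z + 1 ∈ Λ) : Dep (fun η : ℤ → S => g (η z) (η (z + 1))) Λ := by
  intro η ζ he
  show g (η z) (η (z + 1)) = g (ζ z) (ζ (z + 1))
  rw [he _ h, he _ h']

private theorem shift_two {S : Type} {E : ((ℤ → S) → ℝ) → ℝ} (hE : Inv E) (g : S → S → ℝ) (z : ℤ) :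
    E (fun η => g (η z) (η (z + 1))) = E (fun η => g (η 0) (η 1)) := by
  have hd : Dep (fun η : ℤ → S => g (η 0) (η 1)) (Icc 0 1) := by
    intro η ζ he
    show g (η 0) (η 1) = g (ζ 0) (ζ 1)
    rw [he 0 (by simp), he 1 (by simp)]
  have h := hE.shift z hd
  rw [← h]
  congr 1
  funext η
  show g (η z) (η (z + 1)) = g (η (0 + z)) (η (1 + z))
  rw [zero_add, add_comm 1 z]

private theorem ind_nonneg' (p : Prop) : 0 ≤ ind p := by
  unfold ind
  split_ifs
  · exact zero_le_one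
  · exact le_rfl

theorem surv_bound {E : ((ℤ → MS 4) → ℝ) → ℝ} (hE : Inv E) (T : ℝ) (hT : 0 < T)
    (hconf : ∀ D : ℕ, 1 ≤ D → E (fun η => ind (EC D η)) ≤ 3 * (D : ℝ) ^ 2 / T) (W : ℕ) (hW : 1 ≤ W)
    (Q : ℝ) (hQ : E (fun η => (∑ z ∈ range W, dd z (fun i => (η i).2.1)) ^ 2) ≤ Q)
    (μ l : ℝ) (hμ : 0 < μ) (hl : 0 < l) :
    E (fun η => ind ((η 0).2.2 = true ∧ (η 1).2.2 = true ∧ cur (η 1) = cur (η 0) + 2)) ≤
      E (fun η => ind ((η 1).2.1 = (η 0).2.1 + 2)) / 2 + μ / (4 * W) + Q / (4 * μ * W) +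
        l / (2 * W) + 3 * (W : ℝ) ^ 3 / (2 * l * T) := by
  have hWR : (0 : ℝ) < W := by exact_mod_cast hW
  set Λ : Finset ℤ := Icc 0 (W : ℤ) with hΛ
  have hmem : ∀ z ∈ range W, (z : ℤ) ∈ Λ ∧ (z : ℤ) + 1 ∈ Λ := by
    intro z hz
    rw [mem_range] at hz
    have : (z : ℤ) < W := by exact_mod_cast hz
    rw [hΛ, mem_Icc, mem_Icc]
    omega
  set gA : MS 4 → MS 4 → ℝ := fun a b =>
    ind (a.2.2 = true ∧ b.2.2 = true ∧ cur b = cur a + 2) with hgA
  set gB : MS 4 → MS 4 → ℝ := fun a b => ind (b.2.1 = a.2.1 + 2) with hgB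
  set gD : MS 4 → MS 4 → ℝ := fun a b =>
    ind (b.2.1 = a.2.1 + 2) * (if a.2.1 = 0 ∨ a.2.1 = 2 then 1 else -1) with hgD
  -- the functions
  set FA : ℕ → (ℤ → MS 4) → ℝ := fun z η => gA (η z) (η ((z : ℤ) + 1)) with hFA
  set FB : ℕ → (ℤ → MS 4) → ℝ := fun z η => gB (η z) (η ((z : ℤ) + 1)) with hFB
  set G : (ℤ → MS 4) → ℝ := fun η => (∑ z ∈ range W, dd z (fun i => (η i).2.1)) ^ 2 with hG
  set H : ℕ → ℕ → (ℤ → MS 4) → ℝ := fun z z' η => ind (SB true z η ∧ SB false z' η) with hH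
  have dFA : ∀ z ∈ range W, Dep (FA z) Λ := fun z hz =>
    dep_two gA z (hmem z hz).1 (hmem z hz).2
  have dFB : ∀ z ∈ range W, Dep (FB z) Λ := fun z hz =>
    dep_two gB z (hmem z hz).1 (hmem z hz).2
  have dS : Dep (fun η : ℤ → MS 4 => ∑ z ∈ range W, dd z (fun i => (η i).2.1)) Λ := by
    refine Dep.sum (range W) (fun (z : ℕ) (η : ℤ → MS 4) => dd z (fun i => (η i).2.1))
      (fun z hz => ?_)
    exact dep_two gD z (hmem z hz).1 (hmem z hz).2
  have dG : Dep G Λ := by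
    intro η ζ he
    have := dS η ζ he
    simp only [hG]
    simp only at this
    rw [this]
  have dH : ∀ z ∈ range W, ∀ z' ∈ range W, Dep (H z z') Λ := by
    intro z hz z' hz' η ζ he
    simp only [hH, SB]
    rw [he _ (hmem z hz).1, he _ (hmem z hz).2, he _ (hmem z' hz').1, he _ (hmem z' hz').2]
  have dHH : Dep (fun η => ∑ z ∈ range W, ∑ z' ∈ range W, H z z' η) Λ :=
    Dep.sum (range W) (fun z η => ∑ z' ∈ range W, H z z' η)
      (fun z hz => Dep.sum (range W) (fun z' η => H z z' η) (fun z' hz' => dH z hz z' hz'))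
  have dSA : Dep (fun η => ∑ z ∈ range W, FA z η) Λ := Dep.sum (range W) FA dFA
  have dSB : Dep (fun η => ∑ z ∈ range W, FB z η) Λ := Dep.sum (range W) FB dFB
  -- expectations
  have eA : E (fun η => ∑ z ∈ range W, FA z η) = W * E (fun η => gA (η 0) (η 1)) := by
    have h1 : ∀ z ∈ range W, E (FA z) = E (fun η => gA (η 0) (η 1)) :=
      fun z _ => shift_two hE gA (z : ℤ)
    rw [hE.exp.sum (range W) FA dFA, Finset.sum_congr rfl h1, Finset.sum_const, card_range,
      nsmul_eq_mul]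
  have eB : E (fun η => ∑ z ∈ range W, FB z η) = W * E (fun η => gB (η 0) (η 1)) := by
    have h1 : ∀ z ∈ range W, E (FB z) = E (fun η => gB (η 0) (η 1)) :=
      fun z _ => shift_two hE gB (z : ℤ)
    rw [hE.exp.sum (range W) FB dFB, Finset.sum_congr rfl h1, Finset.sum_const, card_range,
      nsmul_eq_mul]
  have eH1 : ∀ z ∈ range W, ∀ z' ∈ range W, E (H z z') ≤ 3 * (W : ℝ) ^ 2 / T := by
    intro z hz z' hz'
    rw [mem_range] at hz hz'
    by_cases hzz : z = z'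
    · have h0 : E (H z z') ≤ E (fun _ => 0) := by
        refine hE.exp.mono _ _ Λ (dH z (mem_range.mpr hz) z' (mem_range.mpr hz'))
          (dep_const 0 Λ) (fun η => ?_)
        have := SB_pair z z' η
        rw [if_pos hzz] at this
        exact this
      rw [hE.exp.const 0] at h0
      exact le_trans h0 (by positivity)
    · set D : ℕ := max z z' - min z z' with hD
      have hD1 : 1 ≤ D := by
        rw [hD]
        rcases le_total z z' with h | h
        · rw [max_eq_right h, min_eq_left h]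
          omega
        · rw [max_eq_left h, min_eq_right h]
          omega
      have hDW : D ≤ W := by
        rw [hD]
        have : max z z' ≤ W := max_le hz.le hz'.le
        omega
      have hd1 := dep_sh (dep_EC D) ((min z z' : ℕ) : ℤ)
      set Λ2 : Finset ℤ := Λ ∪ (Icc 0 (D : ℤ)).image (fun i => i + ((min z z' : ℕ) : ℤ)) with hΛ2
      have h0 : E (H z z') ≤ E (fun η => ind (EC D (sh ((min z z' : ℕ) : ℤ) η))) := by
        refine hE.exp.mono _ _ Λ2
          ((dH z (mem_range.mpr hz) z' (mem_range.mpr hz')).mono subset_union_left)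
          (hd1.mono subset_union_right) (fun η => ?_)
        have := SB_pair z z' η
        rw [if_neg hzz] at this
        exact this
      have h1 : E (fun η => ind (EC D (sh ((min z z' : ℕ) : ℤ) η))) =
          E (fun η => ind (EC D η)) := hE.shift _ (dep_EC D)
      have h2 := hconf D hD1
      have h3 : 3 * (D : ℝ) ^ 2 / T ≤ 3 * (W : ℝ) ^ 2 / T := by
        have h4 : (D : ℝ) ≤ W := by exact_mod_cast hDW
        have h5 : (D : ℝ) ^ 2 ≤ (W : ℝ) ^ 2 := pow_le_pow_left₀ (Nat.cast_nonneg D) h4 2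
        rw [div_le_div_iff_of_pos_right hT]
        linarith
      linarith
  have eH : E (fun η => ∑ z ∈ range W, ∑ z' ∈ range W, H z z' η) ≤
      (W : ℝ) * (W * (3 * (W : ℝ) ^ 2 / T)) := by
    rw [hE.exp.sum (range W) (fun z η => ∑ z' ∈ range W, H z z' η)
      (fun z hz => Dep.sum (range W) (fun z' η => H z z' η) (fun z' hz' => dH z hz z' hz'))]
    have h1 : ∀ z ∈ range W, E (fun η => ∑ z' ∈ range W, H z z' η) ≤
        W * (3 * (W : ℝ) ^ 2 / T) := by
      intro z hz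
      rw [hE.exp.sum (range W) (fun z' η => H z z' η) (fun z' hz' => dH z hz z' hz')]
      refine le_trans (Finset.sum_le_sum (fun z' hz' => eH1 z hz z' hz')) ?_
      rw [Finset.sum_const, card_range, nsmul_eq_mul]
    refine le_trans (Finset.sum_le_sum h1) ?_
    rw [Finset.sum_const, card_range, nsmul_eq_mul]
  -- the pointwise inequality
  have hpt : ∀ η : ℤ → MS 4, ∑ z ∈ range W, FA z η ≤
      (1 / 2 * ∑ z ∈ range W, FB z η) + ((μ / 4 + l / 2) + ((1 / (4 * μ)) * G η +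
        (1 / (2 * l)) * ∑ z ∈ range W, ∑ z' ∈ range W, H z z' η)) := by
    intro η
    have h := surv_point W μ l hμ hl η
    have e : (1 / 2 * ∑ z ∈ range W, FB z η) + ((μ / 4 + l / 2) + ((1 / (4 * μ)) * G η +
        (1 / (2 * l)) * ∑ z ∈ range W, ∑ z' ∈ range W, H z z' η)) =
        (∑ z ∈ range W, FB z η) / 2 + (μ / 4 + G η / (4 * μ)) +
          (l / 2 + (∑ z ∈ range W, ∑ z' ∈ range W, H z z' η) / (2 * l)) := by
      field_simp
      ring
    rw [e]
    exact h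
  have dR1 : Dep (fun η => 1 / 2 * ∑ z ∈ range W, FB z η) Λ := dSB.const_mul (1 / 2)
  have dR2 : Dep (fun η => (1 / (4 * μ)) * G η) Λ := dG.const_mul _
  have dR3 : Dep (fun η => (1 / (2 * l)) * ∑ z ∈ range W, ∑ z' ∈ range W, H z z' η) Λ :=
    dHH.const_mul _
  have dR4 := dR2.add dR3
  have dR5 := (dep_const (S := MS 4) (μ / 4 + l / 2) Λ).add dR4
  have dR6 := dR1.add dR5
  have hmono := hE.exp.mono _ _ Λ dSA dR6 hpt
  rw [hE.exp.add _ _ Λ dR1 dR5, hE.exp.add _ _ Λ (dep_const (S := MS 4) (μ / 4 + l / 2) Λ) dR4,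
    hE.exp.add _ _ Λ dR2 dR3, hE.exp.smul _ _ Λ dSB, hE.exp.smul _ _ Λ dG,
    hE.exp.smul _ _ Λ dHH, hE.exp.const, eA, eB] at hmono
  have hgoal : (W : ℝ) * E (fun η => gA (η 0) (η 1)) ≤
      W * (E (fun η => gB (η 0) (η 1)) / 2 + μ / (4 * W) + Q / (4 * μ * W) +
        l / (2 * W) + 3 * (W : ℝ) ^ 3 / (2 * l * T)) := by
    have k1 : 1 / (4 * μ) * E G ≤ 1 / (4 * μ) * Q :=
      mul_le_mul_of_nonneg_left hQ (by positivity)
    have k2 : 1 / (2 * l) * E (fun η => ∑ z ∈ range W, ∑ z' ∈ range W, H z z' η) ≤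
        1 / (2 * l) * ((W : ℝ) * (W * (3 * (W : ℝ) ^ 2 / T))) :=
      mul_le_mul_of_nonneg_left eH (by positivity)
    have k3 : (W : ℝ) * (E (fun η => gB (η 0) (η 1)) / 2 + μ / (4 * W) + Q / (4 * μ * W) +
        l / (2 * W) + 3 * (W : ℝ) ^ 3 / (2 * l * T)) =
        1 / 2 * (W * E (fun η => gB (η 0) (η 1))) + (μ / 4 + l / 2 + (1 / (4 * μ) * Q +
          1 / (2 * l) * ((W : ℝ) * (W * (3 * (W : ℝ) ^ 2 / T))))) := by
      field_simp
      ring
    rw [k3]
    linarith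
  exact le_of_mul_le_mul_left hgoal hWR

end CPS84
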