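import Pool.Agent.LibCPS84.VvB
import Pool.Agent.LibCPS84.EulD

/-! Confinement. -/

namespace CPS84

open Finset
open scoped Classical

variable {m : ℝ → ((ℤ → MS 4) → ℝ) → ℝ}

/-- `P (EC D)` is nonincreasing in time (`gen_EC`), so `m T (Psi D) - m 0 (Psi D) ≤ -T P_T(EC D)`
by `gen_Psi` and `Sol.le_of_gen_le` -/
theorem confine (hm : Sol (cycM 4) m) (D : ℕ) (hD : 1 ≤ D) (T : ℝ) (hT : 0 < T) :
    m T (fun η => ind (EC D η)) ≤ 3 * (D : ℝ) ^ 2 / T := by
  have hdE := dep_EC D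
  have hdP := dep_Psi D
  have hmono : ∀ s, 0 ≤ s → s ≤ T →
      m T (fun η => ind (EC D η)) ≤ m s (fun η => ind (EC D η)) := by
    intro s hs hsT
    have h := hm.le_of_gen_le hdE s T 0 hs hsT (by
      intro r hr _
      have hE := hm.exp r (hs.trans hr)
      have h1 := hE.mono (gen (cycM 4) (clk (Icc 0 (D : ℤ))) (fun η => ind (EC D η)))
        (fun _ => 0) (fat (Icc 0 (D : ℤ))) (dep_gen hdE) (dep_const 0 _) (gen_EC D)
      rwa [hE.const 0] at h1)
    linarith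
  have h := hm.le_of_gen_le hdP 0 T (-(m T (fun η => ind (EC D η)))) le_rfl hT.le (by
    intro r hr hrT
    have hE := hm.exp r hr
    have hdE' : Dep (fun η => (-1 : ℝ) * ind (EC D η)) (fat (Icc 0 (D : ℤ))) :=
      (hdE.const_mul (-1)).mono (subset_fat _)
    have h1 := hE.mono (gen (cycM 4) (clk (Icc 0 (D : ℤ))) (Psi D))
      (fun η => (-1 : ℝ) * ind (EC D η)) (fat (Icc 0 (D : ℤ))) (dep_gen hdP) hdE' (by
        intro η
        have := gen_Psi D hD η
        linarith)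
    rw [hE.smul (-1) _ _ hdE] at h1
    have h2 := hmono r hr hrT
    linarith)
  have h0 := (hm.exp 0 le_rfl).mono (Psi D) (fun _ => 3 * (D : ℝ) ^ 2) (Icc 0 (D : ℤ)) hdP
    (dep_const _ _) (Psi_le D)
  rw [(hm.exp 0 le_rfl).const] at h0
  have hT0 := (hm.exp T hT.le).nonneg hdP (Psi_nonneg D)
  rw [le_div_iff₀ hT]
  linarith

end CPS84
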