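import Pool.Agent.LibCPS84.MkB
import Pool.Agent.LibCPS84.PrF
import Pool.Agent.LibCPS84.VvC
import Pool.Agent.LibCPS84.NbB
import Pool.Agent.LibCPS84.SvB
import Pool.Agent.LibCPS84.MvA

/-! The step inequality for the density of the blockers. -/

namespace CPS84

open Finset MeasureTheory Filter Topology
open scoped Classical

variable {Ω : Type} {mΩ : MeasurableSpace Ω} {P : Measure Ω}
  {𝓕 : Filtration ℝ mΩ} {U : ℤ × Bool → Ω → Set ℝ} {X : ℝ → Ω → ℤ → ZMod 4}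

/-- at the starting time all sites are fresh -/
private theorem markX_zero (X : ℝ → Ω → ℤ → ZMod 4) (s : ℝ) (ω : Ω) :
    markX X s 0 ω = fun y => (X s ω y, X s ω y, true) := by
  funext y
  unfold markX
  have h0 : s + 0 = s := add_zero s
  have h1 : (X (s + 0) ω y = X s ω y ∧
      ∀ q : ℚ, s ≤ (q : ℝ) → (q : ℝ) ≤ s + 0 → X (q : ℝ) ω y = X s ω y) := by
    rw [h0]
    refine ⟨rfl, fun q hq hq' => ?_⟩
    have : (q : ℝ) = s := le_antisymm hq' hq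
    rw [this]
  have h2 : decide (X (s + 0) ω y = X s ω y ∧
      ∀ q : ℚ, s ≤ (q : ℝ) → (q : ℝ) ≤ s + 0 → X (q : ℝ) ω y = X s ω y) = true :=
    decide_eq_true h1
  rw [h2, h0]

/-- invariance of the marked process: `Sol.inv_of_inv`; at time `0` its expectations are those of
`η ↦ (η, η, true)` under the law of `X s` -/
theorem mark_inv (h : IsPS (cyc 4) P 𝓕 U X)
    (h0 : Unif (fun f : (ℤ → ZMod 4) → ℝ => ∫ ω, f (X 0 ω) ∂P)) (s : ℝ) (hs : 0 ≤ s)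
    (t : ℝ) (ht : 0 ≤ t) :
    Inv (fun f : (ℤ → MS 4) → ℝ => ∫ ω, f (markX X s t ω) ∂P) := by
  have hM := mark_isPS (κ := 4) (by norm_num) h s hs
  have hsolM : Sol (cycM 4) (fun t (f : (ℤ → MS 4) → ℝ) => ∫ ω, f (markX X s t ω) ∂P) := hM.sol
  have hsol : Sol (cyc 4) (fun t (f : (ℤ → ZMod 4) → ℝ) => ∫ ω, f (X t ω) ∂P) := h.sol
  have hinv : Inv (fun f : (ℤ → ZMod 4) → ℝ => ∫ ω, f (X s ω) ∂P) := inv_of_unif hsol h0 s hs
  refine ⟨hsolM.exp t ht, fun r p hr f Λ hf => ?_⟩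
  refine hsolM.inv_of_inv (φ := id) (fun _ _ => rfl) hr p ?_ t ht hf
  intro f Λ hf
  have hfe : Dep (fun η : ℤ → ZMod 4 => f (fun y => (η y, η y, true))) Λ := by
    intro η ζ hηζ
    refine hf _ _ fun i hi => ?_
    rw [hηζ i hi]
  have := hinv.inv r p hr _ Λ hfe
  simp only [markX_zero]
  exact this

private theorem ind_nonneg_K (p : Prop) : 0 ≤ ind p := by
  unfold ind
  split_ifs <;> norm_num

private theorem dep2 {S : Type} (q : S → S → Prop) :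
    Dep (fun η : ℤ → S => ind (q (η 0) (η 1))) (Icc 0 1) := by
  intro η ζ h
  show ind (q (η 0) (η 1)) = ind (q (ζ 0) (ζ 1))
  rw [h 0 (by simp), h 1 (by simp)]

/-- a blocker at time `s + T` is surviving (both sites fresh: `surv_bound`, `confine`,
`second_moment`) or new (`new_block`: at most half of the moving walls at time `s`) -/
theorem key_step (h : IsPS (cyc 4) P 𝓕 U X)
    (h0 : Unif (fun f : (ℤ → ZMod 4) → ℝ => ∫ ω, f (X 0 ω) ∂P)) (s T μ l : ℝ) (W M : ℕ)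
    (hs : 0 ≤ s) (hT : 0 < T) (hμ : 0 < μ) (hl : 0 < l) (hW : 1 ≤ W) (hM : 1 ≤ M) :
    ∫ ω, ind (X (s + T) ω 1 = X (s + T) ω 0 + 2) ∂P ≤
      (∫ ω, ind (X s ω 1 = X s ω 0 + 2) ∂P) / 2 + μ / (4 * W) +
        W * ((4 * M + 1) * (∫ ω, ind (X s ω 1 = X s ω 0 + 2) ∂P) +
          W * (16 * s * Real.exp (1 - M + 2 * Real.exp 1 * s))) / (4 * μ * W) +
        l / (2 * W) + 3 * (W : ℝ) ^ 3 / (2 * l * T) + ∫ ω, ind (X s ω 0 = X s ω 1 + 1) ∂P := by
  have hMs := mark_isPS (κ := 4) (by norm_num) h s hs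
  have hsolM : Sol (cycM 4) (fun t (f : (ℤ → MS 4) → ℝ) => ∫ ω, f (markX X s t ω) ∂P) := hMs.sol
  have hsol : Sol (cyc 4) (fun t (f : (ℤ → ZMod 4) → ℝ) => ∫ ω, f (X t ω) ∂P) := h.sol
  have hinvs : Inv (fun f : (ℤ → ZMod 4) → ℝ => ∫ ω, f (X s ω) ∂P) := inv_of_unif hsol h0 s hs
  have hinvM : ∀ t, 0 ≤ t → Inv (fun f : (ℤ → MS 4) → ℝ => ∫ ω, f (markX X s t ω) ∂P) :=
    fun t ht => mark_inv h h0 s hs t ht
  have hE := hinvM T hT.le
  -- the second moment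
  have hQ := second_moment hsol h0 s hs M W hM
  have hQ' : (∫ ω, (fun η : ℤ → MS 4 => (∑ z ∈ range W, dd z (fun i => (η i).2.1)) ^ 2)
      (markX X s T ω) ∂P) ≤
      W * ((4 * M + 1) * (∫ ω, ind (X s ω 1 = X s ω 0 + 2) ∂P) +
          W * (16 * s * Real.exp (1 - M + 2 * Real.exp 1 * s))) := hQ
  have hsurv := surv_bound hE T hT (fun D hD => confine hsolM D hD T hT) W hW _ hQ' μ l hμ hl
  have hnew := new_block hsolM hinvM T hT.le
  -- decomposition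
  have hdec : (∫ ω, ind (X (s + T) ω 1 = X (s + T) ω 0 + 2) ∂P) =
      (∫ ω, (fun η : ℤ → MS 4 => ind ((η 0).2.2 = true ∧ (η 1).2.2 = true ∧
        cur (η 1) = cur (η 0) + 2)) (markX X s T ω) ∂P) +
      (∫ ω, (fun η : ℤ → MS 4 => ind (EBn η)) (markX X s T ω) ∂P) := by
    have hadd := hE.exp.add (fun η : ℤ → MS 4 => ind ((η 0).2.2 = true ∧ (η 1).2.2 = true ∧
        cur (η 1) = cur (η 0) + 2)) (fun η : ℤ → MS 4 => ind (EBn η)) (Icc 0 1)
        (dep2 (fun a b : MS 4 => a.2.2 = true ∧ b.2.2 = true ∧ cur b = cur a + 2))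
        (dep2 (fun a b : MS 4 => cur b = cur a + 2 ∧ ¬ (a.2.2 = true ∧ b.2.2 = true)))
    rw [← hadd]
    refine integral_congr_ae (Filter.Eventually.of_forall fun ω => ?_)
    show ind (X (s + T) ω 1 = X (s + T) ω 0 + 2) =
      ind ((markX X s T ω 0).2.2 = true ∧ (markX X s T ω 1).2.2 = true ∧
        cur (markX X s T ω 1) = cur (markX X s T ω 0) + 2) + ind (EBn (markX X s T ω))
    unfold EBn
    rw [cur_markX, cur_markX]
    unfold ind
    by_cases ha : X (s + T) ω 1 = X (s + T) ω 0 + 2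
    · by_cases hb : (markX X s T ω 0).2.2 = true ∧ (markX X s T ω 1).2.2 = true
      · rw [if_pos ha, if_pos ⟨hb.1, hb.2, ha⟩, if_neg (fun hc => hc.2 hb)]
        norm_num
      · rw [if_pos ha, if_neg (fun hc => hb ⟨hc.1, hc.2.1⟩), if_pos ⟨ha, hb⟩]
        norm_num
    · rw [if_neg ha, if_neg (fun hc => ha hc.2.2), if_neg (fun hc => ha hc.1)]
      norm_num
  -- no new blockers at time zero
  have hzero : (∫ ω, (fun η : ℤ → MS 4 => ind (EBn η)) (markX X s 0 ω) ∂P) = 0 := by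
    have : ∀ ω, (fun η : ℤ → MS 4 => ind (EBn η)) (markX X s 0 ω) = 0 := by
      intro ω
      show ind (EBn (markX X s 0 ω)) = 0
      rw [markX_zero]
      unfold ind
      refine if_neg ?_
      rintro ⟨-, h2⟩
      exact h2 ⟨rfl, rfl⟩
    simp only [this, integral_zero]
  -- moving walls at time zero
  have hmov : (∫ ω, (fun η : ℤ → MS 4 => ind (EM η)) (markX X s 0 ω) ∂P) ≤
      2 * ∫ ω, ind (X s ω 0 = X s ω 1 + 1) ∂P := by
    have hd1 : Dep (fun η : ℤ → ZMod 4 => ind (η 0 = η 1 + 1)) (Icc 0 1) :=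
      dep2 (fun a b : ZMod 4 => a = b + 1)
    have hd2 : Dep (fun η : ℤ → ZMod 4 => ind (η 1 = η 0 + 1)) (Icc 0 1) :=
      dep2 (fun a b : ZMod 4 => b = a + 1)
    have hd3 : Dep (fun η : ℤ → ZMod 4 => ind (η 1 = η 0 + 1 ∨ η 0 = η 1 + 1)) (Icc 0 1) :=
      dep2 (fun a b : ZMod 4 => b = a + 1 ∨ a = b + 1)
    have h1 := hinvs.exp.mono _ _ _ hd3 (hd2.add hd1) (fun η => by
      unfold ind
      by_cases ha : η 1 = η 0 + 1
      · rw [if_pos (Or.inl ha), if_pos ha]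
        split_ifs <;> norm_num
      · by_cases hb : η 0 = η 1 + 1
        · rw [if_pos (Or.inr hb), if_neg ha, if_pos hb]
          norm_num
        · rw [if_neg (fun hc => hc.elim ha hb), if_neg ha, if_neg hb]
          norm_num)
    have h2 := hinvs.exp.add _ _ _ hd2 hd1
    have h3 := hinvs.inv (-1) 1 (Or.inr rfl) _ (Icc 0 1) hd1
    have h4 : (∫ ω, (fun η : ℤ → ZMod 4 => ind (η 1 = η 0 + 1)) (X s ω) ∂P) =
        ∫ ω, (fun η : ℤ → ZMod 4 => ind (sym id (-1) 1 η 0 = sym id (-1) 1 η 1 + 1))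
          (X s ω) ∂P := by
      refine integral_congr_ae (Filter.Eventually.of_forall fun ω => ?_)
      simp [sym]
    have h5 : (∫ ω, (fun η : ℤ → MS 4 => ind (EM η)) (markX X s 0 ω) ∂P) =
        ∫ ω, (fun η : ℤ → ZMod 4 => ind (η 1 = η 0 + 1 ∨ η 0 = η 1 + 1)) (X s ω) ∂P := by
      refine integral_congr_ae (Filter.Eventually.of_forall fun ω => ?_)
      simp only [EM]
      rw [cur_markX, cur_markX, add_zero]
    have h6 : (∫ ω, (fun η : ℤ → ZMod 4 => ind (sym id (-1) 1 η 0 = sym id (-1) 1 η 1 + 1))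
          (X s ω) ∂P) = ∫ ω, ind (X s ω 0 = X s ω 1 + 1) ∂P := h3
    have h7 : (∫ ω, (fun η : ℤ → ZMod 4 => ind (η 1 = η 0 + 1 ∨ η 0 = η 1 + 1)) (X s ω) ∂P) ≤
        ∫ ω, (fun η : ℤ → ZMod 4 => ind (η 1 = η 0 + 1) + ind (η 0 = η 1 + 1)) (X s ω) ∂P := h1
    have h8 : (∫ ω, (fun η : ℤ → ZMod 4 => ind (η 1 = η 0 + 1) + ind (η 0 = η 1 + 1)) (X s ω) ∂P)
        = (∫ ω, (fun η : ℤ → ZMod 4 => ind (η 1 = η 0 + 1)) (X s ω) ∂P) +
          ∫ ω, ind (X s ω 0 = X s ω 1 + 1) ∂P := h2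
    rw [h5]
    rw [h8, h4, h6] at h7
    linarith
  have hnew' : (∫ ω, (fun η : ℤ → MS 4 => ind (EBn η)) (markX X s T ω) ∂P) ≤
      (∫ ω, (fun η : ℤ → MS 4 => ind (EBn η)) (markX X s 0 ω) ∂P) +
        1 / 2 * ∫ ω, (fun η : ℤ → MS 4 => ind (EM η)) (markX X s 0 ω) ∂P := hnew
  have hsurv' : (∫ ω, (fun η : ℤ → MS 4 => ind ((η 0).2.2 = true ∧ (η 1).2.2 = true ∧
        cur (η 1) = cur (η 0) + 2)) (markX X s T ω) ∂P) ≤
      (∫ ω, ind (X s ω 1 = X s ω 0 + 2) ∂P) / 2 + μ / (4 * W) +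
        W * ((4 * M + 1) * (∫ ω, ind (X s ω 1 = X s ω 0 + 2) ∂P) +
          W * (16 * s * Real.exp (1 - M + 2 * Real.exp 1 * s))) / (4 * μ * W) +
        l / (2 * W) + 3 * (W : ℝ) ^ 3 / (2 * l * T) := hsurv
  rw [hdec]
  linarith

end CPS84
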