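import Pool.Agent.LibCPS84.Low1
import Pool.Agent.LibCPS84.DecB

/-! Distant sites are almost independent. -/

namespace CPS84

open Finset
open scoped Classical

variable {κ : ℕ} {m : ℝ → ((ℤ → ZMod κ) → ℝ) → ℝ}

private theorem dep_color (Λ : Finset ℤ) {p : ℤ} (hp : p ∈ Λ) (a : ZMod κ) :
    Dep (fun η : ℤ → ZMod κ => ind (η p = a)) Λ := by
  intro η ζ h
  simp only [h p hp]

private theorem ind_eq_sum [NeZero κ] (q : ℤ) (η : ℤ → ZMod κ) :
    ind (η 0 = η q) = ∑ a : ZMod κ, ind (η 0 = a) * ind (η q = a) := by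
  rw [Finset.sum_eq_single (η 0)]
  · unfold ind
    by_cases h : η 0 = η q
    · rw [if_pos h, if_pos rfl, if_pos h.symm]; norm_num
    · rw [if_neg h, if_pos rfl, if_neg (fun e => h e.symm)]; norm_num
  · intro b _ hb
    unfold ind
    rw [if_neg (fun e => hb e.symm)]; norm_num
  · intro h; exact absurd (Finset.mem_univ _) h

/-- `decor` with `k = 0`, `p = 0`, summed over the colours -/
theorem prob_eq_far [NeZero κ] (hm : Sol (cyc κ) m) (h0 : Unif (m 0)) (t : ℝ) (ht : 0 ≤ t)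
    (M : ℕ) (q : ℤ) (hq : 2 * (M : ℤ) < q) :
    m t (fun η => ind (η 0 = η q)) ≤
      1 / κ + κ * (16 * t * Real.exp (-(M : ℝ) + 2 * Real.exp 1 * t)) := by
  have hE := hm.exp t ht
  have e1 : (fun η : ℤ → ZMod κ => ind (η 0 = η q)) =
      fun η => ∑ a : ZMod κ, (fun a η => ind (η 0 = a) * ind (η q = a)) a η := by
    funext η
    exact ind_eq_sum q η
  have hdep : ∀ a ∈ (univ : Finset (ZMod κ)), Dep ((fun (a : ZMod κ) (η : ℤ → ZMod κ) => ind (η 0 = a) * ind (η q = a)) a) {0, q} := by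
    intro a _
    exact Dep.mul (dep_color _ (by simp) a) (dep_color _ (by simp) a)
  rw [e1, hE.sum univ _ hdep]
  have hκ0 : (0 : ℝ) < κ := by exact_mod_cast Nat.pos_of_ne_zero (NeZero.ne κ)
  have hb : ∀ a ∈ (univ : Finset (ZMod κ)), m t ((fun (a : ZMod κ) (η : ℤ → ZMod κ) => ind (η 0 = a) * ind (η q = a)) a) ≤
      (1 / κ) * (1 / κ) + 16 * t * Real.exp (-(M : ℝ) + 2 * Real.exp 1 * t) := by
    intro a _
    have habs : ∀ p : Prop, |ind p| ≤ 1 := by
      intro p
      unfold ind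
      split_ifs <;> norm_num
    have h := decor hm (fun f g Λ Λ' hf hg hd => h0.mul hf hg hd) 0 q 0 M (Nat.zero_le _) (by omega)
      (f := fun η => ind (η 0 = a)) (g := fun η => ind (η q = a))
      (dep_color _ (by simp) a) (fun η => habs _) (dep_color _ (by simp) a) (fun η => habs _) t ht
    have h2 := (abs_le.mp h).2
    rw [prob_color hm h0 t ht 0 a, prob_color hm h0 t ht q a] at h2
    have e3 : ((0 : ℕ) : ℝ) - M + 2 * Real.exp 1 * t = -(M : ℝ) + 2 * Real.exp 1 * t := by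
      push_cast; ring
    rw [e3] at h2
    show m t (fun η => ind (η 0 = a) * ind (η q = a)) ≤ _
    linarith
  refine (Finset.sum_le_sum hb).trans (le_of_eq ?_)
  rw [Finset.sum_const, Finset.card_univ, ZMod.card, nsmul_eq_mul]
  field_simp

end CPS84
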