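import Pool.Agent.LibCPS84.CycDefs

/-! Union bound. -/

namespace CPS84

open Finset
open scoped Classical

variable {κ : ℕ} {m : ℝ → ((ℤ → ZMod κ) → ℝ) → ℝ}

/-- union bound over the edges between `0` and `D`, shift invariance -/
theorem prob_ne_le {E : ((ℤ → ZMod κ) → ℝ) → ℝ} (hE : Inv E) (D : ℕ) :
    E (fun η => ind (η 0 ≠ η D)) ≤ D * E (fun η => ind (EW η)) := by
  induction D with
  | zero =>
    have h : (fun η : ℤ → ZMod κ => ind (η 0 ≠ η ((0 : ℕ) : ℤ))) = fun _ => 0 := by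
      funext η
      unfold ind
      rw [if_neg (by simp)]
    rw [h, hE.exp.const]
    simp
  | succ D ih =>
    have hΛ1 : Dep (fun η : ℤ → ZMod κ => ind (η 0 ≠ η ((D + 1 : ℕ) : ℤ)))
        (Icc 0 ((D : ℤ) + 1)) := dep_ind _ (fun η ζ h => by
      have h0 := h 0 (by rw [Finset.mem_Icc]; constructor <;> omega)
      have h1 := h ((D + 1 : ℕ) : ℤ) (by rw [Finset.mem_Icc]; push_cast; constructor <;> omega)
      rw [h0, h1])
    have hΛ2 : Dep (fun η : ℤ → ZMod κ => ind (η 0 ≠ η (D : ℤ)))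
        (Icc 0 ((D : ℤ) + 1)) := dep_ind _ (fun η ζ h => by
      have h0 := h 0 (by rw [Finset.mem_Icc]; constructor <;> omega)
      have h1 := h (D : ℤ) (by rw [Finset.mem_Icc]; constructor <;> omega)
      rw [h0, h1])
    have hΛ3 : Dep (fun η : ℤ → ZMod κ => ind (EW (sh (D : ℤ) η)))
        (Icc 0 ((D : ℤ) + 1)) := by
      refine (dep_sh (dep_EW (κ := κ)) (D : ℤ)).mono ?_
      intro i hi
      rw [Finset.mem_image] at hi
      obtain ⟨a, ha, rfl⟩ := hi
      rw [Finset.mem_Icc] at ha ⊢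
      constructor <;> omega
    have h1 : E (fun η => ind (η 0 ≠ η ((D + 1 : ℕ) : ℤ)))
        ≤ E (fun η => ind (η 0 ≠ η (D : ℤ)) + ind (EW (sh (D : ℤ) η))) := by
      refine hE.exp.mono _ _ _ hΛ1 (hΛ2.add hΛ3) (fun η => ?_)
      unfold ind EW sh
      have e1 : (0 : ℤ) + (D : ℤ) = (D : ℤ) := zero_add _
      have e2 : (1 : ℤ) + (D : ℤ) = ((D + 1 : ℕ) : ℤ) := by push_cast; ring
      rw [e1, e2]
      by_cases ha : η 0 ≠ η (D : ℤ)
      · rw [if_pos ha]
        split_ifs <;> norm_num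
      · rw [if_neg ha]
        have ha' : η 0 = η (D : ℤ) := not_not.1 ha
        rw [ha']
        split_ifs <;> norm_num
    rw [hE.exp.add _ _ _ hΛ2 hΛ3, hE.shift (D : ℤ) (dep_EW (κ := κ))] at h1
    push_cast
    push_cast at h1
    linarith

end CPS84
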