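import Pool.Agent.LibCPS84.Low2
import Pool.Agent.LibCPS84.Low3

/-! The lower bound. -/

namespace CPS84

open Finset
open scoped Classical

variable {κ : ℕ} {m : ℝ → ((ℤ → ZMod κ) → ℝ) → ℝ}

private theorem small_term (t : ℝ) (ht : 1 ≤ t) (x : ℝ) (hx : x ≤ -(14 * t)) :
    64 * t * Real.exp x ≤ 1 / 128 := by
  have h1 : Real.exp x ≤ Real.exp (-(14 * t)) := Real.exp_le_exp.2 hx
  have h2 : t + 1 ≤ Real.exp t := Real.add_one_le_exp t
  have h3 : (2 : ℝ) ≤ Real.exp t := by linarith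
  have h4 : 8192 * t ≤ Real.exp (14 * t) := by
    have h5 : Real.exp (14 * t) = Real.exp t ^ 13 * Real.exp t := by
      rw [← Real.exp_nat_mul, ← Real.exp_add]
      congr 1
      push_cast
      ring
    rw [h5]
    have h6 : (8192 : ℝ) ≤ Real.exp t ^ 13 := by
      calc (8192 : ℝ) = 2 ^ 13 := by norm_num
        _ ≤ Real.exp t ^ 13 := pow_le_pow_left₀ (by norm_num) h3 13
    have h7 : t ≤ Real.exp t := by linarith
    exact mul_le_mul h6 h7 (by linarith) (by positivity)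
  have h8 : Real.exp (-(14 * t)) * Real.exp (14 * t) = 1 := by
    rw [← Real.exp_add, neg_add_cancel, Real.exp_zero]
  have h9 : 0 < Real.exp (-(14 * t)) := Real.exp_pos _
  have h10 : Real.exp (-(14 * t)) * (8192 * t) ≤ 1 := by
    calc Real.exp (-(14 * t)) * (8192 * t) ≤ Real.exp (-(14 * t)) * Real.exp (14 * t) :=
          mul_le_mul_of_nonneg_left h4 h9.le
      _ = 1 := h8
  have h11 : 64 * t * Real.exp x ≤ 64 * t * Real.exp (-(14 * t)) :=
    mul_le_mul_of_nonneg_left h1 (by linarith)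
  linarith

/-- for three or four colours; `M = ⌈20 t⌉`, `D = 2 M + 1 ≤ 43 t` -/
theorem lower [NeZero κ] (hκ : 2 ≤ κ) (hκ4 : κ ≤ 4) (hm : Sol (cyc κ) m) (h0 : Unif (m 0)) (t : ℝ) (ht : 1 ≤ t) :
    1 / (200 * t) ≤ m t (fun η => ind (EW η)) := by
  have ht0 : (0 : ℝ) ≤ t := le_trans zero_le_one ht
  have hE : Inv (m t) := inv_of_unif hm h0 t ht0
  obtain ⟨M, hM⟩ : ∃ M : ℕ, M = ⌈20 * t⌉₊ := ⟨_, rfl⟩
  have hM1 : 20 * t ≤ (M : ℝ) := by rw [hM]; exact Nat.le_ceil _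
  have hM2 : (M : ℝ) < 20 * t + 1 := by
    rw [hM]; exact Nat.ceil_lt_add_one (by linarith)
  obtain ⟨D, hD⟩ : ∃ D : ℕ, D = 2 * M + 1 := ⟨_, rfl⟩
  have hDr : (D : ℝ) = 2 * M + 1 := by rw [hD]; push_cast; ring
  have hDz : 2 * (M : ℤ) < (D : ℤ) := by rw [hD]; push_cast; omega
  have h1 := prob_eq_far hm h0 t ht0 M (D : ℤ) hDz
  have h2 := prob_ne_le hE D
  have hdep : Dep (fun η : ℤ → ZMod κ => ind (η 0 = η (D : ℤ))) {0, (D : ℤ)} :=
    dep_ind _ (fun η ζ h => by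
      rw [h 0 (by simp), h (D : ℤ) (by simp)])
  have h3 : m t (fun η => ind (η 0 ≠ η (D : ℤ)))
      = 1 - m t (fun η => ind (η 0 = η (D : ℤ))) := by
    have h4 := hE.exp.sub (dep_const (S := ZMod κ) 1 {0, (D : ℤ)}) hdep
    rw [hE.exp.one] at h4
    rw [← h4]
    congr 1
    funext η
    unfold ind
    by_cases hη : η 0 = η (D : ℤ)
    · rw [if_neg (not_not.2 hη), if_pos hη]; norm_num
    · rw [if_pos hη, if_neg hη]; norm_num
  have hκr2 : (2 : ℝ) ≤ (κ : ℝ) := by exact_mod_cast hκ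
  have hκr4 : (κ : ℝ) ≤ 4 := by exact_mod_cast hκ4
  have h5 : (1 : ℝ) / κ ≤ 1 / 2 := one_div_le_one_div_of_le (by norm_num) hκr2
  have hx : -(M : ℝ) + 2 * Real.exp 1 * t ≤ -(14 * t) := by
    have he : Real.exp 1 ≤ 3 := by linarith [Real.exp_one_lt_d9]
    have : 2 * Real.exp 1 * t ≤ 6 * t := by nlinarith
    linarith
  have h6 := small_term t ht _ hx
  have h7 : (κ : ℝ) * (16 * t * Real.exp (-(M : ℝ) + 2 * Real.exp 1 * t))
      ≤ 64 * t * Real.exp (-(M : ℝ) + 2 * Real.exp 1 * t) := by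
    have h8 : 0 ≤ 16 * t * Real.exp (-(M : ℝ) + 2 * Real.exp 1 * t) := by positivity
    have h9 := mul_le_mul_of_nonneg_right hκr4 h8
    linarith
  have h10 : (63 : ℝ) / 128 ≤ (D : ℝ) * m t (fun η => ind (EW η)) := by
    have : (63 : ℝ) / 128 ≤ m t (fun η => ind (η 0 ≠ η (D : ℤ))) := by
      rw [h3]; linarith
    exact this.trans h2
  have hDt : (D : ℝ) ≤ 43 * t := by rw [hDr]; linarith
  have hw : 0 ≤ m t (fun η => ind (EW η)) :=
    hE.exp.nonneg dep_EW (fun η => by unfold ind; split_ifs <;> norm_num)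
  have h11 : (63 : ℝ) / 128 ≤ 43 * t * m t (fun η => ind (EW η)) :=
    h10.trans (mul_le_mul_of_nonneg_right hDt hw)
  rw [div_le_iff₀ (by positivity)]
  nlinarith

end CPS84
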