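import Pool.Agent.LibCPS84.MkDefs

/-! The marked process is a particle system. -/

namespace CPS84

open Finset MeasureTheory Filter Topology
open scoped Classical

variable {S : Type} {u : S → S → S} {κ : ℕ} {Ω : Type} {mΩ : MeasurableSpace Ω} {P : Measure Ω}
  {𝓕 : Filtration ℝ mΩ} {U : ℤ × Bool → Ω → Set ℝ}

private theorem mkA_one {X : ℝ → Ω → ℤ → S} (h : IsPS u P 𝓕 U X) (c : ℤ × Bool) (T : ℕ)
    (hT : 0 < T) : ∀ᵐ ω ∂P, (U c ω ∩ Set.Ioc 0 (T : ℝ)).Finite := by
  haveI := h.prob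
  set A : ℕ → Set Ω := fun n => {ω | (U c ω ∩ Set.Ioc 0 (T : ℝ)).encard = n} with hA
  have hm : ∀ n, MeasurableSet (A n) := fun n => h.measU c 0 (T : ℝ) n
  have hTR : (0 : ℝ) < T := by exact_mod_cast hT
  have hd : Pairwise (Function.onFun Disjoint A) := by
    intro i j hij
    show Disjoint (A i) (A j)
    rw [Set.disjoint_left]
    intro ω h1 h2
    have h3 : ((i : ℕ) : ℕ∞) = j := by
      have h1' : (U c ω ∩ Set.Ioc 0 (T : ℝ)).encard = i := h1
      have h2' : (U c ω ∩ Set.Ioc 0 (T : ℝ)).encard = j := h2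
      rw [← h1', ← h2']
    exact hij (by exact_mod_cast h3)
  have hP : ∀ n, P.real (A n) = Real.exp (-(T : ℝ)) * (T : ℝ) ^ n / (n.factorial : ℝ) := by
    intro n
    have h1 := h.poisson 0 (T : ℝ) le_rfl hTR {c} (fun _ => n) Set.univ MeasurableSet.univ
    simp only [Set.univ_inter, mem_singleton, forall_eq, prod_singleton, sub_zero] at h1
    rw [hA]
    simp only
    rw [h1]
    simp [Measure.real]
  have hsum : HasSum (fun n : ℕ => Real.exp (-(T : ℝ)) * (T : ℝ) ^ n / (n.factorial : ℝ)) 1 := by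
    have h1 := (NormedSpace.expSeries_div_hasSum_exp (𝔸 := ℝ) (T : ℝ)).mul_left
      (Real.exp (-(T : ℝ)))
    rw [← Real.exp_eq_exp_ℝ, ← Real.exp_add, neg_add_cancel, Real.exp_zero] at h1
    have h2 : (fun n : ℕ => Real.exp (-(T : ℝ)) * (T : ℝ) ^ n / (n.factorial : ℝ)) =
        fun n : ℕ => Real.exp (-(T : ℝ)) * ((T : ℝ) ^ n / (n.factorial : ℝ)) := by
      funext n
      ring
    rw [h2]
    exact h1
  have h1 : P (⋃ n, A n) = 1 := by
    rw [measure_iUnion hd hm]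
    have h2 : ∀ n, P (A n) = ENNReal.ofReal
        (Real.exp (-(T : ℝ)) * (T : ℝ) ^ n / (n.factorial : ℝ)) := by
      intro n
      rw [← hP n, Measure.real, ENNReal.ofReal_toReal (measure_ne_top _ _)]
    simp_rw [h2]
    rw [← ENNReal.ofReal_tsum_of_nonneg (fun n => by positivity) hsum.summable, hsum.tsum_eq,
      ENNReal.ofReal_one]
  have h3 : ∀ᵐ ω ∂P, ω ∈ ⋃ n, A n :=
    (mem_ae_iff_prob_eq_one (MeasurableSet.iUnion hm)).2 h1
  filter_upwards [h3] with ω hω
  obtain ⟨n, hn⟩ := Set.mem_iUnion.1 hω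
  have hn' : (U c ω ∩ Set.Ioc 0 (T : ℝ)).encard = n := hn
  exact Set.finite_of_encard_eq_coe hn'

/-- the clocks have finitely many rings in bounded intervals: the Poisson probabilities sum to 1
(take `K = {c}`, `A = univ`, `s = 0`, `t = T` natural) -/
theorem IsPS.finite_ae {X : ℝ → Ω → ℤ → S} (h : IsPS u P 𝓕 U X) :
    ∀ᵐ ω ∂P, ∀ (c : ℤ × Bool) (T : ℕ), (U c ω ∩ Set.Ioc 0 (T : ℝ)).Finite := by
  rw [ae_all_iff]
  intro c
  rw [ae_all_iff]
  intro T
  rcases Nat.eq_zero_or_pos T with rfl | hT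
  · filter_upwards with ω
    simp
  · exact mkA_one h c T hT

end CPS84
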