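import Pool.Agent.LibCPS84.MkA

/-! The marked process is a particle system. -/

namespace CPS84

open Finset MeasureTheory Filter Topology
open scoped Classical

variable {κ : ℕ} {Ω : Type} {mΩ : MeasurableSpace Ω} {P : Measure Ω}
  {𝓕 : Filtration ℝ mΩ} {U : ℤ × Bool → Ω → Set ℝ} {X : ℝ → Ω → ℤ → ZMod κ}

private theorem mkb_encard (A : Set ℝ) (s a b : ℝ) :
    ({τ | s + τ ∈ A} ∩ Set.Ioc a b).encard = (A ∩ Set.Ioc (s + a) (s + b)).encard := by
  have h : A ∩ Set.Ioc (s + a) (s + b) = (fun τ => s + τ) '' ({τ | s + τ ∈ A} ∩ Set.Ioc a b) := by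
    ext x
    simp only [Set.mem_inter_iff, Set.mem_Ioc, Set.mem_image, Set.mem_setOf_eq]
    constructor
    · rintro ⟨hx, h1, h2⟩
      refine ⟨x - s, ⟨?_, ?_, ?_⟩, ?_⟩
      · rw [add_sub_cancel]
        exact hx
      · linarith
      · linarith
      · ring
    · rintro ⟨y, ⟨hy, h1, h2⟩, rfl⟩
      exact ⟨hy, by linarith, by linarith⟩
  rw [h, Function.Injective.encard_image]
  intro x y hxy
  simpa using hxy

private theorem mkb_empty (A : Set ℝ) (s a b : ℝ) (h : {τ | s + τ ∈ A} ∩ Set.Ioc a b = ∅) :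
    A ∩ Set.Ioc (s + a) (s + b) = ∅ := by
  have h1 := mkb_encard A s a b
  rw [h, Set.encard_empty] at h1
  exact Set.encard_eq_zero.1 h1.symm

/-- the mark -/
private theorem mkb_mark_eq {X : ℝ → Ω → ℤ → ZMod κ} {s a b : ℝ} {ω : Ω} {y : ℤ} (hs : a ≤ b)
    (ha : 0 ≤ a)
    (hab : X (s + b) ω y = X (s + a) ω y)
    (hq : ∀ q : ℝ, s + a ≤ q → q ≤ s + b → X q ω y = X (s + a) ω y) :
    markX X s b ω y = markX X s a ω y := by
  unfold markX
  rw [hab]
  have hiff : (X (s + a) ω y = X s ω y ∧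
      ∀ q : ℚ, s ≤ (q : ℝ) → (q : ℝ) ≤ s + b → X (q : ℝ) ω y = X s ω y) ↔
      (X (s + a) ω y = X s ω y ∧
      ∀ q : ℚ, s ≤ (q : ℝ) → (q : ℝ) ≤ s + a → X (q : ℝ) ω y = X s ω y) := by
    constructor
    · rintro ⟨h1, h2⟩
      exact ⟨h1, fun q hq1 hq2 => h2 q hq1 (by linarith)⟩
    · rintro ⟨h1, h2⟩
      refine ⟨h1, fun q hq1 hq2 => ?_⟩
      rcases le_total (q : ℝ) (s + a) with h | h
      · exact h2 q hq1 h
      · rw [hq q h hq2, h1]
  rw [decide_eq_decide.2 hiff]

private theorem mkb_finite_left {A : Set ℝ} {σ : ℝ} (hσ : 0 < σ)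
    (hA : ∀ T : ℕ, (A ∩ Set.Ioc 0 (T : ℝ)).Finite) :
    ∃ ρ : ℝ, 0 ≤ ρ ∧ ρ < σ ∧ ∀ x, ρ < x → x < σ → x ∉ A := by
  obtain ⟨T, hT⟩ := exists_nat_ge σ
  have hfin : (A ∩ Set.Ioo 0 σ).Finite :=
    (hA T).subset (fun x hx => ⟨hx.1, hx.2.1, by linarith [hx.2.2]⟩)
  obtain ⟨ρ, hρ⟩ : ∃ ρ : ℝ, 0 ≤ ρ ∧ ρ < σ ∧ ∀ x ∈ A ∩ Set.Ioo 0 σ, x ≤ ρ := by
    rcases (A ∩ Set.Ioo 0 σ).eq_empty_or_nonempty with he | hne
    · exact ⟨0, le_refl _, hσ, by rw [he]; simp⟩
    · obtain ⟨m, hm, hmax⟩ := Set.exists_max_image _ id hfin hne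
      exact ⟨m, hm.2.1.le, hm.2.2, fun x hx => hmax x hx⟩
  refine ⟨ρ, hρ.1, hρ.2.1, fun x hx1 hx2 hxA => ?_⟩
  have := hρ.2.2 x ⟨hxA, by linarith [hρ.1], hx2⟩
  linarith

/-- Fields: `adapted`: countable intersections, `𝓕.mono`; `measU`, `poisson`: translation of the
sets of rings; `const`: the colour of `y` is constant on `[s + a, s + b]`, so the mark does not
change; `jump`: by `finite_ae` there is no ring of the clocks of `c.1` in a left neighbourhood
`(s + τ - ε, s + τ)`, hence the colour is constant there; if the site is overtaken, its colour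
changes by `1 ≠ 0` and the mark becomes `false` (a rational time in the left neighbourhood or the
time `s + τ` is a witness); if not, colour and mark do not change. -/
theorem mark_isPS (hκ : 2 ≤ κ) (h : IsPS (cyc κ) P 𝓕 U X) (s : ℝ) (hs : 0 ≤ s) :
    IsPS (cycM κ) P (shiftF 𝓕 s) (fun c ω => {τ | s + τ ∈ U c ω}) (markX X s) := by
  have : NeZero κ := ⟨by omega⟩
  have : Fact (1 < κ) := ⟨by omega⟩
  refine ⟨h.prob, ?_, ?_, ?_, ?_, ?_⟩
  · -- adapted
    intro t ht y a
    change MeasurableSet[𝓕 (s + t)] {ω | markX X s t ω y = a}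
    have hX : ∀ q : ℝ, 0 ≤ q → q ≤ s + t → ∀ b : ZMod κ,
        MeasurableSet[𝓕 (s + t)] {ω | X q ω y = b} := fun q hq hqt b =>
      (𝓕.mono hqt) _ (h.adapted q hq y b)
    have hXX : ∀ q : ℝ, 0 ≤ q → q ≤ s + t →
        MeasurableSet[𝓕 (s + t)] {ω | X q ω y = X s ω y} := by
      intro q hq hqt
      have : {ω | X q ω y = X s ω y} = ⋃ b : ZMod κ, ({ω | X q ω y = b} ∩ {ω | X s ω y = b}) := by
        ext ω
        simp only [Set.mem_setOf_eq, Set.mem_iUnion, Set.mem_inter_iff]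
        constructor
        · intro h1
          exact ⟨X s ω y, h1, rfl⟩
        · rintro ⟨b, h1, h2⟩
          rw [h1, h2]
      rw [this]
      exact MeasurableSet.iUnion fun b => (hX q hq hqt b).inter (hX s hs (by linarith) b)
    have hD : MeasurableSet[𝓕 (s + t)] {ω | X (s + t) ω y = X s ω y ∧
        ∀ q : ℚ, s ≤ (q : ℝ) → (q : ℝ) ≤ s + t → X (q : ℝ) ω y = X s ω y} := by
      have : {ω | X (s + t) ω y = X s ω y ∧
          ∀ q : ℚ, s ≤ (q : ℝ) → (q : ℝ) ≤ s + t → X (q : ℝ) ω y = X s ω y} =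
          {ω | X (s + t) ω y = X s ω y} ∩
          ⋂ q : ℚ, {ω | s ≤ (q : ℝ) → (q : ℝ) ≤ s + t → X (q : ℝ) ω y = X s ω y} := by
        ext ω
        simp only [Set.mem_setOf_eq, Set.mem_inter_iff, Set.mem_iInter]
      rw [this]
      refine (hXX (s + t) (by linarith) le_rfl).inter (MeasurableSet.iInter fun q => ?_)
      by_cases h1 : s ≤ (q : ℝ) ∧ (q : ℝ) ≤ s + t
      · have : {ω | s ≤ (q : ℝ) → (q : ℝ) ≤ s + t → X (q : ℝ) ω y = X s ω y} =
            {ω | X (q : ℝ) ω y = X s ω y} := by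
          ext ω
          simp only [Set.mem_setOf_eq]
          exact ⟨fun h2 => h2 h1.1 h1.2, fun h2 _ _ => h2⟩
        rw [this]
        exact hXX q (by linarith [h1.1]) h1.2
      · have : {ω | s ≤ (q : ℝ) → (q : ℝ) ≤ s + t → X (q : ℝ) ω y = X s ω y} = Set.univ := by
          ext ω
          simp only [Set.mem_setOf_eq, Set.mem_univ, iff_true]
          exact fun h2 h3 => absurd ⟨h2, h3⟩ h1
        rw [this]
        exact MeasurableSet.univ
    have : {ω | markX X s t ω y = a} = ({ω | X (s + t) ω y = a.1} ∩ {ω | X s ω y = a.2.1}) ∩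
        (if a.2.2 = true then {ω | X (s + t) ω y = X s ω y ∧
        ∀ q : ℚ, s ≤ (q : ℝ) → (q : ℝ) ≤ s + t → X (q : ℝ) ω y = X s ω y} else
        {ω | X (s + t) ω y = X s ω y ∧
        ∀ q : ℚ, s ≤ (q : ℝ) → (q : ℝ) ≤ s + t → X (q : ℝ) ω y = X s ω y}ᶜ) := by
      obtain ⟨a1, a2, a3⟩ := a
      ext ω
      cases a3
      · simp only [markX, Set.mem_setOf_eq, Prod.mk.injEq, Set.mem_inter_iff, decide_eq_false_iff_not,
          Bool.false_eq_true, if_false, Set.mem_compl_iff, and_assoc]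
      · simp only [markX, Set.mem_setOf_eq, Prod.mk.injEq, Set.mem_inter_iff, decide_eq_true_eq,
          if_true, and_assoc]
    rw [this]
    refine ((hX _ (by linarith) le_rfl _).inter (hX s hs (by linarith) _)).inter ?_
    split_ifs
    · exact hD
    · exact hD.compl
  · -- measU
    intro c a b n
    have h1 := h.measU c (s + a) (s + b) n
    simp only [mkb_encard]
    exact h1
  · -- poisson
    intro a b ha hab K n A hA
    have h1 := h.poisson (s + a) (s + b) (by linarith) (by linarith) K n A hA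
    simp only [mkb_encard]
    rw [h1]
    congr 1
    have : s + b - (s + a) = b - a := by ring
    rw [this]
  · -- const
    filter_upwards [h.const] with ω hω y a b ha hab hno
    have hno' : ∀ q : ℝ, s + a ≤ q → q ≤ s + b → ∀ d, U (y, d) ω ∩ Set.Ioc (s + a) q = ∅ := by
      intro q _ hq2 d
      have h1 := mkb_empty _ _ _ _ (hno d)
      apply Set.eq_empty_of_subset_empty
      rw [← h1]
      exact fun x hx => ⟨hx.1, hx.2.1, hx.2.2.trans hq2⟩
    have hq : ∀ q : ℝ, s + a ≤ q → q ≤ s + b → X q ω y = X (s + a) ω y := fun q hq1 hq2 =>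
      hω y (s + a) q (by linarith) hq1 (hno' q hq1 hq2)
    exact mkb_mark_eq hab ha (hq (s + b) (by linarith) le_rfl) hq
  · -- jump
    filter_upwards [h.const, h.jump, h.finite_ae] with ω hc hj hf c τ hτ hτ0
    have hτ' : s + τ ∈ U c ω := hτ
    have hστ : 0 < s + τ := by linarith
    have hj1 := hj c (s + τ) hτ' hστ
    obtain ⟨ρ1, hρ1, hρ1', hno1⟩ := mkb_finite_left hστ (hf (c.1, true))
    obtain ⟨ρ2, hρ2, hρ2', hno2⟩ := mkb_finite_left hστ (hf (c.1, false))
    obtain ⟨ρ, hρ0, hρs, hρ, hno⟩ : ∃ ρ : ℝ, 0 ≤ ρ ∧ s ≤ ρ ∧ ρ < s + τ ∧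
        ∀ x, ρ < x → x < s + τ → ∀ d, x ∉ U (c.1, d) ω := by
      refine ⟨max s (max ρ1 ρ2), le_max_of_le_left hs, le_max_left _ _,
        max_lt (by linarith) (max_lt hρ1' hρ2'), ?_⟩
      intro x hx1 hx2 d
      have h1 : ρ1 < x := lt_of_le_of_lt ((le_max_left _ _).trans (le_max_right _ _)) hx1
      have h2 : ρ2 < x := lt_of_le_of_lt ((le_max_right _ _).trans (le_max_right _ _)) hx1
      cases d
      · exact hno2 x h2 hx2
      · exact hno1 x h1 hx2
    -- constancy on `(ρ, s + τ)`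
    have hcon : ∀ x z, ρ < x → x ≤ z → z < s + τ → X z ω c.1 = X x ω c.1 := by
      intro x z hx hxz hz
      refine hc c.1 x z (by linarith) hxz (fun d => ?_)
      apply Set.eq_empty_of_forall_notMem
      rintro w ⟨hw1, hw2, hw3⟩
      exact hno w (by linarith) (by linarith) d hw1
    -- translate the eventual statement
    have hmap : Tendsto (fun r : ℝ => s + r) (𝓝[<] τ) (𝓝[<] (s + τ)) := by
      refine tendsto_nhdsWithin_iff.2 ⟨?_, ?_⟩
      · exact ((continuous_const.add continuous_id).tendsto τ).mono_left nhdsWithin_le_nhds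
      · filter_upwards [self_mem_nhdsWithin] with r hr
        simpa using hr
    have hj2 := hmap.eventually hj1
    have hleft : ∀ᶠ r in 𝓝[<] τ, ρ - s < r := by
      have : ρ - s < τ := by linarith
      exact (lt_mem_nhds this).filter_mono nhdsWithin_le_nhds
    filter_upwards [hj2, hleft, self_mem_nhdsWithin] with r hr1 hr2 hr3
    have hr3' : r < τ := hr3
    have hr0 : 0 ≤ r := by linarith
    unfold cycM
    rw [cur_markX, cur_markX]
    split_ifs with hcase
    · -- overtaken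
      have h1 : X (s + τ) ω c.1 = X (s + r) ω (nb c) := by
        rw [hr1]
        unfold cyc
        rw [if_pos hcase]
      have hne : X (s + r) ω c.1 ≠ X (s + τ) ω c.1 := by
        rw [h1, hcase]
        intro h2
        have h3 : (1 : ZMod κ) = 0 := by
          have h4 := sub_eq_self.1 h2
          exact h4
        exact one_ne_zero h3
      have hmark : ¬ (X (s + τ) ω c.1 = X s ω c.1 ∧
          ∀ q : ℚ, s ≤ (q : ℝ) → (q : ℝ) ≤ s + τ → X (q : ℝ) ω c.1 = X s ω c.1) := by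
        rintro ⟨h2, h3⟩
        obtain ⟨q, hq1, hq2⟩ := exists_rat_btwn (show s + r < s + τ by linarith)
        have h4 := h3 q (by linarith) hq2.le
        have h5 := hcon (s + r) q (by linarith) hq1.le hq2
        rw [h5] at h4
        exact hne (h4.trans h2.symm)
      unfold markX
      rw [decide_eq_false hmark, h1]
    · -- not overtaken
      have h1 : X (s + τ) ω c.1 = X (s + r) ω c.1 := by
        rw [hr1]
        unfold cyc
        rw [if_neg hcase]
      refine mkb_mark_eq hr3'.le hr0 h1 (fun q hq1 hq2 => ?_)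
      rcases eq_or_lt_of_le hq2 with h2 | h2
      · rw [h2, h1]
      · exact hcon (s + r) q (by linarith) hq1 h2

end CPS84
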