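import Pool.Agent.LibCPS84.CycDefs
import Pool.Agent.LibCPS84.PrA

/-! # Four colours: the system with marks

The state of a site is `(x, y, b)`: `y` is the colour at time `s`, `b = true` means that the site
has not been overtaken since time `s` (then its colour is `y`), otherwise its colour is `x`. -/

namespace CPS84

open Finset MeasureTheory Filter Topology
open scoped Classical

variable {κ : ℕ}

abbrev MS (κ : ℕ) : Type := ZMod κ × ZMod κ × Bool

/-- the present colour -/
def cur (x : MS κ) : ZMod κ := if x.2.2 = true then x.2.1 else x.1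

/-- the update rule of the marked system -/
def cycM (κ : ℕ) (a b : MS κ) : MS κ := if cur b = cur a - 1 then (cur a, b.2.1, false) else b

noncomputable section

variable {Ω : Type} {mΩ : MeasurableSpace Ω}

/-- the marked process started at time `s` -/
def markX (X : ℝ → Ω → ℤ → ZMod κ) (s : ℝ) : ℝ → Ω → ℤ → MS κ := fun t ω y =>
  (X (s + t) ω y, X s ω y,
    decide (X (s + t) ω y = X s ω y ∧
      ∀ q : ℚ, s ≤ (q : ℝ) → (q : ℝ) ≤ s + t → X (q : ℝ) ω y = X s ω y))

/-- the filtration after time `s` -/
def shiftF (𝓕 : Filtration ℝ mΩ) (s : ℝ) : Filtration ℝ mΩ where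
  seq t := 𝓕 (s + t)
  mono' := fun _ _ hab => 𝓕.mono (by linarith)
  le' := fun t => 𝓕.le (s + t)

end

theorem cur_markX {Ω : Type} (X : ℝ → Ω → ℤ → ZMod κ) (s t : ℝ) (ω : Ω) (y : ℤ) :
    cur (markX X s t ω y) = X (s + t) ω y := by
  unfold cur markX
  by_cases h : X (s + t) ω y = X s ω y ∧
      ∀ q : ℚ, s ≤ (q : ℝ) → (q : ℝ) ≤ s + t → X (q : ℝ) ω y = X s ω y
  · simp only [decide_eq_true_eq, if_pos h]
    exact h.1.symm
  · simp only [decide_eq_true_eq, if_neg h]

/-- the colour of the updated site -/
theorem cur_cycM (a b : MS κ) : cur (cycM κ a b) = cyc κ (cur a) (cur b) := by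
  unfold cycM cyc
  split_ifs with h
  · simp [cur]
  · rfl

end CPS84
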