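import Mathlib

/-! The cyclic particle system of the problem. -/

namespace CPS84

open MeasureTheory Filter Topology

/-- `X` is the `κ`-colour cyclic particle system on `ℤ` started from the uniform product measure.
`U x y ω` is the set of the points of the Poisson process of the ordered pair `(x, y)` of
neighbouring sites.  With respect to the filtration `𝓕` (the information up to time `t`) the
processes `U x y` are independent Poisson processes of intensity `1`, and `X` is adapted to `𝓕`. -/
structure IsCPS (κ : ℕ) {Ω : Type} {mΩ : MeasurableSpace Ω} (P : Measure Ω)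
    (𝓕 : Filtration ℝ mΩ) (U : ℤ → ℤ → Ω → Set ℝ) (X : ℝ → Ω → ℤ → ZMod κ) : Prop where
  /-- `P` is a probability measure -/
  prob : IsProbabilityMeasure P
  /-- the initial colours are independent and uniformly distributed -/
  init : ∀ (Λ : Finset ℤ) (σ : ℤ → ZMod κ),
    P.real {ω | ∀ i ∈ Λ, X 0 ω i = σ i} = (1 / (κ : ℝ)) ^ Λ.card
  /-- the colours at time `t` are known at time `t` -/
  adapted : ∀ t, 0 ≤ t → ∀ (y : ℤ) (a : ZMod κ), MeasurableSet[𝓕 t] {ω | X t ω y = a}
  /-- the numbers of points in intervals are random variables -/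
  meas : ∀ (x y : ℤ) (s t : ℝ) (n : ℕ), MeasurableSet {ω | (U x y ω ∩ Set.Ioc s t).encard = n}
  /-- the numbers of points of different processes in `(s, t]` are independent, independent of
  the information up to time `s`, and Poisson distributed with parameter `t - s` -/
  poisson : ∀ s t, 0 ≤ s → s < t → ∀ (K : Finset (ℤ × ℤ)), (∀ e ∈ K, |e.1 - e.2| = 1) →
    ∀ (n : ℤ × ℤ → ℕ) (A : Set Ω), MeasurableSet[𝓕 s] A →
    P.real (A ∩ {ω | ∀ e ∈ K, (U e.1 e.2 ω ∩ Set.Ioc s t).encard = n e}) =
      P.real A * ∏ e ∈ K, (Real.exp (-(t - s)) * (t - s) ^ (n e) / (n e).factorial)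
  /-- the colour of `y` does not change without a point of a process `U x y` -/
  const : ∀ᵐ ω ∂P, ∀ (y : ℤ) (s t : ℝ), 0 ≤ s → s ≤ t →
    (∀ x, |x - y| = 1 → U x y ω ∩ Set.Ioc s t = ∅) → X t ω y = X s ω y
  /-- if `τ ∈ U x y` and the colour of `y` before `τ` is the colour of `x` minus one, then `y`
  takes the colour of `x`, otherwise nothing changes -/
  jump : ∀ᵐ ω ∂P, ∀ x y : ℤ, |x - y| = 1 → ∀ τ ∈ U x y ω, 0 < τ →
    ∀ᶠ s in 𝓝[<] τ, X τ ω y = if X s ω y = X s ω x - 1 then X s ω x else X s ω y

end CPS84
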