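import Pool.Agent.LibCPS84.MkDefs

/-! New blockers. -/

namespace CPS84

open Finset
open scoped Classical

/-- a blocker at the edge `(0, 1)`, not both sites fresh -/
def EBn (η : ℤ → MS 4) : Prop :=
  cur (η 1) = cur (η 0) + 2 ∧ ¬ ((η 0).2.2 = true ∧ (η 1).2.2 = true)

/-- a moving wall at the edge `(0, 1)` -/
def EM (η : ℤ → MS 4) : Prop := cur (η 1) = cur (η 0) + 1 ∨ cur (η 0) = cur (η 1) + 1

private theorem sum_clk01 (F : ℤ × Bool → ℝ) :
    ∑ c ∈ clk (Icc (0 : ℤ) 1), F c =
      F (0, true) + F (0, false) + (F (1, true) + F (1, false)) := by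
  have h : Icc (0 : ℤ) 1 = {0, 1} := by decide
  rw [clk, h, Finset.sum_product, Finset.sum_pair (by norm_num)]
  simp

private theorem ind_cast (p : Prop) [Decidable p] : ind p = ((if p then 1 else 0 : ℤ) : ℝ) := by
  unfold ind
  by_cases h : p <;> simp [h]

private theorem ind_nonneg' (p : Prop) : 0 ≤ ind p := by
  unfold ind
  split_ifs <;> norm_num

private theorem ind_true' {p : Prop} (h : p) : ind p = 1 := by
  unfold ind
  rw [if_pos h]

private theorem ind_false' {p : Prop} (h : ¬ p) : ind p = 0 := by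
  unfold ind
  rw [if_neg h]

private theorem ind_mono' {p q : Prop} (h : p → q) : ind p ≤ ind q := by
  by_cases hp : p
  · rw [ind_true' hp, ind_true' (h hp)]
  · rw [ind_false' hp]
    exact ind_nonneg' q

private theorem cur_act_same (c : ℤ × Bool) (η : ℤ → MS 4) :
    cur (act (cycM 4) c η c.1) = cyc 4 (cur (η (nb c))) (cur (η c.1)) := by
  rw [act_same, cur_cycM]

private theorem key_EM : ∀ a b c d : ZMod 4,
    ((if (c = cyc 4 c b + 1 ∨ cyc 4 c b = c + 1) then 1 else 0 : ℤ) -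
        (if (c = b + 1 ∨ b = c + 1) then 1 else 0 : ℤ)) +
      ((if (c = cyc 4 a b + 1 ∨ cyc 4 a b = c + 1) then 1 else 0 : ℤ) -
        (if (c = b + 1 ∨ b = c + 1) then 1 else 0 : ℤ)) +
      (((if (cyc 4 d c = b + 1 ∨ b = cyc 4 d c + 1) then 1 else 0 : ℤ) -
        (if (c = b + 1 ∨ b = c + 1) then 1 else 0 : ℤ)) +
      ((if (cyc 4 b c = b + 1 ∨ b = cyc 4 b c + 1) then 1 else 0 : ℤ) -
        (if (c = b + 1 ∨ b = c + 1) then 1 else 0 : ℤ))) =
      - (if (c = b + 1 ∨ b = c + 1) then 1 else 0 : ℤ) + (if a = b + 1 then 1 else 0 : ℤ) +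
        (if d = c + 1 then 1 else 0 : ℤ) -
        2 * (if a = b + 1 ∧ (c = b + 1 ∨ b = c + 1) then 1 else 0 : ℤ) -
        2 * (if d = c + 1 ∧ (c = b + 1 ∨ b = c + 1) then 1 else 0 : ℤ) := by
  decide +kernel

theorem gen_EM (η : ℤ → MS 4) :
    gen (cycM 4) (clk (Icc 0 1)) (fun η => ind (EM η)) η =
      - ind (EM η) + ind (cur (η (-1)) = cur (η 0) + 1) + ind (cur (η 2) = cur (η 1) + 1)
      - 2 * ind (cur (η (-1)) = cur (η 0) + 1 ∧ EM η)
      - 2 * ind (cur (η 2) = cur (η 1) + 1 ∧ EM η) := by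
  have e1 : cur (act (cycM 4) (0, true) η 0) = cyc 4 (cur (η 1)) (cur (η 0)) :=
    cur_act_same (0, true) η
  have e2 : act (cycM 4) (0, true) η 1 = η 1 := act_of_ne (by norm_num) η
  have e3 : cur (act (cycM 4) (0, false) η 0) = cyc 4 (cur (η (-1))) (cur (η 0)) :=
    cur_act_same (0, false) η
  have e4 : act (cycM 4) (0, false) η 1 = η 1 := act_of_ne (by norm_num) η
  have e5 : cur (act (cycM 4) (1, true) η 1) = cyc 4 (cur (η 2)) (cur (η 1)) :=
    cur_act_same (1, true) η
  have e6 : act (cycM 4) (1, true) η 0 = η 0 := act_of_ne (by norm_num) η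
  have e7 : cur (act (cycM 4) (1, false) η 1) = cyc 4 (cur (η 0)) (cur (η 1)) :=
    cur_act_same (1, false) η
  have e8 : act (cycM 4) (1, false) η 0 = η 0 := act_of_ne (by norm_num) η
  unfold gen
  rw [sum_clk01]
  simp only [EM, e1, e2, e3, e4, e5, e6, e7, e8]
  have key := key_EM (cur (η (-1))) (cur (η 0)) (cur (η 1)) (cur (η 2))
  simp only [ind_cast]
  exact_mod_cast key

private theorem z1 : ∀ _ c : ZMod 4, ¬ (c = c + 2) := by decide

private theorem z2 : ∀ a b c : ZMod 4, b = a - 1 → c = a + 2 → a = b + 1 ∧ (c = b + 1 ∨ b = c + 1) := by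
  decide

private theorem z3 : ∀ b c d : ZMod 4, c = d - 1 → d = b + 2 → d = c + 1 ∧ (c = b + 1 ∨ b = c + 1) := by
  decide

theorem gen_EBn (η : ℤ → MS 4) :
    gen (cycM 4) (clk (Icc 0 1)) (fun η => ind (EBn η)) η ≤
      ind (cur (η (-1)) = cur (η 0) + 1 ∧ EM η) + ind (cur (η 2) = cur (η 1) + 1 ∧ EM η) := by
  have e1 : act (cycM 4) (0, true) η 0 = cycM 4 (η 1) (η 0) := act_same (0, true) η
  have e2 : act (cycM 4) (0, true) η 1 = η 1 := act_of_ne (by norm_num) η
  have e3 : act (cycM 4) (0, false) η 0 = cycM 4 (η (-1)) (η 0) := act_same (0, false) η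
  have e4 : act (cycM 4) (0, false) η 1 = η 1 := act_of_ne (by norm_num) η
  have e5 : act (cycM 4) (1, true) η 1 = cycM 4 (η 2) (η 1) := act_same (1, true) η
  have e6 : act (cycM 4) (1, true) η 0 = η 0 := act_of_ne (by norm_num) η
  have e7 : act (cycM 4) (1, false) η 1 = cycM 4 (η 0) (η 1) := act_same (1, false) η
  have e8 : act (cycM 4) (1, false) η 0 = η 0 := act_of_ne (by norm_num) η
  have h1 : ind (EBn (act (cycM 4) (0, true) η)) - ind (EBn η) ≤ 0 := by
    unfold EBn
    rw [e1, e2]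
    by_cases h : cur (η 0) = cur (η 1) - 1
    · have hc : cur (cycM 4 (η 1) (η 0)) = cur (η 1) := by
        rw [cur_cycM]
        unfold cyc
        rw [if_pos h]
      rw [hc, ind_false' (fun h' => z1 0 _ h'.1)]
      linarith [ind_nonneg' (cur (η 1) = cur (η 0) + 2 ∧ ¬ ((η 0).2.2 = true ∧ (η 1).2.2 = true))]
    · have hc : cycM 4 (η 1) (η 0) = η 0 := by
        unfold cycM
        rw [if_neg h]
      rw [hc]
      linarith
  have h2 : ind (EBn (act (cycM 4) (0, false) η)) - ind (EBn η) ≤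
      ind (cur (η (-1)) = cur (η 0) + 1 ∧ EM η) := by
    unfold EBn EM
    rw [e3, e4]
    by_cases h : cur (η 0) = cur (η (-1)) - 1
    · have hc : cur (cycM 4 (η (-1)) (η 0)) = cur (η (-1)) := by
        rw [cur_cycM]
        unfold cyc
        rw [if_pos h]
      rw [hc]
      refine le_trans (sub_le_self _ (ind_nonneg' _)) (ind_mono' ?_)
      rintro ⟨h', -⟩
      exact z2 _ _ _ h h'
    · have hc : cycM 4 (η (-1)) (η 0) = η 0 := by
        unfold cycM
        rw [if_neg h]
      rw [hc, sub_self]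
      exact ind_nonneg' _
  have h3 : ind (EBn (act (cycM 4) (1, true) η)) - ind (EBn η) ≤
      ind (cur (η 2) = cur (η 1) + 1 ∧ EM η) := by
    unfold EBn EM
    rw [e5, e6]
    by_cases h : cur (η 1) = cur (η 2) - 1
    · have hc : cur (cycM 4 (η 2) (η 1)) = cur (η 2) := by
        rw [cur_cycM]
        unfold cyc
        rw [if_pos h]
      rw [hc]
      refine le_trans (sub_le_self _ (ind_nonneg' _)) (ind_mono' ?_)
      rintro ⟨h', -⟩
      exact z3 _ _ _ h h'
    · have hc : cycM 4 (η 2) (η 1) = η 1 := by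
        unfold cycM
        rw [if_neg h]
      rw [hc, sub_self]
      exact ind_nonneg' _
  have h4 : ind (EBn (act (cycM 4) (1, false) η)) - ind (EBn η) ≤ 0 := by
    unfold EBn
    rw [e7, e8]
    by_cases h : cur (η 1) = cur (η 0) - 1
    · have hc : cur (cycM 4 (η 0) (η 1)) = cur (η 0) := by
        rw [cur_cycM]
        unfold cyc
        rw [if_pos h]
      rw [hc, ind_false' (fun h' => z1 0 _ h'.1)]
      linarith [ind_nonneg' (cur (η 1) = cur (η 0) + 2 ∧ ¬ ((η 0).2.2 = true ∧ (η 1).2.2 = true))]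
    · have hc : cycM 4 (η 0) (η 1) = η 1 := by
        unfold cycM
        rw [if_neg h]
      rw [hc]
      linarith
  unfold gen
  rw [sum_clk01]
  linarith

end CPS84
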