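import Pool.Agent.LibCPS84.CycDefs

/-! The generator on `EN k`: the clocks of the sites 0, 1. In every lemma distinguish
whether the clock has an effect (`η y = η (nb c) - 1`) or not. -/

namespace CPS84

open Finset
open scoped Classical

variable {κ : ℕ}

private theorem ind_sub_le {p q r : Prop} (h : p → q ∨ r) : ind p - ind q ≤ ind r := by
  unfold ind
  by_cases hp : p
  · rcases h hp with hq | hr
    · rw [if_pos hp, if_pos hq]
      split_ifs <;> norm_num
    · rw [if_pos hp, if_pos hr]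
      split_ifs <;> norm_num
  · rw [if_neg hp]
    split_ifs <;> norm_num

private theorem nb0f : nb ((0 : ℤ), false) = -1 := by simp [nb]

private theorem nb0t : nb ((0 : ℤ), true) = 1 := by simp [nb]

private theorem nb1f : nb ((1 : ℤ), false) = 0 := by simp [nb]

private theorem nb1t : nb ((1 : ℤ), true) = 2 := by simp [nb]

theorem genEN_0l (hκ : 3 ≤ κ) (k : ℕ) (hk : 2 ≤ k) (η : ℤ → ZMod κ) :
    ind (EN k (act (cyc κ) (0, false) η)) - ind (EN k η) ≤ ind (EN (k + 1) (sh (-1) η)) := by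
  apply ind_sub_le
  rintro ⟨h0, hi⟩
  have e0 : act (cyc κ) (0, false) η 0 = cyc κ (η (-1)) (η 0) := by
    unfold act; rw [nb0f]; simp
  have ei : ∀ i : ℤ, i ≠ 0 → act (cyc κ) (0, false) η i = η i := by
    intro i hi; unfold act; rw [nb0f]; simp [hi]
  rw [e0, ei 1 (by norm_num)] at h0
  have hi' : ∀ i : ℤ, 1 ≤ i → i ≤ k → η i = η 1 := by
    intro i h1 h2
    have := hi i h1 h2
    rwa [ei i (by omega), ei 1 (by norm_num)] at this
  by_cases hc : η 0 = η (-1) - 1
  · right
    unfold cyc at h0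
    rw [if_pos hc] at h0
    have h00 : η 0 = η 1 := by rw [hc, h0]; ring
    refine ⟨?_, ?_⟩
    · show η (0 + -1) = η (1 + -1) + 1
      have a : (0 : ℤ) + -1 = -1 := by norm_num
      have b : (1 : ℤ) + -1 = 0 := by norm_num
      rw [a, b, h0, h00]
    · intro i h1 h2
      show η (i + -1) = η (1 + -1)
      have b : (1 : ℤ) + -1 = 0 := by norm_num
      rw [b, h00]
      rcases eq_or_lt_of_le h1 with h3 | h3
      · rw [← h3, b, h00]
      · exact hi' (i + -1) (by omega) (by push_cast at h2; omega)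
  · left
    unfold cyc at h0
    rw [if_neg hc] at h0
    exact ⟨h0, hi'⟩

theorem genEN_0r (hκ : 3 ≤ κ) (k : ℕ) (hk : 2 ≤ k) (η : ℤ → ZMod κ) :
    ind (EN k (act (cyc κ) (0, true) η)) - ind (EN k η) ≤ 0 := by
  have key : ind (EN k (act (cyc κ) (0, true) η)) - ind (EN k η) ≤ ind False := by
    apply ind_sub_le
    rintro ⟨h0, hi⟩
    left
    have e0 : act (cyc κ) (0, true) η 0 = cyc κ (η 1) (η 0) := by
      unfold act; rw [nb0t]; simp
    have ei : ∀ i : ℤ, i ≠ 0 → act (cyc κ) (0, true) η i = η i := by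
      intro i hi; unfold act; rw [nb0t]; simp [hi]
    rw [e0, ei 1 (by norm_num)] at h0
    have hi' : ∀ i : ℤ, 1 ≤ i → i ≤ k → η i = η 1 := by
      intro i h1 h2
      have := hi i h1 h2
      rwa [ei i (by omega), ei 1 (by norm_num)] at this
    by_cases hc : η 0 = η 1 - 1
    · exfalso
      unfold cyc at h0
      rw [if_pos hc] at h0
      exact one_ne_zero_zmod hκ (left_eq_add.mp h0)
    · unfold cyc at h0
      rw [if_neg hc] at h0
      exact ⟨h0, hi'⟩
  refine key.trans ?_
  unfold ind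
  rw [if_neg not_false]

theorem genEN_1l (hκ : 3 ≤ κ) (k : ℕ) (hk : 2 ≤ k) (η : ℤ → ZMod κ) :
    ind (EN k (act (cyc κ) (1, false) η)) - ind (EN k η) ≤ - ind (EN k η) := by
  have hfalse : ¬ EN k (act (cyc κ) (1, false) η) := by
    rintro ⟨h0, -⟩
    have e1 : act (cyc κ) (1, false) η 1 = cyc κ (η 0) (η 1) := by
      unfold act; rw [nb1f]; simp
    have e0 : act (cyc κ) (1, false) η 0 = η 0 := by
      unfold act; rw [nb1f]; simp
    rw [e0, e1] at h0
    by_cases hc : η 1 = η 0 - 1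
    · unfold cyc at h0
      rw [if_pos hc] at h0
      exact one_ne_zero_zmod hκ (left_eq_add.mp h0)
    · unfold cyc at h0
      rw [if_neg hc] at h0
      exact hc (by rw [h0]; ring)
  have : ind (EN k (act (cyc κ) (1, false) η)) = 0 := by
    unfold ind; rw [if_neg hfalse]
  rw [this]
  linarith

theorem genEN_1r (hκ : 3 ≤ κ) (k : ℕ) (hk : 2 ≤ k) (η : ℤ → ZMod κ) :
    ind (EN k (act (cyc κ) (1, true) η)) - ind (EN k η) ≤ ind (EJ η) := by
  apply ind_sub_le
  rintro ⟨h0, hi⟩
  have e1 : act (cyc κ) (1, true) η 1 = cyc κ (η 2) (η 1) := by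
    unfold act; rw [nb1t]; simp
  have ei : ∀ i : ℤ, i ≠ 1 → act (cyc κ) (1, true) η i = η i := by
    intro i hi; unfold act; rw [nb1t]; simp [hi]
  rw [ei 0 (by norm_num), e1] at h0
  by_cases hc : η 1 = η 2 - 1
  · right
    unfold cyc at h0
    rw [if_pos hc] at h0
    have h2 : η 2 = η 1 + 1 := by rw [hc]; ring
    refine ⟨?_, h2⟩
    rw [h0, h2]
    ring
  · left
    have e1' : act (cyc κ) (1, true) η 1 = η 1 := by
      rw [e1]; unfold cyc; rw [if_neg hc]
    unfold cyc at h0
    rw [if_neg hc] at h0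
    refine ⟨h0, fun i h1 h2 => ?_⟩
    rcases eq_or_lt_of_le h1 with h3 | h3
    · rw [← h3]
    · have := hi i h1 h2
      rwa [ei i (by omega), e1'] at this

end CPS84
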