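import Pool.Agent.LibCPS84.CycDefs

/-! The generator on `EN k`: the other clocks. -/

namespace CPS84

open Finset
open scoped Classical

variable {κ : ℕ}

private theorem pa2_ind_nonneg (p : Prop) : 0 ≤ ind p := by
  unfold ind
  split_ifs <;> norm_num

private theorem pa2_ind_le_one (p : Prop) : ind p ≤ 1 := by
  unfold ind
  split_ifs <;> norm_num

private theorem pa2_sub {a b c : Prop} (h : a → ¬ b → c) : ind a - ind b ≤ ind c := by
  by_cases ha : a
  · by_cases hb : b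
    · have e1 : ind a = 1 := by simp [ind, ha]
      have e2 : ind b = 1 := by simp [ind, hb]
      rw [e1, e2, sub_self]
      exact pa2_ind_nonneg c
    · have e1 : ind c = 1 := by simp [ind, h ha hb]
      rw [e1]
      linarith [pa2_ind_le_one a, pa2_ind_nonneg b]
  · have e1 : ind a = 0 := by simp [ind, ha]
    rw [e1]
    linarith [pa2_ind_nonneg b, pa2_ind_nonneg c]

theorem genEN_j (hκ : 3 ≤ κ) (k j : ℕ) (hj : 1 < j) (hjk : j < k) (d : Bool) (η : ℤ → ZMod κ) :
    ind (EN k (act (cyc κ) ((j : ℤ), d) η)) - ind (EN k η) ≤ ind (ET j η) := by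
  apply pa2_sub
  intro h hn
  have hne : ∀ i : ℤ, i ≠ (j : ℤ) → act (cyc κ) ((j : ℤ), d) η i = η i :=
    fun i hi => act_of_ne (c := ((j : ℤ), d)) hi η
  have hsame := act_same (u := cyc κ) ((j : ℤ), d) η
  simp only at hsame
  have h0 := hne 0 (by omega)
  have h1 := hne 1 (by omega)
  obtain ⟨ha, hb⟩ := h
  rw [h0, h1] at ha
  rw [h1] at hb
  have hb' : ∀ i : ℤ, 1 ≤ i → i ≤ k → i ≠ (j : ℤ) → η i = η 1 := by
    intro i h2 h3 h4
    rw [← hne i h4]
    exact hb i h2 h3
  have hnb : η (nb ((j : ℤ), d)) = η 1 := by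
    unfold nb
    cases d
    · exact hb' _ (by simp; omega) (by simp; omega) (by simp)
    · exact hb' _ (by simp) (by simp; omega) (by simp)
  have hjv := hb (j : ℤ) (by omega) (by omega)
  rw [hsame, hnb] at hjv
  have hjne : η (j : ℤ) ≠ η 1 := by
    intro h5
    apply hn
    refine ⟨ha, fun i h2 h3 => ?_⟩
    by_cases h4 : i = (j : ℤ)
    · rw [h4, h5]
    · exact hb' i h2 h3 h4
  unfold cyc at hjv
  have hc : η (j : ℤ) = η 1 - 1 := by
    by_contra hc
    rw [if_neg hc] at hjv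
    exact hjne hjv
  exact ⟨ha, fun i h2 h3 => hb' i h2 (by omega) (by omega), hc, hb' _ (by omega) (by omega) (by omega)⟩

theorem genEN_kl (hκ : 3 ≤ κ) (k : ℕ) (hk : 2 ≤ k) (η : ℤ → ZMod κ) :
    ind (EN k (act (cyc κ) ((k : ℤ), false) η)) - ind (EN k η) ≤
      ind (EN (k - 1) η) - ind (EN k η) := by
  apply sub_le_sub_right
  have hne : ∀ i : ℤ, i ≠ (k : ℤ) → act (cyc κ) ((k : ℤ), false) η i = η i :=
    fun i hi => act_of_ne (c := ((k : ℤ), false)) hi η
  by_cases h : EN k (act (cyc κ) ((k : ℤ), false) η)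
  · have h2 : EN (k - 1) η := by
      obtain ⟨ha, hb⟩ := h
      rw [hne 0 (by omega), hne 1 (by omega)] at ha
      refine ⟨ha, fun i h2 h3 => ?_⟩
      have h4 := hb i h2 (by omega)
      rwa [hne i (by omega), hne 1 (by omega)] at h4
    have e1 : ind (EN (k - 1) η) = 1 := by simp [ind, h2]
    rw [e1]
    exact pa2_ind_le_one _
  · have e1 : ind (EN k (act (cyc κ) ((k : ℤ), false) η)) = 0 := by simp [ind, h]
    rw [e1]
    exact pa2_ind_nonneg _

theorem genEN_kr (hκ : 3 ≤ κ) (k : ℕ) (hk : 2 ≤ k) (η : ℤ → ZMod κ) :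
    ind (EN k (act (cyc κ) ((k : ℤ), true) η)) - ind (EN k η) ≤ ind (ET k η) := by
  apply pa2_sub
  intro h hn
  have hne : ∀ i : ℤ, i ≠ (k : ℤ) → act (cyc κ) ((k : ℤ), true) η i = η i :=
    fun i hi => act_of_ne (c := ((k : ℤ), true)) hi η
  have hsame := act_same (u := cyc κ) ((k : ℤ), true) η
  simp only [nb, if_true] at hsame
  obtain ⟨ha, hb⟩ := h
  rw [hne 0 (by omega), hne 1 (by omega)] at ha
  rw [hne 1 (by omega)] at hb
  have hb' : ∀ i : ℤ, 1 ≤ i → i < k → η i = η 1 := by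
    intro i h2 h3
    rw [← hne i (by omega)]
    exact hb i h2 h3.le
  have hkv := hb (k : ℤ) (by omega) le_rfl
  rw [hsame] at hkv
  have hkne : η (k : ℤ) ≠ η 1 := by
    intro h5
    apply hn
    refine ⟨ha, fun i h2 h3 => ?_⟩
    rcases eq_or_lt_of_le h3 with h4 | h4
    · rw [h4, h5]
    · exact hb' i h2 h4
  unfold cyc at hkv
  have hc : η (k : ℤ) = η ((k : ℤ) + 1) - 1 := by
    by_contra hc
    rw [if_neg hc] at hkv
    exact hkne hkv
  rw [if_pos hc] at hkv
  exact ⟨ha, hb', by rw [hc, hkv], hkv⟩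

end CPS84
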