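import Pool.Agent.LibCPS84.PatA1
import Pool.Agent.LibCPS84.PatA2

/-! The generator on `EN k`: sum over the clocks. -/

namespace CPS84

open Finset
open scoped Classical

variable {κ : ℕ}

private theorem A3_sum (k : ℕ) (hk : 2 ≤ k) (F : ℤ → ℝ) :
    ∑ y ∈ Icc (0 : ℤ) (k : ℤ), F y = F 0 + F 1 + ∑ j ∈ Ico 2 k, F (j : ℤ) + F k := by
  have h1 : Icc (0 : ℤ) (k : ℤ) = (range (k + 1)).image (fun j : ℕ => (j : ℤ)) := by
    ext y
    simp only [mem_Icc, mem_image, mem_range]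
    constructor
    · rintro ⟨h0, h1⟩
      exact ⟨y.toNat, by omega, by omega⟩
    · rintro ⟨j, hj, rfl⟩
      omega
  rw [h1, sum_image (fun a _ b _ h => by simpa using h), sum_range_succ, range_eq_Ico,
    ← sum_Ico_consecutive _ (Nat.zero_le 2) hk]
  have h2 : ∑ j ∈ Ico 0 2, F ((j : ℕ) : ℤ) = F 0 + F 1 := by
    rw [← range_eq_Ico, sum_range_succ, sum_range_succ, sum_range_zero]
    simp
  rw [h2]

/-- sum of the above -/
theorem genEN (hκ : 3 ≤ κ) (k : ℕ) (hk : 2 ≤ k) (η : ℤ → ZMod κ) :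
    gen (cyc κ) (clk (Icc 0 (k : ℤ))) (fun η => ind (EN k η)) η ≤
      ind (EN (k + 1) (sh (-1) η)) - 2 * ind (EN k η) + ind (EN (k - 1) η) + ind (EJ η) +
        2 * ∑ j ∈ Ico 2 k, ind (ET j η) + ind (ET k η) := by
  unfold gen clk
  rw [sum_product]
  simp only [Fintype.sum_bool]
  rw [A3_sum k hk]
  have h0l := genEN_0l hκ k hk η
  have h0r := genEN_0r hκ k hk η
  have h1l := genEN_1l hκ k hk η
  have h1r := genEN_1r hκ k hk η
  have hkl := genEN_kl hκ k hk η
  have hkr := genEN_kr hκ k hk η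
  have hmid : ∑ j ∈ Ico 2 k, (ind (EN k (act (cyc κ) ((j : ℤ), true) η)) - ind (EN k η) +
      (ind (EN k (act (cyc κ) ((j : ℤ), false) η)) - ind (EN k η))) ≤ 2 * ∑ j ∈ Ico 2 k, ind (ET j η) := by
    rw [mul_sum]
    apply sum_le_sum
    intro j hj
    rw [mem_Ico] at hj
    have a1 := genEN_j hκ k j (by omega) hj.2 true η
    have a2 := genEN_j hκ k j (by omega) hj.2 false η
    linarith
  linarith

end CPS84
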