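import Pool.Agent.LibCPS84.CycDefs

/-! The generator on walls. -/

namespace CPS84

open Finset
open scoped Classical

variable {κ : ℕ}

private theorem B1_sum (F : ℤ → ℝ) : ∑ y ∈ Icc (0 : ℤ) 1, F y = F 0 + F 1 := by
  have : Icc (0 : ℤ) 1 = {0, 1} := by
    ext y
    simp only [mem_Icc, mem_insert, mem_singleton]
    omega
  rw [this, sum_pair (by norm_num)]

private theorem B1_0r (hκ : 3 ≤ κ) (η : ℤ → ZMod κ) :
    ind (EW (act (cyc κ) (0, true) η)) - ind (EW η) = - ind (η 1 = η 0 + 1) := by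
  have h1 := one_ne_zero_zmod hκ
  have e0 : act (cyc κ) (0, true) η 0 = cyc κ (η 1) (η 0) := by
    have := act_same (u := cyc κ) ((0 : ℤ), true) η
    simpa [nb] using this
  have e1 : act (cyc κ) (0, true) η 1 = η 1 := act_of_ne (by norm_num) η
  unfold ind EW
  rw [e0, e1]
  unfold cyc
  by_cases h : η 1 = η 0 + 1
  · have h' : η 0 = η 1 - 1 := by rw [h]; ring
    have h'' : η 0 ≠ η 1 := by
      rw [h]
      intro hh
      exact h1 (by linear_combination -hh)
    rw [if_pos h', if_pos h, if_pos h'', if_neg (by simp)]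
    norm_num
  · have h' : ¬ η 0 = η 1 - 1 := fun hh => h (by rw [hh]; ring)
    rw [if_neg h', if_neg h]
    simp

private theorem B1_1l (hκ : 3 ≤ κ) (η : ℤ → ZMod κ) :
    ind (EW (act (cyc κ) (1, false) η)) - ind (EW η) = - ind (η 0 = η 1 + 1) := by
  have h1 := one_ne_zero_zmod hκ
  have e0 : act (cyc κ) (1, false) η 1 = cyc κ (η 0) (η 1) := by
    have := act_same (u := cyc κ) ((1 : ℤ), false) η
    simpa [nb] using this
  have e1 : act (cyc κ) (1, false) η 0 = η 0 := act_of_ne (by norm_num) η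
  unfold ind EW
  rw [e0, e1]
  unfold cyc
  by_cases h : η 0 = η 1 + 1
  · have h' : η 1 = η 0 - 1 := by rw [h]; ring
    have h'' : η 0 ≠ η 1 := by
      rw [h]
      intro hh
      exact h1 (by linear_combination hh)
    rw [if_pos h', if_pos h, if_pos h'', if_neg (by simp)]
    norm_num
  · have h' : ¬ η 1 = η 0 - 1 := fun hh => h (by rw [hh]; ring)
    rw [if_neg h', if_neg h]
    simp

private theorem B1_0l (hκ : 3 ≤ κ) (η : ℤ → ZMod κ) :
    ind (EW (act (cyc κ) (0, false) η)) - ind (EW η) =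
      ind (η (-1) = η 0 + 1 ∧ η 0 = η 1) - ind (η (-1) = η 0 + 1 ∧ η 1 = η 0 + 1) := by
  have h1 := one_ne_zero_zmod hκ
  have e0 : act (cyc κ) (0, false) η 0 = cyc κ (η (-1)) (η 0) := by
    have := act_same (u := cyc κ) ((0 : ℤ), false) η
    simpa [nb] using this
  have e1 : act (cyc κ) (0, false) η 1 = η 1 := act_of_ne (by norm_num) η
  unfold ind EW
  rw [e0, e1]
  unfold cyc
  by_cases h : η (-1) = η 0 + 1
  · have h' : η 0 = η (-1) - 1 := by rw [h]; ring
    rw [if_pos h', h]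
    by_cases h2 : η 0 = η 1
    · have h3 : ¬ η 1 = η 0 + 1 := by
        rw [h2]
        intro hh
        exact h1 (by linear_combination -hh)
      have h4 : η 0 + 1 ≠ η 1 := fun hh => h3 hh.symm
      simp [h2, h1]
    · by_cases h3 : η 1 = η 0 + 1
      · simp [h3, h1]
      · have h4 : η 0 + 1 ≠ η 1 := fun hh => h3 hh.symm
        simp [h2, h3, h4]
  · have h' : ¬ η 0 = η (-1) - 1 := fun hh => h (by rw [hh]; ring)
    rw [if_neg h']
    simp [h]

private theorem B1_1r (hκ : 3 ≤ κ) (η : ℤ → ZMod κ) :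
    ind (EW (act (cyc κ) (1, true) η)) - ind (EW η) =
      ind (η 2 = η 1 + 1 ∧ η 0 = η 1) - ind (η 0 = η 1 + 1 ∧ η 2 = η 1 + 1) := by
  have h1 := one_ne_zero_zmod hκ
  have e0 : act (cyc κ) (1, true) η 1 = cyc κ (η 2) (η 1) := by
    have := act_same (u := cyc κ) ((1 : ℤ), true) η
    simpa [nb] using this
  have e1 : act (cyc κ) (1, true) η 0 = η 0 := act_of_ne (by norm_num) η
  unfold ind EW
  rw [e0, e1]
  unfold cyc
  by_cases h : η 2 = η 1 + 1
  · have h' : η 1 = η 2 - 1 := by rw [h]; ring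
    rw [if_pos h', h]
    by_cases h2 : η 0 = η 1
    · have h3 : ¬ η 0 = η 1 + 1 := by
        rw [h2]
        intro hh
        exact h1 (by linear_combination -hh)
      simp [h2, h1]
    · by_cases h3 : η 0 = η 1 + 1
      · simp [h3, h1]
      · simp [h2, h3]
  · have h' : ¬ η 1 = η 2 - 1 := fun hh => h (by rw [hh]; ring)
    rw [if_neg h']
    simp [h]

/-- the four clocks of `{0, 1}` -/
theorem genEW (hκ : 3 ≤ κ) (η : ℤ → ZMod κ) :
    gen (cyc κ) (clk (Icc 0 1)) (fun η => ind (EW η)) η =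
      - ind (η 0 = η 1 + 1) - ind (η 1 = η 0 + 1)
      + ind (η (-1) = η 0 + 1 ∧ η 0 = η 1) - ind (η (-1) = η 0 + 1 ∧ η 1 = η 0 + 1)
      + ind (η 2 = η 1 + 1 ∧ η 0 = η 1) - ind (η 0 = η 1 + 1 ∧ η 2 = η 1 + 1) := by
  unfold gen clk
  rw [sum_product]
  simp only [Fintype.sum_bool]
  rw [B1_sum, B1_0l hκ, B1_0r hκ, B1_1l hκ, B1_1r hκ]
  ring

end CPS84
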