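import Pool.Agent.LibCPS84.CycDefs

/-! Disjointness of the events `ET j`. -/

namespace CPS84

open Finset
open scoped Classical

variable {κ : ℕ}

private theorem pb2_EE {j : ℕ} (hj : 2 ≤ j) {η : ℤ → ZMod κ} (h : ET j (sh (-(j : ℤ)) η)) :
    EE (sh (-1) η) := by
  obtain ⟨-, h2, h3, h4⟩ := h
  have e1 := h2 ((j : ℤ) - 1) (by omega) (by omega)
  simp only [sh] at e1 h3 h4
  have a1 : (j : ℤ) - 1 + -(j : ℤ) = -1 := by ring
  have a2 : (j : ℤ) + -(j : ℤ) = 0 := by ring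
  have a3 : (j : ℤ) + 1 + -(j : ℤ) = 1 := by ring
  rw [a1] at e1
  rw [a2] at h3
  rw [a3] at h4
  have a4 : (0 : ℤ) + -1 = -1 := by ring
  have a5 : (1 : ℤ) + -1 = 0 := by ring
  have a6 : (2 : ℤ) + -1 = 1 := by ring
  show η (0 + -1) = η (1 + -1) + 1 ∧ η (2 + -1) = η (1 + -1) + 1
  rw [a4, a5, a6, e1, h4, h3]
  constructor <;> ring

private theorem pb2_disj (hκ : 3 ≤ κ) {j j' : ℕ} (hj : 2 ≤ j) (hjj : j < j') {η : ℤ → ZMod κ}
    (h : ET j (sh (-(j : ℤ)) η)) (h' : ET j' (sh (-(j' : ℤ)) η)) : False := by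
  have e0 := h.1
  have e1 := h'.2.1 ((j' : ℤ) - j) (by omega) (by omega)
  have e2 := h'.2.1 ((j' : ℤ) - j + 1) (by omega) (by omega)
  simp only [sh] at e0 e1 e2
  have a1 : (j' : ℤ) - j + -(j' : ℤ) = 0 + -(j : ℤ) := by ring
  have a2 : (j' : ℤ) - j + 1 + -(j' : ℤ) = 1 + -(j : ℤ) := by ring
  rw [a1] at e1
  rw [a2] at e2
  rw [e1, e2] at e0
  exact one_ne_zero_zmod hκ (left_eq_add.1 e0)

/-- the events are disjoint: `-j` is the site of the next wall on the left -/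
theorem sum_ET (hκ : 3 ≤ κ) (A : ℕ) (η : ℤ → ZMod κ) :
    ∑ j ∈ Icc 2 A, ind (ET j (sh (-(j : ℤ)) η)) ≤ ind (EE (sh (-1) η)) := by
  by_cases hE : ∃ j ∈ Icc 2 A, ET j (sh (-(j : ℤ)) η)
  · obtain ⟨j, hj, hE⟩ := hE
    have hj2 := (mem_Icc.1 hj).1
    rw [Finset.sum_eq_single_of_mem j hj]
    · rw [ind, ind, if_pos hE, if_pos (pb2_EE hj2 hE)]
    · intro i hi hne
      rw [ind, if_neg]
      intro hi'
      rcases lt_or_gt_of_ne hne with h | h
      · exact pb2_disj hκ (mem_Icc.1 hi).1 h hi' hE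
      · exact pb2_disj hκ hj2 h hE hi'
  · rw [Finset.sum_eq_zero fun j hj => ?_]
    · unfold ind
      split_ifs <;> norm_num
    · rw [ind, if_neg]
      exact fun h => hE ⟨j, hj, h⟩

end CPS84
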