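import Pool.Agent.LibCPS84.PrA

/-! From the process to expectations: independence. -/

namespace CPS84

open Finset MeasureTheory Filter Topology
open scoped Classical

variable {S : Type} {u : S → S → S} {Ω : Type} {mΩ : MeasurableSpace Ω} {P : Measure Ω}
  {𝓕 : Filtration ℝ mΩ} {U : ℤ × Bool → Ω → Set ℝ} {X : ℝ → Ω → ℤ → S}

/-- write `f (X s)` as a combination of cylinder indicators (`Dep.eq_sum`) and use
`IsPS.poisson` for every cylinder -/
theorem IsPS.integral_cnt [Fintype S] [Nonempty S] (h : IsPS u P 𝓕 U X) (s t : ℝ) (hs : 0 ≤ s)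
    (hst : s < t) (K : Finset (ℤ × Bool)) (n : ℤ × Bool → ℕ)
    {f : (ℤ → S) → ℝ} {Λ : Finset ℤ} (hf : Dep f Λ) :
    ∫ ω in cnt U K n s t, f (X s ω) ∂P =
      (∏ c ∈ K, (Real.exp (-(t - s)) * (t - s) ^ (n c) / (n c).factorial)) *
        ∫ ω, f (X s ω) ∂P := by
  have := h.prob
  have e : (fun ω => f (X s ω)) = fun ω => ∑ σ : Λ → S,
      f (fun i => if h : i ∈ Λ then σ ⟨i, h⟩ else Classical.arbitrary S) *
      ({ω | ∀ i ∈ Λ, X s ω i = (fun i => if h : i ∈ Λ then σ ⟨i, h⟩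
        else Classical.arbitrary S) i}.indicator (fun _ => (1 : ℝ)) ω) := by
    funext ω
    rw [hf.eq_sum (X s ω)]
    refine Finset.sum_congr rfl (fun σ _ => ?_)
    rw [Set.indicator_apply]
    simp only [Set.mem_ofPred_eq]
  have hm : ∀ σ : Λ → S, MeasurableSet[𝓕 s] {ω | ∀ i ∈ Λ, X s ω i =
      (fun i => if h : i ∈ Λ then σ ⟨i, h⟩ else Classical.arbitrary S) i} :=
    fun σ => h.meas_cyl s hs Λ _
  have hi : ∀ (Q : Measure Ω) [IsFiniteMeasure Q] (σ : Λ → S), Integrable (fun ω =>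
      f (fun i => if h : i ∈ Λ then σ ⟨i, h⟩ else Classical.arbitrary S) *
      ({ω | ∀ i ∈ Λ, X s ω i = (fun i => if h : i ∈ Λ then σ ⟨i, h⟩
        else Classical.arbitrary S) i}.indicator (fun _ => (1 : ℝ)) ω)) Q := by
    intro Q _ σ
    refine Integrable.const_mul ?_ _
    exact (integrable_const (1 : ℝ)).indicator (𝓕.le s _ (hm σ))
  rw [e, integral_finsetSum _ (fun σ _ => hi _ σ), integral_finsetSum _ (fun σ _ => hi _ σ),
    Finset.mul_sum]
  refine Finset.sum_congr rfl (fun σ _ => ?_)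
  rw [integral_const_mul, integral_const_mul, integral_indicator (𝓕.le s _ (hm σ)),
    integral_indicator (𝓕.le s _ (hm σ)), setIntegral_const, setIntegral_const,
    measureReal_restrict_apply (𝓕.le s _ (hm σ))]
  have h2 := h.poisson s t hs hst K n _ (hm σ)
  rw [show cnt U K n s t = {ω | ∀ c ∈ K, (U c ω ∩ Set.Ioc s t).encard = n c} from rfl, h2]
  simp only [smul_eq_mul, mul_one]
  ring

end CPS84
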