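import Pool.Agent.LibCPS84.PrA

/-! Paths with at most one ring. -/

namespace CPS84

open Finset MeasureTheory Filter Topology
open scoped Classical

variable {S : Type} {u : S → S → S} {Ω : Type} {mΩ : MeasurableSpace Ω} {P : Measure Ω}
  {𝓕 : Filtration ℝ mΩ} {U : ℤ × Bool → Ω → Set ℝ} {X : ℝ → Ω → ℤ → S}

private theorem mem_clk' {Λ : Finset ℤ} {c : ℤ × Bool} : c ∈ clk Λ ↔ c.1 ∈ Λ := by
  unfold clk
  rw [Finset.mem_product]
  exact ⟨fun h => h.1, fun h => ⟨h, Finset.mem_univ _⟩⟩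

private theorem subset_fat' {Λ : Finset ℤ} {y : ℤ} (hy : y ∈ Λ) : y ∈ fat Λ :=
  Finset.mem_union_left _ hy

private theorem nb_fat' {Λ : Finset ℤ} {c : ℤ × Bool} (hc : c.1 ∈ Λ) : nb c ∈ fat Λ :=
  Finset.mem_union_right _ (Finset.mem_image_of_mem nb (mem_clk'.mpr hc))

/-- no ring of the clocks of `Λ` -/
theorem IsPS.path_zero (h : IsPS u P 𝓕 U X) : ∀ᵐ ω ∂P, ∀ (Λ : Finset ℤ) (s t : ℝ), 0 ≤ s → s ≤ t →
    ω ∈ cnt U (clk Λ) (fun _ => 0) s t → ∀ y ∈ Λ, X t ω y = X s ω y := by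
  filter_upwards [h.const] with ω hω Λ s t hs hst hc y hy
  refine hω y s t hs hst (fun d => ?_)
  have h1 := hc (y, d) (mem_clk'.mpr hy)
  exact Set.encard_eq_zero.mp (by simpa using h1)

/-- exactly one ring of the clocks of `fat Λ` -/
theorem IsPS.path_one (h : IsPS u P 𝓕 U X) : ∀ᵐ ω ∂P, ∀ (Λ : Finset ℤ) (s t : ℝ), 0 ≤ s → s < t →
    ∀ c₀ ∈ clk (fat Λ), ω ∈ cnt U (clk (fat Λ)) (fun c => if c = c₀ then 1 else 0) s t →
      ∀ y ∈ Λ, X t ω y = act u c₀ (X s ω) y := by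
  filter_upwards [h.const, h.jump] with ω hc hj Λ s t hs hst c₀ hc₀ hcnt y hy
  have h1 : (U c₀ ω ∩ Set.Ioc s t).encard = 1 := by
    have := hcnt c₀ hc₀
    simpa using this
  obtain ⟨τ, hτ⟩ := Set.encard_eq_one.mp h1
  have h0 : ∀ c : ℤ × Bool, c.1 ∈ fat Λ → c ≠ c₀ → U c ω ∩ Set.Ioc s t = ∅ := by
    intro c hcf hne
    have := hcnt c (mem_clk'.mpr hcf)
    simp only [if_neg hne] at this
    exact Set.encard_eq_zero.mp (by simpa using this)
  have hτm : τ ∈ U c₀ ω ∩ Set.Ioc s t := by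
    rw [hτ]
    exact Set.mem_singleton τ
  by_cases hyc : y = c₀.1
  · have hnb : nb c₀ ∈ fat Λ := nb_fat' (by rw [← hyc]; exact hy)
    have hyf : c₀.1 ∈ fat Λ := by
      rw [← hyc]
      exact subset_fat' hy
    have hne : nb c₀ ≠ c₀.1 := by
      unfold nb
      split_ifs
      · omega
      · omega
    have hτ0 : 0 < τ := lt_of_le_of_lt hs hτm.2.1
    have hev : ∀ᶠ s' in 𝓝[<] τ, s' ∈ Set.Ioo s τ :=
      Ioo_mem_nhdsLT hτm.2.1
    obtain ⟨s', hs'1, hs'2⟩ := ((hj c₀ τ hτm.1 hτ0).and hev).exists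
    have e1 : X s' ω (nb c₀) = X s ω (nb c₀) := by
      refine hc (nb c₀) s s' hs hs'2.1.le (fun d => ?_)
      have h2 := h0 (nb c₀, d) hnb (fun e => hne (congrArg Prod.fst e))
      refine Set.eq_empty_of_subset_empty (fun x hx => ?_)
      rw [← h2]
      exact ⟨hx.1, hx.2.1, le_trans hx.2.2 (le_trans hs'2.2.le hτm.2.2)⟩
    have e2 : X s' ω c₀.1 = X s ω c₀.1 := by
      refine hc c₀.1 s s' hs hs'2.1.le (fun d => ?_)
      refine Set.eq_empty_of_subset_empty (fun x hx => ?_)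
      have hx2 : x ∈ Set.Ioc s t :=
        ⟨hx.2.1, le_trans hx.2.2 (le_trans hs'2.2.le hτm.2.2)⟩
      by_cases hd : (c₀.1, d) = c₀
      · have hx3 : x ∈ U c₀ ω ∩ Set.Ioc s t := ⟨by rw [← hd]; exact hx.1, hx2⟩
        rw [hτ, Set.mem_singleton_iff] at hx3
        have := hx.2.2
        rw [hx3] at this
        exact absurd hs'2.2 (not_lt.mpr this)
      · have h2 := h0 (c₀.1, d) hyf hd
        rw [← h2]
        exact ⟨hx.1, hx2⟩
    have e3 : X t ω c₀.1 = X τ ω c₀.1 := by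
      refine hc c₀.1 τ t hτ0.le hτm.2.2 (fun d => ?_)
      refine Set.eq_empty_of_subset_empty (fun x hx => ?_)
      have hx2 : x ∈ Set.Ioc s t := ⟨lt_trans hτm.2.1 hx.2.1, hx.2.2⟩
      by_cases hd : (c₀.1, d) = c₀
      · have hx3 : x ∈ U c₀ ω ∩ Set.Ioc s t := ⟨by rw [← hd]; exact hx.1, hx2⟩
        rw [hτ, Set.mem_singleton_iff] at hx3
        have := hx.2.1
        rw [hx3] at this
        exact absurd this (lt_irrefl _)
      · have h2 := h0 (c₀.1, d) hyf hd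
        rw [← h2]
        exact ⟨hx.1, hx2⟩
    rw [hyc, e3, hs'1, e1, e2]
    unfold act
    rw [Function.update_self]
  · have e : act u c₀ (X s ω) y = X s ω y := by
      unfold act
      rw [Function.update_of_ne hyc]
    rw [e]
    refine hc y s t hs hst.le (fun d => ?_)
    exact h0 (y, d) (subset_fat' hy) (fun e => hyc (congrArg Prod.fst e))

end CPS84
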