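import Pool.Agent.LibCPS84.PrB
import Pool.Agent.LibCPS84.PrC

/-! Integrals over the events with at most one ring. -/

namespace CPS84

open Finset MeasureTheory Filter Topology
open scoped Classical

variable {S : Type} {u : S → S → S} {Ω : Type} {mΩ : MeasurableSpace Ω} {P : Measure Ω}
  {𝓕 : Filtration ℝ mΩ} {U : ℤ × Bool → Ω → Set ℝ} {X : ℝ → Ω → ℤ → S}

/-- the integral over the event without rings and the events with exactly one ring -/
theorem IsPS.integral_zero [Fintype S] [Nonempty S] (h : IsPS u P 𝓕 U X) (t r : ℝ) (ht : 0 ≤ t)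
    (hr : 0 < r) {f : (ℤ → S) → ℝ} {Λ : Finset ℤ} (hf : Dep f Λ) :
    ∫ ω in cnt U (clk (fat Λ)) (fun _ => 0) t (t + r), f (X (t + r) ω) ∂P =
      Real.exp (-(clk (fat Λ)).card * r) * ∫ ω, f (X t ω) ∂P := by
  have h1 : ∫ ω in cnt U (clk (fat Λ)) (fun _ => 0) t (t + r), f (X (t + r) ω) ∂P =
      ∫ ω in cnt U (clk (fat Λ)) (fun _ => 0) t (t + r), f (X t ω) ∂P := by
    refine setIntegral_congr_ae (h.meas_cnt _ _ _ _) ?_
    filter_upwards [h.path_zero] with ω hω hmem
    refine hf _ _ fun i hi => ?_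
    exact hω (fat Λ) t (t + r) ht (by linarith) hmem i (subset_fat Λ hi)
  rw [h1, h.integral_cnt t (t + r) ht (by linarith) (clk (fat Λ)) (fun _ => 0) hf]
  congr 1
  rw [Finset.prod_const, add_sub_cancel_left, pow_zero, Nat.factorial_zero, Nat.cast_one, mul_one,
    div_one, ← Real.exp_nat_mul]
  congr 1
  ring

theorem IsPS.integral_one [Fintype S] [Nonempty S] (h : IsPS u P 𝓕 U X) (t r : ℝ) (ht : 0 ≤ t)
    (hr : 0 < r) {f : (ℤ → S) → ℝ} {Λ : Finset ℤ} (hf : Dep f Λ) (c₀ : ℤ × Bool)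
    (hc : c₀ ∈ clk (fat Λ)) :
    ∫ ω in cnt U (clk (fat Λ)) (fun c => if c = c₀ then 1 else 0) t (t + r), f (X (t + r) ω) ∂P =
      r * Real.exp (-(clk (fat Λ)).card * r) * ∫ ω, f (act u c₀ (X t ω)) ∂P := by
  have h1 : ∫ ω in cnt U (clk (fat Λ)) (fun c => if c = c₀ then 1 else 0) t (t + r),
        f (X (t + r) ω) ∂P =
      ∫ ω in cnt U (clk (fat Λ)) (fun c => if c = c₀ then 1 else 0) t (t + r),
        f (act u c₀ (X t ω)) ∂P := by
    refine setIntegral_congr_ae (h.meas_cnt _ _ _ _) ?_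
    filter_upwards [h.path_one] with ω hω hmem
    refine hf _ _ fun i hi => ?_
    exact hω Λ t (t + r) ht (by linarith) c₀ hc hmem i hi
  have hprod : (∏ c ∈ clk (fat Λ), (Real.exp (-(t + r - t)) *
      (t + r - t) ^ (if c = c₀ then 1 else 0) / ((if c = c₀ then 1 else 0 : ℕ).factorial : ℝ))) =
      r * Real.exp (-(clk (fat Λ)).card * r) := by
    have h2 : ∀ c ∈ clk (fat Λ), (Real.exp (-(t + r - t)) *
      (t + r - t) ^ (if c = c₀ then 1 else 0) / ((if c = c₀ then 1 else 0 : ℕ).factorial : ℝ)) =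
        Real.exp (-r) * (if c = c₀ then r else 1) := by
      intro c _
      rw [add_sub_cancel_left]
      split_ifs <;> simp
    rw [Finset.prod_congr rfl h2, Finset.prod_mul_distrib, Finset.prod_const,
      Finset.prod_ite_eq' (clk (fat Λ)) c₀ (fun _ => r), if_pos hc, ← Real.exp_nat_mul, mul_comm]
    congr 2
    ring
  rw [h1, h.integral_cnt t (t + r) ht (by linarith) (clk (fat Λ))
    (fun c => if c = c₀ then 1 else 0) (dep_act hf c₀), hprod]

end CPS84
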