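import Mathlib

/-! Real analysis for the logarithmic rate: one step. -/

namespace CPS84

/-- the exponentially small term -/
private theorem small_eps (s δ : ℝ) (hs : 1 ≤ s) (hδ : 0 < δ) (hs3 : 3 / δ ^ 2 ≤ s) (M : ℕ)
    (hM : 20 * s ≤ M) :
    16 * s * Real.exp (1 - M + 2 * Real.exp 1 * s) * s ≤ δ ^ 2 := by
  have he : Real.exp 1 < 2.7182818286 := Real.exp_one_lt_d9
  have h1 : Real.exp (1 - M + 2 * Real.exp 1 * s) ≤ Real.exp (-(12 * s)) * Real.exp (-s) := by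
    rw [← Real.exp_add]
    apply Real.exp_le_exp.mpr
    nlinarith
  have h2 : s ^ 2 / 2 ≤ Real.exp s := by
    have := Real.quadratic_le_exp_of_nonneg (x := s) (by linarith)
    linarith
  have h3 : s ^ 2 * Real.exp (-s) ≤ 2 := by
    have h4 : Real.exp s * Real.exp (-s) = 1 := by
      rw [← Real.exp_add]
      simp
    have h5 : 0 < Real.exp (-s) := Real.exp_pos _
    nlinarith
  have h6 : Real.exp (-(12 * s)) * (12 * s + 1) ≤ 1 := by
    have h4 : Real.exp (12 * s) * Real.exp (-(12 * s)) = 1 := by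
      rw [← Real.exp_add]
      simp
    have h5 : 0 < Real.exp (-(12 * s)) := Real.exp_pos _
    have h7 := Real.add_one_le_exp (12 * s)
    nlinarith
  have h8 : 3 ≤ δ ^ 2 * s := by
    rw [div_le_iff₀ (by positivity)] at hs3
    linarith
  have h9 : 0 < Real.exp (-(12 * s)) := Real.exp_pos _
  have h10 : 0 < Real.exp (-s) := Real.exp_pos _
  have hss : 0 ≤ s ^ 2 := sq_nonneg s
  calc 16 * s * Real.exp (1 - M + 2 * Real.exp 1 * s) * s
      = 16 * (s ^ 2 * Real.exp (1 - M + 2 * Real.exp 1 * s)) := by ring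
    _ ≤ 16 * (s ^ 2 * (Real.exp (-(12 * s)) * Real.exp (-s))) := by
        have := mul_le_mul_of_nonneg_left h1 hss
        linarith
    _ = 16 * ((s ^ 2 * Real.exp (-s)) * Real.exp (-(12 * s))) := by ring
    _ ≤ 16 * (2 * Real.exp (-(12 * s))) := by
        have := mul_le_mul_of_nonneg_right h3 h9.le
        linarith
    _ ≤ δ ^ 2 := by
        have h11 : 0 < s := by linarith
        have h12 : 12 * s * Real.exp (-(12 * s)) ≤ 1 := by nlinarith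
        have h13 : 32 * Real.exp (-(12 * s)) * s ≤ δ ^ 2 * s := by nlinarith
        have h14 := le_of_mul_le_mul_right h13 h11
        linarith

/-- `T = s^(2+δ) - s`, `M = ⌈20 s⌉`, `K = 85 / δ^2`, `W = ⌈K s / b⌉ ≤ 2 K s / b`, `μ = l = δ b W`
(`b = b s`): the terms are `δ b/4`, `(4M+1)/(4 δ W) ≤ δ b/4`, `ε/(4 δ b) ≤ δ b/4`, `δ b/2`,
`3 W^2/(2 δ b T) ≤ δ b/4`. -/
theorem log_step (δ : ℝ) (hδ : 0 < δ) (hδ1 : δ ≤ 1 / 8) : ∃ s₀ : ℝ, 2 ≤ s₀ ∧
    ∀ (b N : ℝ → ℝ), (∀ t, 0 ≤ t → 0 ≤ b t) → (∀ t, 0 ≤ t → b t ≤ 1) →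
      (∀ (s T μ l : ℝ) (W M : ℕ), 0 ≤ s → 0 < T → 0 < μ → 0 < l → 1 ≤ W → 1 ≤ M →
        b (s + T) ≤ b s / 2 + μ / (4 * W) +
          W * ((4 * M + 1) * b s + W * (16 * s * Real.exp (1 - M + 2 * Real.exp 1 * s))) /
            (4 * μ * W) + l / (2 * W) + 3 * (W : ℝ) ^ 3 / (2 * l * T) + N s) →
      ∀ s, s₀ ≤ s → s ^ (-(δ / 8)) ≤ b s → b (s ^ (2 + δ)) ≤ (1 / 2 + 3 * δ / 2) * b s + N s := by
  set K : ℝ := 85 / δ ^ 2 with hKdef
  have hK0 : 0 < K := by positivity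
  refine ⟨max (max 2 (3 / δ ^ 2)) ((48 * K ^ 2 / δ ^ 2) ^ (2 / δ)),
    le_trans (le_max_left _ _) (le_max_left _ _), fun b N hb0 hb1 h s hs hbs => ?_⟩
  have hs2 : 2 ≤ s := le_trans (le_trans (le_max_left _ _) (le_max_left _ _)) hs
  have hs3 : 3 / δ ^ 2 ≤ s := le_trans (le_trans (le_max_right _ _) (le_max_left _ _)) hs
  have hs4 : (48 * K ^ 2 / δ ^ 2) ^ (2 / δ) ≤ s := le_trans (le_max_right _ _) hs
  have hs0 : 0 < s := by linarith
  have hs1 : 1 ≤ s := by linarith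
  set B : ℝ := b s with hB
  have hsp : 0 < s ^ (-(δ / 8)) := Real.rpow_pos_of_pos hs0 _
  have hBpos : 0 < B := lt_of_lt_of_le hsp hbs
  have hB1 : B ≤ 1 := hb1 s hs0.le
  -- powers
  have hsδ : 48 * K ^ 2 / δ ^ 2 ≤ s ^ (δ / 2) := by
    have h1 : 0 ≤ 48 * K ^ 2 / δ ^ 2 := by positivity
    have h2 := Real.rpow_le_rpow (Real.rpow_nonneg h1 _) hs4 (by positivity : 0 ≤ δ / 2)
    rw [← Real.rpow_mul h1] at h2
    have h3 : 2 / δ * (δ / 2) = 1 := by field_simp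
    rw [h3, Real.rpow_one] at h2
    exact h2
  have hB4 : s ^ (δ / 2) ≤ B ^ 4 * s ^ δ := by
    have h1 : (s ^ (-(δ / 8))) ^ 4 ≤ B ^ 4 := pow_le_pow_left₀ hsp.le hbs 4
    have h2 : (s ^ (-(δ / 8))) ^ 4 = s ^ (-(δ / 2)) := by
      rw [← Real.rpow_natCast, ← Real.rpow_mul hs0.le]
      congr 1
      push_cast
      ring
    have h3 : s ^ (-(δ / 2)) * s ^ δ = s ^ (δ / 2) := by
      rw [← Real.rpow_add hs0]
      congr 1
      ring
    have h4 : 0 < s ^ δ := Real.rpow_pos_of_pos hs0 _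
    calc s ^ (δ / 2) = s ^ (-(δ / 2)) * s ^ δ := h3.symm
      _ ≤ B ^ 4 * s ^ δ := by
          rw [← h2]
          exact mul_le_mul_of_nonneg_right h1 h4.le
  have hB2 : 1 ≤ B ^ 2 * s := by
    have h1 : (s ^ (-(δ / 8))) ^ 2 ≤ B ^ 2 := pow_le_pow_left₀ hsp.le hbs 2
    have h2 : (s ^ (-(δ / 8))) ^ 2 = s ^ (-(δ / 4)) := by
      rw [← Real.rpow_natCast, ← Real.rpow_mul hs0.le]
      congr 1
      push_cast
      ring
    have h3 : s ^ (-(δ / 4)) * s = s ^ (1 - δ / 4) := by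
      have h5 : s ^ (-(δ / 4)) * s ^ (1 : ℝ) = s ^ (-(δ / 4) + 1) := (Real.rpow_add hs0 _ _).symm
      rw [Real.rpow_one] at h5
      rw [h5]
      congr 1
      ring
    calc (1 : ℝ) ≤ s ^ (1 - δ / 4) := Real.one_le_rpow hs1 (by linarith)
      _ = s ^ (-(δ / 4)) * s := h3.symm
      _ ≤ B ^ 2 * s := by
          rw [← h2]
          exact mul_le_mul_of_nonneg_right h1 hs0.le
  have hpow : s ^ (2 + δ) = s ^ 2 * s ^ δ := by
    rw [Real.rpow_add hs0, Real.rpow_two]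
  have hδs : 1 ≤ s ^ δ := Real.one_le_rpow hs1 hδ.le
  -- parameters
  set T : ℝ := s ^ (2 + δ) - s with hTdef
  have hT2 : s ^ 2 * s ^ δ / 2 ≤ T := by
    rw [hTdef, hpow]
    have h1 : 2 * s ≤ s ^ 2 * s ^ δ := by
      calc 2 * s ≤ s * s := mul_le_mul_of_nonneg_right hs2 hs0.le
        _ = s ^ 2 * 1 := by ring
        _ ≤ s ^ 2 * s ^ δ := mul_le_mul_of_nonneg_left hδs (sq_nonneg s)
    linarith
  have hTpos : 0 < T := lt_of_lt_of_le (by positivity) hT2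
  obtain ⟨M, hM1, hM2⟩ : ∃ M : ℕ, 20 * s ≤ M ∧ (M : ℝ) ≤ 20 * s + 1 :=
    ⟨⌈20 * s⌉₊, Nat.le_ceil _, (Nat.ceil_lt_add_one (by positivity)).le⟩
  obtain ⟨W, hW1, hW2⟩ : ∃ W : ℕ, K * s / B ≤ W ∧ (W : ℝ) ≤ K * s / B + 1 :=
    ⟨⌈K * s / B⌉₊, Nat.le_ceil _, (Nat.ceil_lt_add_one (by positivity)).le⟩
  have hKbig : 1 ≤ K := by
    rw [hKdef, le_div_iff₀ (by positivity)]
    nlinarith
  have hKs : 1 ≤ K * s / B := by
    rw [le_div_iff₀ hBpos]
    nlinarith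
  have hW3 : (W : ℝ) ≤ 2 * K * s / B := by
    calc (W : ℝ) ≤ K * s / B + 1 := hW2
      _ ≤ K * s / B + K * s / B := by linarith
      _ = 2 * K * s / B := by ring
  have hWpos : (0 : ℝ) < W := lt_of_lt_of_le (by linarith) hW1
  have hWn : 1 ≤ W := by
    have : (0 : ℝ) < (W : ℝ) := hWpos
    exact Nat.one_le_iff_ne_zero.mpr (fun e => by rw [e] at this; simp at this)
  have hMn : 1 ≤ M := by
    have : (0 : ℝ) < (M : ℝ) := by linarith
    exact Nat.one_le_iff_ne_zero.mpr (fun e => by rw [e] at this; simp at this)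
  have hμ : 0 < δ * B * W := by positivity
  have key := h s T (δ * B * W) (δ * B * W) W M hs0.le hTpos hμ hμ hWn hMn
  have hsT : s + T = s ^ (2 + δ) := by
    rw [hTdef]
    ring
  rw [hsT] at key
  set ε : ℝ := 16 * s * Real.exp (1 - M + 2 * Real.exp 1 * s) with hε
  have hεs : ε * s ≤ δ ^ 2 := small_eps s δ hs1 hδ hs3 M hM1
  have t1 : δ * B * W / (4 * W) = δ * B / 4 := by
    field_simp
  have t2 : (W : ℝ) * ((4 * M + 1) * B + W * ε) / (4 * (δ * B * W) * W) =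
      (4 * M + 1) / (4 * δ * W) + ε / (4 * δ * B) := by
    field_simp
  have t3 : δ * B * W / (2 * W) = δ * B / 2 := by
    field_simp
  have t4 : 3 * (W : ℝ) ^ 3 / (2 * (δ * B * W) * T) = 3 * (W : ℝ) ^ 2 / (2 * δ * B * T) := by
    field_simp
  rw [t1, t2, t3, t4] at key
  have u2 : (4 * (M : ℝ) + 1) / (4 * δ * W) ≤ δ * B / 4 := by
    rw [div_le_iff₀ (by positivity)]
    have h1 : 4 * (M : ℝ) + 1 ≤ 85 * s := by linarith
    have h2 : K * s ≤ W * B := by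
      rw [div_le_iff₀ hBpos] at hW1
      exact hW1
    have h3 : δ ^ 2 * K = 85 := by
      rw [hKdef]
      field_simp
    calc 4 * (M : ℝ) + 1 ≤ 85 * s := h1
      _ = δ ^ 2 * (K * s) := by rw [← h3]; ring
      _ ≤ δ ^ 2 * (W * B) := mul_le_mul_of_nonneg_left h2 (sq_nonneg δ)
      _ = δ * B / 4 * (4 * δ * W) := by ring
  have u2' : ε / (4 * δ * B) ≤ δ * B / 4 := by
    rw [div_le_iff₀ (by positivity)]
    have h1 : ε * s ≤ (δ ^ 2 * B ^ 2) * s := by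
      calc ε * s ≤ δ ^ 2 * 1 := by rw [mul_one]; exact hεs
        _ ≤ δ ^ 2 * (B ^ 2 * s) := mul_le_mul_of_nonneg_left hB2 (sq_nonneg δ)
        _ = (δ ^ 2 * B ^ 2) * s := by ring
    have h2 := le_of_mul_le_mul_right h1 hs0
    calc ε ≤ δ ^ 2 * B ^ 2 := h2
      _ = δ * B / 4 * (4 * δ * B) := by ring
  have u4 : 3 * (W : ℝ) ^ 2 / (2 * δ * B * T) ≤ δ * B / 4 := by
    rw [div_le_iff₀ (by positivity)]
    have h1 : (W : ℝ) * B ≤ 2 * K * s := by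
      rw [le_div_iff₀ hBpos] at hW3
      exact hW3
    have h2 : ((W : ℝ) * B) ^ 2 ≤ (2 * K * s) ^ 2 := pow_le_pow_left₀ (by positivity) h1 2
    have h3 : 48 * K ^ 2 ≤ δ ^ 2 * (B ^ 4 * s ^ δ) := by
      have h4 := le_trans hsδ hB4
      rw [div_le_iff₀ (by positivity)] at h4
      linarith
    have h5 : 3 * (W : ℝ) ^ 2 * B ^ 2 ≤ (δ * B / 4 * (2 * δ * B * T)) * B ^ 2 := by
      calc 3 * (W : ℝ) ^ 2 * B ^ 2 = 3 * ((W : ℝ) * B) ^ 2 := by ring
        _ ≤ 3 * (2 * K * s) ^ 2 := by linarith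
        _ = (48 * K ^ 2) * s ^ 2 / 4 := by ring
        _ ≤ (δ ^ 2 * (B ^ 4 * s ^ δ)) * s ^ 2 / 4 := by
            have := mul_le_mul_of_nonneg_right h3 (sq_nonneg s)
            linarith
        _ = δ ^ 2 / 2 * B ^ 4 * (s ^ 2 * s ^ δ / 2) := by ring
        _ ≤ δ ^ 2 / 2 * B ^ 4 * T := mul_le_mul_of_nonneg_left hT2 (by positivity)
        _ = (δ * B / 4 * (2 * δ * B * T)) * B ^ 2 := by ring
    exact le_of_mul_le_mul_right h5 (by positivity)
  calc b (s ^ (2 + δ)) ≤ _ := key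
    _ ≤ (1 / 2 + 3 * δ / 2) * B + N s := by linarith

end CPS84
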