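import Pool.Agent.LibCPS84.Low1
import Pool.Agent.LibCPS84.DecB

/-! The second moment of the signed number of blockers. -/

namespace CPS84

open Finset
open scoped Classical

/-- blocker at the edge `(z, z + 1)` with the sign of the parity -/
noncomputable def dd (z : ℤ) (η : ℤ → ZMod 4) : ℝ :=
  ind (η (z + 1) = η z + 2) * (if η z = 0 ∨ η z = 2 then 1 else -1)

private theorem ind_nonneg' (p : Prop) : 0 ≤ ind p := by
  unfold ind
  split_ifs <;> norm_num

private theorem ind_le_one' (p : Prop) : ind p ≤ 1 := by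
  unfold ind
  split_ifs <;> norm_num

private theorem abs_dd_eq (z : ℤ) (η : ℤ → ZMod 4) : |dd z η| = ind (η (z + 1) = η z + 2) := by
  unfold dd
  rw [abs_mul, abs_of_nonneg (ind_nonneg' _)]
  split_ifs <;> simp

theorem dep_dd (z : ℤ) : Dep (dd z) (Icc (z - 1) (z + 1)) := by
  intro η ζ h
  have h1 : η z = ζ z := h z (by rw [Finset.mem_Icc]; omega)
  have h2 : η (z + 1) = ζ (z + 1) := h (z + 1) (by rw [Finset.mem_Icc]; omega)
  unfold dd
  rw [h1, h2]

theorem abs_dd_le (z : ℤ) (η : ℤ → ZMod 4) : |dd z η| ≤ 1 := by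
  rw [abs_dd_eq]
  exact ind_le_one' _

private theorem rot_key : ∀ a b : ZMod 4,
    ((b + 1 = a + 1 + 2) ↔ (b = a + 2)) ∧ ((a + 1 = 0 ∨ a + 1 = 2) ↔ ¬ (a = 0 ∨ a = 2)) := by
  decide

private theorem dd_rot (z : ℤ) (η : ℤ → ZMod 4) :
    dd z (sym (fun a => a + 1) 1 0 η) = (-1) * dd z η := by
  have e1 : sym (fun a : ZMod 4 => a + 1) 1 0 η z = η z + 1 := by
    simp [sym]
  have e2 : sym (fun a : ZMod 4 => a + 1) 1 0 η (z + 1) = η (z + 1) + 1 := by
    simp [sym]
  unfold dd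
  rw [e1, e2]
  have k := rot_key (η z) (η (z + 1))
  have k1 : (η (z + 1) + 1 = η z + 1 + 2) = (η (z + 1) = η z + 2) := propext k.1
  rw [k1]
  by_cases h : η z = 0 ∨ η z = 2
  · rw [if_pos h, if_neg (fun h' => (k.2.1 h') h)]
    ring
  · rw [if_neg h, if_pos (k.2.2 h)]
    ring

/-- rotation of the colours by `1` changes the sign -/
theorem exp_dd {m : ℝ → ((ℤ → ZMod 4) → ℝ) → ℝ} (hm : Sol (cyc 4) m) (h0 : Unif (m 0)) (s : ℝ)
    (hs : 0 ≤ s) (z : ℤ) : m s (dd z) = 0 := by
  have hb : Function.Bijective (fun a : ZMod 4 => a + 1) := (Equiv.addRight (1 : ZMod 4)).bijective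
  have h1 := hm.inv_of_inv (φ := fun a : ZMod 4 => a + 1) (fun a b => cyc_add 1 a b) (r := 1)
    (Or.inl rfl) 0 (fun f Λ hf => unif_sym h0 hb (Or.inl rfl) 0 hf) s hs (dep_dd z)
  have h2 : (fun η => dd z (sym (fun a : ZMod 4 => a + 1) 1 0 η)) = fun η => (-1) * dd z η :=
    funext (dd_rot z)
  rw [h2, (hm.exp s hs).smul (-1) (dd z) _ (dep_dd z)] at h1
  linarith

/-- Expand the square.  Pairs with `|z - z'| ≤ 2 M` (at most `W (4 M + 1)`): `|dd z dd z'| ≤ |dd z|`
`= ind (blocker at z)`.  Other pairs: `decor` with `k = 1` and `exp_dd`. -/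
theorem second_moment {m : ℝ → ((ℤ → ZMod 4) → ℝ) → ℝ} (hm : Sol (cyc 4) m) (h0 : Unif (m 0))
    (s : ℝ) (hs : 0 ≤ s) (M W : ℕ) (hM : 1 ≤ M) :
    m s (fun η => (∑ z ∈ range W, dd z η) ^ 2) ≤
      W * ((4 * M + 1) * m s (fun η => ind (η 1 = η 0 + 2)) +
        W * (16 * s * Real.exp (1 - M + 2 * Real.exp 1 * s))) := by
  have hE : Exp (m s) := hm.exp s hs
  have hI : Inv (m s) := inv_of_unif hm h0 s hs
  set b : ℝ := m s (fun η => ind (η 1 = η 0 + 2)) with hb
  set X : ℝ := 16 * s * Real.exp (1 - M + 2 * Real.exp 1 * s) with hX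
  have hX0 : 0 ≤ X := by positivity
  have hdepb : Dep (fun η : ℤ → ZMod 4 => ind (η 1 = η 0 + 2)) (Icc 0 1) := by
    intro η ζ h
    have h1 : η 0 = ζ 0 := h 0 (by decide)
    have h2 : η 1 = ζ 1 := h 1 (by decide)
    simp only [h1, h2]
  have hb0 : 0 ≤ b := hE.nonneg hdepb (fun η => ind_nonneg' _)
  -- dependence
  have hdep : ∀ z ∈ range W, Dep (dd (z : ℤ)) (Icc (-1 : ℤ) W) := by
    intro z hz
    have hz' : z < W := Finset.mem_range.mp hz
    refine (dep_dd z).mono ?_
    intro i hi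
    rw [Finset.mem_Icc] at hi ⊢
    omega
  -- expansion
  have hexp : (fun η : ℤ → ZMod 4 => (∑ z ∈ range W, dd z η) ^ 2) =
      fun η => ∑ z ∈ range W, ∑ z' ∈ range W, dd z η * dd z' η := by
    funext η
    rw [sq, Finset.sum_mul_sum]
  have hE1 : m s (fun η => (∑ z ∈ range W, dd z η) ^ 2) =
      ∑ z ∈ range W, ∑ z' ∈ range W, m s (fun η => dd z η * dd z' η) := by
    rw [hexp, hE.sum (Λ := Icc (-1 : ℤ) W) (range W)
      (fun (z : ℕ) η => ∑ z' ∈ range W, dd z η * dd z' η)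
      (fun z hz => Dep.sum _ _ (fun z' hz' => (hdep z hz).mul (hdep z' hz')))]
    refine Finset.sum_congr rfl (fun z hz => ?_)
    exact hE.sum (Λ := Icc (-1 : ℤ) W) (range W) (fun (z' : ℕ) η => dd z η * dd z' η)
      (fun z' hz' => (hdep z hz).mul (hdep z' hz'))
  -- near pairs
  have hnear : ∀ z ∈ range W, ∀ z' ∈ range W, m s (fun η => dd z η * dd z' η) ≤ b := by
    intro z hz z' hz'
    have hshift : m s (fun η => ind (η ((z : ℤ) + 1) = η z + 2)) = b := by
      have h := hI.shift (z : ℤ) hdepb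
      rw [hb, ← h]
      congr 1
      funext η
      simp only [sh]
      rw [add_comm (z : ℤ) 1, zero_add]
    rw [← hshift]
    refine hE.mono _ _ (Icc (-1 : ℤ) W) ((hdep z hz).mul (hdep z' hz')) ?_ ?_
    · intro η ζ h
      have hz1 : z < W := Finset.mem_range.mp hz
      have h1 : η z = ζ z := h z (by rw [Finset.mem_Icc]; omega)
      have h2 : η ((z : ℤ) + 1) = ζ ((z : ℤ) + 1) := h _ (by rw [Finset.mem_Icc]; omega)
      simp only [h1, h2]
    · intro η
      calc dd z η * dd z' η ≤ |dd z η * dd z' η| := le_abs_self _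
        _ = |dd z η| * |dd z' η| := abs_mul _ _
        _ ≤ |dd z η| * 1 := mul_le_mul_of_nonneg_left (abs_dd_le _ _) (abs_nonneg _)
        _ = ind (η ((z : ℤ) + 1) = η z + 2) := by rw [mul_one, abs_dd_eq]
  -- far pairs
  have hfar1 : ∀ z z' : ℕ, (z : ℤ) + 2 * M < z' → m s (fun η => dd z η * dd z' η) ≤ X := by
    intro z z' hzz
    have hd := decor hm (fun f g Λ Λ' hf hg hdis => Unif.mul h0 hf hg hdis) (z : ℤ) (z' : ℤ) 1 M hM
      hzz (f := dd z) (g := dd z') (by simpa using dep_dd (z : ℤ)) (abs_dd_le _)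
      (by simpa using dep_dd (z' : ℤ)) (abs_dd_le _) s hs
    rw [exp_dd hm h0 s hs, zero_mul, sub_zero] at hd
    have := le_trans (le_abs_self _) hd
    simpa [hX] using this
  have hfar : ∀ z z' : ℕ, ¬ (z ≤ z' + 2 * M ∧ z' ≤ z + 2 * M) →
      m s (fun η => dd z η * dd z' η) ≤ X := by
    intro z z' h
    rcases lt_or_ge (z + 2 * M) z' with h1 | h1
    · exact hfar1 z z' (by exact_mod_cast h1)
    · have h2 : z' + 2 * M < z := by
        by_contra h3
        exact h ⟨by omega, h1⟩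
      have h4 := hfar1 z' z (by exact_mod_cast h2)
      have h5 : (fun η => dd (z : ℤ) η * dd (z' : ℤ) η) = fun η => dd (z' : ℤ) η * dd (z : ℤ) η := by
        funext η
        ring
      rw [h5]
      exact h4
  -- sum over the second site
  have hrow : ∀ z ∈ range W, ∑ z' ∈ range W, m s (fun η => dd z η * dd z' η) ≤
      (4 * M + 1) * b + W * X := by
    intro z hz
    have h1 : ∀ z' ∈ range W, m s (fun η => dd z η * dd z' η) ≤
        (if z ≤ z' + 2 * M ∧ z' ≤ z + 2 * M then b else 0) + X := by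
      intro z' hz'
      by_cases h : z ≤ z' + 2 * M ∧ z' ≤ z + 2 * M
      · rw [if_pos h]
        linarith [hnear z hz z' hz']
      · rw [if_neg h]
        linarith [hfar z z' h]
    refine le_trans (Finset.sum_le_sum h1) ?_
    rw [Finset.sum_add_distrib, Finset.sum_const, Finset.card_range, nsmul_eq_mul]
    refine add_le_add ?_ le_rfl
    rw [← Finset.sum_filter, Finset.sum_const, nsmul_eq_mul]
    refine mul_le_mul_of_nonneg_right ?_ hb0
    have hsub : (range W).filter (fun z' => z ≤ z' + 2 * M ∧ z' ≤ z + 2 * M) ⊆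
        Finset.Icc (z - 2 * M) (z + 2 * M) := by
      intro z' hz'
      rw [Finset.mem_filter] at hz'
      rw [Finset.mem_Icc]
      omega
    have hcard := Finset.card_le_card hsub
    rw [Nat.card_Icc] at hcard
    have h3 : ((range W).filter (fun z' => z ≤ z' + 2 * M ∧ z' ≤ z + 2 * M)).card ≤ 4 * M + 1 := by
      omega
    exact_mod_cast h3
  rw [hE1]
  refine le_trans (Finset.sum_le_sum hrow) ?_
  rw [Finset.sum_const, Finset.card_range, nsmul_eq_mul]

end CPS84
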