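import Pool.Agent.LibCPS84.VvA
import Pool.Agent.LibCPS84.SmA

/-! Surviving blockers: the pointwise inequality. -/

namespace CPS84

open Finset
open scoped Classical

/-- a surviving blocker at the edge `(z, z + 1)` with even (`p = true`) or odd colours -/
def SB (p : Bool) (z : ℤ) (η : ℤ → MS 4) : Prop :=
  (η z).2.2 = true ∧ (η (z + 1)).2.2 = true ∧ (η (z + 1)).2.1 = (η z).2.1 + 2 ∧
    (((η z).2.1 = 0 ∨ (η z).2.1 = 2) ↔ p = true)

private theorem ind_nonneg' (p : Prop) : 0 ≤ ind p := by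
  unfold ind
  split_ifs <;> norm_num

private theorem ind_true' {p : Prop} (h : p) : ind p = 1 := by
  unfold ind
  rw [if_pos h]

private theorem ind_false' {p : Prop} (h : ¬ p) : ind p = 0 := by
  unfold ind
  rw [if_neg h]

private theorem ind_mono' {p q : Prop} (h : p → q) : ind p ≤ ind q := by
  by_cases hp : p
  · rw [ind_true' hp, ind_true' (h hp)]
  · rw [ind_false' hp]
    exact ind_nonneg' q

private theorem ind_and' (p q : Prop) : ind (p ∧ q) = ind p * ind q := by
  by_cases hp : p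
  · by_cases hq : q
    · rw [ind_true' hp, ind_true' hq, ind_true' ⟨hp, hq⟩, one_mul]
    · rw [ind_false' hq, ind_false' (fun h => hq h.2), mul_zero]
  · rw [ind_false' hp, ind_false' (fun h => hp h.1), zero_mul]

/-- `N_A + N_B ≤ max (n_a, n_b) + min (N_A, N_B)`, `max = (n_a + n_b) / 2 + |n_a - n_b| / 2`,
`|x| ≤ μ / 2 + x^2 / (2 μ)`, `min (x, y) ≤ l / 2 + x y / (2 l)` for `x, y ≥ 0` -/
theorem surv_real (NA NB na nb μ l : ℝ) (h1 : 0 ≤ NA) (h2 : 0 ≤ NB) (h3 : NA ≤ na)
    (h4 : NB ≤ nb) (hμ : 0 < μ) (hl : 0 < l) :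
    NA + NB ≤ (na + nb) / 2 + (μ / 4 + (na - nb) ^ 2 / (4 * μ)) + (l / 2 + NA * NB / (2 * l)) := by
  have hx : |na - nb| / 2 ≤ μ / 4 + (na - nb) ^ 2 / (4 * μ) := by
    have h : 0 ≤ (|na - nb| - μ) ^ 2 / (4 * μ) := by positivity
    have h' : (|na - nb| - μ) ^ 2 / (4 * μ) =
        μ / 4 + (na - nb) ^ 2 / (4 * μ) - |na - nb| / 2 := by
      rw [sub_sq, sq_abs]
      field_simp
      ring
    linarith
  have hm : min NA NB ≤ l / 2 + NA * NB / (2 * l) := by
    have h0 : 0 ≤ min NA NB := le_min h1 h2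
    have h5 : min NA NB ^ 2 ≤ NA * NB := by
      rw [sq]
      exact mul_le_mul (min_le_left _ _) (min_le_right _ _) h0 h1
    have h6 : 0 ≤ (min NA NB - l) ^ 2 / (2 * l) := by positivity
    have h7 : (min NA NB - l) ^ 2 / (2 * l) = l / 2 + min NA NB ^ 2 / (2 * l) - min NA NB := by
      field_simp
      ring
    have h8 : min NA NB ^ 2 / (2 * l) ≤ NA * NB / (2 * l) :=
      div_le_div_of_nonneg_right h5 (by positivity)
    linarith
  have hM : max NA NB ≤ (na + nb) / 2 + |na - nb| / 2 := by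
    refine max_le ?_ ?_
    · linarith [le_abs_self (na - nb)]
    · linarith [neg_abs_le (na - nb)]
  have hs : NA + NB = max NA NB + min NA NB := (max_add_min NA NB).symm
  linarith

theorem surv_point (W : ℕ) (μ l : ℝ) (hμ : 0 < μ) (hl : 0 < l) (η : ℤ → MS 4) :
    ∑ z ∈ range W, ind ((η z).2.2 = true ∧ (η (z + 1)).2.2 = true ∧
        cur (η (z + 1)) = cur (η z) + 2) ≤
      (∑ z ∈ range W, ind ((η (z + 1)).2.1 = (η z).2.1 + 2)) / 2 +
        (μ / 4 + (∑ z ∈ range W, dd z (fun i => (η i).2.1)) ^ 2 / (4 * μ)) +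
        (l / 2 + (∑ z ∈ range W, ∑ z' ∈ range W, ind (SB true z η ∧ SB false z' η)) / (2 * l)) := by
  set NA : ℝ := ∑ z ∈ range W, ind (SB true z η) with hNA
  set NB : ℝ := ∑ z ∈ range W, ind (SB false z η) with hNB
  set na : ℝ := ∑ z ∈ range W, ind ((η ((z : ℤ) + 1)).2.1 = (η z).2.1 + 2 ∧
    ((η z).2.1 = 0 ∨ (η z).2.1 = 2)) with hna
  set nb : ℝ := ∑ z ∈ range W, ind ((η ((z : ℤ) + 1)).2.1 = (η z).2.1 + 2 ∧
    ¬ ((η z).2.1 = 0 ∨ (η z).2.1 = 2)) with hnb
  have e1 : ∑ z ∈ range W, ind ((η z).2.2 = true ∧ (η (z + 1)).2.2 = true ∧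
        cur (η (z + 1)) = cur (η z) + 2) = NA + NB := by
    rw [hNA, hNB, ← Finset.sum_add_distrib]
    refine Finset.sum_congr rfl (fun z _ => ?_)
    by_cases h : (η z).2.2 = true ∧ (η ((z : ℤ) + 1)).2.2 = true ∧
        (η ((z : ℤ) + 1)).2.1 = (η z).2.1 + 2
    · obtain ⟨ha, hb, hc⟩ := h
      have hL : (η z).2.2 = true ∧ (η ((z : ℤ) + 1)).2.2 = true ∧
          cur (η ((z : ℤ) + 1)) = cur (η z) + 2 := by
        refine ⟨ha, hb, ?_⟩
        unfold cur
        rw [if_pos ha, if_pos hb]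
        exact hc
      rw [ind_true' hL]
      by_cases hp : (η z).2.1 = 0 ∨ (η z).2.1 = 2
      · have h1 : SB true z η := ⟨ha, hb, hc, ⟨fun _ => rfl, fun _ => hp⟩⟩
        have h2 : ¬ SB false z η := fun h => by
          have := h.2.2.2.1 hp
          exact absurd this (by decide)
        rw [ind_true' h1, ind_false' h2, add_zero]
      · have h1 : SB false z η := ⟨ha, hb, hc, ⟨fun h => absurd h hp, fun h => absurd h (by decide)⟩⟩
        have h2 : ¬ SB true z η := fun h => hp (h.2.2.2.2 rfl)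
        rw [ind_true' h1, ind_false' h2, zero_add]
    · have hL : ¬ ((η z).2.2 = true ∧ (η ((z : ℤ) + 1)).2.2 = true ∧
          cur (η ((z : ℤ) + 1)) = cur (η z) + 2) := by
        rintro ⟨ha, hb, hc⟩
        refine h ⟨ha, hb, ?_⟩
        unfold cur at hc
        rw [if_pos ha, if_pos hb] at hc
        exact hc
      rw [ind_false' hL, ind_false' (p := SB true z η) (fun h' => h ⟨h'.1, h'.2.1, h'.2.2.1⟩),
        ind_false' (p := SB false z η) (fun h' => h ⟨h'.1, h'.2.1, h'.2.2.1⟩), add_zero]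
  have e2 : ∑ z ∈ range W, ind ((η ((z : ℤ) + 1)).2.1 = (η z).2.1 + 2) = na + nb := by
    rw [hna, hnb, ← Finset.sum_add_distrib]
    refine Finset.sum_congr rfl (fun z _ => ?_)
    by_cases hb : (η ((z : ℤ) + 1)).2.1 = (η z).2.1 + 2
    · by_cases hp : (η z).2.1 = 0 ∨ (η z).2.1 = 2
      · rw [ind_true' hb, ind_true' ⟨hb, hp⟩, ind_false' (fun h => h.2 hp), add_zero]
      · rw [ind_true' hb, ind_false' (fun h => hp h.2), ind_true' ⟨hb, hp⟩, zero_add]
    · rw [ind_false' hb, ind_false' (fun h => hb h.1), ind_false' (fun h => hb h.1), add_zero]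
  have e3 : ∑ z ∈ range W, dd z (fun i => (η i).2.1) = na - nb := by
    rw [hna, hnb, ← Finset.sum_sub_distrib]
    refine Finset.sum_congr rfl (fun z _ => ?_)
    unfold dd
    by_cases hb : (η ((z : ℤ) + 1)).2.1 = (η z).2.1 + 2
    · by_cases hp : (η z).2.1 = 0 ∨ (η z).2.1 = 2
      · rw [if_pos hp, ind_true' hb, ind_true' ⟨hb, hp⟩, ind_false' (fun h => h.2 hp)]
        norm_num
      · rw [if_neg hp, ind_true' hb, ind_false' (fun h => hp h.2), ind_true' ⟨hb, hp⟩]
        norm_num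
    · rw [ind_false' hb, ind_false' (fun h => hb h.1), ind_false' (fun h => hb h.1)]
      norm_num
  have e4 : ∑ z ∈ range W, ∑ z' ∈ range W, ind (SB true z η ∧ SB false z' η) = NA * NB := by
    rw [hNA, hNB, Finset.sum_mul_sum]
    refine Finset.sum_congr rfl (fun z _ => Finset.sum_congr rfl (fun z' _ => ?_))
    exact ind_and' _ _
  have hA : NA ≤ na := by
    refine Finset.sum_le_sum (fun z _ => ind_mono' ?_)
    intro h
    exact ⟨h.2.2.1, h.2.2.2.2 rfl⟩
  have hB : NB ≤ nb := by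
    refine Finset.sum_le_sum (fun z _ => ind_mono' ?_)
    intro h
    exact ⟨h.2.2.1, fun hp => absurd (h.2.2.2.1 hp) (by decide)⟩
  have hA0 : 0 ≤ NA := Finset.sum_nonneg (fun z _ => ind_nonneg' _)
  have hB0 : 0 ≤ NB := Finset.sum_nonneg (fun z _ => ind_nonneg' _)
  rw [e1, e2, e3, e4]
  exact surv_real NA NB na nb μ l hA0 hB0 hA hB hμ hl

private theorem par_key : ∀ a b : ZMod 4, (a = 0 ∨ a = 2) → ¬ (b = 0 ∨ b = 2) →
    (b = a + 1 ∨ a = b + 1) := by
  decide

/-- two surviving blockers of different parity: the event `EC` for the distance -/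
theorem SB_pair (z z' : ℕ) (η : ℤ → MS 4) :
    ind (SB true z η ∧ SB false z' η) ≤
      if z = z' then 0 else ind (EC (max z z' - min z z') (sh (min z z' : ℕ) η)) := by
  by_cases h : SB true z η ∧ SB false z' η
  · obtain ⟨h1, h2⟩ := h
    have hp : (η z).2.1 = 0 ∨ (η z).2.1 = 2 := h1.2.2.2.2 rfl
    have hq : ¬ ((η z').2.1 = 0 ∨ (η z').2.1 = 2) := fun hp => absurd (h2.2.2.2.1 hp) (by decide)
    have hne : z ≠ z' := by
      rintro rfl
      exact hq hp
    have hk := par_key _ _ hp hq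
    have c1 : cur (η z) = (η z).2.1 := by
      unfold cur
      rw [if_pos h1.1]
    have c2 : cur (η z') = (η z').2.1 := by
      unfold cur
      rw [if_pos h2.1]
    rw [if_neg hne, ind_true' ⟨h1, h2⟩]
    have hEC : EC (max z z' - min z z') (sh (min z z' : ℕ) η) := by
      rcases lt_or_gt_of_ne hne with hlt | hlt
      · have a1 : min z z' = z := min_eq_left hlt.le
        have a2 : max z z' = z' := max_eq_right hlt.le
        have b0 : sh (z : ℤ) η 0 = η z := by
          simp only [sh, zero_add]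
        have b1 : sh (z : ℤ) η ((z' - z : ℕ) : ℤ) = η z' := by
          simp only [sh]
          congr 1
          omega
        rw [a1, a2]
        unfold EC
        rw [b0, b1, c1, c2]
        exact ⟨h1.1, h2.1, hk⟩
      · have a1 : min z z' = z' := min_eq_right hlt.le
        have a2 : max z z' = z := max_eq_left hlt.le
        have b0 : sh (z' : ℤ) η 0 = η z' := by
          simp only [sh, zero_add]
        have b1 : sh (z' : ℤ) η ((z - z' : ℕ) : ℤ) = η z := by
          simp only [sh]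
          congr 1
          omega
        rw [a1, a2]
        unfold EC
        rw [b0, b1, c1, c2]
        exact ⟨h2.1, h1.1, hk.symm⟩
    rw [ind_true' hEC]
  · rw [ind_false' h]
    split_ifs
    · exact le_rfl
    · exact ind_nonneg' _

end CPS84
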