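import Pool.Agent.LibCPS84.ExpL

/-! Symmetries of the dynamics. -/

namespace CPS84

open Finset
open scoped Classical

variable {S : Type} {u : S → S → S} {m : ℝ → ((ℤ → S) → ℝ) → ℝ}

/-- `f ∘ sym φ r p` depends on the image of `Λ` -/
theorem dep_sym {f : (ℤ → S) → ℝ} {Λ : Finset ℤ} (hf : Dep f Λ) (φ : S → S) (r p : ℤ) :
    Dep (fun η => f (sym φ r p η)) (Λ.image (fun i => r * i + p)) := by
  intro η ζ h
  apply hf
  intro i hi
  unfold sym
  rw [h (r * i + p) (mem_image_of_mem (fun i => r * i + p) hi)]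

private def symA_e (r p : ℤ) (c : ℤ × Bool) : ℤ × Bool :=
  (r * c.1 + p, if r = 1 then c.2 else !c.2)

private theorem symA_nb {r : ℤ} (hr : r = 1 ∨ r = -1) (p : ℤ) (c : ℤ × Bool) :
    nb (symA_e r p c) = r * nb c + p := by
  obtain ⟨y, d⟩ := c
  rcases hr with rfl | rfl
  · cases d <;> simp [nb, symA_e] <;> ring
  · cases d <;> simp [nb, symA_e] <;> ring

private theorem symA_act {φ : S → S} (hφ : ∀ a b, u (φ a) (φ b) = φ (u a b)) {r : ℤ}
    (hr : r = 1 ∨ r = -1) (p : ℤ) (c : ℤ × Bool) (η : ℤ → S) :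
    act u c (sym φ r p η) = sym φ r p (act u (symA_e r p c) η) := by
  funext i
  by_cases hi : i = c.1
  · subst hi
    rw [act_same]
    have h1 : act u (symA_e r p c) η (r * c.1 + p) =
        u (η (nb (symA_e r p c))) (η (r * c.1 + p)) := act_same (symA_e r p c) η
    unfold sym
    rw [h1, symA_nb hr, hφ]
  · rw [act_of_ne hi]
    have h2 : r * i + p ≠ (symA_e r p c).1 := by
      unfold symA_e
      simp only
      intro h3
      apply hi
      rcases hr with rfl | rfl <;> omega
    unfold sym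
    rw [act_of_ne h2]

/-- `sym φ r p (act u c η) = act u c' (sym φ r p η)` for the clock `c'` with
`r * c'.1 + p = c.1`, `r * nb c' + p = nb c`; then reindex the sum. -/
theorem gen_sym {φ : S → S} (hφ : ∀ a b, u (φ a) (φ b) = φ (u a b)) {r : ℤ}
    (hr : r = 1 ∨ r = -1) (p : ℤ) (Λ : Finset ℤ) (f : (ℤ → S) → ℝ) (η : ℤ → S) :
    gen u (clk (Λ.image (fun i => r * i + p))) (fun η => f (sym φ r p η)) η =
      gen u (clk Λ) f (sym φ r p η) := by
  unfold gen
  symm
  refine Finset.sum_bij (fun c _ => symA_e r p c) ?_ ?_ ?_ ?_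
  · intro c hc
    rw [mem_clk] at hc ⊢
    exact mem_image_of_mem (fun i => r * i + p) hc
  · intro c _ c' _ h
    obtain ⟨y, d⟩ := c
    obtain ⟨y', d'⟩ := c'
    unfold symA_e at h
    simp only [Prod.mk.injEq] at h
    obtain ⟨h1, h2⟩ := h
    rcases hr with rfl | rfl
    · simp only [if_true] at h2
      rw [Prod.mk.injEq]
      exact ⟨by omega, h2⟩
    · have h3 : ¬ ((-1 : ℤ) = 1) := by norm_num
      rw [if_neg h3, if_neg h3] at h2
      rw [Prod.mk.injEq]
      refine ⟨by omega, ?_⟩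
      cases d <;> cases d' <;> simp_all
  · intro c hc
    rw [mem_clk, mem_image] at hc
    obtain ⟨i, hi, h1⟩ := hc
    obtain ⟨y, d⟩ := c
    simp only at h1
    refine ⟨(i, if r = 1 then d else !d), ?_, ?_⟩
    · rw [mem_clk]
      exact hi
    · unfold symA_e
      rcases hr with rfl | rfl
      · simp only [if_true, Prod.mk.injEq]
        exact ⟨h1, trivial⟩
      · have h3 : ¬ ((-1 : ℤ) = 1) := by norm_num
        simp only [if_neg h3, Bool.not_not, Prod.mk.injEq]
        exact ⟨h1, trivial⟩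
  · intro c _
    rw [symA_act hφ hr]

theorem sol_sym (hm : Sol u m) {φ : S → S} (hφ : ∀ a b, u (φ a) (φ b) = φ (u a b)) {r : ℤ}
    (hr : r = 1 ∨ r = -1) (p : ℤ) :
    Sol u (fun t f => m t (fun η => f (sym φ r p η))) := by
  constructor
  · intro t ht
    have hE := hm.exp t ht
    constructor
    · intro f g Λ hf hg
      exact hE.add _ _ _ (dep_sym hf φ r p) (dep_sym hg φ r p)
    · intro a f Λ hf
      exact hE.smul a _ _ (dep_sym hf φ r p)
    · intro f g Λ hf hg h
      exact hE.mono _ _ _ (dep_sym hf φ r p) (dep_sym hg φ r p) (fun η => h _)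
    · exact hE.one
  · intro Λ
    obtain ⟨C, hC⟩ := hm.step (Λ.image (fun i => r * i + p))
    refine ⟨C, ?_⟩
    intro f hf hb t h ht hh hh1
    have h1 := hC (fun η => f (sym φ r p η)) (dep_sym hf φ r p) (fun η => hb _) t h ht hh hh1
    have h2 : gen u (clk (Λ.image (fun i => r * i + p))) (fun η => f (sym φ r p η)) =
        fun η => gen u (clk Λ) f (sym φ r p η) := by
      funext η
      exact gen_sym hφ hr p Λ f η
    rw [h2] at h1
    exact h1

end CPS84
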