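import Pool.Agent.LibCPS84.SymA

/-! The independent uniform distribution. -/

namespace CPS84

open Finset
open scoped Classical

variable {S : Type} {u : S → S → S} {m : ℝ → ((ℤ → S) → ℝ) → ℝ}

private theorem symB_cyl_dep (Λ : Finset ℤ) (σ : ℤ → S) :
    Dep (fun η : ℤ → S => if ∀ i ∈ Λ, η i = σ i then (1 : ℝ) else 0) Λ := by
  intro η ζ hh
  have h1 : (∀ i ∈ Λ, η i = σ i) ↔ (∀ i ∈ Λ, ζ i = σ i) := by
    constructor
    · intro h2 i hi
      rw [← hh i hi]
      exact h2 i hi
    · intro h2 i hi
      rw [hh i hi]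
      exact h2 i hi
  simp only [h1]

/-- invariance of the independent uniform distribution: compare on cylinders -/
theorem unif_sym [Fintype S] {E : ((ℤ → S) → ℝ) → ℝ} (hE : Unif E) {φ : S → S}
    (hφ : Function.Bijective φ) {r : ℤ} (hr : r = 1 ∨ r = -1) (p : ℤ) {f : (ℤ → S) → ℝ}
    {Λ : Finset ℤ} (hf : Dep f Λ) : E (fun η => f (sym φ r p η)) = E f := by
  obtain ⟨ψ, hψ1, hψ2⟩ := Function.bijective_iff_has_inverse.1 hφ
  have hE1 := hE.exp
  have hE' : Exp (fun f => E (fun η => f (sym φ r p η))) := by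
    constructor
    · intro f g Λ hf hg
      exact hE1.add _ _ _ (dep_sym hf φ r p) (dep_sym hg φ r p)
    · intro a f Λ hf
      exact hE1.smul a _ _ (dep_sym hf φ r p)
    · intro f g Λ hf hg h
      exact hE1.mono _ _ _ (dep_sym hf φ r p) (dep_sym hg φ r p) (fun η => h _)
    · exact hE1.one
  refine Exp.ext_cyl (Λ := Λ) hE' hE1 ?_ hf
  intro σ
  have h1 : (fun η : ℤ → S => if ∀ i ∈ Λ, sym φ r p η i = σ i then (1 : ℝ) else 0) =
      (fun η : ℤ → S => if ∀ j ∈ Λ.image (fun i => r * i + p),
        η j = (fun j => ψ (σ (r * (j - p)))) j then (1 : ℝ) else 0) := by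
    funext η
    have h2 : (∀ i ∈ Λ, sym φ r p η i = σ i) ↔ (∀ j ∈ Λ.image (fun i => r * i + p),
        η j = (fun j => ψ (σ (r * (j - p)))) j) := by
      have h3 : ∀ i : ℤ, r * (r * i + p - p) = i := by
        intro i
        rcases hr with rfl | rfl <;> ring
      constructor
      · intro h4 j hj
        rw [mem_image] at hj
        obtain ⟨i, hi, rfl⟩ := hj
        have h5 := h4 i hi
        unfold sym at h5
        simp only [h3]
        rw [← h5, hψ1]
      · intro h4 i hi
        have h5 := h4 (r * i + p) (mem_image_of_mem (fun i => r * i + p) hi)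
        simp only [h3] at h5
        unfold sym
        rw [h5, hψ2]
    simp only [h2]
  have h6 : (Λ.image (fun i => r * i + p)).card = Λ.card := by
    apply card_image_of_injective
    intro a b hab
    simp only at hab
    rcases hr with rfl | rfl <;> omega
  show E (fun η : ℤ → S => if ∀ i ∈ Λ, sym φ r p η i = σ i then (1 : ℝ) else 0) = _
  rw [h1, hE.cyl, hE.cyl, h6]

private theorem symB_step [Fintype S] [Nonempty S] {E : ((ℤ → S) → ℝ) → ℝ} (hE : Unif E)
    {f : (ℤ → S) → ℝ} {Λ Λ' : Finset ℤ} (hf : Dep f Λ) (hd : Disjoint Λ Λ') (τ : ℤ → S) :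
    E (fun η => f η * (if ∀ i ∈ Λ', η i = τ i then (1 : ℝ) else 0)) =
      E f * E (fun η => if ∀ i ∈ Λ', η i = τ i then (1 : ℝ) else 0) := by
  have hE1 := hE.exp
  have hc0 : 0 < (Fintype.card S : ℝ) := by exact_mod_cast Fintype.card_pos
  set C : ℝ := E (fun η => if ∀ i ∈ Λ', η i = τ i then (1 : ℝ) else 0) with hC
  have hC1 : C = (1 / (Fintype.card S : ℝ)) ^ Λ'.card := hE.cyl Λ' τ
  have hC0 : 0 < C := by
    rw [hC1]
    positivity
  have hD := symB_cyl_dep Λ' τ
  have hE' : Exp (fun f => C⁻¹ * E (fun η => f η * (if ∀ i ∈ Λ', η i = τ i then (1 : ℝ) else 0))) := by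
    constructor
    · intro f g M hf hg
      have h1 := hE1.add _ _ (M ∪ Λ')
        ((hf.mono subset_union_left).mul (hD.mono subset_union_right))
        ((hg.mono subset_union_left).mul (hD.mono subset_union_right))
      simp only [add_mul]
      rw [h1]
      ring
    · intro a f M hf
      have h1 := hE1.smul a _ (M ∪ Λ')
        ((hf.mono subset_union_left).mul (hD.mono subset_union_right))
      simp only [mul_assoc]
      rw [h1]
      ring
    · intro f g M hf hg h
      have h1 := hE1.mono _ _ (M ∪ Λ')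
        ((hf.mono subset_union_left).mul (hD.mono subset_union_right))
        ((hg.mono subset_union_left).mul (hD.mono subset_union_right))
        (fun η => by
          apply mul_le_mul_of_nonneg_right (h η)
          split_ifs <;> norm_num)
      exact mul_le_mul_of_nonneg_left h1 (inv_nonneg.2 hC0.le)
    · simp only [one_mul]
      rw [← hC]
      exact inv_mul_cancel₀ hC0.ne'
  have key := Exp.ext_cyl (Λ := Λ) hE' hE1 (f := f) (fun σ => by
    have h1 : (fun η : ℤ → S => (if ∀ i ∈ Λ, η i = σ i then (1 : ℝ) else 0) *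
        (if ∀ i ∈ Λ', η i = τ i then (1 : ℝ) else 0)) =
        (fun η : ℤ → S => if ∀ i ∈ Λ ∪ Λ', η i = (fun i => if i ∈ Λ then σ i else τ i) i
          then (1 : ℝ) else 0) := by
      funext η
      have h2 : (∀ i ∈ Λ ∪ Λ', η i = (fun i => if i ∈ Λ then σ i else τ i) i) ↔
          ((∀ i ∈ Λ, η i = σ i) ∧ (∀ i ∈ Λ', η i = τ i)) := by
        constructor
        · intro h3
          constructor
          · intro i hi
            have h4 := h3 i (mem_union_left _ hi)
            simp only [if_pos hi] at h4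
            exact h4
          · intro i hi
            have h4 := h3 i (mem_union_right _ hi)
            have h5 : i ∉ Λ := fun h6 => (Finset.disjoint_left.1 hd) h6 hi
            simp only [if_neg h5] at h4
            exact h4
        · rintro ⟨h3, h4⟩ i hi
          rw [mem_union] at hi
          by_cases h5 : i ∈ Λ
          · simp only [if_pos h5]
            exact h3 i h5
          · simp only [if_neg h5]
            exact h4 i (hi.resolve_left h5)
      by_cases h7 : ∀ i ∈ Λ, η i = σ i <;> by_cases h8 : ∀ i ∈ Λ', η i = τ i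
      · rw [if_pos h7, if_pos h8, if_pos (h2.2 ⟨h7, h8⟩), mul_one]
      · rw [if_neg h8, if_neg (fun h9 => h8 (h2.1 h9).2), mul_zero]
      · rw [if_neg h7, if_neg (fun h9 => h7 (h2.1 h9).1), zero_mul]
      · rw [if_neg h7, if_neg (fun h9 => h7 (h2.1 h9).1), zero_mul]
    show C⁻¹ * E (fun η : ℤ → S => (if ∀ i ∈ Λ, η i = σ i then (1 : ℝ) else 0) *
        (if ∀ i ∈ Λ', η i = τ i then (1 : ℝ) else 0)) = _
    rw [h1, hE.cyl, hE.cyl, card_union_of_disjoint hd, pow_add, ← hC1]
    field_simp) hf
  have key' : C⁻¹ * E (fun η => f η * (if ∀ i ∈ Λ', η i = τ i then (1 : ℝ) else 0)) = E f := key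
  rw [← key']
  field_simp

/-- independence: use `Dep.eq_sum` for both functions -/
theorem Unif.mul [Fintype S] {E : ((ℤ → S) → ℝ) → ℝ} (hE : Unif E) {f g : (ℤ → S) → ℝ}
    {Λ Λ' : Finset ℤ} (hf : Dep f Λ) (hg : Dep g Λ') (hd : Disjoint Λ Λ') :
    E (fun η => f η * g η) = E f * E g := by
  have hE1 := hE.exp
  rcases isEmpty_or_nonempty S with hS | hS
  · have h1 : f = fun _ => 1 := by
      funext η
      exact (IsEmpty.false (η 0)).elim
    have h2 : g = fun _ => 1 := by
      funext η
      exact (IsEmpty.false (η 0)).elim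
    rw [h1, h2]
    simp only [mul_one]
    rw [hE1.one, mul_one]
  · have hgs : g = fun η => ∑ σ : Λ' → S,
        g (fun i => if h : i ∈ Λ' then σ ⟨i, h⟩ else Classical.arbitrary S) *
        (if ∀ i ∈ Λ', η i = (fun i => if h : i ∈ Λ' then σ ⟨i, h⟩ else Classical.arbitrary S) i
          then 1 else 0) := funext (fun η => hg.eq_sum η)
    have h1 : (fun η => f η * g η) = fun η => ∑ σ : Λ' → S,
        g (fun i => if h : i ∈ Λ' then σ ⟨i, h⟩ else Classical.arbitrary S) *
        (f η * (if ∀ i ∈ Λ', η i =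
          (fun i => if h : i ∈ Λ' then σ ⟨i, h⟩ else Classical.arbitrary S) i
          then (1 : ℝ) else 0)) := by
      funext η
      rw [hg.eq_sum η, mul_sum]
      apply sum_congr rfl
      intro σ _
      ring
    have hD : ∀ σ : ℤ → S, Dep (fun η : ℤ → S => f η *
        (if ∀ i ∈ Λ', η i = σ i then (1 : ℝ) else 0)) (Λ ∪ Λ') := fun σ =>
      (hf.mono subset_union_left).mul ((symB_cyl_dep Λ' σ).mono subset_union_right)
    have h2 : E (fun η => f η * g η) = ∑ σ : Λ' → S,
        g (fun i => if h : i ∈ Λ' then σ ⟨i, h⟩ else Classical.arbitrary S) *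
        (E f * E (fun η => if ∀ i ∈ Λ', η i =
          (fun i => if h : i ∈ Λ' then σ ⟨i, h⟩ else Classical.arbitrary S) i
          then (1 : ℝ) else 0)) := by
      rw [h1, hE1.sum (Λ := Λ ∪ Λ') univ _ (fun σ _ => (hD _).const_mul _)]
      apply sum_congr rfl
      intro σ _
      rw [hE1.smul _ _ (Λ ∪ Λ') (hD _), symB_step hE hf hd]
    have h3 : E g = ∑ σ : Λ' → S,
        g (fun i => if h : i ∈ Λ' then σ ⟨i, h⟩ else Classical.arbitrary S) *
        E (fun η => if ∀ i ∈ Λ', η i =
          (fun i => if h : i ∈ Λ' then σ ⟨i, h⟩ else Classical.arbitrary S) i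
          then (1 : ℝ) else 0) := by
      calc E g = E (fun η => ∑ σ : Λ' → S,
          g (fun i => if h : i ∈ Λ' then σ ⟨i, h⟩ else Classical.arbitrary S) *
          (if ∀ i ∈ Λ', η i = (fun i => if h : i ∈ Λ' then σ ⟨i, h⟩ else Classical.arbitrary S) i
            then 1 else 0)) := congrArg E hgs
        _ = _ := by
          rw [hE1.sum (Λ := Λ') univ _ (fun σ _ => (symB_cyl_dep Λ' _).const_mul _)]
          apply sum_congr rfl
          intro σ _
          exact hE1.smul _ _ Λ' (symB_cyl_dep Λ' _)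
    rw [h2, h3, mul_sum]
    apply sum_congr rfl
    intro σ _
    ring

end CPS84
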