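import Pool.Agent.LibCPS84.TDefs

/-! The Euler chain on the cycle: positivity, linearity, invariance. -/

namespace CPS84

open Finset
open scoped Classical

variable {n : ℕ} [NeZero n] {S : Type} {u : Bool → S → S → S} {h : ℝ}

private theorem TA1_card : (Fintype.card (ZMod n × Bool) : ℝ) = 2 * n := by
  rw [Fintype.card_prod, ZMod.card, Fintype.card_bool]
  push_cast
  ring

private theorem TA1_tstp (f : (ZMod n → S) → ℝ) (ξ : ZMod n → S) :
    tstp u h f ξ = (1 - h * (2 * n)) * f ξ + h * ∑ c : ZMod n × Bool, f (tact u c ξ) := by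
  unfold tstp tgen
  rw [sum_sub_distrib, sum_const, card_univ, nsmul_eq_mul, TA1_card]
  ring

theorem tstp_mono (h0 : 0 ≤ h) (hn : h * (2 * n) ≤ 1) {f g : (ZMod n → S) → ℝ}
    (hfg : ∀ ξ, f ξ ≤ g ξ) (ξ : ZMod n → S) : tstp u h f ξ ≤ tstp u h g ξ := by
  rw [TA1_tstp, TA1_tstp]
  apply add_le_add
  · exact mul_le_mul_of_nonneg_left (hfg ξ) (by linarith)
  · exact mul_le_mul_of_nonneg_left (sum_le_sum fun c _ => hfg _) h0

theorem iter_mono (h0 : 0 ≤ h) (hn : h * (2 * n) ≤ 1) {f g : (ZMod n → S) → ℝ}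
    (hfg : ∀ ξ, f ξ ≤ g ξ) (k : ℕ) (ξ : ZMod n → S) :
    ((tstp u h)^[k] f) ξ ≤ ((tstp u h)^[k] g) ξ := by
  induction k generalizing ξ with
  | zero => exact hfg ξ
  | succ k ih =>
    rw [Function.iterate_succ_apply', Function.iterate_succ_apply']
    exact tstp_mono h0 hn ih ξ

private theorem TA1_lin (a b : ℝ) (f g : (ZMod n → S) → ℝ) :
    tstp u h (fun ξ => a * f ξ + b * g ξ) = fun ξ => a * tstp u h f ξ + b * tstp u h g ξ := by
  funext ξ
  simp only [TA1_tstp]
  rw [sum_add_distrib, ← mul_sum, ← mul_sum]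
  ring

theorem iter_lin (a b : ℝ) (f g : (ZMod n → S) → ℝ) (k : ℕ) :
    (tstp u h)^[k] (fun ξ => a * f ξ + b * g ξ) =
      fun ξ => a * ((tstp u h)^[k] f) ξ + b * ((tstp u h)^[k] g) ξ := by
  induction k with
  | zero => rfl
  | succ k ih =>
    rw [Function.iterate_succ_apply', Function.iterate_succ_apply',
      Function.iterate_succ_apply', ih, TA1_lin]

theorem iter_const (a : ℝ) (k : ℕ) :
    (tstp u h)^[k] (fun _ : ZMod n → S => a) = fun _ => a := by
  induction k with
  | zero => rfl
  | succ k ih =>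
    rw [Function.iterate_succ_apply', ih]
    funext ξ
    unfold tstp tgen
    simp

theorem iter_sum {ι : Type} (s : Finset ι) (F : ι → (ZMod n → S) → ℝ) (k : ℕ) :
    (tstp u h)^[k] (fun ξ => ∑ i ∈ s, F i ξ) = fun ξ => ∑ i ∈ s, ((tstp u h)^[k] (F i)) ξ := by
  induction s using Finset.induction_on with
  | empty =>
    simp only [sum_empty]
    exact iter_const 0 k
  | insert i s hi ih =>
    simp only [sum_insert hi]
    have h1 := iter_lin (u := u) (h := h) 1 1 (F i) (fun ξ => ∑ i ∈ s, F i ξ) k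
    simp only [one_mul] at h1
    rw [h1, ih]

/-- translation invariance of the chain -/
theorem iter_shift (a : ZMod n) (g : (ZMod n → S) → ℝ) (k : ℕ) (ξ : ZMod n → S) :
    ((tstp u h)^[k] (fun ζ => g (fun y => ζ (y + a)))) ξ =
      ((tstp u h)^[k] g) (fun y => ξ (y + a)) := by
  induction k generalizing ξ with
  | zero => rfl
  | succ k ih =>
    rw [Function.iterate_succ_apply', Function.iterate_succ_apply', TA1_tstp, TA1_tstp, ih ξ]
    congr 2
    have e : ∀ c : ZMod n × Bool, (fun y => tact u (c.1 + a, c.2) ξ (y + a)) =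
        tact u c (fun y => ξ (y + a)) := by
      intro c
      funext y
      unfold tact
      have h1 : ξ (tnb (c.1 + a, c.2)) = ξ (tnb c + a) := by
        congr 1
        unfold tnb
        simp only
        split_ifs <;> ring
      by_cases hy : y = c.1
      · subst hy
        rw [Function.update_self, Function.update_self, h1]
      · rw [Function.update_of_ne hy, Function.update_of_ne (fun h => hy (add_right_cancel h))]
    have e2 := Equiv.sum_comp ((Equiv.addRight a).prodCongr (Equiv.refl Bool))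
      (fun c : ZMod n × Bool => ((tstp u h)^[k] (fun ζ => g (fun y => ζ (y + a)))) (tact u c ξ))
    rw [← e2]
    refine sum_congr rfl fun c _ => ?_
    rw [ih]
    have e3 : ((Equiv.addRight a).prodCongr (Equiv.refl Bool)) c = (c.1 + a, c.2) := rfl
    rw [e3, e c]

end CPS84
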