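import Pool.Agent.LibCPS84.TA1

/-! Expectations for the chain of the colours and for the extended chain. -/

namespace CPS84

open Finset
open scoped Classical

variable {n : ℕ} [NeZero n] {h : ℝ}

private theorem TA2_avg_mono {f g : (ZMod n → ZMod 4) → ℝ} (hfg : ∀ ξ, f ξ ≤ g ξ) :
    tavg f ≤ tavg g := by
  unfold tavg
  apply div_le_div_of_nonneg_right (sum_le_sum fun η _ => hfg η)
  positivity

private theorem TA2_avg_lin (a b : ℝ) (f g : (ZMod n → ZMod 4) → ℝ) :
    tavg (fun ξ => a * f ξ + b * g ξ) = a * tavg f + b * tavg g := by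
  unfold tavg
  rw [sum_add_distrib, ← mul_sum, ← mul_sum]
  ring

theorem tmu_mono (h0 : 0 ≤ h) (hn : h * (2 * n) ≤ 1) (k : ℕ) {f g : (ZMod n → ZMod 4) → ℝ}
    (hfg : ∀ ξ, f ξ ≤ g ξ) : tmu h k f ≤ tmu h k g :=
  TA2_avg_mono (iter_mono h0 hn hfg k)

theorem tmu_lin (k : ℕ) (a b : ℝ) (f g : (ZMod n → ZMod 4) → ℝ) :
    tmu h k (fun ξ => a * f ξ + b * g ξ) = a * tmu h k f + b * tmu h k g := by
  unfold tmu
  rw [iter_lin, TA2_avg_lin]

theorem tmu_const (k : ℕ) (a : ℝ) : tmu (n := n) h k (fun _ => a) = a := by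
  unfold tmu
  rw [iter_const]
  unfold tavg
  rw [sum_const, card_univ, nsmul_eq_mul, Fintype.card_fun, ZMod.card, ZMod.card]
  push_cast
  field_simp

theorem tmu_sum (k : ℕ) {ι : Type} (s : Finset ι) (F : ι → (ZMod n → ZMod 4) → ℝ) :
    tmu h k (fun ξ => ∑ i ∈ s, F i ξ) = ∑ i ∈ s, tmu h k (F i) := by
  unfold tmu
  rw [iter_sum]
  unfold tavg
  rw [sum_comm, sum_div]

theorem tmu_shift (k : ℕ) (a : ZMod n) (g : (ZMod n → ZMod 4) → ℝ) :
    tmu h k (fun ζ => g (fun y => ζ (y + a))) = tmu h k g := by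
  unfold tmu tavg
  congr 1
  have h1 := Equiv.sum_comp ((Equiv.addRight (-a)).arrowCongr (Equiv.refl (ZMod 4)))
    (fun η => ((tstp (fun _ => cyc 4) h)^[k] g) η)
  rw [← h1]
  refine sum_congr rfl fun η _ => ?_
  rw [iter_shift]
  have h2 : (fun y => η (y + a)) =
      ((Equiv.addRight (-a)).arrowCongr (Equiv.refl (ZMod 4))) η := by
    funext y
    simp [Equiv.arrowCongr]
  rw [h2]

theorem tmu_succ (k : ℕ) (g : (ZMod n → ZMod 4) → ℝ) :
    tmu h (k + 1) g = tmu h k (tstp (fun _ => cyc 4) h g) := by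
  unfold tmu
  rw [Function.iterate_succ_apply]

theorem text_mono (h0 : 0 ≤ h) (hn : h * (2 * n) ≤ 1) (k r : ℕ) {f g : (ZMod n → ES) → ℝ}
    (hfg : ∀ ξ, f ξ ≤ g ξ) : text h k r f ≤ text h k r g :=
  tmu_mono h0 hn k fun η => iter_mono h0 hn hfg r (emb η)

theorem text_lin (k r : ℕ) (a b : ℝ) (f g : (ZMod n → ES) → ℝ) :
    text h k r (fun ξ => a * f ξ + b * g ξ) = a * text h k r f + b * text h k r g := by
  unfold text
  rw [iter_lin]
  exact tmu_lin k a b _ _

theorem text_zero (k : ℕ) (g : (ZMod n → ES) → ℝ) : text h k 0 g = tmu h k (fun η => g (emb η)) :=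
  rfl

theorem text_succ (k r : ℕ) (g : (ZMod n → ES) → ℝ) :
    text h k (r + 1) g = text h k r g + h * text h k r (tgen eu g) := by
  have h1 : tstp eu h g = fun ξ => 1 * g ξ + h * tgen eu g ξ := by
    funext ξ
    unfold tstp
    ring
  have h2 : text h k (r + 1) g = text h k r (tstp eu h g) := by
    unfold text
    simp only [Function.iterate_succ_apply]
  rw [h2, h1, text_lin]
  ring

private theorem TA2_cur (c : ZMod n × Bool) (ξ : ZMod n → ES) :
    (fun y => (tact eu c ξ y).1) = tact (fun _ => cyc 4) c (fun y => (ξ y).1) := by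
  funext y
  unfold tact
  by_cases hy : y = c.1
  · subst hy
    rw [Function.update_self, Function.update_self]
    show (eu c.2 (ξ (tnb c)) (ξ c.1)).1 = cyc 4 (ξ (tnb c)).1 (ξ c.1).1
    unfold eu cyc
    by_cases h1 : (ξ c.1).1 = (ξ (tnb c)).1 - 1
    · rw [if_pos h1, if_pos h1]
    · rw [if_neg h1, if_neg h1]
  · rw [Function.update_of_ne hy, Function.update_of_ne hy]

/-- the present colours of the extended chain -/
theorem text_cur (k r : ℕ) (g : (ZMod n → ZMod 4) → ℝ) :
    text h k r (fun ξ => g (fun y => (ξ y).1)) = tmu h (k + r) g := by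
  have key : ∀ (r : ℕ) (ξ : ZMod n → ES), ((tstp eu h)^[r] (fun ξ => g (fun y => (ξ y).1))) ξ =
      ((tstp (fun _ => cyc 4) h)^[r] g) (fun y => (ξ y).1) := by
    intro r
    induction r with
    | zero => intro ξ; rfl
    | succ r ih =>
      intro ξ
      rw [Function.iterate_succ_apply', Function.iterate_succ_apply']
      generalize hG : (tstp eu h)^[r] (fun ξ => g (fun y => (ξ y).1)) = G at ih ⊢
      generalize hH : (tstp (fun _ => cyc 4) h)^[r] g = H at ih ⊢
      unfold tstp tgen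
      rw [ih ξ]
      congr 2
      refine sum_congr rfl fun c _ => ?_
      rw [ih (tact eu c ξ), TA2_cur]
  unfold text
  have h2 : (fun η : ZMod n → ZMod 4 => ((tstp eu h)^[r] (fun ξ => g (fun y => (ξ y).1))) (emb η))
      = (tstp (fun _ => cyc 4) h)^[r] g := by
    funext η
    rw [key]
    rfl
  rw [h2]
  unfold tmu
  rw [Function.iterate_add_apply]

private theorem TA2_orig (c : ZMod n × Bool) (ξ : ZMod n → ES) :
    (fun y => (tact eu c ξ y).2.1) = (fun y => (ξ y).2.1) := by
  funext y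
  unfold tact
  by_cases hy : y = c.1
  · subst hy
    rw [Function.update_self]
    unfold eu
    split_ifs <;> rfl
  · rw [Function.update_of_ne hy]

/-- the colours at the beginning do not change -/
theorem text_orig (k r : ℕ) (g : (ZMod n → ZMod 4) → ℝ) :
    text h k r (fun ξ => g (fun y => (ξ y).2.1)) = tmu h k g := by
  have key : ∀ r : ℕ, ((tstp eu h)^[r] (fun ξ : ZMod n → ES => g (fun y => (ξ y).2.1))) =
      fun ξ : ZMod n → ES => g (fun y => (ξ y).2.1) := by
    intro r
    induction r with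
    | zero => rfl
    | succ r ih =>
      rw [Function.iterate_succ_apply', ih]
      funext ξ
      unfold tstp tgen
      have h1 : ∀ c ∈ (univ : Finset (ZMod n × Bool)),
          g (fun y => (tact eu c ξ y).2.1) - g (fun y => (ξ y).2.1) = 0 := by
        intro c _
        rw [TA2_orig, sub_self]
      rw [sum_eq_zero h1, mul_zero, add_zero]
  unfold text
  rw [key]
  rfl

end CPS84
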