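import Pool.Agent.LibCPS84.TDefs

/-! The effect of one update on sums over the edges. -/

namespace CPS84

open Finset
open scoped Classical

variable {n : ℕ} [NeZero n] {S : Type}

private theorem TB1_one (hn : 2 ≤ n) : (1 : ZMod n) ≠ 0 := by
  have : Fact (1 < n) := ⟨by omega⟩
  exact one_ne_zero

theorem sum_pair_update (hn : 2 ≤ n) (F : S → S → ℝ) (ξ : ZMod n → S) (y : ZMod n) (v : S) :
    ∑ z, F (Function.update ξ y v z) (Function.update ξ y v (z + 1)) -
      ∑ z, F (ξ z) (ξ (z + 1)) =
      (F v (ξ (y + 1)) - F (ξ y) (ξ (y + 1))) + (F (ξ (y - 1)) v - F (ξ (y - 1)) (ξ y)) := by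
  have h1 := TB1_one hn
  have hy1 : y + 1 ≠ y := fun h => h1 (by simpa using h)
  have hy2 : y - 1 ≠ y := fun h => h1 (by simpa using h)
  have hy3 : y - 1 + 1 = y := by ring
  rw [← sum_sub_distrib, Fintype.sum_eq_add y (y - 1) hy2.symm]
  · rw [Function.update_self, Function.update_of_ne hy1, Function.update_of_ne hy2, hy3,
      Function.update_self]
  · rintro z ⟨hz1, hz2⟩
    have hz3 : z + 1 ≠ y := fun h => hz2 (by rw [← h]; ring)
    rw [Function.update_of_ne hz1, Function.update_of_ne hz3, sub_self]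

private theorem TB1_ch : ∀ l x r a : ZMod 4, (a = r ∨ a = l) → x = a - 1 →
    |ch a r| + |ch l a| ≤ |ch x r| + |ch l x| := by
  decide

/-- the total modulus of the charge does not increase: `|x + δ| ≤ |x| + |δ|` is not needed here,
finite check over the colours of three sites -/
theorem sum_ch_act (hn : 2 ≤ n) (c : ZMod n × Bool) (η : ZMod n → ZMod 4) :
    ∑ z, |((ch (tact (fun _ => cyc 4) c η z) (tact (fun _ => cyc 4) c η (z + 1)) : ℤ) : ℝ)| ≤
      ∑ z, |((ch (η z) (η (z + 1)) : ℤ) : ℝ)| := by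
  have h1 := sum_pair_update hn (fun a b : ZMod 4 => |((ch a b : ℤ) : ℝ)|) η c.1
    (cyc 4 (η (tnb c)) (η c.1))
  have h2 : tact (fun _ => cyc 4) c η = Function.update η c.1 (cyc 4 (η (tnb c)) (η c.1)) := rfl
  rw [h2]
  have h3 : η (tnb c) = η (c.1 + 1) ∨ η (tnb c) = η (c.1 - 1) := by
    unfold tnb
    split_ifs
    · exact Or.inl rfl
    · exact Or.inr rfl
  have h4 : (|((ch (cyc 4 (η (tnb c)) (η c.1)) (η (c.1 + 1)) : ℤ) : ℝ)| -
      |((ch (η c.1) (η (c.1 + 1)) : ℤ) : ℝ)|) +
      (|((ch (η (c.1 - 1)) (cyc 4 (η (tnb c)) (η c.1)) : ℤ) : ℝ)| -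
        |((ch (η (c.1 - 1)) (η c.1) : ℤ) : ℝ)|) ≤ 0 := by
    unfold cyc
    by_cases h5 : η c.1 = η (tnb c) - 1
    · rw [if_pos h5]
      have h6 := TB1_ch (η (c.1 - 1)) (η c.1) (η (c.1 + 1)) (η (tnb c)) h3 h5
      have h7 : ((|ch (η (tnb c)) (η (c.1 + 1))| + |ch (η (c.1 - 1)) (η (tnb c))| : ℤ) : ℝ) ≤
          ((|ch (η c.1) (η (c.1 + 1))| + |ch (η (c.1 - 1)) (η c.1)| : ℤ) : ℝ) := by
        exact_mod_cast h6
      push_cast at h7
      linarith
    · rw [if_neg h5]
      linarith
  linarith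

private theorem TB1_right : ∀ l x r : ZMod 4, x = r - 1 →
    (ch r r + par x = ch x r + 2 * par x ∧ ch r r - ch x r = par x) ∧
    |ch l r - ch l x + par x| ≤ mb x r - mb r r + (mb l x - mb l r) := by
  decide

private theorem TB1_left : ∀ l x r : ZMod 4, x = l - 1 →
    (ch l l - ch l x = par x) ∧
    |ch l r - ch x r + par x| ≤ mb l x - mb l l + (mb x r - mb l r) := by
  decide

/-- the accumulated sources plus the number of moving walls do not increase.  With
`F a b = |sig a b| + mb a.1 b.1` and `sum_pair_update`: one of the two edges keeps `sig`, on the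
other one it changes by `δ` with `|δ| ≤` decrease of the number of moving walls on the two edges -/
theorem sum_sig_act (hn : 2 ≤ n) (c : ZMod n × Bool) (ξ : ZMod n → ES) :
    ∑ z, (|((sig (tact eu c ξ z) (tact eu c ξ (z + 1)) : ℤ) : ℝ)| +
        ((mb (tact eu c ξ z).1 (tact eu c ξ (z + 1)).1 : ℤ) : ℝ)) ≤
      ∑ z, (|((sig (ξ z) (ξ (z + 1)) : ℤ) : ℝ)| + ((mb (ξ z).1 (ξ (z + 1)).1 : ℤ) : ℝ)) := by
  have h1 := sum_pair_update hn (fun a b : ES => |((sig a b : ℤ) : ℝ)| + ((mb a.1 b.1 : ℤ) : ℝ)) ξ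
    c.1 (eu c.2 (ξ (tnb c)) (ξ c.1))
  have h2 : tact eu c ξ = Function.update ξ c.1 (eu c.2 (ξ (tnb c)) (ξ c.1)) := rfl
  rw [h2]
  set v := eu c.2 (ξ (tnb c)) (ξ c.1) with hv
  set l := ξ (c.1 - 1) with hl
  set x := ξ c.1 with hx
  set r := ξ (c.1 + 1) with hr
  have h4 : (|sig v r| + mb v.1 r.1 - (|sig x r| + mb x.1 r.1)) +
      (|sig l v| + mb l.1 v.1 - (|sig l x| + mb l.1 x.1)) ≤ 0 := by
    by_cases h5 : x.1 = (ξ (tnb c)).1 - 1
    · by_cases h6 : c.2 = true
      · have hn : ξ (tnb c) = r := by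
          unfold tnb
          rw [if_pos h6]
        have hv' : v = (r.1, x.2.1, x.2.2 + - par x.1) := by
          rw [hv]
          unfold eu
          rw [if_pos h5, if_pos h6, hn]
        rw [hn] at h5
        obtain ⟨⟨-, k1⟩, k2⟩ := TB1_right l.1 x.1 r.1 h5
        have e1 : sig v r = sig x r := by
          rw [hv']
          unfold sig
          simp only
          linarith
        have e2 : sig l v = sig l x + (ch l.1 r.1 - ch l.1 x.1 + par x.1) := by
          rw [hv']
          unfold sig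
          simp only
          ring
        have e3 : v.1 = r.1 := by rw [hv']
        rw [e1, e2, e3]
        have k3 := abs_add_le (sig l x) (ch l.1 r.1 - ch l.1 x.1 + par x.1)
        linarith
      · have hn : ξ (tnb c) = l := by
          unfold tnb
          rw [if_neg h6]
        have hv' : v = (l.1, x.2.1, x.2.2 + par x.1) := by
          rw [hv]
          unfold eu
          rw [if_pos h5, if_neg h6, hn]
        rw [hn] at h5
        obtain ⟨k1, k2⟩ := TB1_left l.1 x.1 r.1 h5
        have e1 : sig l v = sig l x := by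
          rw [hv']
          unfold sig
          simp only
          linarith
        have e2 : sig v r = sig x r + (ch l.1 r.1 - ch x.1 r.1 + par x.1) := by
          rw [hv']
          unfold sig
          simp only
          ring
        have e3 : v.1 = l.1 := by rw [hv']
        rw [e1, e2, e3]
        have k3 := abs_add_le (sig x r) (ch l.1 r.1 - ch x.1 r.1 + par x.1)
        linarith
    · have hv' : v = x := by
        rw [hv]
        unfold eu
        rw [if_neg h5]
      rw [hv']
      linarith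
  have h5 : (((|sig v r| + mb v.1 r.1 - (|sig x r| + mb x.1 r.1)) +
      (|sig l v| + mb l.1 v.1 - (|sig l x| + mb l.1 x.1)) : ℤ) : ℝ) ≤ 0 := by exact_mod_cast h4
  push_cast at h5
  linarith

/-- the parity identity for three neighbouring sites `a, b, c` -/
theorem hp_diff : ∀ a b c : ZMod 4, hp b c - hp a b =
    2 * par b * ((if a = b + 1 then 1 else 0) - (if c = b + 1 then 1 else 0)) := by
  decide

theorem hp_ch : ∀ a b : ZMod 4, hp a b * ch a b = |ch a b| := by
  decide

theorem abs_hp : ∀ a b : ZMod 4, |hp a b| = 1 := by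
  decide

end CPS84
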