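import Pool.Agent.LibCPS84.TB1

/-! The functional `∑ (φ - W)^2`. -/

namespace CPS84

open Finset
open scoped Classical

variable {n : ℕ} [NeZero n]

/-- `∑ (φ y - W y)^2`, where `W` is a function of the colours at the beginning -/
noncomputable def Psi2 (W : (ZMod n → ZMod 4) → ZMod n → ℝ) (ξ : ZMod n → ES) : ℝ :=
  ∑ y, (((ξ y).2.2 : ℝ) - W (fun z => (ξ z).2.1) y) ^ 2

private theorem tb2_par : ∀ b : ZMod 4, par b * par b = 1 := by
  decide

private theorem tb2_mb : ∀ a b : ZMod 4,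
    mb a b = (if a = b + 1 then 1 else 0) + (if b = a + 1 then 1 else 0) := by
  decide

omit [NeZero n] in
private theorem tb2_orig (c : ZMod n × Bool) (ξ : ZMod n → ES) :
    (fun z => (tact eu c ξ z).2.1) = fun z => (ξ z).2.1 := by
  funext z
  by_cases hz : z = c.1
  · subst hz
    simp only [tact, Function.update_self, eu]
    split_ifs <;> rfl
  · simp only [tact, Function.update_of_ne hz]

/-- the change of `Psi2` by one update -/
private theorem tb2_step (W : (ZMod n → ZMod 4) → ZMod n → ℝ) (ξ : ZMod n → ES)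
    (c : ZMod n × Bool) :
    Psi2 W (tact eu c ξ) - Psi2 W ξ =
      if (ξ c.1).1 = (ξ (tnb c)).1 - 1 then
        2 * (((ξ c.1).2.2 : ℝ) - W (fun z => (ξ z).2.1) c.1) *
          ((if c.2 = true then - par (ξ c.1).1 else par (ξ c.1).1 : ℤ) : ℝ) + 1
      else 0 := by
  unfold Psi2
  rw [tb2_orig, ← Finset.sum_sub_distrib, Finset.sum_eq_single c.1]
  · have hp1 : ((par (ξ c.1).1 : ℤ) : ℝ) * ((par (ξ c.1).1 : ℤ) : ℝ) = 1 := by
      exact_mod_cast tb2_par (ξ c.1).1
    simp only [tact, Function.update_self]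
    by_cases h : (ξ c.1).1 = (ξ (tnb c)).1 - 1
    · rw [if_pos h]
      unfold eu
      rw [if_pos h]
      by_cases hd : c.2 = true
      · simp only [if_pos hd]
        push_cast
        linear_combination hp1
      · simp only [if_neg hd]
        push_cast
        linear_combination hp1
    · rw [if_neg h]
      unfold eu
      rw [if_neg h, sub_self]
  · intro z _ hz
    simp only [tact, Function.update_of_ne hz, sub_self]
  · intro h
    exact absurd (Finset.mem_univ _) h

/-- Only the term of the updated site changes; sum over the two clocks of the site `y`: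
`2 (φ - W)(y) par y (R_{y-1} - L_y) + R_{y-1} + L_y`, `hp_diff`, summation by parts,
`(φ - W)(y + 1) - (φ - W)(y) = ch - sig - V`, `hp_ch`, `abs_hp`. -/
theorem gen_Psi2 (W V : (ZMod n → ZMod 4) → ZMod n → ℝ)
    (hWV : ∀ η y, W η (y + 1) - W η y = V η y - ((ch (η y) (η (y + 1)) : ℤ) : ℝ))
    (ξ : ZMod n → ES) :
    tgen eu (Psi2 W) ξ ≤ - ∑ z, |((ch (ξ z).1 (ξ (z + 1)).1 : ℤ) : ℝ)| +
      ∑ z, (|((sig (ξ z) (ξ (z + 1)) : ℤ) : ℝ)| + ((mb (ξ z).1 (ξ (z + 1)).1 : ℤ) : ℝ)) +
      ∑ z, |V (fun y => (ξ y).2.1) z| := by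
  set x : ZMod n → ZMod 4 := fun z => (ξ z).1 with hx
  set η : ZMod n → ZMod 4 := fun z => (ξ z).2.1 with hη
  set X : ZMod n → ℝ := fun y => ((ξ y).2.2 : ℝ) - W η y with hX
  set H : ZMod n → ℝ := fun y => ((hp (x y) (x (y + 1)) : ℤ) : ℝ) with hH
  set R : ZMod n → ℝ := fun z => if x z = x (z + 1) + 1 then 1 else 0 with hR
  set L : ZMod n → ℝ := fun z => if x (z + 1) = x z + 1 then 1 else 0 with hL
  have hiff : ∀ a b : ZMod 4, a = b - 1 ↔ b = a + 1 := by decide
  -- the generator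
  have hgen : tgen eu (Psi2 W) ξ = ∑ y, (X y * (H y - H (y - 1)) + (R (y - 1) + L y)) := by
    unfold tgen
    rw [Fintype.sum_prod_type]
    refine Finset.sum_congr rfl fun y _ => ?_
    rw [Fintype.sum_bool, tb2_step, tb2_step]
    have e1 : tnb ((y, true) : ZMod n × Bool) = y + 1 := by simp [tnb]
    have e2 : tnb ((y, false) : ZMod n × Bool) = y - 1 := by simp [tnb]
    rw [e1, e2]
    have hd := hp_diff (x (y - 1)) (x y) (x (y + 1))
    have hd' : H y - H (y - 1) = 2 * ((par (x y) : ℤ) : ℝ) *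
        ((if x (y - 1) = x y + 1 then 1 else 0) - (if x (y + 1) = x y + 1 then 1 else 0)) := by
      have : ((hp (x y) (x (y + 1)) - hp (x (y - 1)) (x y) : ℤ) : ℝ) =
          ((2 * par (x y) * ((if x (y - 1) = x y + 1 then 1 else 0) -
            (if x (y + 1) = x y + 1 then 1 else 0)) : ℤ) : ℝ) := by rw [hd]
      push_cast at this
      simp only [hH, sub_add_cancel]
      exact this
    rw [hd']
    simp only [hR, hL, sub_add_cancel, hX]
    change (if x y = x (y + 1) - 1 then _ else 0) + (if x y = x (y - 1) - 1 then _ else 0) = _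
    have i1 := hiff (x y) (x (y + 1))
    have i2 := hiff (x y) (x (y - 1))
    simp only [i1, i2]
    change (if x (y + 1) = x y + 1 then 2 * (((ξ y).2.2 : ℝ) - W η y) * ((if (true = true) then
      - par (x y) else par (x y) : ℤ) : ℝ) + 1 else 0) +
      (if x (y - 1) = x y + 1 then 2 * (((ξ y).2.2 : ℝ) - W η y) * ((if (false = true) then
      - par (x y) else par (x y) : ℤ) : ℝ) + 1 else 0) = _
    simp only [if_true, Bool.false_eq_true, if_false]
    push_cast
    split_ifs <;> ring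
  -- summation by parts
  have hshift : ∀ f : ZMod n → ℝ, ∑ y, f (y - 1) = ∑ y, f y := fun f =>
    (Equiv.subRight (1 : ZMod n)).sum_comp f
  have hparts : ∑ y, X y * (H y - H (y - 1)) = - ∑ y, H y * (X (y + 1) - X y) := by
    have h1 : ∑ y, X y * H (y - 1) = ∑ y, X (y + 1) * H y := by
      rw [← hshift (fun y => X (y + 1) * H y)]
      refine Finset.sum_congr rfl fun y _ => ?_
      simp only [sub_add_cancel]
    calc ∑ y, X y * (H y - H (y - 1)) = ∑ y, X y * H y - ∑ y, X y * H (y - 1) := by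
          rw [← Finset.sum_sub_distrib]
          exact Finset.sum_congr rfl fun y _ => by ring
      _ = ∑ y, X y * H y - ∑ y, X (y + 1) * H y := by rw [h1]
      _ = - ∑ y, H y * (X (y + 1) - X y) := by
          rw [← Finset.sum_sub_distrib, ← Finset.sum_neg_distrib]
          exact Finset.sum_congr rfl fun y _ => by ring
  have hXd : ∀ y, X (y + 1) - X y = ((ch (x y) (x (y + 1)) : ℤ) : ℝ) -
      ((sig (ξ y) (ξ (y + 1)) : ℤ) : ℝ) - V η y := by
    intro y
    have h1 := hWV η y
    simp only [hX, sig]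
    push_cast
    have h2 : ((ch (x y) (x (y + 1)) : ℤ) : ℝ) = ((ch (ξ y).1 (ξ (y + 1)).1 : ℤ) : ℝ) := rfl
    have h3 : ((ch (η y) (η (y + 1)) : ℤ) : ℝ) = ((ch (ξ y).2.1 (ξ (y + 1)).2.1 : ℤ) : ℝ) := rfl
    rw [h2]
    rw [h3] at h1
    linarith
  have hterm : ∀ y, - (H y * (X (y + 1) - X y)) ≤
      - |((ch (x y) (x (y + 1)) : ℤ) : ℝ)| + |((sig (ξ y) (ξ (y + 1)) : ℤ) : ℝ)| + |V η y| := by
    intro y
    rw [hXd y]
    have h1 : H y * ((ch (x y) (x (y + 1)) : ℤ) : ℝ) = |((ch (x y) (x (y + 1)) : ℤ) : ℝ)| := by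
      have := hp_ch (x y) (x (y + 1))
      simp only [hH]
      exact_mod_cast this
    have h2 : |H y| = 1 := by
      have := abs_hp (x y) (x (y + 1))
      simp only [hH]
      exact_mod_cast this
    have h3 : H y * ((sig (ξ y) (ξ (y + 1)) : ℤ) : ℝ) ≤ |((sig (ξ y) (ξ (y + 1)) : ℤ) : ℝ)| := by
      refine (le_abs_self _).trans ?_
      rw [abs_mul, h2, one_mul]
    have h4 : H y * V η y ≤ |V η y| := by
      refine (le_abs_self _).trans ?_
      rw [abs_mul, h2, one_mul]
    nlinarith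
  have hRL : ∑ y, (R (y - 1) + L y) = ∑ y, ((mb (x y) (x (y + 1)) : ℤ) : ℝ) := by
    rw [Finset.sum_add_distrib, hshift R, ← Finset.sum_add_distrib]
    refine Finset.sum_congr rfl fun y _ => ?_
    rw [tb2_mb]
    simp only [hR, hL]
    push_cast
    rfl
  rw [hgen, Finset.sum_add_distrib, hparts, hRL, ← Finset.sum_neg_distrib]
  calc ∑ y, - (H y * (X (y + 1) - X y)) + ∑ y, ((mb (x y) (x (y + 1)) : ℤ) : ℝ)
      ≤ ∑ y, (- |((ch (x y) (x (y + 1)) : ℤ) : ℝ)| + |((sig (ξ y) (ξ (y + 1)) : ℤ) : ℝ)| +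
          |V η y|) + ∑ y, ((mb (x y) (x (y + 1)) : ℤ) : ℝ) := by
        gcongr with y _
        exact hterm y
    _ = _ := by
        simp only [Finset.sum_add_distrib, Finset.sum_neg_distrib]
        ring

end CPS84
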