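import Pool.Agent.LibCPS84.TA2
import Pool.Agent.LibCPS84.TB2

/-! The main inequality on the cycle. -/

namespace CPS84

open Finset
open scoped Classical

variable {n : ℕ} [NeZero n] {h : ℝ}

private theorem TC1_text_zero_fun (k r : ℕ) :
    text h k r (fun _ : ZMod n → ES => (0 : ℝ)) = 0 := by
  have h1 := text_lin (n := n) (h := h) k r 0 0 (fun _ => (0 : ℝ)) (fun _ => (0 : ℝ))
  simpa using h1

private theorem TC1_text_nonneg (h0 : 0 ≤ h) (hh : h * (2 * n) ≤ 1) (k r : ℕ)
    (g : (ZMod n → ES) → ℝ) (hg : ∀ ξ, 0 ≤ g ξ) : 0 ≤ text h k r g := by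
  rw [← TC1_text_zero_fun (n := n) (h := h) k r]
  exact text_mono h0 hh k r hg

/-- a functional decreased by the generator -/
private theorem TC1_text_anti (h0 : 0 ≤ h) (hh : h * (2 * n) ≤ 1) (k : ℕ)
    (g : (ZMod n → ES) → ℝ) (hg : ∀ c ξ, g (tact eu c ξ) ≤ g ξ) (r : ℕ) :
    text h k r g ≤ text h k 0 g := by
  induction r with
  | zero => exact le_rfl
  | succ r ih =>
    refine le_trans ?_ ih
    rw [text_succ]
    have h1 : text h k r (tgen eu g) ≤ 0 := by
      have h2 := text_mono (h := h) h0 hh k r (f := tgen eu g) (g := fun _ => (0 : ℝ)) (by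
        intro ξ
        exact Finset.sum_nonpos fun c _ => by linarith [hg c ξ])
      rwa [TC1_text_zero_fun] at h2
    have h3 : h * text h k r (tgen eu g) ≤ 0 := mul_nonpos_of_nonneg_of_nonpos h0 h1
    linarith

private theorem TC1_tmu_anti (h0 : 0 ≤ h) (hh : h * (2 * n) ≤ 1) (k : ℕ)
    (g : (ZMod n → ZMod 4) → ℝ) (hg : ∀ c ξ, g (tact (fun _ => cyc 4) c ξ) ≤ g ξ) (r : ℕ) :
    tmu h (k + r) g ≤ tmu h k g := by
  induction r with
  | zero => exact le_rfl
  | succ r ih =>
    refine le_trans ?_ ih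
    rw [← add_assoc, tmu_succ]
    refine tmu_mono h0 hh (k + r) fun ξ => ?_
    have h1 : tgen (fun _ => cyc 4) g ξ ≤ 0 :=
      Finset.sum_nonpos fun c _ => by linarith [hg c ξ]
    have h2 : h * tgen (fun _ => cyc 4) g ξ ≤ 0 := mul_nonpos_of_nonneg_of_nonpos h0 h1
    change g ξ + h * tgen (fun _ => cyc 4) g ξ ≤ g ξ
    linarith

/-- Sum of `text_succ` for `Psi2 W` over `r < R`, with `gen_Psi2`; the sources: `sum_sig_act` makes
the expectation of the second sum nonincreasing in `r`, at `r = 0` it is that of the number of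
moving walls (`sig = 0`); the first sum is nonincreasing (`sum_ch_act`), so it is at least its
value at `r = R`. -/
theorem torus_sum (hn : 2 ≤ n) (h0 : 0 ≤ h) (hh : h * (2 * n) ≤ 1)
    (W V : (ZMod n → ZMod 4) → ZMod n → ℝ)
    (hWV : ∀ η y, W η (y + 1) - W η y = V η y - ((ch (η y) (η (y + 1)) : ℤ) : ℝ)) (k R : ℕ) :
    R * h * tmu h (k + R)
      (fun η : ZMod n → ZMod 4 => ∑ z, |((ch (η z) (η (z + 1)) : ℤ) : ℝ)|) ≤
      tmu h k (fun η => ∑ y, W η y ^ 2) +
        R * h * (tmu h k (fun η : ZMod n → ZMod 4 => ∑ z, ((mb (η z) (η (z + 1)) : ℤ) : ℝ)) +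
          tmu h k (fun η => ∑ z, |V η z|)) := by
  set a : (ZMod n → ZMod 4) → ℝ := fun η => ∑ z, |((ch (η z) (η (z + 1)) : ℤ) : ℝ)| with ha
  set b : (ZMod n → ES) → ℝ := fun ξ => ∑ z, (|((sig (ξ z) (ξ (z + 1)) : ℤ) : ℝ)| +
    ((mb (ξ z).1 (ξ (z + 1)).1 : ℤ) : ℝ)) with hb
  set v : (ZMod n → ZMod 4) → ℝ := fun η => ∑ z, |V η z| with hv
  set B : ℝ := tmu h k (fun η : ZMod n → ZMod 4 => ∑ z, ((mb (η z) (η (z + 1)) : ℤ) : ℝ)) with hB
  have hb0 : text h k 0 b = B := by
    rw [text_zero]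
    congr 1
    funext η
    refine Finset.sum_congr rfl fun z _ => ?_
    have h1 : sig (emb η z) (emb η (z + 1)) = 0 := by
      simp [sig, emb]
    rw [h1]
    simp [emb]
  have hP0 : text h k 0 (Psi2 W) = tmu h k (fun η => ∑ y, W η y ^ 2) := by
    rw [text_zero]
    congr 1
    funext η
    refine Finset.sum_congr rfl fun y _ => ?_
    simp [emb]
  have hbr : ∀ r, text h k r b ≤ B := fun r => by
    rw [← hb0]
    exact TC1_text_anti h0 hh k b (fun c ξ => sum_sig_act hn c ξ) r
  have har : ∀ r, r ≤ R → tmu h (k + R) a ≤ text h k r (fun ξ => a (fun y => (ξ y).1)) := by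
    intro r hr
    rw [text_cur]
    obtain ⟨j, rfl⟩ := Nat.exists_eq_add_of_le hr
    rw [← add_assoc]
    exact TC1_tmu_anti h0 hh (k + r) a (fun c ξ => sum_ch_act hn c ξ) j
  have key : ∀ r, r ≤ R → text h k r (Psi2 W) + r * h * tmu h (k + R) a ≤
      text h k 0 (Psi2 W) + r * h * (B + tmu h k v) := by
    intro r
    induction r with
    | zero =>
      intro _
      simp
    | succ r ih =>
      intro hr
      have h1 := ih (by omega)
      have h2 : text h k r (tgen eu (Psi2 W)) ≤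
          text h k r (fun ξ => (-1) * a (fun y => (ξ y).1) + 1 * (b ξ +
            v (fun y => (ξ y).2.1))) := by
        refine text_mono h0 hh k r fun ξ => ?_
        have h3 := gen_Psi2 W V hWV ξ
        simp only [ha, hb, hv]
        linarith
      have h4 : text h k r (fun ξ => b ξ + v (fun y => (ξ y).2.1)) =
          text h k r b + tmu h k v := by
        have h5 := text_lin (n := n) (h := h) k r 1 1 b (fun ξ => v (fun y => (ξ y).2.1))
        simp only [one_mul] at h5
        rw [h5, text_orig]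
      rw [text_lin (n := n) (h := h) k r (-1) 1 (fun ξ => a (fun y => (ξ y).1))
        (fun ξ => b ξ + v (fun y => (ξ y).2.1)), h4] at h2
      have h6 := har r (by omega)
      have h7 := hbr r
      rw [text_succ]
      push_cast
      have h8 : h * text h k r (tgen eu (Psi2 W)) ≤
          h * (-tmu h (k + R) a + (B + tmu h k v)) :=
        mul_le_mul_of_nonneg_left (by linarith) h0
      nlinarith
  have h1 := key R le_rfl
  have h2 : 0 ≤ text h k R (Psi2 W) :=
    TC1_text_nonneg h0 hh k R _ fun ξ => Finset.sum_nonneg fun y _ => sq_nonneg _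
  rw [hP0] at h1
  linarith

end CPS84
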