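import Pool.Agent.LibCPS84.TC1

/-! The main inequality on the cycle, per site. -/

namespace CPS84

open Finset
open scoped Classical

variable {n : ℕ} [NeZero n] {h : ℝ}

/-- the sum over the cycle of the translates of a local function -/
theorem tmu_tor_sum (k : ℕ) (f : (ℤ → ZMod 4) → ℝ) :
    tmu h k (fun η : ZMod n → ZMod 4 => ∑ y : ZMod n, tor f (fun z => η (z + y))) =
      n * tmu (n := n) h k (tor f) := by
  rw [tmu_sum]
  have : ∀ y : ZMod n, tmu (n := n) h k (fun η => tor f (fun z => η (z + y))) =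
      tmu (n := n) h k (tor f) := fun y => tmu_shift k y (tor f)
  rw [Finset.sum_congr rfl fun y _ => this y, Finset.sum_const, Finset.card_univ, ZMod.card,
    nsmul_eq_mul]

private theorem tc2_QQ (j : ℕ) (η : ℤ → ZMod 4) :
    QQ j (fun i => η (i + 1)) - QQ j η =
      ((ch (η j) (η (j + 1)) : ℤ) : ℝ) - ((ch (η 0) (η 1) : ℤ) : ℝ) := by
  induction j with
  | zero => simp [QQ]
  | succ j ih =>
    have e1 : QQ (j + 1) (fun i => η (i + 1)) = QQ j (fun i => η (i + 1)) +
        ((ch (η (j + 1)) (η (j + 1 + 1)) : ℤ) : ℝ) := by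
      unfold QQ
      rw [Finset.sum_range_succ]
    have e2 : QQ (j + 1) η = QQ j η + ((ch (η j) (η (j + 1)) : ℤ) : ℝ) := by
      unfold QQ
      rw [Finset.sum_range_succ]
    rw [e1, e2]
    push_cast
    linarith

private theorem tc2_WW (l : ℕ) (hl : 1 ≤ l) (η : ℤ → ZMod 4) :
    WW l (fun i => η (i + 1)) - WW l η = VV l η - ((ch (η 0) (η 1) : ℤ) : ℝ) := by
  have hl0 : (l : ℝ) ≠ 0 := by
    have : (1 : ℝ) ≤ l := by exact_mod_cast hl
    positivity
  unfold WW VV
  rw [← sub_div, ← Finset.sum_sub_distrib, Finset.sum_congr rfl fun j _ => tc2_QQ j η,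
    Finset.sum_sub_distrib, Finset.sum_const, Finset.card_range, nsmul_eq_mul]
  have : ∑ j ∈ range l, ((ch (η j) (η (j + 1)) : ℤ) : ℝ) = QQ l η := rfl
  rw [this]
  field_simp

/-- the same with `V η y = tor (VV l) (η (· + y))`, `W η y = tor (WW l) (η (· + y))`, per site -/
theorem torus_main (hn : 2 ≤ n) (h0 : 0 ≤ h) (hh : h * (2 * n) ≤ 1) (l : ℕ) (hl : 1 ≤ l)
    (k R : ℕ) :
    R * h * tmu (n := n) h (k + R) (tor (fun η => |((ch (η 0) (η 1) : ℤ) : ℝ)|)) ≤
      tmu (n := n) h k (tor (fun η => WW l η ^ 2)) +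
        R * h * (tmu (n := n) h k (tor (fun η => ((mb (η 0) (η 1) : ℤ) : ℝ))) +
          tmu (n := n) h k (tor (fun η => |VV l η|))) := by
  have hn0 : (0 : ℝ) < n := by
    have : (2 : ℝ) ≤ n := by exact_mod_cast hn
    linarith
  have key := torus_sum hn h0 hh
    (fun (η : ZMod n → ZMod 4) y => tor (WW l) (fun z => η (z + y)))
    (fun (η : ZMod n → ZMod 4) y => tor (VV l) (fun z => η (z + y))) ?_ k R
  · have e1 : (fun η : ZMod n → ZMod 4 => ∑ z, |((ch (η z) (η (z + 1)) : ℤ) : ℝ)|) =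
        fun η => ∑ y : ZMod n, tor (fun η => |((ch (η 0) (η 1) : ℤ) : ℝ)|) (fun z => η (z + y)) := by
      funext η
      refine Finset.sum_congr rfl fun y _ => ?_
      simp only [tor, Int.cast_zero, Int.cast_one, zero_add]
      rw [add_comm 1 y]
    have e2 : (fun η : ZMod n → ZMod 4 => ∑ z, ((mb (η z) (η (z + 1)) : ℤ) : ℝ)) =
        fun η => ∑ y : ZMod n, tor (fun η => ((mb (η 0) (η 1) : ℤ) : ℝ)) (fun z => η (z + y)) := by
      funext η
      refine Finset.sum_congr rfl fun y _ => ?_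
      simp only [tor, Int.cast_zero, Int.cast_one, zero_add]
      rw [add_comm 1 y]
    have e3 : (fun η : ZMod n → ZMod 4 => ∑ y, tor (WW l) (fun z => η (z + y)) ^ 2) =
        fun η => ∑ y : ZMod n, tor (fun η => WW l η ^ 2) (fun z => η (z + y)) := rfl
    have e4 : (fun η : ZMod n → ZMod 4 => ∑ y, |tor (VV l) (fun z => η (z + y))|) =
        fun η => ∑ y : ZMod n, tor (fun η => |VV l η|) (fun z => η (z + y)) := rfl
    rw [e1, e2, e3, e4, tmu_tor_sum, tmu_tor_sum, tmu_tor_sum, tmu_tor_sum] at key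
    have h2 : (n : ℝ) * (R * h * tmu (n := n) h (k + R)
        (tor (fun η => |((ch (η 0) (η 1) : ℤ) : ℝ)|))) ≤
      (n : ℝ) * (tmu (n := n) h k (tor (fun η => WW l η ^ 2)) +
        R * h * (tmu (n := n) h k (tor (fun η => ((mb (η 0) (η 1) : ℤ) : ℝ))) +
          tmu (n := n) h k (tor (fun η => |VV l η|)))) := by
      linarith
    exact le_of_mul_le_mul_left h2 hn0
  · intro η y
    have h1 := tc2_WW l hl (fun i : ℤ => η ((i : ZMod n) + y))
    simp only [tor]
    simp only [Int.cast_zero, Int.cast_one, zero_add] at h1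
    rw [add_comm 1 y] at h1
    rw [← h1]
    congr 2
    funext i
    push_cast
    congr 1
    ring

end CPS84
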