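import Pool.Agent.LibCPS84.TA2
import Pool.Agent.LibCPS84.Eul2
import Pool.Agent.LibCPS84.EulB
import Pool.Agent.LibCPS84.CycDefs

/-! The chain on a large cycle and the inner clocks of a box. -/

namespace CPS84

open Finset
open scoped Classical

variable {n : ℕ} [NeZero n] {S : Type} {u : S → S → S}

omit [NeZero n] in
private theorem td1_cast {M : ℕ} (hM : 2 * M + 1 ≤ n) {i j : ℤ} (hi : i ∈ Icc (-(M : ℤ)) M)
    (hj : j ∈ Icc (-(M : ℤ)) M) (h : (i : ZMod n) = (j : ZMod n)) : i = j := by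
  rw [mem_Icc] at hi hj
  have h1 := (ZMod.intCast_eq_intCast_iff_dvd_sub i j n).1 h
  have h2 : j - i = 0 := by
    refine Int.eq_zero_of_abs_lt_dvd h1 ?_
    rw [abs_lt]
    constructor <;> omega
  omega

omit [NeZero n] in
private theorem td1_act (M : ℕ) (hM : 2 * M + 1 ≤ n) {f : (ℤ → S) → ℝ}
    (hf : Dep f (Icc (-(M : ℤ)) M)) (c : ℤ × Bool) (hc : c.1 ∈ Icc (-(M : ℤ)) M)
    (ξ : ZMod n → S) :
    tor f (tact (fun _ => u) ((c.1 : ZMod n), c.2) ξ) = f (act u c (fun i => ξ (i : ZMod n))) := by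
  have hnb : tnb ((c.1 : ZMod n), c.2) = ((nb c : ℤ) : ZMod n) := by
    unfold tnb nb
    by_cases hd : c.2 = true
    · rw [if_pos hd, if_pos hd]
      push_cast
      rfl
    · rw [if_neg hd, if_neg hd]
      push_cast
      rfl
  unfold tor
  refine hf _ _ fun i hi => ?_
  unfold tact act
  rw [hnb]
  by_cases hic : i = c.1
  · rw [hic, Function.update_self, Function.update_self]
  · rw [Function.update_of_ne hic, Function.update_of_ne]
    intro h
    exact hic (td1_cast hM hi hc h)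

private theorem td1_gen (M : ℕ) (hM : 2 * M + 1 ≤ n) {f : (ℤ → S) → ℝ}
    (hf : Dep f (Icc (-(M : ℤ)) M)) (ξ : ZMod n → S) :
    tgen (fun _ => u) (tor f) ξ =
      gen u (clk (Icc (-(M : ℤ)) M)) f (fun i => ξ (i : ZMod n)) := by
  unfold tgen gen
  have hinj : ∀ c ∈ clk (Icc (-(M : ℤ)) M), ∀ c' ∈ clk (Icc (-(M : ℤ)) M),
      (((c.1 : ZMod n), c.2) : ZMod n × Bool) = ((c'.1 : ZMod n), c'.2) → c = c' := by
    intro c hc c' hc' h
    rw [Prod.mk.injEq] at h
    exact Prod.ext (td1_cast hM (mem_clk.1 hc) (mem_clk.1 hc') h.1) h.2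
  rw [← Finset.sum_subset (Finset.subset_univ ((clk (Icc (-(M : ℤ)) M)).image
    (fun c : ℤ × Bool => (((c.1 : ZMod n), c.2) : ZMod n × Bool)))),
    Finset.sum_image hinj]
  · refine Finset.sum_congr rfl fun c hc => ?_
    rw [td1_act M hM hf c (mem_clk.1 hc)]
    rfl
  · intro c _ hc
    have h1 : tor f (tact (fun _ => u) c ξ) = tor f ξ := by
      unfold tor
      refine hf _ _ fun i hi => ?_
      unfold tact
      rw [Function.update_of_ne]
      intro h
      apply hc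
      rw [Finset.mem_image]
      exact ⟨(i, c.2), mem_clk.2 hi, Prod.ext h rfl⟩
    rw [h1, sub_self]

/-- an inner clock of the box acts on the periodic continuation as on the cycle -/
theorem tor_act_inner (M : ℕ) (hM : 2 * M + 1 ≤ n) {f : (ℤ → S) → ℝ}
    (hf : Dep f (Icc (-(M : ℤ)) M)) (c : ℤ × Bool) (hc : c ∈ clkI (Icc (-(M : ℤ)) M))
    (ξ : ZMod n → S) :
    tor f (tact (fun _ => u) ((c.1 : ZMod n), c.2) ξ) = f (act u c (fun i => ξ (i : ZMod n))) := by
  exact td1_act M hM hf c (mem_clkI.1 hc).1 ξ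

/-- one step: only the two boundary clocks of the box are missing -/
theorem tor_stp (M : ℕ) (hM : 2 * M + 1 ≤ n) {f : (ℤ → S) → ℝ}
    (hf : Dep f (Icc (-(M : ℤ)) M)) (w : ℤ → ℝ) (hw : Osc f w) (h : ℝ) (h0 : 0 ≤ h)
    (ξ : ZMod n → S) :
    |tstp (fun _ => u) h (tor f) ξ - tor (stp u (clkI (Icc (-(M : ℤ)) M)) h f) ξ| ≤
      h * (w (-(M : ℤ)) + w M) := by
  have h1 : tstp (fun _ => u) h (tor f) ξ - tor (stp u (clkI (Icc (-(M : ℤ)) M)) h f) ξ =
      h * (gen u (clk (Icc (-(M : ℤ)) M)) f (fun i => ξ (i : ZMod n)) -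
        gen u (clkI (Icc (-(M : ℤ)) M)) f (fun i => ξ (i : ZMod n))) := by
    unfold tstp
    rw [td1_gen M hM hf ξ]
    unfold tor stp
    ring
  have h2 := gen_sub_genI (u := u) (Λ := Icc (-(M : ℤ)) M) w hw (fun i => ξ (i : ZMod n))
  have h3 := bdry_Icc 0 M w
  rw [zero_sub, zero_add] at h3
  rw [h3] at h2
  rw [h1, abs_mul, abs_of_nonneg h0]
  exact mul_le_mul_of_nonneg_left h2 h0

end CPS84
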