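import Pool.Agent.LibCPS84.TD3
import Pool.Agent.LibCPS84.EulC
import Pool.Agent.LibCPS84.SymB

/-! The chain on a large cycle approximates the process. -/

namespace CPS84

open Finset
open scoped Classical

variable {n : ℕ} [NeZero n] {m : ℝ → ((ℤ → ZMod 4) → ℝ) → ℝ}

private theorem card_col : (Fintype.card (ZMod n → ZMod 4) : ℝ) = 4 ^ n := by
  rw [Fintype.card_fun, ZMod.card, ZMod.card]
  push_cast
  rfl

private theorem tavg_const (c : ℝ) : tavg (n := n) (fun _ => c) = c := by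
  unfold tavg
  rw [sum_const, card_univ, nsmul_eq_mul, card_col]
  field_simp

private theorem tavg_mono {F G : (ZMod n → ZMod 4) → ℝ} (h : ∀ ξ, F ξ ≤ G ξ) :
    tavg F ≤ tavg G := by
  unfold tavg
  exact div_le_div_of_nonneg_right (sum_le_sum fun ξ _ => h ξ) (by positivity)

private theorem tavg_add (F G : (ZMod n → ZMod 4) → ℝ) :
    tavg (fun ξ => F ξ + G ξ) = tavg F + tavg G := by
  unfold tavg
  rw [sum_add_distrib, add_div]

private theorem tavg_mul (a : ℝ) (F : (ZMod n → ZMod 4) → ℝ) :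
    tavg (fun ξ => a * F ξ) = a * tavg F := by
  unfold tavg
  rw [← mul_sum, mul_div_assoc]

private theorem tavg_abs_sub_le {F G : (ZMod n → ZMod 4) → ℝ} {c : ℝ}
    (h : ∀ ξ, |F ξ - G ξ| ≤ c) : |tavg F - tavg G| ≤ c := by
  have h1 : tavg F ≤ tavg G + c := by
    calc tavg F ≤ tavg (fun ξ => G ξ + c) := tavg_mono fun ξ => by
          have := (abs_le.mp (h ξ)).2
          linarith
      _ = tavg G + c := by rw [tavg_add G (fun _ => c), tavg_const]
  have h2 : tavg G ≤ tavg F + c := by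
    calc tavg G ≤ tavg (fun ξ => F ξ + c) := tavg_mono fun ξ => by
          have := (abs_le.mp (h ξ)).1
          linarith
      _ = tavg F + c := by rw [tavg_add F (fun _ => c), tavg_const]
  rw [abs_le]
  constructor <;> linarith

private theorem exp_tavg : Exp (fun f : (ℤ → ZMod 4) → ℝ => tavg (n := n) (tor f)) where
  add f g _ _ _ := tavg_add (tor f) (tor g)
  smul a f _ _ := tavg_mul a (tor f)
  mono _ _ _ _ _ h := tavg_mono fun _ => h _
  one := tavg_const 1

omit [NeZero n] in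
private theorem cast_inj (M : ℕ) (hM : 2 * M + 1 ≤ n) {i j : ℤ} (hi : i ∈ Icc (-(M : ℤ)) M)
    (hj : j ∈ Icc (-(M : ℤ)) M) (h : (i : ZMod n) = (j : ZMod n)) : i = j := by
  rw [mem_Icc] at hi hj
  have h1 : ((i - j : ℤ) : ZMod n) = 0 := by
    push_cast
    rw [h, sub_self]
  rw [ZMod.intCast_zmod_eq_zero_iff_dvd] at h1
  have h2 : |i - j| < n := by
    rw [abs_lt]
    constructor <;> omega
  have h3 := Int.eq_zero_of_abs_lt_dvd h1 h2
  omega

private theorem tavg_cyl (M : ℕ) (hM : 2 * M + 1 ≤ n) (σ : ℤ → ZMod 4) :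
    tavg (n := n) (tor (fun η => if ∀ i ∈ Icc (-(M : ℤ)) M, η i = σ i then (1 : ℝ) else 0)) =
      (1 / 4) ^ (Icc (-(M : ℤ)) (M : ℤ)).card := by
  set Λ := Icc (-(M : ℤ)) (M : ℤ) with hΛ
  let t : ZMod n → Finset (ZMod 4) := fun j =>
    univ.filter (fun a => ∀ i ∈ Λ, (i : ZMod n) = j → a = σ i)
  let J : Finset (ZMod n) := Λ.image (fun i : ℤ => (i : ZMod n))
  have hJcard : J.card = Λ.card := by
    apply card_image_of_injOn
    intro i hi j hj h
    exact cast_inj M hM hi hj h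
  have hset : (univ.filter fun ξ : ZMod n → ZMod 4 => ∀ i ∈ Λ, ξ (i : ZMod n) = σ i) =
      Fintype.piFinset t := by
    ext ξ
    rw [mem_filter, Fintype.mem_piFinset]
    constructor
    · rintro ⟨_, h⟩ j
      rw [mem_filter]
      refine ⟨mem_univ _, fun i hi hij => ?_⟩
      rw [← hij]
      exact h i hi
    · intro h
      refine ⟨mem_univ _, fun i hi => ?_⟩
      have := h (i : ZMod n)
      rw [mem_filter] at this
      exact this.2 i hi rfl
  have htcard : ∀ j : ZMod n, (t j).card = if j ∈ J then 1 else 4 := by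
    intro j
    by_cases hj : j ∈ J
    · rw [if_pos hj]
      obtain ⟨i₀, hi₀, rfl⟩ := mem_image.mp hj
      rw [card_eq_one]
      refine ⟨σ i₀, ?_⟩
      ext a
      rw [mem_filter, mem_singleton]
      constructor
      · rintro ⟨_, h⟩
        exact h i₀ hi₀ rfl
      · rintro rfl
        refine ⟨mem_univ _, fun i hi hii => ?_⟩
        rw [cast_inj M hM hi hi₀ hii]
    · rw [if_neg hj]
      have : t j = univ := by
        ext a
        rw [mem_filter]
        refine ⟨fun _ => mem_univ _, fun _ => ⟨mem_univ _, fun i hi hij => ?_⟩⟩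
        exact absurd (mem_image.mpr ⟨i, hi, hij⟩) hj
      rw [this, card_univ, ZMod.card]
  have hcount : ((univ.filter fun ξ : ZMod n → ZMod 4 => ∀ i ∈ Λ, ξ (i : ZMod n) = σ i).card : ℝ) =
      4 ^ (n - Λ.card) := by
    rw [hset, Fintype.card_piFinset]
    simp only [htcard]
    rw [prod_ite, prod_const, prod_const, one_pow, one_mul]
    have : (univ.filter fun j : ZMod n => j ∉ J).card = n - Λ.card := by
      rw [filter_not, card_sdiff_of_subset (filter_subset _ _), filter_mem_eq_inter, univ_inter,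
        hJcard, card_univ, ZMod.card]
    rw [this]
    push_cast
    rfl
  have hle : Λ.card ≤ n := by
    rw [← hJcard]
    calc J.card ≤ (univ : Finset (ZMod n)).card := card_le_univ J
      _ = n := by rw [card_univ, ZMod.card]
  unfold tavg tor
  rw [sum_boole, hcount]
  rw [div_eq_iff (by positivity)]
  rw [one_div, inv_pow]
  have h4 : (4 : ℝ) ^ n = 4 ^ Λ.card * 4 ^ (n - Λ.card) := by
    rw [← pow_add]
    congr 1
    omega
  rw [h4, ← mul_assoc, inv_mul_cancel₀ (by positivity), one_mul]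

/-- the average over the colourings of the cycle of a local function is its expectation under the
product measure -/
theorem tavg_tor (M : ℕ) (hM : 2 * M + 1 ≤ n) {E : ((ℤ → ZMod 4) → ℝ) → ℝ} (hE : Unif E)
    {f : (ℤ → ZMod 4) → ℝ} (hf : Dep f (Icc (-(M : ℤ)) M)) : tavg (n := n) (tor f) = E f := by
  refine Exp.ext_cyl (Λ := Icc (-(M : ℤ)) M)
    (E := fun f : (ℤ → ZMod 4) → ℝ => tavg (n := n) (tor f)) exp_tavg hE.exp ?_ hf
  intro σ
  rw [hE.cyl, ZMod.card]
  have e := tavg_cyl (n := n) M hM σ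
  have e2 : (fun η : ℤ → ZMod 4 => @ite ℝ (∀ i ∈ Icc (-(M : ℤ)) M, η i = σ i)
      (@decidableDforallFinset ℤ (Icc (-(M : ℤ)) M) (fun i _ => η i = σ i)
        fun _ _ => Classical.propDecidable _) 1 0) =
      fun η : ℤ → ZMod 4 => if ∀ i ∈ Icc (-(M : ℤ)) M, η i = σ i then (1 : ℝ) else 0 := by
    funext η
    by_cases hc : ∀ i ∈ Icc (-(M : ℤ)) M, η i = σ i
    · rw [if_pos hc, if_pos hc]
    · rw [if_neg hc, if_neg hc]
  have e3 : ((4 : ℕ) : ℝ) = 4 := by norm_num
  rw [e3]
  refine Eq.trans ?_ e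
  exact congrArg (fun F : (ℤ → ZMod 4) → ℝ => tavg (n := n) (tor F)) e2

private theorem dep_iter (M : ℕ) (h : ℝ) {f : (ℤ → ZMod 4) → ℝ}
    (hf : Dep f (Icc (-(M : ℤ)) M)) (N : ℕ) :
    Dep ((stp (cyc 4) (clkI (Icc (-(M : ℤ)) M)) h)^[N] f) (Icc (-(M : ℤ)) M) := by
  induction N with
  | zero => exact hf
  | succ N ih =>
    rw [Function.iterate_succ_apply']
    exact dep_stp ih h

/-- `approx`, `tor_iter` and `tavg_tor` -/
theorem tor_approx (hm : Sol (cyc 4) m) (h0 : Unif (m 0)) (k M : ℕ) (hkM : k ≤ M)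
    (hM : 2 * M + 1 ≤ n) {f : (ℤ → ZMod 4) → ℝ} (hf : Dep f (Icc (-(k : ℤ)) k)) (B : ℝ)
    (hB : 0 < B) (h1 : ∀ η, |f η| ≤ B) (t : ℝ) (ht : 0 ≤ t) (ε : ℝ) (hε : 0 < ε) :
    ∃ N0 : ℕ, ∀ N : ℕ, N0 ≤ N → 0 < N →
      |tmu (n := n) (t / N) N (tor f) - m t f| ≤
        ε + 8 * B * t * Real.exp (k - M + 2 * Real.exp 1 * t) := by
  -- normalise
  set g : (ℤ → ZMod 4) → ℝ := fun η => B⁻¹ * f η with hg
  have hgd : Dep g (Icc (-(k : ℤ)) k) := hf.const_mul _
  have hg1 : ∀ η, |g η| ≤ 1 := by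
    intro η
    rw [hg]
    show |B⁻¹ * f η| ≤ 1
    rw [abs_mul, abs_of_pos (inv_pos.mpr hB), inv_mul_le_iff₀ hB, mul_one]
    exact h1 η
  have hfg : f = fun η => B * g η := by
    funext η
    rw [hg]
    show f η = B * (B⁻¹ * f η)
    rw [← mul_assoc, mul_inv_cancel₀ hB.ne', one_mul]
  have hgd0 : Dep g (Icc ((0 : ℤ) - k) (0 + k)) := by
    rw [zero_sub, zero_add]
    exact hgd
  obtain ⟨n0, hn0⟩ := approx hm 0 k M hkM hgd0 hg1 t ht (ε / B) (by positivity)
  obtain ⟨n1, hn1⟩ := exists_nat_ge (t * (2 * n))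
  refine ⟨max n0 n1, fun N hN hNpos => ?_⟩
  have hNR : (0 : ℝ) < N := by exact_mod_cast hNpos
  have key1 := hn0 N (le_trans (le_max_left _ _) hN) hNpos
  rw [zero_sub, zero_add] at key1
  have hh0 : 0 ≤ t / N := by positivity
  have hh : t / N * (2 * n) ≤ 1 := by
    rw [div_mul_eq_mul_div, div_le_one hNR]
    refine le_trans hn1 ?_
    exact_mod_cast le_trans (le_max_right _ _) hN
  have hNt : (N : ℝ) * (t / N) = t := by field_simp
  have hgM : Dep g (Icc (-(M : ℤ)) M) := by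
    apply hgd.mono
    have : (k : ℤ) ≤ M := by exact_mod_cast hkM
    apply Icc_subset_Icc <;> omega
  have key2 : |tmu (n := n) (t / N) N (tor g) -
      tavg (n := n) (tor ((stp (cyc 4) (clkI (Icc (-(M : ℤ)) M)) (t / N))^[N] g))| ≤
      4 * t * Real.exp (k - M + 2 * Real.exp 1 * t) := by
    unfold tmu
    refine tavg_abs_sub_le fun ξ => ?_
    have := tor_iter (n := n) (u := cyc 4) k M hkM hM hgd hg1 (t / N) hh0 hh N ξ
    rw [hNt] at this
    exact this
  rw [tavg_tor M hM h0 (dep_iter M (t / N) hgM N)] at key2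
  -- scaling
  have s1 : tmu (n := n) (t / N) N (tor f) = B * tmu (n := n) (t / N) N (tor g) := by
    have e1 := tmu_lin (n := n) (h := t / N) N B 0 (tor g) (tor g)
    have e2 : (fun ξ : ZMod n → ZMod 4 => B * tor g ξ + 0 * tor g ξ) = tor f := by
      funext ξ
      rw [zero_mul, add_zero, hfg]
      rfl
    rw [e2] at e1
    rw [e1]
    ring
  have s2 : m t f = B * m t g := by
    have := (hm.exp t ht).smul B g _ hgd
    rw [hfg]
    exact this
  rw [s1, s2]
  set E := Real.exp (k - M + 2 * Real.exp 1 * t) with hE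
  have key3 : |tmu (n := n) (t / N) N (tor g) - m t g| ≤ ε / B + 8 * t * E := by
    have e1 : tmu (n := n) (t / N) N (tor g) - m t g =
        (tmu (n := n) (t / N) N (tor g) -
          m 0 ((stp (cyc 4) (clkI (Icc (-(M : ℤ)) M)) (t / N))^[N] g)) -
        (m t g - m 0 ((stp (cyc 4) (clkI (Icc (-(M : ℤ)) M)) (t / N))^[N] g)) := by ring
    rw [e1]
    refine le_trans (abs_sub _ _) ?_
    linarith
  rw [← mul_sub, abs_mul, abs_of_pos hB]
  calc B * |tmu (n := n) (t / N) N (tor g) - m t g| ≤ B * (ε / B + 8 * t * E) :=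
        mul_le_mul_of_nonneg_left key3 hB.le
    _ = ε + 8 * B * t * E := by
        rw [mul_add, mul_div_cancel₀ _ hB.ne']
        ring

end CPS84
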