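import Pool.Agent.LibCPS84.TD1

/-! The chain on a large cycle and the inner clocks of a box, all steps. -/

namespace CPS84

open Finset
open scoped Classical

variable {n : ℕ} [NeZero n] {S : Type} {u : S → S → S}

/-- the chain on the cycle does not increase the distance in the sup norm -/
private theorem TD3_contr (v : Bool → S → S → S) (h : ℝ) (h0 : 0 ≤ h) (hh : h * (2 * n) ≤ 1)
    (g₁ g₂ : (ZMod n → S) → ℝ) (B : ℝ) (hB : ∀ ξ, |g₁ ξ - g₂ ξ| ≤ B) (ξ : ZMod n → S) :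
    |tstp v h g₁ ξ - tstp v h g₂ ξ| ≤ B := by
  have hcard : ((Finset.univ : Finset (ZMod n × Bool)).card : ℝ) = 2 * n := by
    rw [Finset.card_univ, Fintype.card_prod, ZMod.card, Fintype.card_bool]
    push_cast
    ring
  have hrw : tstp v h g₁ ξ - tstp v h g₂ ξ = (1 - h * (2 * n)) * (g₁ ξ - g₂ ξ) +
      h * ∑ c : ZMod n × Bool, (g₁ (tact v c ξ) - g₂ (tact v c ξ)) := by
    unfold tstp tgen
    rw [sum_sub_distrib, sum_sub_distrib, sum_sub_distrib, sum_const, sum_const, nsmul_eq_mul,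
      nsmul_eq_mul, hcard]
    ring
  have hsum : |∑ c : ZMod n × Bool, (g₁ (tact v c ξ) - g₂ (tact v c ξ))| ≤ (2 * n) * B := by
    refine le_trans (abs_sum_le_sum_abs _ _) ?_
    refine le_trans (sum_le_sum (fun c _ => hB (tact v c ξ))) ?_
    rw [sum_const, nsmul_eq_mul, hcard]
  rw [hrw]
  refine le_trans (abs_add_le _ _) ?_
  rw [abs_mul, abs_mul, abs_of_nonneg (by linarith : (0 : ℝ) ≤ 1 - h * (2 * n)),
    abs_of_nonneg h0]
  have e1 : (1 - h * (2 * n)) * |g₁ ξ - g₂ ξ| ≤ (1 - h * (2 * n)) * B :=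
    mul_le_mul_of_nonneg_left (hB ξ) (by linarith)
  have e2 : h * |∑ c : ZMod n × Bool, (g₁ (tact v c ξ) - g₂ (tact v c ξ))| ≤
      h * ((2 * n) * B) := mul_le_mul_of_nonneg_left hsum h0
  calc _ ≤ (1 - h * (2 * n)) * B + h * ((2 * n) * B) := add_le_add e1 e2
    _ = B := by ring

/-- all steps: induction over the number of steps with `tor_stp`, `iter_mono` (the chain does not
increase the sup norm); `weight_props 0 k`, `osc_weight 0 k`, `iter_props` as in `EulC.approx` -/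
theorem tor_iter (k M : ℕ) (hkM : k ≤ M) (hM : 2 * M + 1 ≤ n) {f : (ℤ → S) → ℝ}
    (hf : Dep f (Icc (-(k : ℤ)) k)) (h1 : ∀ η, |f η| ≤ 1) (h : ℝ) (h0 : 0 ≤ h)
    (hh : h * (2 * n) ≤ 1) (N : ℕ) (ξ : ZMod n → S) :
    |((tstp (fun _ => u) h)^[N] (tor f)) ξ -
        tor ((stp u (clkI (Icc (-(M : ℤ)) M)) h)^[N] f) ξ| ≤
      4 * (N * h) * Real.exp (k - M + 2 * Real.exp 1 * (N * h)) := by
  have hdep : Dep f (Icc (-(M : ℤ)) M) := by
    apply hf.mono
    apply Icc_subset_Icc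
    · have : (k : ℤ) ≤ M := by exact_mod_cast hkM
      omega
    · exact_mod_cast hkM
  have hcard : h * ((clkI (Icc (-(M : ℤ)) M)).card : ℝ) ≤ 1 := by
    have h2 : (clkI (Icc (-(M : ℤ)) M)).card ≤ 2 * n := by
      have h3 : (clkI (Icc (-(M : ℤ)) M)).card ≤ (clk (Icc (-(M : ℤ)) M)).card :=
        card_le_card (filter_subset _ _)
      have h4 : (clk (Icc (-(M : ℤ)) M)).card = (2 * M + 1) * 2 := by
        unfold clk
        rw [card_product, Int.card_Icc, card_univ, Fintype.card_bool]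
        congr 1
        omega
      omega
    have h5 : ((clkI (Icc (-(M : ℤ)) M)).card : ℝ) ≤ 2 * n := by exact_mod_cast h2
    exact (mul_le_mul_of_nonneg_left h5 h0).trans hh
  obtain ⟨hw0, hw1, hw2⟩ := weight_props 0 k
  have hosc : Osc f (fun z => 2 * Real.exp (k - |(z : ℝ) - (0 : ℤ)|)) := by
    refine osc_weight 0 k ?_ h1
    rw [zero_sub, zero_add]
    exact hf
  obtain ⟨q, hq⟩ : ∃ q : ℝ, q = 1 + 2 * Real.exp 1 * h := ⟨_, rfl⟩
  obtain ⟨E, hE⟩ : ∃ E : ℝ, E = 4 * Real.exp ((k : ℝ) - M) := ⟨_, rfl⟩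
  have hE0 : 0 ≤ E := by
    rw [hE]
    positivity
  have hq1 : 1 ≤ q := by
    have : 0 ≤ 2 * Real.exp 1 * h := by positivity
    rw [hq]
    linarith
  have hq0 : 0 ≤ q := by linarith
  have key : ∀ r : ℕ, ∀ ξ : ZMod n → S, |((tstp (fun _ => u) h)^[r] (tor f)) ξ -
      tor ((stp u (clkI (Icc (-(M : ℤ)) M)) h)^[r] f) ξ| ≤ r * (h * q ^ r * E) := by
    intro r
    induction r with
    | zero =>
      intro ξ
      simp
    | succ r ih =>
      intro ξ
      obtain ⟨hd, -, ho⟩ := iter_props (u := u) (Λ := Icc (-(M : ℤ)) M) h (Real.exp 1) h0 hcard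
        (fun z => 2 * Real.exp (k - |(z : ℝ) - (0 : ℤ)|)) hw0 hw1 hw2 hosc hdep h1 r
      rw [Function.iterate_succ_apply', Function.iterate_succ_apply']
      have e1 := TD3_contr (fun _ => u) h h0 hh _ _ _ ih ξ
      have e2 := tor_stp (u := u) M hM hd _ ho h h0 ξ
      have a1 : |((-(M : ℤ) : ℤ) : ℝ) - ((0 : ℤ) : ℝ)| = M := by
        push_cast
        rw [sub_zero, abs_neg, abs_of_nonneg (Nat.cast_nonneg M)]
      have a2 : |((M : ℤ) : ℝ) - ((0 : ℤ) : ℝ)| = M := by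
        push_cast
        rw [sub_zero, abs_of_nonneg (Nat.cast_nonneg M)]
      have e3 : (1 + 2 * Real.exp 1 * h) ^ r *
          (2 * Real.exp (k - |((-(M : ℤ) : ℤ) : ℝ) - ((0 : ℤ) : ℝ)|)) +
          (1 + 2 * Real.exp 1 * h) ^ r * (2 * Real.exp (k - |((M : ℤ) : ℝ) - ((0 : ℤ) : ℝ)|)) =
          q ^ r * E := by
        rw [a1, a2, hq, hE]
        ring
      have e4 : |tstp (fun _ => u) h (tor ((stp u (clkI (Icc (-(M : ℤ)) M)) h)^[r] f)) ξ -
          tor (stp u (clkI (Icc (-(M : ℤ)) M)) h ((stp u (clkI (Icc (-(M : ℤ)) M)) h)^[r] f)) ξ| ≤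
          h * (q ^ r * E) := by
        rw [← e3]
        exact e2
      have e5 : h * q ^ r * E ≤ h * q ^ (r + 1) * E := by
        have : q ^ r ≤ q ^ (r + 1) := pow_le_pow_right₀ hq1 (Nat.le_succ r)
        gcongr
      have e6 : (r : ℝ) * (h * q ^ r * E) ≤ r * (h * q ^ (r + 1) * E) :=
        mul_le_mul_of_nonneg_left e5 (Nat.cast_nonneg r)
      rw [abs_le] at e1 e4 ⊢
      push_cast
      constructor
      · linarith [e1.1, e4.1]
      · linarith [e1.2, e4.2]
  refine (key N ξ).trans ?_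
  have b2 : q ^ N ≤ Real.exp (2 * Real.exp 1 * (N * h)) := by
    have h4 : q ≤ Real.exp (2 * Real.exp 1 * h) := by
      have := Real.add_one_le_exp (2 * Real.exp 1 * h)
      rw [hq]
      linarith
    calc q ^ N ≤ (Real.exp (2 * Real.exp 1 * h)) ^ N := pow_le_pow_left₀ hq0 h4 N
      _ = Real.exp (2 * Real.exp 1 * (N * h)) := by
          rw [← Real.exp_nat_mul]
          congr 1
          ring
  calc (N : ℝ) * (h * q ^ N * E) ≤ N * (h * Real.exp (2 * Real.exp 1 * (N * h)) * E) := by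
        gcongr
    _ = 4 * (N * h) * Real.exp (k - M + 2 * Real.exp 1 * (N * h)) := by
        rw [Real.exp_add, hE]
        ring

end CPS84
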