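import Pool.Agent.LibCPS84.Defs

/-!
# Four colours: the Euler chain on the cycle `ZMod n` and the charge

`ch a b` is the charge of an edge with the colours `a`, `b` (in half units), `mb` the indicator of
a moving wall, `hp` the parity of the colour which overtakes.  The extended state of a site is
`(x, y, φ)`: `x` present colour, `y` colour at the beginning, `φ` the flux.
-/

namespace CPS84

open Finset
open scoped Classical

noncomputable section

section chain

variable {n : ℕ} {S : Type}

/-- the site at which the site `c.1` of the cycle looks -/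
def tnb (c : ZMod n × Bool) : ZMod n := if c.2 then c.1 + 1 else c.1 - 1

/-- the effect of a ring of the clock `c`; the rule may depend on the direction -/
def tact (u : Bool → S → S → S) (c : ZMod n × Bool) (ξ : ZMod n → S) : ZMod n → S :=
  Function.update ξ c.1 (u c.2 (ξ (tnb c)) (ξ c.1))

variable [NeZero n]

/-- the generator on the cycle -/
def tgen (u : Bool → S → S → S) (g : (ZMod n → S) → ℝ) (ξ : ZMod n → S) : ℝ :=
  ∑ c : ZMod n × Bool, (g (tact u c ξ) - g ξ)

/-- one step of the Euler chain -/
def tstp (u : Bool → S → S → S) (h : ℝ) (g : (ZMod n → S) → ℝ) (ξ : ZMod n → S) : ℝ :=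
  g ξ + h * tgen u g ξ

/-- the average over all colourings of the cycle -/
def tavg (g : (ZMod n → ZMod 4) → ℝ) : ℝ := (∑ η, g η) / 4 ^ n

/-- expectation after `k` steps of the chain of the colours, started uniformly -/
def tmu (h : ℝ) (k : ℕ) (g : (ZMod n → ZMod 4) → ℝ) : ℝ :=
  tavg ((tstp (fun _ => cyc 4) h)^[k] g)

end chain

/-- a function of colourings of `ℤ`, evaluated at periodic colourings -/
def tor {n : ℕ} {S : Type} (f : (ℤ → S) → ℝ) (ξ : ZMod n → S) : ℝ := f (fun i => ξ (i : ZMod n))

end

/-- the parity of a colour -/
def par (a : ZMod 4) : ℤ := if a = 0 ∨ a = 2 then 1 else -1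

/-- the charge of an edge, in half units -/
def ch (a b : ZMod 4) : ℤ :=
  if b = a then 0 else if b = a + 2 then 2 * par a else if a = b + 1 then par a else par b

/-- moving wall -/
def mb (a b : ZMod 4) : ℤ := if a = b + 1 ∨ b = a + 1 then 1 else 0

/-- parity of the colour which overtakes -/
def hp (a b : ZMod 4) : ℤ := if b = a + 1 then par b else par a

/-- extended states: present colour, colour at the beginning, flux in half units -/
abbrev ES : Type := ZMod 4 × ZMod 4 × ℤ

/-- the rule for extended states: `d = true` means that the right neighbour overtakes -/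
def eu (d : Bool) (a b : ES) : ES :=
  if b.1 = a.1 - 1 then (a.1, b.2.1, b.2.2 + if d = true then - par b.1 else par b.1) else b

/-- the extended states at the beginning -/
def emb {n : ℕ} (η : ZMod n → ZMod 4) : ZMod n → ES := fun y => (η y, η y, 0)

/-- accumulated sources at an edge -/
def sig (a b : ES) : ℤ := ch a.1 b.1 - ch a.2.1 b.2.1 - (b.2.2 - a.2.2)

noncomputable section

/-- expectation after `k` steps of the colour chain and then `r` steps of the extended chain -/
def text {n : ℕ} [NeZero n] (h : ℝ) (k r : ℕ) (g : (ZMod n → ES) → ℝ) : ℝ :=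
  tmu h k (fun η => ((tstp eu h)^[r] g) (emb η))

/-- the sum of the charges of `j` edges -/
def QQ (j : ℕ) (η : ℤ → ZMod 4) : ℝ := ∑ i ∈ range j, ((ch (η i) (η (i + 1)) : ℤ) : ℝ)

/-- the mean charge of `l` edges -/
def VV (l : ℕ) (η : ℤ → ZMod 4) : ℝ := QQ l η / l

/-- the height of the comparison profile: `WW l (y + 1) - WW l y = VV l y - ch y` -/
def WW (l : ℕ) (η : ℤ → ZMod 4) : ℝ := (∑ j ∈ range l, QQ j η) / l

end

end CPS84
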