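import Pool.Agent.LibCPS84.TDefs
import Pool.Agent.LibCPS84.DecB
import Pool.Agent.LibCPS84.SymC
import Pool.Agent.LibCPS84.Low1

/-! Second moment of the charge. -/

namespace CPS84

open Finset
open scoped Classical

variable {m : ℝ → ((ℤ → ZMod 4) → ℝ) → ℝ}

private theorem te1_dep (z : ℤ) :
    Dep (fun η : ℤ → ZMod 4 => ((ch (η z) (η (z + 1)) : ℤ) : ℝ)) (Icc (z - 1) (z + 1)) := by
  intro η ζ h
  have h1 : η z = ζ z := h z (by rw [Finset.mem_Icc]; omega)
  have h2 : η (z + 1) = ζ (z + 1) := h (z + 1) (by rw [Finset.mem_Icc]; omega)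
  show ((ch (η z) (η (z + 1)) : ℤ) : ℝ) = ((ch (ζ z) (ζ (z + 1)) : ℤ) : ℝ)
  rw [h1, h2]

private theorem te1_par (a : ZMod 4) : par a = 1 ∨ par a = -1 := by
  unfold par
  split_ifs <;> simp

private theorem te1_par_rot (a : ZMod 4) : par (a + 1) = - par a := by
  have h : ∀ a : ZMod 4, (a + 1 = 0 ∨ a + 1 = 2) ↔ ¬ (a = 0 ∨ a = 2) := by decide
  unfold par
  by_cases ha : a = 0 ∨ a = 2
  · rw [if_pos ha, if_neg (fun h' => ((h a).1 h') ha)]
  · rw [if_neg ha, if_pos ((h a).2 ha)]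
    norm_num

private theorem te1_abs_le (a b : ZMod 4) : |((ch a b : ℤ) : ℝ)| ≤ 2 := by
  have h : |ch a b| ≤ 2 := by
    unfold ch
    rcases te1_par a with h1 | h1 <;> rcases te1_par b with h2 | h2 <;>
      (rw [h1, h2]; split_ifs <;> norm_num)
  exact_mod_cast h

private theorem te1_rot (a b : ZMod 4) : ch (a + 1) (b + 1) = - ch a b := by
  have k1 : (b + 1 = a + 1) ↔ (b = a) := add_left_inj 1
  have k2 : (b + 1 = a + 1 + 2) ↔ (b = a + 2) := by
    rw [show a + 1 + 2 = (a + 2) + 1 by ring]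
    exact add_left_inj 1
  have k3 : (a + 1 = b + 1 + 1) ↔ (a = b + 1) := add_left_inj 1
  unfold ch
  rw [te1_par_rot, te1_par_rot]
  simp only [k1, k2, k3]
  split_ifs <;> ring

/-- rotation of the colours by `1` changes the sign of the charge (see `SmA.exp_dd`) -/
theorem exp_ch (hm : Sol (cyc 4) m) (h0 : Unif (m 0)) (s : ℝ) (hs : 0 ≤ s) (z : ℤ) :
    m s (fun η => ((ch (η z) (η (z + 1)) : ℤ) : ℝ)) = 0 := by
  have hb : Function.Bijective (fun a : ZMod 4 => a + 1) := (Equiv.addRight (1 : ZMod 4)).bijective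
  have h1 := hm.inv_of_inv (φ := fun a : ZMod 4 => a + 1) (fun a b => cyc_add 1 a b) (r := 1)
    (Or.inl rfl) 0 (fun f Λ hf => unif_sym h0 hb (Or.inl rfl) 0 hf) s hs (te1_dep z)
  have h2 : (fun η : ℤ → ZMod 4 => (fun η : ℤ → ZMod 4 => ((ch (η z) (η (z + 1)) : ℤ) : ℝ))
      (sym (fun a : ZMod 4 => a + 1) 1 0 η)) =
      fun η => (-1) * ((ch (η z) (η (z + 1)) : ℤ) : ℝ) := by
    funext η
    have e1 : sym (fun a : ZMod 4 => a + 1) 1 0 η z = η z + 1 := by
      simp [sym]
    have e2 : sym (fun a : ZMod 4 => a + 1) 1 0 η (z + 1) = η (z + 1) + 1 := by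
      simp [sym]
    show ((ch (sym (fun a : ZMod 4 => a + 1) 1 0 η z)
      (sym (fun a : ZMod 4 => a + 1) 1 0 η (z + 1)) : ℤ) : ℝ) = _
    rw [e1, e2, te1_rot]
    push_cast
    ring
  rw [h2, (hm.exp s hs).smul (-1) _ _ (te1_dep z)] at h1
  linarith

/-- see `SmA.second_moment`: pairs with `|z - z'| ≤ 2 M` contribute at most `4`, for the others
`decor` with `k = 1` for the charges divided by `2` -/
theorem second_QQ (hm : Sol (cyc 4) m) (h0 : Unif (m 0)) (s : ℝ) (hs : 0 ≤ s) (M j : ℕ)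
    (hM : 1 ≤ M) : m s (fun η => QQ j η ^ 2) ≤
      j * (4 * (4 * M + 1) + j * (64 * s * Real.exp (1 - M + 2 * Real.exp 1 * s))) := by
  have hE : Exp (m s) := hm.exp s hs
  obtain ⟨c, hc⟩ : ∃ c : ℤ → (ℤ → ZMod 4) → ℝ, c = fun z η => ((ch (η z) (η (z + 1)) : ℤ) : ℝ) :=
    ⟨_, rfl⟩
  have hcd : ∀ z : ℤ, Dep (c z) (Icc (z - 1) (z + 1)) := by
    intro z
    rw [hc]
    exact te1_dep z
  have hcb : ∀ (z : ℤ) (η : ℤ → ZMod 4), |c z η| ≤ 2 := by
    intro z η
    rw [hc]
    exact te1_abs_le _ _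
  have hc0 : ∀ z : ℤ, m s (c z) = 0 := by
    intro z
    rw [hc]
    exact exp_ch hm h0 s hs z
  obtain ⟨X, hX⟩ : ∃ X : ℝ, X = 64 * s * Real.exp (1 - M + 2 * Real.exp 1 * s) := ⟨_, rfl⟩
  have hX0 : 0 ≤ X := by
    rw [hX]
    positivity
  have hdep : ∀ z ∈ range j, Dep (c (z : ℤ)) (Icc (-1 : ℤ) j) := by
    intro z hz
    have hz' : z < j := Finset.mem_range.mp hz
    refine (hcd z).mono ?_
    intro i hi
    rw [Finset.mem_Icc] at hi ⊢
    omega
  -- expansion
  have hexp : (fun η : ℤ → ZMod 4 => QQ j η ^ 2) =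
      fun η => ∑ z ∈ range j, ∑ z' ∈ range j, c z η * c z' η := by
    funext η
    rw [QQ, sq, Finset.sum_mul_sum, hc]
  have hE1 : m s (fun η => QQ j η ^ 2) =
      ∑ z ∈ range j, ∑ z' ∈ range j, m s (fun η => c z η * c z' η) := by
    rw [hexp, hE.sum (Λ := Icc (-1 : ℤ) j) (range j)
      (fun (z : ℕ) η => ∑ z' ∈ range j, c z η * c z' η)
      (fun z hz => Dep.sum _ _ (fun z' hz' => (hdep z hz).mul (hdep z' hz')))]
    refine Finset.sum_congr rfl (fun z hz => ?_)
    exact hE.sum (Λ := Icc (-1 : ℤ) j) (range j) (fun (z' : ℕ) η => c z η * c z' η)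
      (fun z' hz' => (hdep z hz).mul (hdep z' hz'))
  -- near pairs
  have hnear : ∀ z ∈ range j, ∀ z' ∈ range j, m s (fun η => c z η * c z' η) ≤ 4 := by
    intro z hz z' hz'
    refine (le_abs_self _).trans (hE.abs_le ((hdep z hz).mul (hdep z' hz')) (fun η => ?_))
    rw [abs_mul]
    calc |c z η| * |c z' η| ≤ 2 * 2 :=
          mul_le_mul (hcb _ _) (hcb _ _) (abs_nonneg _) (by norm_num)
      _ = 4 := by norm_num
  -- far pairs
  have hfar1 : ∀ z z' : ℕ, (z : ℤ) + 2 * M < z' → m s (fun η => c z η * c z' η) ≤ X := by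
    intro z z' hzz
    have hhalf : ∀ (w : ℤ) (η : ℤ → ZMod 4), |(1 / 2) * c w η| ≤ 1 := by
      intro w η
      rw [abs_mul, abs_of_pos (by norm_num : (0 : ℝ) < 1 / 2)]
      linarith [hcb w η]
    have hd := decor hm (fun f g Λ Λ' hf hg hdis => Unif.mul h0 hf hg hdis) (z : ℤ) (z' : ℤ) 1 M hM
      hzz (f := fun η => (1 / 2) * c z η) (g := fun η => (1 / 2) * c z' η)
      (by simpa using (hcd (z : ℤ)).const_mul (1 / 2)) (hhalf _)
      (by simpa using (hcd (z' : ℤ)).const_mul (1 / 2)) (hhalf _) s hs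
    have h1 : m s (fun η => (1 / 2) * c z η) = 0 := by
      rw [hE.smul (1 / 2) (c z) _ (hcd z), hc0, mul_zero]
    have hdz : Dep (fun η => c z η * c z' η) (Icc ((z : ℤ) - 1) (z' + 1)) := by
      refine Dep.mul ((hcd z).mono ?_) ((hcd z').mono ?_)
      · intro i hi
        rw [Finset.mem_Icc] at hi ⊢
        omega
      · intro i hi
        rw [Finset.mem_Icc] at hi ⊢
        omega
    have h2 : m s (fun η => (1 / 2) * c z η * ((1 / 2) * c z' η)) =
        (1 / 4) * m s (fun η => c z η * c z' η) := by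
      rw [← hE.smul (1 / 4) (fun η => c z η * c z' η) _ hdz]
      congr 1
      funext η
      ring
    rw [h1, zero_mul, sub_zero, h2] at hd
    have h3 := le_trans (le_abs_self _) hd
    rw [hX]
    push_cast at h3
    linarith
  have hfar : ∀ z z' : ℕ, ¬ (z ≤ z' + 2 * M ∧ z' ≤ z + 2 * M) →
      m s (fun η => c z η * c z' η) ≤ X := by
    intro z z' h
    rcases lt_or_ge (z + 2 * M) z' with h1 | h1
    · exact hfar1 z z' (by exact_mod_cast h1)
    · have h2 : z' + 2 * M < z := by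
        by_contra h3
        exact h ⟨by omega, h1⟩
      have h4 := hfar1 z' z (by exact_mod_cast h2)
      have h5 : (fun η => c (z : ℤ) η * c (z' : ℤ) η) = fun η => c (z' : ℤ) η * c (z : ℤ) η := by
        funext η
        ring
      rw [h5]
      exact h4
  -- sum over the second site
  have hrow : ∀ z ∈ range j, ∑ z' ∈ range j, m s (fun η => c z η * c z' η) ≤
      4 * (4 * M + 1) + j * X := by
    intro z hz
    have h1 : ∀ z' ∈ range j, m s (fun η => c z η * c z' η) ≤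
        (if z ≤ z' + 2 * M ∧ z' ≤ z + 2 * M then 4 else 0) + X := by
      intro z' hz'
      by_cases h : z ≤ z' + 2 * M ∧ z' ≤ z + 2 * M
      · rw [if_pos h]
        linarith [hnear z hz z' hz']
      · rw [if_neg h]
        linarith [hfar z z' h]
    refine le_trans (Finset.sum_le_sum h1) ?_
    rw [Finset.sum_add_distrib, Finset.sum_const, Finset.card_range, nsmul_eq_mul]
    refine add_le_add ?_ le_rfl
    rw [← Finset.sum_filter, Finset.sum_const, nsmul_eq_mul, mul_comm]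
    refine mul_le_mul_of_nonneg_left ?_ (by norm_num)
    have hsub : (range j).filter (fun z' => z ≤ z' + 2 * M ∧ z' ≤ z + 2 * M) ⊆
        Finset.Icc (z - 2 * M) (z + 2 * M) := by
      intro z' hz'
      rw [Finset.mem_filter] at hz'
      rw [Finset.mem_Icc]
      omega
    have hcard := Finset.card_le_card hsub
    rw [Nat.card_Icc] at hcard
    have h3 : ((range j).filter (fun z' => z ≤ z' + 2 * M ∧ z' ≤ z + 2 * M)).card ≤ 4 * M + 1 := by
      omega
    exact_mod_cast h3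
  rw [hE1, ← hX]
  refine le_trans (Finset.sum_le_sum hrow) ?_
  rw [Finset.sum_const, Finset.card_range, nsmul_eq_mul]

private theorem te1_depQ (l j : ℕ) (hj : j ≤ l) : Dep (QQ j) (Icc (0 : ℤ) l) := by
  intro η ζ h
  unfold QQ
  refine sum_congr rfl fun i hi => ?_
  have hi' := Finset.mem_range.1 hi
  have h1 : η i = ζ i := h i (by rw [Finset.mem_Icc]; omega)
  have h2 : η (i + 1) = ζ (i + 1) := h (i + 1) (by rw [Finset.mem_Icc]; omega)
  rw [h1, h2]

private theorem te1_depQ2 (l j : ℕ) (hj : j ≤ l) :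
    Dep (fun η => QQ j η ^ 2) (Icc (0 : ℤ) l) := by
  intro η ζ h
  show QQ j η ^ 2 = QQ j ζ ^ 2
  rw [te1_depQ l j hj η ζ h]

/-- if `E QQ_j^2 ≤ A j` for `j ≤ l`: Cauchy–Schwarz and `E |x| ≤ √(E x²)`
(`|x| ≤ x² / (2 c) + c / 2` for all `c > 0`) -/
theorem VV_WW_bound {E : ((ℤ → ZMod 4) → ℝ) → ℝ} (hE : Exp E) (l : ℕ) (hl : 1 ≤ l) (A : ℝ)
    (hA : 0 ≤ A) (h : ∀ j : ℕ, j ≤ l → E (fun η => QQ j η ^ 2) ≤ A * j) :
    E (fun η => |VV l η|) ≤ Real.sqrt (A / l) ∧ E (fun η => WW l η ^ 2) ≤ A * l / 2 := by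
  have hlR : (0 : ℝ) < l := by exact_mod_cast hl
  have hdQ := te1_depQ l l le_rfl
  have hdV : Dep (fun η => |VV l η|) (Icc (0 : ℤ) l) := by
    intro η ζ hh
    show |VV l η| = |VV l ζ|
    unfold VV
    rw [hdQ η ζ hh]
  constructor
  · -- for every `c > 0`
    have key : ∀ c : ℝ, 0 < c → E (fun η => |VV l η|) ≤ A / l / (2 * c) + c / 2 := by
      intro c hc
      have h1 : E (fun η => |VV l η|) ≤
          E (fun η => 1 / (2 * c * l ^ 2) * QQ l η ^ 2 + c / 2) := by
        refine hE.mono _ _ (Icc (0 : ℤ) l) hdV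
          (((te1_depQ2 l l le_rfl).const_mul _).add (dep_const _ _)) (fun η => ?_)
        have e1 : 1 / (2 * c * (l : ℝ) ^ 2) * QQ l η ^ 2 = |VV l η| ^ 2 / (2 * c) := by
          rw [sq_abs]
          unfold VV
          field_simp
        rw [e1, div_add_div _ _ (by positivity) (by norm_num), le_div_iff₀ (by positivity)]
        nlinarith [sq_nonneg (|VV l η| - c)]
      have h2 : E (fun η => 1 / (2 * c * l ^ 2) * QQ l η ^ 2 + c / 2) =
          1 / (2 * c * l ^ 2) * E (fun η => QQ l η ^ 2) + c / 2 := by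
        rw [hE.add (fun η => 1 / (2 * c * (l : ℝ) ^ 2) * QQ l η ^ 2) (fun _ => c / 2)
          (Icc (0 : ℤ) l) ((te1_depQ2 l l le_rfl).const_mul _) (dep_const _ _),
          hE.smul _ (fun η => QQ l η ^ 2) _ (te1_depQ2 l l le_rfl), hE.const]
      rw [h2] at h1
      have h3 : 1 / (2 * c * (l : ℝ) ^ 2) * E (fun η => QQ l η ^ 2) ≤
          1 / (2 * c * (l : ℝ) ^ 2) * (A * l) :=
        mul_le_mul_of_nonneg_left (h l le_rfl) (by positivity)
      have h4 : 1 / (2 * c * (l : ℝ) ^ 2) * (A * l) = A / l / (2 * c) := by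
        field_simp
      linarith
    rcases hA.eq_or_lt with hA0 | hA0
    · rw [← hA0, zero_div, Real.sqrt_zero]
      refine le_of_forall_pos_le_add fun ε hε => ?_
      have h1 := key ε hε
      rw [← hA0, zero_div, zero_div] at h1
      linarith
    · have hpos : 0 < A / l := by positivity
      have hs : 0 < Real.sqrt (A / l) := Real.sqrt_pos.2 hpos
      refine (key _ hs).trans (le_of_eq ?_)
      have h1 : A / l = Real.sqrt (A / l) * Real.sqrt (A / l) := (Real.mul_self_sqrt hpos.le).symm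
      have h2 : A / l / (2 * Real.sqrt (A / l)) = Real.sqrt (A / l) / 2 := by
        rw [div_eq_iff (by positivity)]
        linarith
      rw [h2]
      ring
  · have hdS : Dep (fun η => ∑ j ∈ range l, QQ j η ^ 2) (Icc (0 : ℤ) l) :=
      Dep.sum _ _ fun j hj => te1_depQ2 l j (Finset.mem_range.1 hj).le
    have hdW : Dep (fun η => WW l η ^ 2) (Icc (0 : ℤ) l) := by
      intro η ζ hh
      show WW l η ^ 2 = WW l ζ ^ 2
      unfold WW
      rw [Finset.sum_congr rfl fun j hj =>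
        te1_depQ l j (Finset.mem_range.1 hj).le η ζ hh]
    have h1 : E (fun η => WW l η ^ 2) ≤ E (fun η => 1 / l * ∑ j ∈ range l, QQ j η ^ 2) := by
      refine hE.mono _ _ (Icc (0 : ℤ) l) hdW (hdS.const_mul _) (fun η => ?_)
      have h2 : (∑ j ∈ range l, QQ j η) ^ 2 ≤ l * ∑ j ∈ range l, QQ j η ^ 2 := by
        have := sq_sum_le_card_mul_sum_sq (s := range l) (f := fun j => QQ j η)
        rw [Finset.card_range] at this
        exact this
      unfold WW
      rw [div_pow, div_le_iff₀ (by positivity)]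
      calc (∑ j ∈ range l, QQ j η) ^ 2 ≤ l * ∑ j ∈ range l, QQ j η ^ 2 := h2
        _ = 1 / l * (∑ j ∈ range l, QQ j η ^ 2) * l ^ 2 := by
            field_simp
    have h2 : E (fun η => 1 / l * ∑ j ∈ range l, QQ j η ^ 2) =
        1 / l * ∑ j ∈ range l, E (fun η => QQ j η ^ 2) := by
      rw [hE.smul _ (fun η => ∑ j ∈ range l, QQ j η ^ 2) _ hdS,
        hE.sum (Λ := Icc (0 : ℤ) l) (range l) (fun j η => QQ j η ^ 2)
          (fun j hj => te1_depQ2 l j (Finset.mem_range.1 hj).le)]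
    have h3 : ∑ j ∈ range l, E (fun η => QQ j η ^ 2) ≤ ∑ j ∈ range l, A * j :=
      Finset.sum_le_sum fun j hj => h j (Finset.mem_range.1 hj).le
    have h4 : ∑ j ∈ range l, A * (j : ℝ) ≤ A * l ^ 2 / 2 := by
      rw [← Finset.mul_sum]
      have h5 : (∑ j ∈ range l, (j : ℝ)) * 2 = l * (l - 1) := by
        have h6 := Finset.sum_range_id_mul_two l
        have h7 : ((∑ i ∈ range l, i : ℕ) : ℝ) * 2 = l * ((l - 1 : ℕ) : ℝ) := by exact_mod_cast h6
        rw [Nat.cast_sub hl] at h7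
        push_cast at h7
        exact h7
      nlinarith [mul_nonneg hA hlR.le]
    rw [h2] at h1
    calc E (fun η => WW l η ^ 2) ≤ 1 / l * ∑ j ∈ range l, E (fun η => QQ j η ^ 2) := h1
      _ ≤ 1 / l * (A * l ^ 2 / 2) :=
          mul_le_mul_of_nonneg_left (h3.trans h4) (by positivity)
      _ = A * l / 2 := by
          field_simp

end CPS84
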