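import Pool.Agent.LibCPS84.TC2
import Pool.Agent.LibCPS84.TD2
import Pool.Agent.LibCPS84.TE1

/-! The main inequality on the line. -/

namespace CPS84

open Finset
open scoped Classical

variable {m : ℝ → ((ℤ → ZMod 4) → ℝ) → ℝ}

private theorem TE2_approx (hm : Sol (cyc 4) m) (h0 : Unif (m 0)) {f : (ℤ → ZMod 4) → ℝ} (k : ℕ)
    (hf : Dep f (Icc (-(k : ℤ)) k)) (t : ℝ) (ht : 0 ≤ t) (δ : ℝ) (hδ : 0 < δ) :
    ∃ M0 : ℕ, ∀ M : ℕ, M0 ≤ M → ∃ N0 : ℕ, ∀ N : ℕ, N0 ≤ N → 0 < N →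
      |tmu (n := 2 * M + 1) (t / N) N (tor f) - m t f| ≤ δ := by
  obtain ⟨B, hB, hfB⟩ := hf.bounded
  set C : ℝ := 8 * B * t * Real.exp (k + 2 * Real.exp 1 * t) with hC
  have hC0 : 0 ≤ C := by positivity
  obtain ⟨M1, hM1⟩ := exists_nat_ge (2 * C / δ)
  refine ⟨max k (M1 + 1), fun M hM => ?_⟩
  have hkM : k ≤ M := (le_max_left _ _).trans hM
  have hM2 : M1 + 1 ≤ M := (le_max_right _ _).trans hM
  obtain ⟨N0, hN0⟩ := tor_approx (n := 2 * M + 1) hm h0 k M hkM le_rfl hf B hB hfB t ht (δ / 2)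
    (by positivity)
  refine ⟨N0, fun N hN hN' => (hN0 N hN hN').trans ?_⟩
  have hM3 : (M1 : ℝ) + 1 ≤ M := by exact_mod_cast hM2
  have hM0 : (0 : ℝ) < M := by
    have : (0 : ℝ) ≤ M1 := Nat.cast_nonneg M1
    linarith
  have h1 : 8 * B * t * Real.exp (k - M + 2 * Real.exp 1 * t) = C * Real.exp (-M) := by
    rw [hC, mul_assoc (8 * B * t), ← Real.exp_add]
    congr 2
    ring
  have h2 : Real.exp (-(M : ℝ)) ≤ 1 / M := by
    rw [Real.exp_neg, ← one_div]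
    apply one_div_le_one_div_of_le hM0
    have := Real.add_one_le_exp (M : ℝ)
    linarith
  have h3 : C * Real.exp (-(M : ℝ)) ≤ δ / 2 := by
    calc C * Real.exp (-(M : ℝ)) ≤ C * (1 / M) := mul_le_mul_of_nonneg_left h2 hC0
      _ ≤ δ / 2 := by
        rw [mul_one_div, div_le_iff₀ hM0]
        rw [div_le_iff₀ hδ] at hM1
        nlinarith
  rw [h1]
  linarith

private theorem TE2_QQ (j l : ℕ) (hj : j ≤ l) : Dep (QQ j) (Icc (-(l : ℤ)) l) := by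
  intro η ζ h
  unfold QQ
  refine sum_congr rfl fun i hi => ?_
  rw [mem_range] at hi
  rw [h i (mem_Icc.2 ⟨by omega, by omega⟩), h (i + 1) (mem_Icc.2 ⟨by omega, by omega⟩)]

private theorem TE2_WW (l : ℕ) : Dep (fun η => WW l η ^ 2) (Icc (-(l : ℤ)) l) := by
  intro η ζ h
  show WW l η ^ 2 = WW l ζ ^ 2
  unfold WW
  have h1 : ∑ j ∈ range l, QQ j η = ∑ j ∈ range l, QQ j ζ :=
    sum_congr rfl fun j hj => TE2_QQ j l (mem_range.1 hj).le η ζ h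
  rw [h1]

private theorem TE2_VV (l : ℕ) : Dep (fun η => |VV l η|) (Icc (-(l : ℤ)) l) := by
  intro η ζ h
  show |VV l η| = |VV l ζ|
  unfold VV
  rw [TE2_QQ l l le_rfl η ζ h]

/-- Limit of `torus_main` with `h = s / N`, `k = N`, `R = (j - 1) N`, `N → ∞`, `n = 2 M + 1`,
`M → ∞`, by `tor_approx` at the times `s` and `j s`. -/
theorem line_main (hm : Sol (cyc 4) m) (h0 : Unif (m 0)) (s : ℝ) (hs : 0 < s) (j l : ℕ)
    (hj : 1 ≤ j) (hl : 1 ≤ l) :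
    (j - 1) * s * m (j * s) (fun η => |((ch (η 0) (η 1) : ℤ) : ℝ)|) ≤
      m s (fun η => WW l η ^ 2) +
        (j - 1) * s * (m s (fun η => ((mb (η 0) (η 1) : ℤ) : ℝ)) + m s (fun η => |VV l η|)) := by
  have hjr : (1 : ℝ) ≤ j := by exact_mod_cast hj
  have hj0 : (0 : ℝ) < j := by linarith
  set c : ℝ := ((j : ℝ) - 1) * s with hc
  have hc0 : 0 ≤ c := mul_nonneg (by linarith) hs.le
  have d1 : Dep (fun η : ℤ → ZMod 4 => |((ch (η 0) (η 1) : ℤ) : ℝ)|) (Icc (-(l : ℤ)) l) := by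
    intro η ζ h
    show |((ch (η 0) (η 1) : ℤ) : ℝ)| = |((ch (ζ 0) (ζ 1) : ℤ) : ℝ)|
    rw [h 0 (mem_Icc.2 ⟨by omega, by omega⟩), h 1 (mem_Icc.2 ⟨by omega, by omega⟩)]
  have d3 : Dep (fun η : ℤ → ZMod 4 => ((mb (η 0) (η 1) : ℤ) : ℝ)) (Icc (-(l : ℤ)) l) := by
    intro η ζ h
    show ((mb (η 0) (η 1) : ℤ) : ℝ) = ((mb (ζ 0) (ζ 1) : ℤ) : ℝ)
    rw [h 0 (mem_Icc.2 ⟨by omega, by omega⟩), h 1 (mem_Icc.2 ⟨by omega, by omega⟩)]
  apply le_of_forall_pos_le_add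
  intro ε hε
  set δ : ℝ := ε / (1 + 3 * c) with hδ
  have hδ0 : 0 < δ := by positivity
  obtain ⟨M1, H1⟩ := TE2_approx hm h0 l d1 (j * s) (by positivity) δ hδ0
  obtain ⟨M2, H2⟩ := TE2_approx hm h0 l (TE2_WW l) s hs.le δ hδ0
  obtain ⟨M3, H3⟩ := TE2_approx hm h0 l d3 s hs.le δ hδ0
  obtain ⟨M4, H4⟩ := TE2_approx hm h0 l (TE2_VV l) s hs.le δ hδ0
  set M : ℕ := M1 + M2 + M3 + M4 + 1 with hM
  obtain ⟨N1, G1⟩ := H1 M (by omega)
  obtain ⟨N2, G2⟩ := H2 M (by omega)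
  obtain ⟨N3, G3⟩ := H3 M (by omega)
  obtain ⟨N4, G4⟩ := H4 M (by omega)
  obtain ⟨N5, G5⟩ := exists_nat_ge (s * (2 * ((2 * M + 1 : ℕ) : ℝ)))
  set N : ℕ := N1 + N2 + N3 + N4 + N5 + 1 with hN
  have hNpos : 0 < N := by omega
  have hN0 : (0 : ℝ) < N := by exact_mod_cast hNpos
  have hjN : N ≤ j * N := Nat.le_mul_of_pos_left N (by omega)
  have g1 := G1 (j * N) (by omega) (by omega)
  have g2 := G2 N (by omega) hNpos
  have g3 := G3 N (by omega) hNpos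
  have g4 := G4 N (by omega) hNpos
  have hh : s / N * (2 * ((2 * M + 1 : ℕ) : ℝ)) ≤ 1 := by
    have h1 : (N5 : ℝ) ≤ N := by
      have : N5 ≤ N := by omega
      exact_mod_cast this
    rw [div_mul_eq_mul_div, div_le_one hN0]
    linarith
  have hmain := torus_main (n := 2 * M + 1) (by omega) (div_nonneg hs.le hN0.le) hh l hl N
    ((j - 1) * N)
  have e1 : N + (j - 1) * N = j * N := by
    obtain ⟨i, rfl⟩ : ∃ i, j = i + 1 := ⟨j - 1, by omega⟩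
    rw [Nat.add_sub_cancel]
    ring
  have e2 : (((j - 1) * N : ℕ) : ℝ) * (s / N) = c := by
    rw [Nat.cast_mul, Nat.cast_sub hj, hc]
    field_simp
    norm_num
  have e3 : (j : ℝ) * s / ((j * N : ℕ) : ℝ) = s / N := by
    push_cast
    field_simp
  rw [e1, e2] at hmain
  rw [e3] at g1
  have k1 := abs_le.1 g1
  have k2 := abs_le.1 g2
  have k3 := abs_le.1 g3
  have k4 := abs_le.1 g4
  have k5 : c * m (j * s) (fun η => |((ch (η 0) (η 1) : ℤ) : ℝ)|) ≤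
      c * tmu (n := 2 * M + 1) (s / N) (j * N) (tor (fun η => |((ch (η 0) (η 1) : ℤ) : ℝ)|)) +
        c * δ := by
    rw [← mul_add]
    exact mul_le_mul_of_nonneg_left (by linarith [k1.1]) hc0
  have k6 : c * (tmu (n := 2 * M + 1) (s / N) N (tor (fun η => ((mb (η 0) (η 1) : ℤ) : ℝ))) +
      tmu (n := 2 * M + 1) (s / N) N (tor (fun η => |VV l η|))) ≤
      c * (m s (fun η => ((mb (η 0) (η 1) : ℤ) : ℝ)) + m s (fun η => |VV l η|)) +
        c * (2 * δ) := by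
    rw [← mul_add]
    exact mul_le_mul_of_nonneg_left (by linarith [k3.2, k4.2]) hc0
  have k7 : δ * (1 + 3 * c) = ε := by
    rw [hδ]
    field_simp
  have k8 := k2.2
  nlinarith

end CPS84
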