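import Pool.Agent.LibCPS84.UDefs
import Pool.Agent.LibCPS84.Eul2
import Pool.Agent.LibCPS84.EulB

/-! Oscillations for rules which depend on the direction: copies of `Eul1`, `Eul2`. -/

namespace CPS84

open Finset
open scoped Classical

variable {S : Type} {u : Bool → S → S → S} {f : (ℤ → S) → ℝ} {Λ : Finset ℤ}

private theorem U1_same (c : ℤ × Bool) (η : ℤ → S) :
    actd u c η c.1 = u c.2 (η (nb c)) (η c.1) := by
  unfold actd
  rw [Function.update_self]

private theorem U1_of_ne {c : ℤ × Bool} {i : ℤ} (hi : i ≠ c.1) (η : ℤ → S) :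
    actd u c η i = η i := by
  unfold actd
  rw [Function.update_of_ne hi]

private theorem U1_aux1 (w : ℤ → ℝ) (hf : Osc f w) (c : ℤ × Bool) (z : ℤ) (hz : nb c ≠ z)
    (η ζ : ℤ → S) (h : ∀ i, i ≠ z → η i = ζ i) :
    |f (actd u c η) - f (actd u c ζ)| ≤ w z := by
  apply hf z
  intro i hi
  by_cases hc : i = c.1
  · subst hc
    rw [U1_same, U1_same, h (nb c) hz, h c.1 hi]
  · rw [U1_of_ne hc, U1_of_ne hc, h i hi]

private theorem U1_aux2 (w : ℤ → ℝ) (hf : Osc f w) (c : ℤ × Bool) (z : ℤ)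
    (η ζ : ℤ → S) (h : ∀ i, i ≠ z → η i = ζ i) :
    |f (actd u c η) - f (actd u c ζ)| ≤ w z + w c.1 := by
  have h1 : |f (actd u c η) - f (Function.update (actd u c ζ) c.1 (actd u c η c.1))| ≤ w z := by
    apply hf z
    intro i hi
    by_cases hc : i = c.1
    · subst hc
      rw [Function.update_self]
    · rw [Function.update_of_ne hc, U1_of_ne hc, U1_of_ne hc, h i hi]
  have h2 : |f (Function.update (actd u c ζ) c.1 (actd u c η c.1)) - f (actd u c ζ)| ≤ w c.1 := by
    apply hf c.1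
    intro i hi
    rw [Function.update_of_ne hi]
  calc |f (actd u c η) - f (actd u c ζ)|
      = |(f (actd u c η) - f (Function.update (actd u c ζ) c.1 (actd u c η c.1))) +
        (f (Function.update (actd u c ζ) c.1 (actd u c η c.1)) - f (actd u c ζ))| := by ring_nf
    _ ≤ _ := abs_add_le _ _
    _ ≤ w z + w c.1 := add_le_add h1 h2

private theorem U1_card (K : Finset (ℤ × Bool)) (z : ℤ) :
    (K.filter (fun c => nb c = z)).card ≤ 2 := by
  have hsub : K.filter (fun c => nb c = z) ⊆ {(z - 1, true), (z + 1, false)} := by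
    intro c hc
    rw [mem_filter] at hc
    obtain ⟨_, hc⟩ := hc
    obtain ⟨y, d⟩ := c
    rw [mem_insert, mem_singleton]
    cases d
    · right
      simp only [nb] at hc
      simp only [Bool.false_eq_true, if_false] at hc
      rw [Prod.mk.injEq]
      exact ⟨by omega, rfl⟩
    · left
      simp only [nb, if_true] at hc
      rw [Prod.mk.injEq]
      exact ⟨by omega, rfl⟩
  refine le_trans (card_le_card hsub) ?_
  exact card_le_two

theorem osc_stpd (K : Finset (ℤ × Bool)) (h θ : ℝ) (h0 : 0 ≤ h) (hK : h * K.card ≤ 1)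
    (w : ℤ → ℝ) (hw : ∀ z, 0 ≤ w z) (hθ1 : ∀ z, w (z + 1) ≤ θ * w z)
    (hθ2 : ∀ z, w (z - 1) ≤ θ * w z) (hf : Osc f w) :
    Osc (stpd u K h f) (fun z => (1 + 2 * θ * h) * w z) := by
  intro z η ζ hηζ
  have hθw : 0 ≤ θ * w z := le_trans (hw (z + 1)) (hθ1 z)
  have hrw : stpd u K h f η - stpd u K h f ζ =
      (1 - h * K.card) * (f η - f ζ) +
        h * ∑ c ∈ K, (f (actd u c η) - f (actd u c ζ)) := by
    unfold stpd gend
    rw [sum_sub_distrib, sum_sub_distrib, sum_sub_distrib, sum_const, sum_const, nsmul_eq_mul,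
      nsmul_eq_mul]
    ring
  have hterm : ∀ c ∈ K, |f (actd u c η) - f (actd u c ζ)| ≤
      w z + (if nb c = z then θ * w z else 0) := by
    intro c _
    by_cases hc : nb c = z
    · rw [if_pos hc]
      refine le_trans (U1_aux2 w hf c z η ζ hηζ) ?_
      have : w c.1 ≤ θ * w z := by
        obtain ⟨y, d⟩ := c
        cases d
        · simp only [nb, Bool.false_eq_true, if_false] at hc
          have : y = z + 1 := by omega
          subst this
          exact hθ1 z
        · simp only [nb, if_true] at hc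
          have : y = z - 1 := by omega
          subst this
          exact hθ2 z
      linarith
    · rw [if_neg hc, add_zero]
      exact U1_aux1 w hf c z hc η ζ hηζ
  have hsum : |∑ c ∈ K, (f (actd u c η) - f (actd u c ζ))| ≤
      K.card * w z + 2 * (θ * w z) := by
    refine le_trans (abs_sum_le_sum_abs _ _) ?_
    refine le_trans (sum_le_sum hterm) ?_
    rw [sum_add_distrib, sum_const, nsmul_eq_mul, ← sum_filter, sum_const, nsmul_eq_mul]
    have hcard : ((K.filter (fun c => nb c = z)).card : ℝ) ≤ 2 := by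
      exact_mod_cast U1_card K z
    have := mul_le_mul_of_nonneg_right hcard hθw
    linarith
  have hD : |f η - f ζ| ≤ w z := hf z η ζ hηζ
  show |stpd u K h f η - stpd u K h f ζ| ≤ (1 + 2 * θ * h) * w z
  rw [hrw]
  refine le_trans (abs_add_le _ _) ?_
  rw [abs_mul, abs_mul, abs_of_nonneg (by linarith : (0 : ℝ) ≤ 1 - h * K.card), abs_of_nonneg h0]
  have e1 : (1 - h * K.card) * |f η - f ζ| ≤ (1 - h * K.card) * w z :=
    mul_le_mul_of_nonneg_left hD (by linarith)
  have e2 : h * |∑ c ∈ K, (f (actd u c η) - f (actd u c ζ))| ≤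
      h * (K.card * w z + 2 * (θ * w z)) := mul_le_mul_of_nonneg_left hsum h0
  calc _ ≤ (1 - h * K.card) * w z + h * (K.card * w z + 2 * (θ * w z)) := add_le_add e1 e2
    _ = (1 + 2 * θ * h) * w z := by ring

theorem abs_stpd_le (K : Finset (ℤ × Bool)) (h : ℝ) (h0 : 0 ≤ h) (hK : h * K.card ≤ 1) {B : ℝ}
    (h1 : ∀ η, |f η| ≤ B) (η : ℤ → S) : |stpd u K h f η| ≤ B := by
  have hrw : stpd u K h f η = (1 - h * K.card) * f η + h * ∑ c ∈ K, f (actd u c η) := by
    unfold stpd gend
    rw [sum_sub_distrib, sum_const, nsmul_eq_mul]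
    ring
  have hsum : |∑ c ∈ K, f (actd u c η)| ≤ K.card * B := by
    refine le_trans (abs_sum_le_sum_abs _ _) ?_
    refine le_trans (sum_le_sum (fun c _ => h1 (actd u c η))) ?_
    rw [sum_const, nsmul_eq_mul]
  rw [hrw]
  refine le_trans (abs_add_le _ _) ?_
  rw [abs_mul, abs_mul, abs_of_nonneg (by linarith : (0 : ℝ) ≤ 1 - h * K.card), abs_of_nonneg h0]
  have e1 : (1 - h * K.card) * |f η| ≤ (1 - h * K.card) * B :=
    mul_le_mul_of_nonneg_left (h1 η) (by linarith)
  have e2 : h * |∑ c ∈ K, f (actd u c η)| ≤ h * (K.card * B) :=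
    mul_le_mul_of_nonneg_left hsum h0
  calc _ ≤ (1 - h * K.card) * B + h * (K.card * B) := add_le_add e1 e2
    _ = B := by ring

private theorem U1_dep_actd (hf : Dep f Λ) {c : ℤ × Bool} (hc : nb c ∈ Λ) :
    Dep (fun η => f (actd u c η)) Λ := by
  intro η ζ h
  apply hf
  intro i hi
  by_cases hic : i = c.1
  · subst hic
    rw [U1_same, U1_same, h _ hc, h _ hi]
  · rw [U1_of_ne hic, U1_of_ne hic, h i hi]

theorem dep_stpd (hf : Dep f Λ) (h : ℝ) : Dep (stpd u (clkI Λ) h f) Λ := by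
  intro η ζ hηζ
  unfold stpd gend
  rw [hf η ζ hηζ]
  congr 2
  refine sum_congr rfl (fun c hc => ?_)
  have hc' : nb c ∈ Λ := by
    unfold clkI at hc
    exact (mem_filter.1 hc).2
  have h1 : f (actd u c η) = f (actd u c ζ) := U1_dep_actd (u := u) hf hc' η ζ hηζ
  rw [h1]

/-- the properties of the iterates, see `iter_props` -/
theorem iterd_props (h θ : ℝ) (h0 : 0 ≤ h) (hK : h * (clkI Λ).card ≤ 1)
    (w : ℤ → ℝ) (hw : ∀ z, 0 ≤ w z) (hθ : 0 ≤ θ) (hθ1 : ∀ z, w (z + 1) ≤ θ * w z)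
    (hθ2 : ∀ z, w (z - 1) ≤ θ * w z) (hf : Osc f w) (hd : Dep f Λ) {B : ℝ}
    (h1 : ∀ η, |f η| ≤ B) (N : ℕ) :
    Dep ((stpd u (clkI Λ) h)^[N] f) Λ ∧ (∀ η, |(stpd u (clkI Λ) h)^[N] f η| ≤ B) ∧
      Osc ((stpd u (clkI Λ) h)^[N] f) (fun z => (1 + 2 * θ * h) ^ N * w z) := by
  induction N with
  | zero =>
    refine ⟨hd, h1, ?_⟩
    intro z η ζ hz
    have := hf z η ζ hz
    simpa using this
  | succ n ih =>
    obtain ⟨i1, i2, i3⟩ := ih
    rw [Function.iterate_succ_apply']
    refine ⟨dep_stpd i1 h, fun η => abs_stpd_le _ h h0 hK i2 η, ?_⟩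
    have hpos : 0 ≤ (1 + 2 * θ * h) ^ n := pow_nonneg (by positivity) n
    have hnew := osc_stpd (u := u) (f := (stpd u (clkI Λ) h)^[n] f) (clkI Λ) h θ h0 hK
      (fun z => (1 + 2 * θ * h) ^ n * w z) (fun z => mul_nonneg hpos (hw z))
      (fun z => by
        have := mul_le_mul_of_nonneg_left (hθ1 z) hpos
        calc (1 + 2 * θ * h) ^ n * w (z + 1) ≤ (1 + 2 * θ * h) ^ n * (θ * w z) := this
          _ = θ * ((1 + 2 * θ * h) ^ n * w z) := by ring)
      (fun z => by
        have := mul_le_mul_of_nonneg_left (hθ2 z) hpos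
        calc (1 + 2 * θ * h) ^ n * w (z - 1) ≤ (1 + 2 * θ * h) ^ n * (θ * w z) := this
          _ = θ * ((1 + 2 * θ * h) ^ n * w z) := by ring) i3
    intro z η ζ hz
    have := hnew z η ζ hz
    refine le_trans this (le_of_eq ?_)
    ring

end CPS84
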