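import Pool.Agent.LibCPS84.U7

/-! Distant sites: decorrelation. -/

namespace CPS84

open Finset
open scoped Classical

/-- the number of the inner clocks of two boxes -/
private theorem U8_card {n : ℕ} (p q : ℤ) (M : ℕ) (hM : 4 * M + 2 ≤ n) {h : ℝ} (h0 : 0 ≤ h)
    (hh : h * (2 * n) ≤ 1) :
    h * ((clkI (Icc (p - M) (p + M) ∪ Icc (q - M) (q + M))).card : ℝ) ≤ 1 := by
  have h2 : (clkI (Icc (p - M) (p + M) ∪ Icc (q - M) (q + M))).card ≤ 2 * n := by
    have h3 : (clkI (Icc (p - M) (p + M) ∪ Icc (q - M) (q + M))).card ≤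
        (clk (Icc (p - M) (p + M) ∪ Icc (q - M) (q + M))).card :=
      card_le_card (filter_subset _ _)
    have h4 : (clk (Icc (p - M) (p + M) ∪ Icc (q - M) (q + M))).card ≤
        ((2 * M + 1) + (2 * M + 1)) * 2 := by
      unfold clk
      rw [card_product, card_univ, Fintype.card_bool]
      refine Nat.mul_le_mul_right 2 ((card_union_le _ _).trans ?_)
      rw [Int.card_Icc, Int.card_Icc]
      omega
    omega
  have h5 : ((clkI (Icc (p - M) (p + M) ∪ Icc (q - M) (q + M))).card : ℝ) ≤ 2 * n := by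
    exact_mod_cast h2
  exact (mul_le_mul_of_nonneg_left h5 h0).trans hh

/-- the expectation of a bounded local function -/
private theorem U8_abs {E : ((ℤ → ZMod 4) → ℝ) → ℝ} (hE : Exp E) {f : (ℤ → ZMod 4) → ℝ}
    {Λ : Finset ℤ} (hf : Dep f Λ) {c : ℝ} (hc : ∀ η, |f η| ≤ c) : |E f| ≤ c := by
  have h1 : ∀ c : ℝ, E (fun _ => c) = c := by
    intro c
    have h2 := hE.smul c (fun _ => 1) Λ (dep_const 1 Λ)
    rw [hE.one, mul_one] at h2
    exact h2
  rw [abs_le]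
  constructor
  · have h2 := hE.mono (fun _ => -c) f Λ (dep_const _ Λ) hf (fun η => (abs_le.1 (hc η)).1)
    rw [h1] at h2
    exact h2
  · have h2 := hE.mono f (fun _ => c) Λ hf (dep_const _ Λ) (fun η => (abs_le.1 (hc η)).2)
    rw [h1] at h2
    exact h2

/-- the cast to the cycle is injective on two short intervals -/
private theorem U8_inj {n : ℕ} {a b a' b' : ℤ} (h2 : b' - a < n) (hb : b ≤ b') (ha : a ≤ a') :
    Set.InjOn (fun i : ℤ => (i : ZMod n)) (Icc a b ∪ Icc a' b' : Finset ℤ) := by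
  intro i hi j hj hij
  rw [mem_coe, mem_union, mem_Icc, mem_Icc] at hi hj
  have h3 := (ZMod.intCast_eq_intCast_iff_dvd_sub i j n).1 hij
  have h4 : j - i = 0 := by
    refine Int.eq_zero_of_abs_lt_dvd h3 ?_
    rw [abs_lt]
    constructor <;> omega
  omega

/-- `RR2_cut`; for the extended chain `tor_box2 0 x 1 (1 + a)` and `iterd_mul`, for the colours
`tor_box2 0 x (1 + a) (1 + 2 a)` and `iterd_mul`, `tavg_dep` and `Unif.mul`; the second factor is
compared with `text (sgc B x) = 0` (`text_sgc`) by `tor_box x 1 (1 + a)`,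
`tor_box x (1 + a) (1 + 2 a)` -/
theorem RR2_far {E : ((ℤ → ZMod 4) → ℝ) → ℝ} (hE : Unif E) (n : ℕ) [NeZero n]
    (x a : ℕ) (hx : 2 * (1 + 2 * a) + 1 < x) (hn : x + 2 * (1 + 2 * a) + 1 ≤ n) (B : ℝ)
    (hB : (n : ℝ) ≤ B) (h : ℝ) (h0 : 0 ≤ h) (hh : h * (8 * n) ≤ 1) (k : ℕ) :
    |RR2 n h k x| ≤ 32 * B ^ 2 * (k * h) * Real.exp (-a + 2 * Real.exp 1 * (k * h)) +
      k * h ^ 2 * (1000 * B ^ 2 * (a + 1) ^ 2) := by
  have hn0 : (0 : ℝ) < n := by
    have : 0 < n := by omega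
    exact_mod_cast this
  have hB0 : 0 < B := by linarith
  have hh2 : h * (2 * n) ≤ 1 := by
    have := mul_nonneg h0 hn0.le
    linarith
  have hkh : 0 ≤ (k : ℝ) * h := mul_nonneg (Nat.cast_nonneg k) h0
  set X : ℝ := (k * h) * Real.exp (-a + 2 * Real.exp 1 * (k * h)) with hX
  have hX0 : 0 ≤ X := mul_nonneg hkh (Real.exp_pos _).le
  -- the functions
  have df0 := U7_sgc_dep B 0
  have dfx := U7_sgc_dep B (x : ℤ)
  have bf0 := U7_sgc B hB0.le 0
  have bfx := U7_sgc B hB0.le (x : ℤ)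
  -- bounds for the number of the clocks
  have hM1 : h * (8 * (2 * ((1 + a : ℕ) : ℝ) + 1)) ≤ 1 := by
    have h1 : (2 * ((1 + a : ℕ) : ℝ) + 1) ≤ n := by
      have : 2 * (1 + a) + 1 ≤ n := by omega
      exact_mod_cast this
    have := mul_le_mul_of_nonneg_left h1 h0
    linarith
  have hM2 : h * (8 * (2 * ((1 + a + a : ℕ) : ℝ) + 1)) ≤ 1 := by
    have h1 : (2 * ((1 + a + a : ℕ) : ℝ) + 1) ≤ n := by
      have : 2 * (1 + a + a) + 1 ≤ n := by omega
      exact_mod_cast this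
    have := mul_le_mul_of_nonneg_left h1 h0
    linarith
  -- first stage: the extended chain
  have df : Dep (fun ξ => sgc B 0 ξ * sgc B x ξ)
      (Icc ((0 : ℤ) - (1 : ℕ)) (0 + (1 : ℕ)) ∪ Icc ((x : ℤ) - (1 : ℕ)) (x + (1 : ℕ))) :=
    Dep.mul (df0.mono subset_union_left) (dfx.mono subset_union_right)
  have df0' : Dep (sgc B 0) (Icc ((0 : ℤ) - (1 + a : ℕ)) (0 + (1 + a : ℕ))) := by
    refine df0.mono (Icc_subset_Icc ?_ ?_) <;> push_cast <;> omega
  have dfx' : Dep (sgc B x) (Icc ((x : ℤ) - (1 + a : ℕ)) (x + (1 + a : ℕ))) := by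
    refine dfx.mono (Icc_subset_Icc ?_ ?_) <;> push_cast <;> omega
  have dF : Dep (fun ξ => sgc B 0 ξ * sgc B x ξ)
      (Icc ((0 : ℤ) - (1 + a : ℕ)) (0 + (1 + a : ℕ)) ∪
        Icc ((x : ℤ) - (1 + a : ℕ)) (x + (1 + a : ℕ))) :=
    Dep.mul (df0'.mono subset_union_left) (dfx'.mono subset_union_right)
  obtain ⟨d10, b10⟩ := U7_iter (u := eu) df0' h0 (U7_card 0 (1 + a) (by omega) h0 hh2) bf0 k
  obtain ⟨d1x, b1x⟩ := U7_iter (u := eu) dfx' h0 (U7_card x (1 + a) (by omega) h0 hh2) bfx k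
  set F := (stpd eu (clkI (Icc ((0 : ℤ) - (1 + a : ℕ)) (0 + (1 + a : ℕ)) ∪
    Icc ((x : ℤ) - (1 + a : ℕ)) (x + (1 + a : ℕ)))) h)^[k] (fun ξ => sgc B 0 ξ * sgc B x ξ)
    with hF
  set F0 := (stpd eu (clkI (Icc ((0 : ℤ) - (1 + a : ℕ)) (0 + (1 + a : ℕ)))) h)^[k] (sgc B 0)
    with hF0
  set Fx := (stpd eu (clkI (Icc ((x : ℤ) - (1 + a : ℕ)) (x + (1 + a : ℕ)))) h)^[k] (sgc B x)
    with hFx
  have m1 : ∀ ξ, |F ξ - F0 ξ * Fx ξ| ≤
      k * h ^ 2 * (4 * B ^ 2 * (2 * (2 * ((1 + a : ℕ) : ℝ) + 1)) ^ 2) := fun ξ =>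
    iterd_mul (u := eu) 0 x (1 + a) (by push_cast; omega) df0' dfx' hB0.le bf0 bfx h h0 hM1 k ξ
  have s1 : |text (n := n) h k k (tor (fun ξ => sgc B 0 ξ * sgc B x ξ)) -
      tmu (n := n) h k (tor (fun η => F0 (embZ η) * Fx (embZ η)))| ≤
      8 * B ^ 2 * X + k * h ^ 2 * (4 * B ^ 2 * (2 * (2 * ((1 + a : ℕ) : ℝ) + 1)) ^ 2) := by
    refine U7_tmu h0 hh2 k fun η => ?_
    have h2 := tor_box2 (n := n) (u := eu) 0 x 1 (1 + a) (by omega) (by push_cast; omega)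
      (by push_cast; omega) df (B := B ^ 2) (by positivity) (U7_prod_abs B hB0.le x) h h0 hh2 k
      (emb η)
    have h3 : ((1 : ℕ) : ℝ) - ((1 + a : ℕ) : ℝ) = -a := by
      push_cast
      ring
    rw [h3] at h2
    have h4 := m1 (embZ fun i => η (i : ZMod n))
    have h5 : |((tstp eu h)^[k] (tor (fun ξ => sgc B 0 ξ * sgc B x ξ))) (emb η) -
        F (embZ fun i => η (i : ZMod n))| ≤ 8 * B ^ 2 * X := by
      refine h2.trans (le_of_eq ?_)
      rw [hX]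
      ring
    have h6 : ((tstp eu h)^[k] (tor (fun ξ => sgc B 0 ξ * sgc B x ξ))) (emb η) -
        tor (fun η => F0 (embZ η) * Fx (embZ η)) η =
        (((tstp eu h)^[k] (tor (fun ξ => sgc B 0 ξ * sgc B x ξ))) (emb η) -
          F (embZ fun i => η (i : ZMod n))) + (F (embZ fun i => η (i : ZMod n)) -
          F0 (embZ fun i => η (i : ZMod n)) * Fx (embZ fun i => η (i : ZMod n))) := by
      unfold tor
      ring
    rw [h6]
    exact (abs_add_le _ _).trans (add_le_add h5 h4)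
  -- second stage: the chain of the colours
  have dG0 : Dep (fun η => F0 (embZ η)) (Icc ((0 : ℤ) - (1 + a : ℕ)) (0 + (1 + a : ℕ))) := by
    intro η ζ hηζ
    refine d10 _ _ fun i hi => ?_
    unfold embZ
    rw [hηζ i hi]
  have dGx : Dep (fun η => Fx (embZ η)) (Icc ((x : ℤ) - (1 + a : ℕ)) (x + (1 + a : ℕ))) := by
    intro η ζ hηζ
    refine d1x _ _ fun i hi => ?_
    unfold embZ
    rw [hηζ i hi]
  have bG : ∀ η, |F0 (embZ η) * Fx (embZ η)| ≤ B ^ 2 := by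
    intro η
    rw [abs_mul, sq]
    exact mul_le_mul (b10 _) (b1x _) (abs_nonneg _) hB0.le
  have dG : Dep (fun η => F0 (embZ η) * Fx (embZ η))
      (Icc ((0 : ℤ) - (1 + a : ℕ)) (0 + (1 + a : ℕ)) ∪
        Icc ((x : ℤ) - (1 + a : ℕ)) (x + (1 + a : ℕ))) :=
    Dep.mul (dG0.mono subset_union_left) (dGx.mono subset_union_right)
  have dG0' : Dep (fun η => F0 (embZ η))
      (Icc ((0 : ℤ) - (1 + a + a : ℕ)) (0 + (1 + a + a : ℕ))) := by
    refine dG0.mono (Icc_subset_Icc ?_ ?_) <;> push_cast <;> omega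
  have dGx' : Dep (fun η => Fx (embZ η))
      (Icc ((x : ℤ) - (1 + a + a : ℕ)) (x + (1 + a + a : ℕ))) := by
    refine dGx.mono (Icc_subset_Icc ?_ ?_) <;> push_cast <;> omega
  obtain ⟨d20, b20⟩ := U7_iter (u := fun _ => cyc 4) dG0' h0
    (U7_card 0 (1 + a + a) (by omega) h0 hh2) (fun η => b10 (embZ η)) k
  obtain ⟨d2x, b2x⟩ := U7_iter (u := fun _ => cyc 4) dGx' h0
    (U7_card x (1 + a + a) (by omega) h0 hh2) (fun η => b1x (embZ η)) k
  set H := (stpd (fun _ => cyc 4) (clkI (Icc ((0 : ℤ) - (1 + a + a : ℕ)) (0 + (1 + a + a : ℕ)) ∪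
    Icc ((x : ℤ) - (1 + a + a : ℕ)) (x + (1 + a + a : ℕ)))) h)^[k]
    (fun η => F0 (embZ η) * Fx (embZ η)) with hH
  set H0 := (stpd (fun _ => cyc 4)
    (clkI (Icc ((0 : ℤ) - (1 + a + a : ℕ)) (0 + (1 + a + a : ℕ)))) h)^[k]
    (fun η => F0 (embZ η)) with hH0
  set Hx := (stpd (fun _ => cyc 4)
    (clkI (Icc ((x : ℤ) - (1 + a + a : ℕ)) (x + (1 + a + a : ℕ)))) h)^[k]
    (fun η => Fx (embZ η)) with hHx
  have m2 : ∀ η, |H η - H0 η * Hx η| ≤
      k * h ^ 2 * (4 * B ^ 2 * (2 * (2 * ((1 + a + a : ℕ) : ℝ) + 1)) ^ 2) := fun η =>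
    iterd_mul (u := fun _ => cyc 4) 0 x (1 + a + a) (by push_cast; omega) dG0' dGx' hB0.le
      (fun η => b10 (embZ η)) (fun η => b1x (embZ η)) h h0 hM2 k η
  have s2 : |tmu (n := n) h k (tor (fun η => F0 (embZ η) * Fx (embZ η))) -
      tmu (n := n) h 0 (tor (fun η => H0 η * Hx η))| ≤
      8 * B ^ 2 * X + k * h ^ 2 * (4 * B ^ 2 * (2 * (2 * ((1 + a + a : ℕ) : ℝ) + 1)) ^ 2) := by
    refine U7_tmu (F := (tstp (fun _ => cyc 4) h)^[k]
      (tor (fun η => F0 (embZ η) * Fx (embZ η)))) h0 hh2 0 fun η => ?_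
    have h2 := tor_box2 (n := n) (u := fun _ => cyc 4) 0 x (1 + a) (1 + a + a) (by omega)
      (by push_cast; omega) (by push_cast; omega) dG (B := B ^ 2) (by positivity) bG h h0 hh2 k η
    have h3 : ((1 + a : ℕ) : ℝ) - ((1 + a + a : ℕ) : ℝ) = -a := by
      push_cast
      ring
    rw [h3] at h2
    have h4 := m2 (fun i => η (i : ZMod n))
    have h5 : |((tstp (fun _ => cyc 4) h)^[k] (tor (fun η => F0 (embZ η) * Fx (embZ η)))) η -
        H (fun i => η (i : ZMod n))| ≤ 8 * B ^ 2 * X := by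
      refine h2.trans (le_of_eq ?_)
      rw [hX]
      ring
    have h6 : ((tstp (fun _ => cyc 4) h)^[k] (tor (fun η => F0 (embZ η) * Fx (embZ η)))) η -
        tor (fun η => H0 η * Hx η) η =
        (((tstp (fun _ => cyc 4) h)^[k] (tor (fun η => F0 (embZ η) * Fx (embZ η)))) η -
          H (fun i => η (i : ZMod n))) + (H (fun i => η (i : ZMod n)) -
          H0 (fun i => η (i : ZMod n)) * Hx (fun i => η (i : ZMod n))) := by
      unfold tor
      ring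
    rw [h6]
    exact (abs_add_le _ _).trans (add_le_add h5 h4)
  -- third stage: independence
  have hdisj : Disjoint (Icc ((0 : ℤ) - (1 + a + a : ℕ)) (0 + (1 + a + a : ℕ)))
      (Icc ((x : ℤ) - (1 + a + a : ℕ)) (x + (1 + a + a : ℕ))) := by
    rw [Finset.disjoint_left]
    intro i hi hi'
    rw [mem_Icc] at hi hi'
    push_cast at hi hi'
    omega
  have s3 : tmu (n := n) h 0 (tor (fun η => H0 η * Hx η)) = E H0 * E Hx := by
    rw [← hE.mul d20 d2x hdisj]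
    exact tavg_dep hE (U8_inj (by push_cast; omega) (by push_cast; omega) (by push_cast; omega))
      (Dep.mul (d20.mono subset_union_left) (d2x.mono subset_union_right))
  -- the second factor
  have s4 : |E Hx| ≤ 8 * B * X := by
    have h1 := U7_line hE n x 1 a (by omega) dfx hB0 bfx h h0 hh2 k
    rw [text_sgc B hB0.le, zero_sub, abs_neg] at h1
    have h2 : U7_fun (x : ℤ) 1 a h k (sgc B x) = Hx := rfl
    rw [h2] at h1
    refine h1.trans (le_of_eq ?_)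
    rw [hX]
    ring
  have s5 : |E H0| ≤ B := U8_abs hE.exp d20 b20
  have s6 : |E H0 * E Hx| ≤ 8 * B ^ 2 * X := by
    rw [abs_mul]
    calc |E H0| * |E Hx| ≤ B * (8 * B * X) :=
          mul_le_mul s5 s4 (abs_nonneg _) hB0.le
      _ = 8 * B ^ 2 * X := by ring
  rw [← RR2_cut (n := n) (by omega) B hB h k x] at s1
  rw [s3] at s2
  have hfin : k * h ^ 2 * (4 * B ^ 2 * (2 * (2 * ((1 + a : ℕ) : ℝ) + 1)) ^ 2) +
      k * h ^ 2 * (4 * B ^ 2 * (2 * (2 * ((1 + a + a : ℕ) : ℝ) + 1)) ^ 2) ≤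
      k * h ^ 2 * (1000 * B ^ 2 * (a + 1) ^ 2) := by
    rw [← mul_add]
    refine mul_le_mul_of_nonneg_left ?_ (by positivity)
    push_cast
    have ha : (0 : ℝ) ≤ a := Nat.cast_nonneg a
    have hB2 : 0 ≤ B ^ 2 := sq_nonneg B
    have h1 : 4 * (2 * (2 * (1 + (a : ℝ)) + 1)) ^ 2 + 4 * (2 * (2 * (1 + a + a) + 1)) ^ 2 ≤
        1000 * (a + 1) ^ 2 := by nlinarith
    have h2 := mul_le_mul_of_nonneg_left h1 hB2
    linarith
  have hfin2 : 32 * B ^ 2 * (k * h) * Real.exp (-a + 2 * Real.exp 1 * (k * h)) =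
      32 * B ^ 2 * X := by
    rw [hX]
    ring
  rw [hfin2]
  have hBX : 0 ≤ B ^ 2 * X := by positivity
  rw [abs_le] at s1 s2 s6 ⊢
  constructor
  · linarith [s1.1, s2.1, s6.1]
  · linarith [s1.2, s2.2, s6.2]

end CPS84
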