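import Pool.Agent.LibCPS84.UDefs
import Pool.Agent.LibCPS84.TC2

/-! The sum of the correlations on a small cycle; the flux. -/

namespace CPS84

open Finset
open scoped Classical

variable {n : ℕ} [NeZero n] {h : ℝ}

private theorem U9_mb : ∀ l x r a : ZMod 4, (a = r ∨ a = l) → x = a - 1 →
    mb a r + mb l a ≤ mb x r + mb l x := by
  decide

private theorem U9_mb0 : ∀ a b : ZMod 4, 0 ≤ mb a b ∧ mb a b ≤ 1 := by
  decide

private theorem U9_mbch : ∀ a b : ZMod 4, mb a b + |ch a b| ≤ 3 := by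
  decide

/-- the number of moving walls does not increase -/
theorem MM_act (hn : 2 ≤ n) (c : ZMod n × Bool) (η : ZMod n → ZMod 4) :
    MM (tact (fun _ => cyc 4) c η) ≤ MM η := by
  have h1 := sum_pair_update hn (fun a b : ZMod 4 => ((mb a b : ℤ) : ℝ)) η c.1
    (cyc 4 (η (tnb c)) (η c.1))
  have h2 : tact (fun _ => cyc 4) c η = Function.update η c.1 (cyc 4 (η (tnb c)) (η c.1)) := rfl
  unfold MM
  rw [h2]
  have h3 : η (tnb c) = η (c.1 + 1) ∨ η (tnb c) = η (c.1 - 1) := by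
    unfold tnb
    split_ifs
    · exact Or.inl rfl
    · exact Or.inr rfl
  have h4 : (((mb (cyc 4 (η (tnb c)) (η c.1)) (η (c.1 + 1)) : ℤ) : ℝ) -
      ((mb (η c.1) (η (c.1 + 1)) : ℤ) : ℝ)) +
      (((mb (η (c.1 - 1)) (cyc 4 (η (tnb c)) (η c.1)) : ℤ) : ℝ) -
        ((mb (η (c.1 - 1)) (η c.1) : ℤ) : ℝ)) ≤ 0 := by
    unfold cyc
    by_cases h5 : η c.1 = η (tnb c) - 1
    · rw [if_pos h5]
      have h6 := U9_mb (η (c.1 - 1)) (η c.1) (η (c.1 + 1)) (η (tnb c)) h3 h5
      have h7 : ((mb (η (tnb c)) (η (c.1 + 1)) + mb (η (c.1 - 1)) (η (tnb c)) : ℤ) : ℝ) ≤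
          ((mb (η c.1) (η (c.1 + 1)) + mb (η (c.1 - 1)) (η c.1) : ℤ) : ℝ) := by
        exact_mod_cast h6
      push_cast at h7
      linarith
    · rw [if_neg h5]
      linarith
  linarith

theorem MM_le (η : ZMod n → ZMod 4) : 0 ≤ MM η ∧ MM η ≤ n := by
  unfold MM
  constructor
  · exact sum_nonneg fun z _ => by exact_mod_cast (U9_mb0 (η z) (η (z + 1))).1
  · calc ∑ z, ((mb (η z) (η (z + 1)) : ℤ) : ℝ) ≤ ∑ _z : ZMod n, (1 : ℝ) :=
        sum_le_sum fun z _ => by exact_mod_cast (U9_mb0 (η z) (η (z + 1))).2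
      _ = n := by
        rw [sum_const, card_univ, ZMod.card, nsmul_eq_mul, mul_one]

private theorem U9_card : (Fintype.card (ZMod n × Bool) : ℝ) = 2 * n := by
  rw [Fintype.card_prod, ZMod.card, Fintype.card_bool]
  push_cast
  ring

private theorem U9_tstp {S : Type} {u : Bool → S → S → S} (f : (ZMod n → S) → ℝ)
    (ξ : ZMod n → S) :
    tstp u h f ξ = (1 - h * (2 * n)) * f ξ + h * ∑ c : ZMod n × Bool, f (tact u c ξ) := by
  unfold tstp tgen
  rw [sum_sub_distrib, sum_const, card_univ, nsmul_eq_mul, U9_card]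
  ring

/-- the iterates of a nonnegative function are nonnegative -/
private theorem U9_nonneg {S : Type} {u : Bool → S → S → S} (h0 : 0 ≤ h)
    (hh : h * (2 * n) ≤ 1) {g : (ZMod n → S) → ℝ} (hg : ∀ ξ, 0 ≤ g ξ) (k : ℕ)
    (ξ : ZMod n → S) : 0 ≤ ((tstp u h)^[k] g) ξ := by
  have h1 := iter_mono (u := u) h0 hh (f := fun _ => 0) (g := g) hg k ξ
  rw [iter_const] at h1
  exact h1

/-- `T^k (f g) ≤ f T^k g` for a function `f` which does not increase -/
private theorem U9_mul {S : Type} {u : Bool → S → S → S} (h0 : 0 ≤ h)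
    (hh : h * (2 * n) ≤ 1) {f g : (ZMod n → S) → ℝ} (hf : ∀ c ξ, f (tact u c ξ) ≤ f ξ)
    (hg : ∀ ξ, 0 ≤ g ξ) (k : ℕ) (ξ : ZMod n → S) :
    ((tstp u h)^[k] (fun ξ => f ξ * g ξ)) ξ ≤ f ξ * ((tstp u h)^[k] g) ξ := by
  induction k generalizing ξ with
  | zero => exact le_rfl
  | succ k ih =>
    rw [Function.iterate_succ_apply', Function.iterate_succ_apply']
    refine (tstp_mono (u := u) h0 hh ih ξ).trans ?_
    rw [U9_tstp, U9_tstp, mul_add]
    have h1 : ∑ c : ZMod n × Bool, f (tact u c ξ) * ((tstp u h)^[k] g) (tact u c ξ) ≤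
        f ξ * ∑ c : ZMod n × Bool, ((tstp u h)^[k] g) (tact u c ξ) := by
      rw [mul_sum]
      exact sum_le_sum fun c _ => mul_le_mul_of_nonneg_right (hf c ξ) (U9_nonneg h0 hh hg k _)
    have h2 := mul_le_mul_of_nonneg_left h1 h0
    linarith

/-- `T^k (M²) ≤ M T^k M ≤ b M`, and once more -/
theorem MM_sq (hn : 2 ≤ n) (h0 : 0 ≤ h) (hh : h * (2 * n) ≤ 1) (k : ℕ) (b : ℝ) (hb : 0 ≤ b)
    (hk : ∀ η : ZMod n → ZMod 4, ((tstp (fun _ => cyc 4) h)^[k] MM) η ≤ b) :
    tmu (n := n) h (2 * k) (fun η => MM η ^ 2) ≤ b ^ 2 := by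
  have h1 : ∀ η : ZMod n → ZMod 4,
      ((tstp (fun _ => cyc 4) h)^[k] (fun η => MM η ^ 2)) η ≤ b * MM η + 0 * MM η := by
    intro η
    have h2 : (fun η : ZMod n → ZMod 4 => MM η ^ 2) = fun η => MM η * MM η := by
      funext η
      rw [sq]
    rw [h2]
    refine (U9_mul h0 hh (fun c ξ => MM_act hn c ξ) (fun ξ => (MM_le ξ).1) k η).trans ?_
    have h3 := mul_le_mul_of_nonneg_left (hk η) (MM_le η).1
    linarith
  have h2 : ∀ η : ZMod n → ZMod 4,
      ((tstp (fun _ => cyc 4) h)^[2 * k] (fun η => MM η ^ 2)) η ≤ b ^ 2 := by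
    intro η
    rw [two_mul, Function.iterate_add_apply]
    refine (iter_mono (u := fun _ => cyc 4) h0 hh h1 k η).trans ?_
    rw [iter_lin]
    have h3 := mul_le_mul_of_nonneg_left (hk η) hb
    have h4 : b * ((tstp (fun _ => cyc 4) h)^[k] MM) η +
        0 * ((tstp (fun _ => cyc 4) h)^[k] MM) η = b * ((tstp (fun _ => cyc 4) h)^[k] MM) η := by
      ring
    refine le_trans (le_of_eq h4) (h3.trans (le_of_eq (by ring)))
  have h3 : tmu (n := n) h 0 ((tstp (fun _ => cyc 4) h)^[2 * k] (fun η => MM η ^ 2)) ≤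
      tmu (n := n) h 0 (fun _ => b ^ 2) := tmu_mono h0 hh 0 h2
  rw [tmu_const] at h3
  exact h3

/-- translation invariance of the extended chain -/
private theorem U9_shift (k r : ℕ) (a : ZMod n) (g : (ZMod n → ES) → ℝ) :
    text h k r (fun ζ => g (fun y => ζ (y + a))) = text h k r g := by
  unfold text
  rw [← tmu_shift (n := n) (h := h) k a (fun η => ((tstp eu h)^[r] g) (emb η))]
  congr 1
  funext η
  rw [iter_shift]
  rfl

private theorem U9_sum (k r : ℕ) {ι : Type} (s : Finset ι) (F : ι → (ZMod n → ES) → ℝ) :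
    text h k r (fun ξ => ∑ i ∈ s, F i ξ) = ∑ i ∈ s, text h k r (F i) := by
  unfold text
  rw [iter_sum]
  exact tmu_sum k s _

private theorem U9_abs (h0 : 0 ≤ h) (hh : h * (2 * n) ≤ 1) (k r : ℕ)
    (g : (ZMod n → ES) → ℝ) : |text h k r g| ≤ text h k r (fun ξ => |g ξ|) := by
  rw [abs_le]
  constructor
  · have h1 := text_lin (n := n) (h := h) k r (-1) 0 (fun ξ => |g ξ|) (fun ξ => |g ξ|)
    have h2 := text_mono (n := n) h0 hh k r (f := fun ξ => -1 * |g ξ| + 0 * |g ξ|) (g := g)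
      (fun ξ => by
        have := neg_abs_le (g ξ)
        linarith)
    rw [h1] at h2
    linarith
  · exact text_mono h0 hh k r fun ξ => le_abs_self (g ξ)

/-- sums over the residues -/
private theorem U9_range (F : ZMod n → ℝ) : ∑ x ∈ range n, F (x : ZMod n) = ∑ z, F z := by
  refine sum_nbij' (fun x : ℕ => (x : ZMod n)) (fun z => z.val) (fun x _ => mem_univ _)
    (fun z _ => mem_range.2 (ZMod.val_lt z)) (fun x hx => ?_) (fun z _ => ?_) (fun x _ => rfl)
  · exact ZMod.val_cast_of_lt (mem_range.1 hx)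
  · exact ZMod.natCast_zmod_val z

/-- `n ∑_x |R x| = ∑_{e, e'} |E sig_e sig_{e'}| ≤ E (∑ |sig|)^2 ≤ E M^2`, see `RR2_cut` for the
reachable states; translation invariance -/
theorem RR2_sum (hn : 2 ≤ n) (h0 : 0 ≤ h) (hh : h * (2 * n) ≤ 1) (k : ℕ) :
    n * ∑ x ∈ range n, |RR2 n h k x| ≤ tmu (n := n) h k (fun η => MM η ^ 2) := by
  set s : ZMod n → (ZMod n → ES) → ℝ := fun z ξ => ((sig (ξ z) (ξ (z + 1)) : ℤ) : ℝ) with hs
  have hR : ∀ (x : ℕ), RR2 n h k x = text h k k (fun ξ => s 0 ξ * s (x : ZMod n) ξ) := by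
    intro x
    unfold RR2
    congr 1
    funext ξ
    simp only [tor, sg, hs]
    push_cast
    simp only [zero_add]
  have hx : ∀ x : ℕ, n * |RR2 n h k x| ≤
      text h k k (fun ξ => ∑ a, |s a ξ| * |s ((x : ZMod n) + a) ξ|) := by
    intro x
    rw [U9_sum]
    have h1 : ∀ a : ZMod n, text h k k (fun ξ => s 0 ξ * s (x : ZMod n) ξ) =
        text h k k (fun ξ => s a ξ * s ((x : ZMod n) + a) ξ) := by
      intro a
      rw [← U9_shift k k a (fun ξ => s 0 ξ * s (x : ZMod n) ξ)]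
      congr 1
      funext ξ
      simp only [hs, zero_add]
      rw [add_comm 1 a, show (x : ZMod n) + 1 + a = x + a + 1 by ring]
    have h2 : ∀ a : ZMod n, |RR2 n h k x| ≤
        text h k k (fun ξ => |s a ξ| * |s ((x : ZMod n) + a) ξ|) := by
      intro a
      rw [hR, h1 a]
      refine (U9_abs h0 hh k k _).trans (le_of_eq ?_)
      congr 1
      funext ξ
      rw [abs_mul]
    calc (n : ℝ) * |RR2 n h k x| = ∑ _a : ZMod n, |RR2 n h k x| := by
          rw [sum_const, card_univ, ZMod.card, nsmul_eq_mul]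
      _ ≤ _ := sum_le_sum fun a _ => h2 a
  have hsum : n * ∑ x ∈ range n, |RR2 n h k x| ≤
      text h k k (fun ξ => (∑ z, |s z ξ|) ^ 2) := by
    rw [mul_sum]
    refine (sum_le_sum fun x _ => hx x).trans (le_of_eq ?_)
    rw [U9_range (fun z => text h k k (fun ξ => ∑ a, |s a ξ| * |s (z + a) ξ|)), ← U9_sum]
    congr 1
    funext ξ
    rw [sum_comm, sq, sum_mul]
    refine sum_congr rfl fun a _ => ?_
    rw [← mul_sum]
    congr 1
    exact Equiv.sum_comp (Equiv.addRight a) (fun z => |s z ξ|)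
  refine hsum.trans ?_
  set b : (ZMod n → ES) → ℝ := fun ξ => ∑ z, (|((sig (ξ z) (ξ (z + 1)) : ℤ) : ℝ)| +
    ((mb (ξ z).1 (ξ (z + 1)).1 : ℤ) : ℝ)) with hb
  have hb0 : ∀ ξ, 0 ≤ b ξ := fun ξ => sum_nonneg fun z _ =>
    add_nonneg (abs_nonneg _) (by exact_mod_cast (U9_mb0 (ξ z).1 (ξ (z + 1)).1).1)
  have h1 : ∀ ξ, (∑ z, |s z ξ|) ^ 2 ≤ b ξ ^ 2 := by
    intro ξ
    refine pow_le_pow_left₀ (sum_nonneg fun z _ => abs_nonneg _) (sum_le_sum fun z _ => ?_) 2
    have h2 : (0 : ℝ) ≤ ((mb (ξ z).1 (ξ (z + 1)).1 : ℤ) : ℝ) := by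
      exact_mod_cast (U9_mb0 (ξ z).1 (ξ (z + 1)).1).1
    simp only [hs]
    linarith
  refine (text_mono h0 hh k k h1).trans ?_
  have h2 : ∀ c ξ, b (tact eu c ξ) ^ 2 ≤ b ξ ^ 2 := fun c ξ =>
    pow_le_pow_left₀ (hb0 _) (sum_sig_act hn c ξ) 2
  have h3 : ∀ ξ, ((tstp eu h)^[k] (fun ξ => b ξ ^ 2)) ξ ≤ b ξ ^ 2 := by
    intro ξ
    have h4 := U9_mul (u := eu) (f := fun ξ => b ξ ^ 2) (g := fun _ => 1) h0 hh h2
      (fun _ => zero_le_one) k ξ
    rw [iter_const] at h4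
    simpa using h4
  have h4 : ∀ η : ZMod n → ZMod 4, ((tstp eu h)^[k] (fun ξ => b ξ ^ 2)) (emb η) ≤ MM η ^ 2 := by
    intro η
    refine (h3 (emb η)).trans (le_of_eq ?_)
    congr 1
    unfold MM
    refine sum_congr rfl fun z _ => ?_
    have h5 : sig (emb η z) (emb η (z + 1)) = 0 := by
      simp [sig, emb]
    rw [h5]
    simp [emb]
  exact tmu_mono h0 hh k h4

/-- the flux: `gen_Psi2` with `W = 0`, `V = ch`: the generator is at most `3 n` -/
theorem flux_sq (hn : 2 ≤ n) (h0 : 0 ≤ h) (hh : h * (2 * n) ≤ 1) (k r : ℕ) :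
    text (n := n) h k r (tor (fun ξ => ((ξ 0).2.2 : ℝ) ^ 2)) ≤ 3 * (r * h) := by
  have hn0 : (0 : ℝ) < n := by
    have : (2 : ℝ) ≤ n := by exact_mod_cast hn
    linarith
  set b : (ZMod n → ES) → ℝ := fun ξ => ∑ z, (|((sig (ξ z) (ξ (z + 1)) : ℤ) : ℝ)| +
    ((mb (ξ z).1 (ξ (z + 1)).1 : ℤ) : ℝ)) with hb
  set v : (ZMod n → ZMod 4) → ℝ := fun η => ∑ z, |((ch (η z) (η (z + 1)) : ℤ) : ℝ)| with hv
  have hbr : ∀ r, text h k r b ≤ tmu (n := n) h k MM := by
    intro r
    have h3 : ∀ ξ, ((tstp eu h)^[r] b) ξ ≤ b ξ := by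
      intro ξ
      have h4 := U9_mul (u := eu) (f := b) (g := fun _ => 1) h0 hh
        (fun c ξ => sum_sig_act hn c ξ) (fun _ => zero_le_one) r ξ
      rw [iter_const] at h4
      simpa using h4
    refine tmu_mono h0 hh k fun η => (h3 (emb η)).trans (le_of_eq ?_)
    unfold MM
    refine sum_congr rfl fun z _ => ?_
    have h5 : sig (emb η z) (emb η (z + 1)) = 0 := by
      simp [sig, emb]
    rw [h5]
    simp [emb]
  have hbv : tmu (n := n) h k MM + tmu (n := n) h k v ≤ 3 * n := by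
    have h1 := tmu_lin (n := n) (h := h) k 1 1 MM v
    rw [one_mul, one_mul] at h1
    rw [← h1]
    have h2 : ∀ η : ZMod n → ZMod 4, 1 * MM η + 1 * v η ≤ 3 * n := by
      intro η
      rw [one_mul, one_mul]
      unfold MM
      simp only [hv]
      rw [← sum_add_distrib]
      calc ∑ z, (((mb (η z) (η (z + 1)) : ℤ) : ℝ) + |((ch (η z) (η (z + 1)) : ℤ) : ℝ)|) ≤
          ∑ _z : ZMod n, (3 : ℝ) := by
            refine sum_le_sum fun z _ => ?_
            have h3 := U9_mbch (η z) (η (z + 1))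
            exact_mod_cast h3
        _ = 3 * n := by
            rw [sum_const, card_univ, ZMod.card, nsmul_eq_mul]
            ring
    refine (tmu_mono h0 hh k h2).trans (le_of_eq ?_)
    exact tmu_const k _
  have key : ∀ r : ℕ, text h k r (Psi2 (n := n) (fun _ _ => 0)) ≤ r * h * (3 * n) := by
    intro r
    induction r with
    | zero =>
      rw [text_zero]
      have h1 : (fun η : ZMod n → ZMod 4 => Psi2 (n := n) (fun _ _ => 0) (emb η)) =
          fun _ => 0 := by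
        funext η
        unfold Psi2
        refine sum_eq_zero fun y _ => ?_
        simp [emb]
      rw [h1, tmu_const]
      simp
    | succ r ih =>
      rw [text_succ]
      have h2 : text h k r (tgen eu (Psi2 (n := n) (fun _ _ => 0))) ≤
          text h k r (fun ξ => 1 * b ξ + 1 * v (fun y => (ξ y).2.1)) := by
        refine text_mono h0 hh k r fun ξ => ?_
        have h3 := gen_Psi2 (n := n) (fun _ _ => 0)
          (fun η y => ((ch (η y) (η (y + 1)) : ℤ) : ℝ)) (fun η y => by simp) ξ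
        have h4 : 0 ≤ ∑ z, |((ch (ξ z).1 (ξ (z + 1)).1 : ℤ) : ℝ)| :=
          sum_nonneg fun z _ => abs_nonneg _
        simp only [hb, hv]
        linarith
      rw [text_lin (n := n) (h := h) k r 1 1 b (fun ξ => v (fun y => (ξ y).2.1)),
        text_orig] at h2
      have h3 := hbr r
      have h5 : h * text h k r (tgen eu (Psi2 (n := n) (fun _ _ => 0))) ≤ h * (3 * n) :=
        mul_le_mul_of_nonneg_left (by linarith) h0
      push_cast
      linarith
  have h1 : text h k r (Psi2 (n := n) (fun _ _ => 0)) =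
      n * text (n := n) h k r (tor (fun ξ => ((ξ 0).2.2 : ℝ) ^ 2)) := by
    have h2 : Psi2 (n := n) (fun _ _ => 0) = fun ξ : ZMod n → ES =>
        ∑ y, (tor (fun ξ : ℤ → ES => ((ξ 0).2.2 : ℝ) ^ 2)) (fun z => ξ (z + y)) := by
      funext ξ
      unfold Psi2
      refine sum_congr rfl fun y _ => ?_
      simp [tor]
    rw [h2, U9_sum]
    have h3 : ∀ y : ZMod n, text h k r (fun ξ : ZMod n → ES =>
        (tor (fun ξ : ℤ → ES => ((ξ 0).2.2 : ℝ) ^ 2)) (fun z => ξ (z + y))) =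
        text (n := n) h k r (tor (fun ξ => ((ξ 0).2.2 : ℝ) ^ 2)) := fun y =>
      U9_shift k r y _
    rw [sum_congr rfl fun y _ => h3 y, sum_const, card_univ, ZMod.card, nsmul_eq_mul]
  have h2 := key r
  rw [h1] at h2
  have h3 : (n : ℝ) * text (n := n) h k r (tor (fun ξ => ((ξ 0).2.2 : ℝ) ^ 2)) ≤
      n * (3 * (r * h)) := by linarith
  exact le_of_mul_le_mul_left h3 hn0

end CPS84
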