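import Pool.Agent.LibCPS84.U7
import Pool.Agent.LibCPS84.U8
import Pool.Agent.LibCPS84.U9

/-! The sources in a window. -/

namespace CPS84

open Finset
open scoped Classical

/-- translation invariance of the two-time expectations -/
theorem text_shift {n : ℕ} [NeZero n] {h : ℝ} (k r : ℕ) (p : ℤ) (g : (ℤ → ES) → ℝ) :
    text (n := n) h k r (tor (fun ξ => g (fun y => ξ (y + p)))) =
      text (n := n) h k r (tor g) := by
  have e1 : (tor (n := n) (fun ξ : ℤ → ES => g (fun y => ξ (y + p)))) =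
      fun ζ : ZMod n → ES => tor g (fun y => ζ (y + (p : ZMod n))) := by
    funext ζ
    unfold tor
    simp only [Int.cast_add]
  rw [e1]
  unfold text
  have e2 : (fun η : ZMod n → ZMod 4 =>
      ((tstp eu h)^[r] (fun ζ : ZMod n → ES => tor g (fun y => ζ (y + (p : ZMod n)))))
        (emb η)) =
      fun η : ZMod n → ZMod 4 => (fun ζ : ZMod n → ZMod 4 =>
        ((tstp eu h)^[r] (tor g)) (emb ζ)) (fun y => η (y + (p : ZMod n))) := by
    funext η
    rw [iter_shift]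
    rfl
  rw [e2]
  exact tmu_shift k (p : ZMod n) (fun ζ : ZMod n → ZMod 4 => ((tstp eu h)^[r] (tor g)) (emb ζ))

private theorem U10_text_sum {n : ℕ} [NeZero n] {h : ℝ} (k r : ℕ) {ι : Type} (s : Finset ι)
    (F : ι → (ZMod n → ES) → ℝ) :
    text h k r (fun ξ => ∑ i ∈ s, F i ξ) = ∑ i ∈ s, text h k r (F i) := by
  unfold text
  rw [iter_sum, tmu_sum]

private theorem U10_le {n : ℕ} [NeZero n] {h : ℝ} (k : ℕ) (e e' : ℕ) (he : e ≤ e') :
    text (n := n) h k k (tor (fun ξ => sg e ξ * sg e' ξ)) =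
      RR2 n h k ((e' - e : ℕ) : ℤ) := by
  have h1 := text_shift (n := n) (h := h) k k (e : ℤ)
    (fun ξ => sg 0 ξ * sg ((e' - e : ℕ) : ℤ) ξ)
  unfold RR2
  rw [← h1]
  congr 2
  funext ξ
  unfold sg
  have e1 : (0 : ℤ) + (e : ℤ) = e := by ring
  have e2 : (0 : ℤ) + 1 + (e : ℤ) = e + 1 := by ring
  have e3 : ((e' - e : ℕ) : ℤ) + (e : ℤ) = e' := by
    rw [Nat.cast_sub he]
    ring
  have e4 : ((e' - e : ℕ) : ℤ) + 1 + (e : ℤ) = e' + 1 := by
    rw [Nat.cast_sub he]
    ring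
  beta_reduce
  rw [e1, e2, e3, e4]

private theorem U10_pair {n : ℕ} [NeZero n] {h : ℝ} (k : ℕ) (e e' : ℕ) :
    text (n := n) h k k (tor (fun ξ => sg e ξ * sg e' ξ)) =
      RR2 n h k ((Nat.dist e e' : ℕ) : ℤ) := by
  rcases le_total e e' with he | he
  · rw [U10_le k e e' he, Nat.dist_eq_sub_of_le he]
  · have e1 : (tor (n := n) (fun ξ : ℤ → ES => sg e ξ * sg e' ξ)) =
        tor (fun ξ => sg e' ξ * sg e ξ) := by
      congr 1
      funext ξ
      exact mul_comm _ _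
    rw [e1, U10_le k e' e he, Nat.dist_comm, Nat.dist_eq_sub_of_le he]

/-- the number of sites at distance `x` of `e` is at most two -/
private theorem U10_card (i e x : ℕ) :
    ((range i).filter (fun e' => Nat.dist e e' = x)).card ≤ 2 := by
  have h1 : (range i).filter (fun e' => Nat.dist e e' = x) ⊆ {e + x, e - x} := by
    intro e' he'
    rw [mem_filter] at he'
    rw [mem_insert, mem_singleton]
    have := he'.2
    unfold Nat.dist at this
    omega
  exact le_trans (card_le_card h1) card_le_two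

private theorem U10_count (i m : ℕ) (f : ℕ → ℝ) (hf : ∀ x, 0 ≤ f x) :
    ∑ e ∈ range i, ∑ e' ∈ range i, (if Nat.dist e e' < m then f (Nat.dist e e') else 0) ≤
      2 * i * ∑ x ∈ range m, f x := by
  have h1 : ∀ e ∈ range i,
      ∑ e' ∈ range i, (if Nat.dist e e' < m then f (Nat.dist e e') else 0) ≤
        2 * ∑ x ∈ range m, f x := by
    intro e _
    have h2 : ∀ e' ∈ range i, (if Nat.dist e e' < m then f (Nat.dist e e') else 0) =
        ∑ x ∈ range m, (if Nat.dist e e' = x then f x else 0) := by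
      intro e' _
      rw [Finset.sum_ite_eq]
      simp only [mem_range]
    rw [sum_congr rfl h2, sum_comm, mul_sum]
    refine sum_le_sum fun x _ => ?_
    rw [← sum_filter, sum_const, nsmul_eq_mul]
    have h3 : (((range i).filter (fun e' => Nat.dist e e' = x)).card : ℝ) ≤ 2 := by
      exact_mod_cast U10_card i e x
    exact mul_le_mul_of_nonneg_right h3 (hf x)
  calc ∑ e ∈ range i, ∑ e' ∈ range i, (if Nat.dist e e' < m then f (Nat.dist e e') else 0)
      ≤ ∑ _e ∈ range i, 2 * ∑ x ∈ range m, f x := sum_le_sum h1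
    _ = 2 * i * ∑ x ∈ range m, f x := by
      rw [sum_const, card_range, nsmul_eq_mul]
      ring

/-- Expand the square: pairs at distance `x ≤ X = 4 a + 3` (near, `RR2_near` with the cycle of
length `n' = 2 (X + 1 + 2 a) + 1 = 12 a + 9`, `RR2_sum` and `MM_sq` there), other pairs `RR2_far`.
Number of near pairs: at most `2 i` for every `x`. -/
theorem source_window {E : ((ℤ → ZMod 4) → ℝ) → ℝ} (hE : Unif E) {C : ℝ} (hC : 0 < C)
    (hQ : Quen C) (n : ℕ) [NeZero n] (i a : ℕ) (ha : 1 ≤ a) (hn : i + 12 * a + 9 ≤ n) (h : ℝ)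
    (h0 : 0 < h) (hh : h * (8 * n) ≤ 1) (k : ℕ) (hk : 1 ≤ k * h) :
    text (n := n) h (2 * k) (2 * k) (tor (fun ξ => (∑ e ∈ range i, sg e ξ) ^ 2)) ≤
      2 * i * ((C * ((12 * a + 9 : ℕ) / Real.sqrt (k * h) + 1)) ^ 2 / (12 * a + 9 : ℕ)) +
        300 * (i * a + i ^ 2) * ((n : ℝ) ^ 2 * (2 * k * h) *
          Real.exp (-a + 2 * Real.exp 1 * (2 * k * h))) +
        i ^ 2 * (2 * k * h ^ 2 * (1000 * (n : ℝ) ^ 2 * (a + 1) ^ 2)) := by
  have hn0 : (0 : ℝ) < n := Nat.cast_pos.mpr (Nat.pos_of_ne_zero (NeZero.ne n))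
  have hh2 : h * (2 * n) ≤ 1 := by nlinarith [mul_pos h0 hn0]
  set n' : ℕ := 12 * a + 9 with hn'
  have : NeZero n' := ⟨by omega⟩
  have hn'n : n' ≤ n := by omega
  have hn'0 : (0 : ℝ) < n' := Nat.cast_pos.mpr (by omega)
  have hn'n' : (n' : ℝ) ≤ n := Nat.cast_le.mpr hn'n
  have hh' : h * (2 * n') ≤ 1 := by
    refine le_trans ?_ hh2
    exact mul_le_mul_of_nonneg_left (by linarith) h0.le
  set x₀ : ℝ := Real.exp (-a + 2 * Real.exp 1 * (2 * k * h)) with hx₀
  have hx₀0 : 0 < x₀ := Real.exp_pos _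
  set D : ℝ := (n : ℝ) ^ 2 * (2 * k * h) * x₀ with hD
  have hD0 : 0 ≤ D := by positivity
  set D' : ℝ := 2 * k * h ^ 2 * (1000 * (n : ℝ) ^ 2 * (a + 1) ^ 2) with hD'
  have hD'0 : 0 ≤ D' := by positivity
  set b : ℝ := C * ((n' : ℝ) / Real.sqrt (k * h) + 1) with hb
  have hb0 : 0 ≤ b := by positivity
  -- the small cycle
  have hsmall : ∑ x ∈ range n', |RR2 n' h (2 * k) x| ≤ b ^ 2 / n' := by
    rw [le_div_iff₀ hn'0, mul_comm]
    refine le_trans (RR2_sum (by omega) h0.le hh' (2 * k)) ?_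
    exact MM_sq (by omega) h0.le hh' k b hb0 (fun η => hQ n' h k h0 hh' hk η)
  have hsmall' : ∑ x ∈ range (4 * a + 4), |RR2 n' h (2 * k) x| ≤ b ^ 2 / n' := by
    refine le_trans ?_ hsmall
    refine sum_le_sum_of_subset_of_nonneg ?_ (fun _ _ _ => abs_nonneg _)
    intro x hx
    rw [mem_range] at hx ⊢
    omega
  -- expansion
  have e1 : (tor (n := n) (fun ξ : ℤ → ES => (∑ e ∈ range i, sg e ξ) ^ 2)) =
      fun ξ : ZMod n → ES => ∑ e ∈ range i, ∑ e' ∈ range i,
        tor (n := n) (fun ξ : ℤ → ES => sg (e : ℤ) ξ * sg (e' : ℤ) ξ) ξ := by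
    funext ξ
    unfold tor
    simp only
    rw [sq, sum_mul_sum]
  have e2 : text (n := n) h (2 * k) (2 * k) (tor (fun ξ => (∑ e ∈ range i, sg e ξ) ^ 2)) =
      ∑ e ∈ range i, ∑ e' ∈ range i, RR2 n h (2 * k) ((Nat.dist e e' : ℕ) : ℤ) := by
    rw [e1, U10_text_sum]
    refine sum_congr rfl fun e _ => ?_
    rw [U10_text_sum]
    refine sum_congr rfl fun e' _ => ?_
    exact U10_pair (2 * k) e e'
  -- bounds for the pairs
  have e3 : ∀ e ∈ range i, ∀ e' ∈ range i, RR2 n h (2 * k) ((Nat.dist e e' : ℕ) : ℤ) ≤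
      (if Nat.dist e e' < 4 * a + 4 then
        |RR2 n' h (2 * k) ((Nat.dist e e' : ℕ) : ℤ)| + 16 * D else 0) + (32 * D + D') := by
    intro e he e' he'
    rw [mem_range] at he he'
    set x : ℕ := Nat.dist e e' with hx
    have hxi : x < i := by
      rw [hx]
      unfold Nat.dist
      omega
    split_ifs with hx1
    · have h1 := RR2_near hE n n' x a (by omega) (by omega) (n : ℝ) le_rfl hn'n' h h0.le hh2 hh'
        (2 * k)
      have h2 := (abs_le.mp h1).2
      have h3 := le_abs_self (RR2 n' h (2 * k) (x : ℤ))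
      have h4 : 16 * (n : ℝ) ^ 2 * (((2 * k : ℕ) : ℝ) * h) *
          Real.exp (-a + 2 * Real.exp 1 * (((2 * k : ℕ) : ℝ) * h)) = 16 * D := by
        rw [hD, hx₀]
        push_cast
        ring
      rw [h4] at h2
      linarith
    · have h1 := RR2_far hE n x a (by omega) (by omega) (n : ℝ) le_rfl h h0.le hh (2 * k)
      have h2 := le_trans (le_abs_self _) h1
      have h4 : 32 * (n : ℝ) ^ 2 * (((2 * k : ℕ) : ℝ) * h) *
          Real.exp (-a + 2 * Real.exp 1 * (((2 * k : ℕ) : ℝ) * h)) = 32 * D := by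
        rw [hD, hx₀]
        push_cast
        ring
      have h5 : ((2 * k : ℕ) : ℝ) * h ^ 2 * (1000 * (n : ℝ) ^ 2 * (a + 1) ^ 2) = D' := by
        rw [hD']
        push_cast
        ring
      rw [h4, h5] at h2
      linarith
  have e4 : ∑ e ∈ range i, ∑ e' ∈ range i, RR2 n h (2 * k) ((Nat.dist e e' : ℕ) : ℤ) ≤
      2 * i * ∑ x ∈ range (4 * a + 4), (|RR2 n' h (2 * k) (x : ℤ)| + 16 * D) +
        (i : ℝ) ^ 2 * (32 * D + D') := by
    have h1 := U10_count i (4 * a + 4) (fun x => |RR2 n' h (2 * k) (x : ℤ)| + 16 * D)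
      (fun x => by positivity)
    have h2 : ∑ e ∈ range i, ∑ e' ∈ range i, RR2 n h (2 * k) ((Nat.dist e e' : ℕ) : ℤ) ≤
        ∑ e ∈ range i, ∑ e' ∈ range i, ((if Nat.dist e e' < 4 * a + 4 then
          |RR2 n' h (2 * k) ((Nat.dist e e' : ℕ) : ℤ)| + 16 * D else 0) + (32 * D + D')) :=
      sum_le_sum fun e he => sum_le_sum fun e' he' => e3 e he e' he'
    refine le_trans h2 ?_
    simp only [sum_add_distrib, sum_const, card_range, nsmul_eq_mul]
    simp only [sum_add_distrib, sum_const, card_range, nsmul_eq_mul] at h1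
    nlinarith [h1]
  rw [e2]
  refine le_trans e4 ?_
  rw [sum_add_distrib, sum_const, card_range, nsmul_eq_mul]
  have hi0 : (0 : ℝ) ≤ i := Nat.cast_nonneg i
  have ha1 : (1 : ℝ) ≤ a := by exact_mod_cast ha
  have f1 : 2 * (i : ℝ) * ∑ x ∈ range (4 * a + 4), |RR2 n' h (2 * k) (x : ℤ)| ≤
      2 * i * (b ^ 2 / n') := mul_le_mul_of_nonneg_left hsmall' (by positivity)
  have f2 : 2 * (i : ℝ) * (((4 * a + 4 : ℕ) : ℝ) * (16 * D)) ≤ 256 * (i * a) * D := by
    push_cast
    have : (i : ℝ) * D * (4 * a + 4) ≤ (i : ℝ) * D * (8 * a) :=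
      mul_le_mul_of_nonneg_left (by linarith) (by positivity)
    nlinarith [this]
  have f3 : (0 : ℝ) ≤ (i : ℝ) * a * D := by positivity
  have f4 : (0 : ℝ) ≤ (i : ℝ) ^ 2 * D := by positivity
  nlinarith [f1, f2, f3, f4]

end CPS84
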