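import Pool.Agent.LibCPS84.U10
import Pool.Agent.LibCPS84.TD2
import Pool.Agent.LibCPS84.TE1

/-! The second moment of the charge in a window, from time `τ` to time `2 τ`. -/

namespace CPS84

open Finset
open scoped Classical

variable {n : ℕ} [NeZero n] {h : ℝ}

/-- the charge at the end = charge at the beginning + sources + difference of the flux -/
theorem QQ_decomp (j : ℕ) (ξ : ℤ → ES) :
    QQ j (fun y => (ξ y).1) = QQ j (fun y => (ξ y).2.1) + ∑ e ∈ range j, sg e ξ +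
      (((ξ j).2.2 : ℝ) - ((ξ 0).2.2 : ℝ)) := by
  induction j with
  | zero => simp [QQ]
  | succ j ih =>
    have e1 : QQ (j + 1) (fun y => (ξ y).1) = QQ j (fun y => (ξ y).1) +
        ((ch (ξ j).1 (ξ (j + 1)).1 : ℤ) : ℝ) := by
      unfold QQ
      rw [sum_range_succ]
    have e2 : QQ (j + 1) (fun y => (ξ y).2.1) = QQ j (fun y => (ξ y).2.1) +
        ((ch (ξ j).2.1 (ξ (j + 1)).2.1 : ℤ) : ℝ) := by
      unfold QQ
      rw [sum_range_succ]
    have e3 : sg (j : ℤ) ξ = ((ch (ξ j).1 (ξ (j + 1)).1 : ℤ) : ℝ) -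
        ((ch (ξ j).2.1 (ξ (j + 1)).2.1 : ℤ) : ℝ) - (((ξ (j + 1)).2.2 : ℝ) - ((ξ j).2.2 : ℝ)) := by
      unfold sg sig
      push_cast
      ring
    rw [e1, e2, sum_range_succ, e3, ih]
    push_cast
    ring

private theorem u11_nonneg (h0 : 0 ≤ h) (hh : h * (2 * n) ≤ 1) (k r : ℕ)
    (g : (ZMod n → ES) → ℝ) (hg : ∀ ξ, 0 ≤ g ξ) : 0 ≤ text h k r g := by
  have h1 := text_lin (n := n) (h := h) k r 0 0 g g
  have h2 := text_mono (h := h) h0 hh k r (f := fun ξ => 0 * g ξ + 0 * g ξ) (g := g) (by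
    intro ξ
    linarith [hg ξ])
  rw [h1] at h2
  linarith

/-- triangle inequality in `L²` -/
theorem text_L2 (h0 : 0 ≤ h) (hh : h * (2 * n) ≤ 1) (k r : ℕ) (f g : (ZMod n → ES) → ℝ) :
    Real.sqrt (text h k r (fun ξ => (f ξ + g ξ) ^ 2)) ≤
      Real.sqrt (text h k r (fun ξ => f ξ ^ 2)) + Real.sqrt (text h k r (fun ξ => g ξ ^ 2)) := by
  set A := text h k r (fun ξ => f ξ ^ 2) with hA
  set B := text h k r (fun ξ => f ξ * g ξ) with hB
  set C := text h k r (fun ξ => g ξ ^ 2) with hC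
  have hA0 : 0 ≤ A := u11_nonneg h0 hh k r _ fun ξ => sq_nonneg _
  have hC0 : 0 ≤ C := u11_nonneg h0 hh k r _ fun ξ => sq_nonneg _
  have hquad : ∀ t : ℝ, 0 ≤ A + 2 * t * B + t ^ 2 * C := by
    intro t
    have h1 : 0 ≤ text h k r (fun ξ => (f ξ + t * g ξ) ^ 2) :=
      u11_nonneg h0 hh k r _ fun ξ => sq_nonneg _
    have e1 : (fun ξ : ZMod n → ES => (f ξ + t * g ξ) ^ 2) = fun ξ => 1 * (f ξ ^ 2) +
        1 * ((fun ξ => (2 * t) * (f ξ * g ξ) + t ^ 2 * (g ξ ^ 2)) ξ) := by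
      funext ξ
      ring
    rw [e1, text_lin, text_lin] at h1
    linarith
  have hCS : B ^ 2 ≤ A * C := by
    have h1 : ∀ x : ℝ, 0 ≤ C * (x * x) + (2 * B) * x + A := by
      intro x
      have := hquad x
      nlinarith
    have h2 := discrim_le_zero h1
    unfold discrim at h2
    nlinarith
  have hB2 : B ≤ Real.sqrt A * Real.sqrt C := by
    rw [← Real.sqrt_mul hA0]
    exact Real.le_sqrt_of_sq_le hCS
  have e2 : text h k r (fun ξ => (f ξ + g ξ) ^ 2) = A + 2 * B + C := by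
    have e1 : (fun ξ : ZMod n → ES => (f ξ + g ξ) ^ 2) = fun ξ => 1 * (f ξ ^ 2) +
        1 * ((fun ξ => 2 * (f ξ * g ξ) + 1 * (g ξ ^ 2)) ξ) := by
      funext ξ
      ring
    rw [e1, text_lin, text_lin]
    ring
  rw [e2]
  apply Real.sqrt_le_iff.2
  constructor
  · positivity
  · have h1 := Real.sq_sqrt hA0
    have h2 := Real.sq_sqrt hC0
    nlinarith

/-- one doubling of the time -/
theorem QQ_double (hn : 2 ≤ n) (h0 : 0 ≤ h) (hh : h * (2 * n) ≤ 1) (k i : ℕ) :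
    Real.sqrt (tmu (n := n) h (2 * k) (tor (fun η => QQ i η ^ 2))) ≤
      Real.sqrt (tmu (n := n) h k (tor (fun η => QQ i η ^ 2))) +
        Real.sqrt (text (n := n) h k k (tor (fun ξ => (∑ e ∈ range i, sg e ξ) ^ 2))) +
        2 * Real.sqrt (3 * (k * h)) := by
  have e1 : tmu (n := n) h (2 * k) (tor (fun η => QQ i η ^ 2)) =
      text (n := n) h k k (fun ξ => ((fun ξ : ZMod n → ES =>
        (QQ i (fun y : ℤ => (ξ (y : ZMod n)).2.1) +
          ∑ e ∈ range i, sg e (fun y : ℤ => ξ (y : ZMod n))) + ((ξ ((i : ℤ) : ZMod n)).2.2 : ℝ)) ξ +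
          (fun ξ : ZMod n → ES => -((ξ ((0 : ℤ) : ZMod n)).2.2 : ℝ)) ξ) ^ 2) := by
    rw [two_mul, ← text_cur]
    congr 1
    funext ξ
    unfold tor
    beta_reduce
    have := QQ_decomp i (fun y : ℤ => ξ (y : ZMod n))
    beta_reduce at this
    rw [this]
    ring
  have h1 := text_L2 (n := n) h0 hh k k (fun ξ : ZMod n → ES =>
        (QQ i (fun y : ℤ => (ξ (y : ZMod n)).2.1) +
          ∑ e ∈ range i, sg e (fun y : ℤ => ξ (y : ZMod n))) + ((ξ ((i : ℤ) : ZMod n)).2.2 : ℝ))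
          (fun ξ : ZMod n → ES => -((ξ ((0 : ℤ) : ZMod n)).2.2 : ℝ))
  have h2 := text_L2 (n := n) h0 hh k k (fun ξ : ZMod n → ES =>
        (QQ i (fun y : ℤ => (ξ (y : ZMod n)).2.1) +
          ∑ e ∈ range i, sg e (fun y : ℤ => ξ (y : ZMod n))))
          (fun ξ : ZMod n → ES => ((ξ ((i : ℤ) : ZMod n)).2.2 : ℝ))
  have h3 := text_L2 (n := n) h0 hh k k (fun ξ : ZMod n → ES =>
        QQ i (fun y : ℤ => (ξ (y : ZMod n)).2.1))
          (fun ξ : ZMod n → ES => ∑ e ∈ range i, sg e (fun y : ℤ => ξ (y : ZMod n)))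
  have e2 : text (n := n) h k k (fun ξ : ZMod n → ES =>
      QQ i (fun y : ℤ => (ξ (y : ZMod n)).2.1) ^ 2) =
      tmu (n := n) h k (tor (fun η => QQ i η ^ 2)) :=
    text_orig (n := n) (h := h) k k (tor (fun η => QQ i η ^ 2))
  have f0 := flux_sq (n := n) hn h0 hh k k
  have e3 : text (n := n) h k k (fun ξ : ZMod n → ES => (-((ξ ((0 : ℤ) : ZMod n)).2.2 : ℝ)) ^ 2) =
      text (n := n) h k k (tor (fun ξ => ((ξ 0).2.2 : ℝ) ^ 2)) := by
    congr 1
    funext ξ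
    rw [neg_sq]
    rfl
  have e4 : text (n := n) h k k (fun ξ : ZMod n → ES => ((ξ ((i : ℤ) : ZMod n)).2.2 : ℝ) ^ 2) =
      text (n := n) h k k (tor (fun ξ => ((ξ 0).2.2 : ℝ) ^ 2)) := by
    have := text_shift (n := n) (h := h) k k (i : ℤ) (fun ξ : ℤ → ES => ((ξ 0).2.2 : ℝ) ^ 2)
    rw [← this]
    congr 1
    funext ξ
    unfold tor
    beta_reduce
    rw [zero_add]
  have g3 : Real.sqrt (text (n := n) h k k (fun ξ : ZMod n → ES =>
      (-((ξ ((0 : ℤ) : ZMod n)).2.2 : ℝ)) ^ 2)) ≤ Real.sqrt (3 * (k * h)) := by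
    rw [e3]
    exact Real.sqrt_le_sqrt f0
  have g4 : Real.sqrt (text (n := n) h k k (fun ξ : ZMod n → ES =>
      ((ξ ((i : ℤ) : ZMod n)).2.2 : ℝ) ^ 2)) ≤ Real.sqrt (3 * (k * h)) := by
    rw [e4]
    exact Real.sqrt_le_sqrt f0
  have e5 : text (n := n) h k k (tor (fun ξ => (∑ e ∈ range i, sg e ξ) ^ 2)) =
      text (n := n) h k k (fun ξ : ZMod n → ES =>
        (∑ e ∈ range i, sg e (fun y : ℤ => ξ (y : ZMod n))) ^ 2) := rfl
  rw [e1, e5, ← e2]
  linarith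

end CPS84
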