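import Pool.Agent.LibCPS84.U11

/-! The second moment of the charge at time `s`, on the line. -/

namespace CPS84

open Finset
open scoped Classical

variable {m : ℝ → ((ℤ → ZMod 4) → ℝ) → ℝ}

private theorem U12_ch_le : ∀ a b : ZMod 4, |ch a b| ≤ 2 := by decide

private theorem U12_QQ_le (i : ℕ) (η : ℤ → ZMod 4) : |QQ i η| ≤ 2 * i := by
  unfold QQ
  refine (abs_sum_le_sum_abs _ _).trans ?_
  calc ∑ j ∈ range i, |((ch (η j) (η (j + 1)) : ℤ) : ℝ)| ≤ ∑ j ∈ range i, (2 : ℝ) := by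
        refine sum_le_sum fun j _ => ?_
        exact_mod_cast U12_ch_le _ _
    _ = 2 * i := by
        rw [sum_const, card_range, nsmul_eq_mul]
        ring

private theorem U12_QQ2_le (i : ℕ) (η : ℤ → ZMod 4) : |QQ i η ^ 2| ≤ 4 * (i : ℝ) ^ 2 := by
  rw [abs_pow]
  calc |QQ i η| ^ 2 ≤ (2 * i) ^ 2 := pow_le_pow_left₀ (abs_nonneg _) (U12_QQ_le i η) 2
    _ = 4 * (i : ℝ) ^ 2 := by ring

private theorem U12_dep (i : ℕ) : Dep (fun η : ℤ → ZMod 4 => QQ i η ^ 2)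
    (Icc (-(i : ℤ)) i) := by
  intro η ζ h
  show QQ i η ^ 2 = QQ i ζ ^ 2
  have h1 : QQ i η = QQ i ζ := by
    unfold QQ
    refine sum_congr rfl fun j hj => ?_
    rw [mem_range] at hj
    rw [h j (mem_Icc.2 ⟨by omega, by omega⟩), h (j + 1) (mem_Icc.2 ⟨by omega, by omega⟩)]
  rw [h1]

private theorem U12_pow (s : ℝ) (hs : 0 < s) : Real.exp (10 * Real.log s) = s ^ 10 := by
  have h := Real.exp_nat_mul (Real.log s) 10
  rw [Real.exp_log hs] at h
  push_cast at h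
  exact h

private theorem U12_log (s : ℝ) (hs : 400 ≤ s) : 1 ≤ Real.log s := by
  rw [Real.le_log_iff_exp_le (by linarith)]
  have := Real.exp_one_lt_d9
  linarith

private theorem U12_exp (s τ a : ℝ) (hs : 400 ≤ s) (hτ : 10 * Real.log s ≤ τ)
    (ha : 20 * τ ≤ a) : Real.exp (-a + 2 * Real.exp 1 * τ) * s ^ 10 ≤ 1 := by
  have he : Real.exp 1 < 2.72 := by
    have := Real.exp_one_lt_d9
    linarith
  have hlog := U12_log s hs
  rw [← U12_pow s (by linarith), ← Real.exp_add]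
  apply Real.exp_le_one_iff.2
  nlinarith

private theorem U12_source (C s τ h : ℝ) (hC : 0 < C) (hs : 400 ≤ s)
    (hτ : 10 * Real.log s ≤ τ) (hτs : τ ≤ s / 2) (n i a : ℝ) (hi0 : 0 ≤ i) (hi : i ≤ s)
    (hn0 : 0 ≤ n) (hn : n ≤ 201 * s) (ha1 : 20 * τ ≤ a) (ha2 : a ≤ 20 * τ + 1) (b κ : ℝ)
    (hb : b = 12 * a + 9) (hκ : κ = τ / 2) (hh0 : 0 ≤ h)
    (hh : h * (s ^ 3 * (1000 * (201 * s) ^ 2 * (10 * s + 2) ^ 2)) ≤ 1) :
    2 * i * ((C * (b / Real.sqrt κ + 1)) ^ 2 / b) +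
        300 * (i * a + i ^ 2) * (n ^ 2 * τ * Real.exp (-a + 2 * Real.exp 1 * τ)) +
        i ^ 2 * (τ * h * (1000 * n ^ 2 * (a + 1) ^ 2)) ≤ (2004 * C ^ 2 + 2) * s := by
  have hlog := U12_log s hs
  have hτ0 : 10 ≤ τ := by linarith
  have ha0 : 0 ≤ a := by linarith
  have hb0 : 1 ≤ b := by linarith
  have hb1 : b ≤ 250 * τ := by linarith
  have hE := U12_exp s τ a hs hτ ha1
  set E := Real.exp (-a + 2 * Real.exp 1 * τ) with hEdef
  have hE0 : 0 < E := Real.exp_pos _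
  have hT1 : 2 * i * ((C * (b / Real.sqrt κ + 1)) ^ 2 / b) ≤ 2004 * C ^ 2 * s := by
    have hκ0 : 0 < κ := by linarith
    set q := Real.sqrt κ with hq
    have hq0 : 0 < q := Real.sqrt_pos.2 hκ0
    have hq2 : q ^ 2 = τ / 2 := by rw [hq, Real.sq_sqrt hκ0.le, hκ]
    have h1 : (b / q + 1) ^ 2 ≤ 2 * (b / q) ^ 2 + 2 := by
      nlinarith [sq_nonneg (b / q - 1)]
    have h2 : (b / q) ^ 2 ≤ 500 * b := by
      rw [div_pow, hq2, div_le_iff₀ (by linarith)]
      nlinarith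
    have h3 : (b / q + 1) ^ 2 ≤ 1002 * b := by linarith
    have h4 : (C * (b / q + 1)) ^ 2 / b ≤ 1002 * C ^ 2 := by
      rw [div_le_iff₀ (by linarith), mul_pow]
      have := mul_le_mul_of_nonneg_left h3 (sq_nonneg C)
      linarith
    calc 2 * i * ((C * (b / q + 1)) ^ 2 / b) ≤ 2 * i * (1002 * C ^ 2) :=
          mul_le_mul_of_nonneg_left h4 (by linarith)
      _ = 2004 * C ^ 2 * i := by ring
      _ ≤ 2004 * C ^ 2 * s := mul_le_mul_of_nonneg_left hi (by positivity)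
  have hT2 : 300 * (i * a + i ^ 2) * (n ^ 2 * τ * E) ≤ s := by
    have h1 : i * a + i ^ 2 ≤ 12 * s ^ 2 := by
      have h2 : i * a ≤ s * (10 * s + 1) := mul_le_mul hi (by linarith) ha0 (by linarith)
      have h3 : i ^ 2 ≤ s ^ 2 := pow_le_pow_left₀ hi0 hi 2
      nlinarith
    have h2 : n ^ 2 * τ * E ≤ (201 * s) ^ 2 * (s / 2) * E := by
      apply mul_le_mul_of_nonneg_right _ hE0.le
      exact mul_le_mul (pow_le_pow_left₀ hn0 hn 2) hτs (by linarith) (by positivity)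
    have h3 : 300 * (i * a + i ^ 2) * (n ^ 2 * τ * E) ≤
        300 * (12 * s ^ 2) * ((201 * s) ^ 2 * (s / 2) * E) :=
      mul_le_mul (by linarith) h2 (by positivity) (by positivity)
    have h4 : (72721800 : ℝ) ≤ s ^ 5 := by
      have h5 : (400 : ℝ) ^ 5 ≤ s ^ 5 := pow_le_pow_left₀ (by norm_num) hs 5
      norm_num at h5
      linarith
    have h5 : 300 * (12 * s ^ 2) * ((201 * s) ^ 2 * (s / 2) * E) = 72721800 * (s ^ 5 * E) := by
      ring
    have h6 : 72721800 * (s ^ 5 * E) ≤ s ^ 5 * (s ^ 5 * E) :=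
      mul_le_mul_of_nonneg_right h4 (by positivity)
    have h7 : s ^ 5 * (s ^ 5 * E) = E * s ^ 10 := by ring
    linarith
  have hT3 : i ^ 2 * (τ * h * (1000 * n ^ 2 * (a + 1) ^ 2)) ≤ s := by
    have h1 : i ^ 2 ≤ s ^ 2 := pow_le_pow_left₀ hi0 hi 2
    have h2 : 1000 * n ^ 2 * (a + 1) ^ 2 ≤ 1000 * (201 * s) ^ 2 * (10 * s + 2) ^ 2 := by
      apply mul_le_mul _ _ (by positivity) (by positivity)
      · have := pow_le_pow_left₀ hn0 hn 2
        linarith
      · exact pow_le_pow_left₀ (by linarith) (by linarith) 2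
    have h3 : τ * h ≤ s * h := mul_le_mul_of_nonneg_right (by linarith) hh0
    have h4 : τ * h * (1000 * n ^ 2 * (a + 1) ^ 2) ≤
        s * h * (1000 * (201 * s) ^ 2 * (10 * s + 2) ^ 2) :=
      mul_le_mul h3 h2 (by positivity) (by positivity)
    have h5 : i ^ 2 * (τ * h * (1000 * n ^ 2 * (a + 1) ^ 2)) ≤
        s ^ 2 * (s * h * (1000 * (201 * s) ^ 2 * (10 * s + 2) ^ 2)) :=
      mul_le_mul h1 h4 (by positivity) (by positivity)
    have h6 : s ^ 2 * (s * h * (1000 * (201 * s) ^ 2 * (10 * s + 2) ^ 2)) =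
        h * (s ^ 3 * (1000 * (201 * s) ^ 2 * (10 * s + 2) ^ 2)) := by ring
    linarith
  linarith

private theorem U12_start (s s0 : ℝ) (hs : 400 ≤ s) (h1 : 10 * Real.log s ≤ s0)
    (h2 : s0 < 20 * Real.log s) (h3 : s0 ≤ s) (i : ℝ) (hi0 : 0 ≤ i) (hi : i ≤ s) (M : ℝ)
    (hM1 : 20 * s0 ≤ M) (hM2 : M ≤ 20 * s0 + 1) :
    i * (4 * (4 * M + 1) + i * (64 * s0 * Real.exp (1 - M + 2 * Real.exp 1 * s0))) ≤
      6421 * (s * Real.log s) := by
  have he : Real.exp 1 < 2.72 := by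
    have := Real.exp_one_lt_d9
    linarith
  have hlog := U12_log s hs
  have hE := U12_exp s s0 M hs h1 hM1
  have hexp : Real.exp (1 - M + 2 * Real.exp 1 * s0) =
      Real.exp 1 * Real.exp (-M + 2 * Real.exp 1 * s0) := by
    rw [← Real.exp_add]
    congr 1
    ring
  rw [hexp]
  set E := Real.exp (-M + 2 * Real.exp 1 * s0) with hEdef
  have hE0 : 0 < E := Real.exp_pos _
  have hs00 : 0 ≤ s0 := by linarith
  have he0 : 0 < Real.exp 1 := Real.exp_pos _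
  have h4 : i * (64 * s0 * (Real.exp 1 * E)) ≤ 1 := by
    have h5 : 64 * s0 * (Real.exp 1 * E) ≤ 64 * s * (2.72 * E) := by
      apply mul_le_mul (by linarith) _ (by positivity) (by linarith)
      exact mul_le_mul_of_nonneg_right he.le hE0.le
    have h6 : i * (64 * s0 * (Real.exp 1 * E)) ≤ s * (64 * s * (2.72 * E)) :=
      mul_le_mul hi h5 (by positivity) (by linarith)
    have h7 : s * (64 * s * (2.72 * E)) = 174.08 * (s ^ 2 * E) := by ring
    have h8 : (174.08 : ℝ) ≤ s ^ 8 := by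
      have h9 : (400 : ℝ) ^ 8 ≤ s ^ 8 := pow_le_pow_left₀ (by norm_num) hs 8
      norm_num at h9
      linarith
    have h9 : 174.08 * (s ^ 2 * E) ≤ s ^ 8 * (s ^ 2 * E) :=
      mul_le_mul_of_nonneg_right h8 (by positivity)
    have h10 : s ^ 8 * (s ^ 2 * E) = E * s ^ 10 := by ring
    linarith
  have h5 : 4 * (4 * M + 1) + i * (64 * s0 * (Real.exp 1 * E)) ≤ 6421 * Real.log s := by
    linarith
  calc i * (4 * (4 * M + 1) + i * (64 * s0 * (Real.exp 1 * E))) ≤ i * (6421 * Real.log s) :=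
        mul_le_mul_of_nonneg_left h5 hi0
    _ ≤ s * (6421 * Real.log s) := mul_le_mul_of_nonneg_right hi (by linarith)
    _ = 6421 * (s * Real.log s) := by ring

private theorem U12_err (s t i M : ℝ) (hs : 400 ≤ s) (ht0 : 0 ≤ t) (ht : t ≤ s) (hi : i ≤ s)
    (hM : 100 * s ≤ M) : 8 * (4 * s ^ 2) * t * Real.exp (i - M + 2 * Real.exp 1 * t) ≤ 1 := by
  have he : Real.exp 1 < 2.72 := by
    have := Real.exp_one_lt_d9
    linarith
  have hs0 : 0 < s := by linarith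
  have hlog : Real.log s ≤ s := by
    have := Real.log_le_sub_one_of_pos hs0
    linarith
  have h1 : Real.exp (i - M + 2 * Real.exp 1 * t) ≤ Real.exp (-(10 * Real.log s)) := by
    apply Real.exp_le_exp.2
    have he0 : 0 < Real.exp 1 := Real.exp_pos _
    have h2 : 2 * Real.exp 1 * t ≤ 5.44 * s := by
      apply mul_le_mul (by linarith) ht ht0 (by norm_num)
    linarith
  have h2 : Real.exp (-(10 * Real.log s)) * s ^ 10 = 1 := by
    rw [← U12_pow s hs0, ← Real.exp_add, neg_add_cancel, Real.exp_zero]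
  set E := Real.exp (-(10 * Real.log s)) with hE
  have hE0 : 0 < E := Real.exp_pos _
  have h3 : 8 * (4 * s ^ 2) * t * Real.exp (i - M + 2 * Real.exp 1 * t) ≤
      8 * (4 * s ^ 2) * s * E :=
    mul_le_mul (mul_le_mul_of_nonneg_left ht (by positivity)) h1 (Real.exp_pos _).le
      (by positivity)
  have h4 : (32 : ℝ) ≤ s ^ 7 := by
    have h9 : (400 : ℝ) ^ 7 ≤ s ^ 7 := pow_le_pow_left₀ (by norm_num) hs 7
    norm_num at h9
    linarith
  have h5 : 8 * (4 * s ^ 2) * s * E = 32 * (s ^ 3 * E) := by ring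
  have h6 : 32 * (s ^ 3 * E) ≤ s ^ 7 * (s ^ 3 * E) :=
    mul_le_mul_of_nonneg_right h4 (by positivity)
  have h7 : s ^ 7 * (s ^ 3 * E) = E * s ^ 10 := by ring
  linarith

private theorem U12_large {C : ℝ} (hC : 0 < C) (hQ : Quen C) (hm : Sol (cyc 4) m)
    (h0 : Unif (m 0)) (s : ℝ) (i : ℕ) (hs : 400 ≤ s) (hi : (i : ℝ) ≤ s) :
    m s (fun η => QQ i η ^ 2) ≤
      ((81 + 2 * (Real.sqrt (2004 * C ^ 2 + 2) + 4)) ^ 2 + 2) * (Real.log s) ^ 2 * s := by
  have hlog1 := U12_log s hs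
  have hs0 : 0 < s := by linarith
  set L := Real.log s with hL
  have hLs : 10 * L ≤ s := by
    have h1 : Real.log (Real.sqrt s) ≤ Real.sqrt s - 1 :=
      Real.log_le_sub_one_of_pos (Real.sqrt_pos.2 hs0)
    rw [Real.log_sqrt hs0.le] at h1
    have h2 : Real.sqrt s * Real.sqrt s = s := Real.mul_self_sqrt hs0.le
    have h3 : 20 ≤ Real.sqrt s := by
      apply Real.le_sqrt_of_sq_le
      linarith
    nlinarith
  -- `J`
  obtain ⟨J, hJ1, hJ2⟩ := exists_nat_pow_near (x := s / (10 * L)) (y := 2)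
    (by rw [le_div_iff₀ (by linarith)]; linarith) (by norm_num)
  have h2J : (0 : ℝ) < 2 ^ J := by positivity
  rw [le_div_iff₀ (by linarith)] at hJ1
  rw [div_lt_iff₀ (by linarith), pow_succ] at hJ2
  set τ : ℝ := s / 2 ^ J with hτ
  have hτs : 2 ^ J * τ = s := by
    rw [hτ]
    field_simp
  have hτ1 : 10 * L ≤ τ := by
    rw [hτ, le_div_iff₀ h2J]
    linarith
  have hτ2 : τ < 20 * L := by
    rw [hτ, div_lt_iff₀ h2J]
    linarith
  have hτ0 : 0 < τ := by linarith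
  have h2J1 : (1 : ℝ) ≤ 2 ^ J := one_le_pow₀ (by norm_num)
  have hτs' : τ ≤ s := by
    rw [hτ]
    exact div_le_self hs0.le h2J1
  have hJL : (J : ℝ) ≤ 2 * L := by
    have h1 : (2 : ℝ) ^ J ≤ s := by nlinarith
    have h2 : Real.log ((2 : ℝ) ^ J) ≤ L := Real.log_le_log h2J h1
    rw [Real.log_pow] at h2
    have h3 := Real.log_two_gt_d9
    have h4 : (0 : ℝ) ≤ J := Nat.cast_nonneg J
    nlinarith
  -- the cycle
  set M : ℕ := ⌈100 * s⌉₊ with hM
  have hM1 : 100 * s ≤ M := Nat.le_ceil _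
  have hM2 : (M : ℝ) < 100 * s + 1 := Nat.ceil_lt_add_one (by linarith)
  have hiM : i ≤ M := by
    have : (i : ℝ) ≤ M := by linarith
    exact_mod_cast this
  have hn2 : 2 ≤ 2 * M + 1 := by
    have h1 : (1 : ℝ) ≤ M := by linarith
    have h2 : 1 ≤ M := by exact_mod_cast h1
    omega
  have hnR : (((2 * M + 1 : ℕ)) : ℝ) ≤ 201 * s := by
    push_cast
    linarith
  set F : (ℤ → ZMod 4) → ℝ := fun η => QQ i η ^ 2 with hF
  have hFB : ∀ η, |F η| ≤ 4 * s ^ 2 := fun η => (U12_QQ2_le i η).trans (by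
    have := pow_le_pow_left₀ (Nat.cast_nonneg i) hi 2
    linarith)
  obtain ⟨N1, hN1⟩ := tor_approx (n := 2 * M + 1) hm h0 i M hiM le_rfl (U12_dep i) (4 * s ^ 2)
    (by positivity) hFB τ hτ0.le 1 one_pos
  obtain ⟨N2, hN2⟩ := tor_approx (n := 2 * M + 1) hm h0 i M hiM le_rfl (U12_dep i) (4 * s ^ 2)
    (by positivity) hFB s hs0.le 1 one_pos
  set K : ℝ := s ^ 3 * (1000 * (201 * s) ^ 2 * (10 * s + 2) ^ 2) with hK
  have hK0 : 0 < K := by positivity
  set N : ℕ := N1 + N2 + ⌈τ * (8 * ((2 * M + 1 : ℕ) : ℝ) + K)⌉₊ + 1 with hN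
  have hN0 : 0 < N := by omega
  have hNR : (0 : ℝ) < N := by exact_mod_cast hN0
  have hNbig : τ * (8 * ((2 * M + 1 : ℕ) : ℝ) + K) ≤ N := by
    have h1 : τ * (8 * ((2 * M + 1 : ℕ) : ℝ) + K) ≤
        (⌈τ * (8 * ((2 * M + 1 : ℕ) : ℝ) + K)⌉₊ : ℝ) := Nat.le_ceil _
    have h2 : ((⌈τ * (8 * ((2 * M + 1 : ℕ) : ℝ) + K)⌉₊ : ℕ) : ℝ) ≤ (N : ℝ) := by
      exact_mod_cast (by omega : ⌈τ * (8 * ((2 * M + 1 : ℕ) : ℝ) + K)⌉₊ ≤ N)
    linarith
  set h : ℝ := τ / ((2 * N : ℕ) : ℝ) with hh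
  have h2N : (0 : ℝ) < ((2 * N : ℕ) : ℝ) := by
    push_cast
    linarith
  have hh0 : 0 < h := div_pos hτ0 h2N
  have hNh : (N : ℝ) * h = τ / 2 := by
    rw [hh]
    push_cast
    field_simp
  have hhK : h * (8 * ((2 * M + 1 : ℕ) : ℝ) + K) ≤ 1 := by
    rw [hh, div_mul_eq_mul_div, div_le_one h2N]
    push_cast at hNbig ⊢
    linarith
  have hhn : h * (8 * ((2 * M + 1 : ℕ) : ℝ)) ≤ 1 := by
    have : 0 ≤ h * K := by positivity
    linarith
  have hhK' : h * K ≤ 1 := by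
    have : 0 ≤ h * (8 * ((2 * M + 1 : ℕ) : ℝ)) := by positivity
    linarith
  have hhn2 : h * (2 * ((2 * M + 1 : ℕ) : ℝ)) ≤ 1 := by
    have : 0 ≤ h * (6 * ((2 * M + 1 : ℕ) : ℝ)) := by positivity
    linarith
  -- start
  have hA1 := hN1 (2 * N) (by omega) (by omega)
  rw [← hh] at hA1
  have hA2 := U12_err s τ i M hs hτ0.le hτs' hi hM1
  have hA3 : m τ F ≤ 6421 * (s * L) := by
    refine (second_QQ hm h0 τ hτ0.le ⌈20 * τ⌉₊ i ?_).trans ?_
    · have : (0 : ℝ) < ⌈20 * τ⌉₊ := by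
        have := Nat.le_ceil (20 * τ)
        linarith
      have : 0 < ⌈20 * τ⌉₊ := by exact_mod_cast this
      omega
    · exact U12_start s τ hs hτ1 hτ2 hτs' i (Nat.cast_nonneg i) hi _ (Nat.le_ceil _)
        (Nat.ceil_lt_add_one (by linarith)).le
  have hA4 : tmu (n := 2 * M + 1) h (2 * N) (tor F) ≤ 6423 * (s * L ^ 2) := by
    have h1 := (abs_le.1 hA1).2
    have h2 : s * L ≤ s * L ^ 2 := by
      apply mul_le_mul_of_nonneg_left _ hs0.le
      nlinarith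
    have h3 : 1 ≤ s * L ^ 2 := by
      have h4 : 1 ≤ L ^ 2 := one_le_pow₀ hlog1
      nlinarith
    linarith
  have hA5 : Real.sqrt (tmu (n := 2 * M + 1) h (2 * N) (tor F)) ≤ 81 * (Real.sqrt s * L) := by
    apply Real.sqrt_le_iff.2
    refine ⟨by positivity, hA4.trans ?_⟩
    have h1 : (81 * (Real.sqrt s * L)) ^ 2 = 6561 * (s * L ^ 2) := by
      rw [mul_pow, mul_pow, Real.sq_sqrt hs0.le]
      ring
    rw [h1]
    have : 0 ≤ s * L ^ 2 := by positivity
    linarith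
  -- the doublings
  set G : ℝ := Real.sqrt (2004 * C ^ 2 + 2) + 4 with hG
  have hG0 : 0 ≤ G := by positivity
  have hind : ∀ j : ℕ, j ≤ J →
      Real.sqrt (tmu (n := 2 * M + 1) h (2 ^ j * (2 * N)) (tor F)) ≤
        81 * (Real.sqrt s * L) + j * (G * Real.sqrt s) := by
    intro j
    induction j with
    | zero =>
      intro _
      rw [pow_zero, one_mul, Nat.cast_zero, zero_mul, add_zero]
      exact hA5
    | succ j ih =>
      intro hj
      have ih' := ih (by omega)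
      have hD := QQ_double (n := 2 * M + 1) (h := h) hn2 hh0.le hhn2 (2 ^ j * (2 * N)) i
      set τj : ℝ := 2 ^ j * τ with hτj
      have hj1 : (1 : ℝ) ≤ 2 ^ j := one_le_pow₀ (by norm_num)
      have hτj1 : τ ≤ τj := by nlinarith
      have hτj2 : τj ≤ s / 2 := by
        have h1 : (2 : ℝ) ^ (j + 1) ≤ 2 ^ J := pow_le_pow_right₀ (by norm_num) hj
        rw [pow_succ] at h1
        nlinarith
      have hkh : ((2 ^ j * N : ℕ) : ℝ) * h = τj / 2 := by
        push_cast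
        rw [mul_assoc, hNh, hτj]
        ring
      have hkh' : ((2 ^ j * (2 * N) : ℕ) : ℝ) * h = τj := by
        have h1 : ((2 ^ j * (2 * N) : ℕ) : ℝ) = 2 * ((2 ^ j * N : ℕ) : ℝ) := by
          push_cast
          ring
        rw [h1, mul_assoc, hkh]
        ring
      have hkh2 : 2 * ((2 ^ j * N : ℕ) : ℝ) * h = τj := by
        rw [mul_assoc, hkh]
        ring
      have hkh3 : 2 * ((2 ^ j * N : ℕ) : ℝ) * h ^ 2 = τj * h := by
        rw [← hkh2]
        ring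
      set a : ℕ := ⌈20 * τj⌉₊ with ha
      have ha1 : 20 * τj ≤ a := Nat.le_ceil _
      have ha2 : (a : ℝ) < 20 * τj + 1 := Nat.ceil_lt_add_one (by linarith)
      have ha3 : 1 ≤ a := by
        have h1 : (0 : ℝ) < a := by linarith
        have h2 : 0 < a := by exact_mod_cast h1
        omega
      have hcard : i + 12 * a + 9 ≤ 2 * M + 1 := by
        have h1 : ((i + 12 * a + 9 : ℕ) : ℝ) ≤ ((2 * M + 1 : ℕ) : ℝ) := by
          push_cast
          linarith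
        exact_mod_cast h1
      have hsw := source_window h0 hC hQ (2 * M + 1) i a ha3 hcard h hh0 hhn (2 ^ j * N)
        (by rw [hkh]; linarith)
      rw [hkh, hkh2, hkh3] at hsw
      have hsrc := U12_source C s τj h hC hs (hτ1.trans hτj1) hτj2 ((2 * M + 1 : ℕ) : ℝ) i a
        (Nat.cast_nonneg _) hi (Nat.cast_nonneg _) hnR ha1 ha2.le ((12 * a + 9 : ℕ) : ℝ)
        (τj / 2) (by push_cast; ring) rfl hh0.le hhK'
      have h2k : 2 ^ j * (2 * N) = 2 * (2 ^ j * N) := by ring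
      have hsq : Real.sqrt (text (n := 2 * M + 1) h (2 ^ j * (2 * N)) (2 ^ j * (2 * N))
          (tor (fun ξ => (∑ e ∈ range i, sg e ξ) ^ 2))) ≤
          Real.sqrt (2004 * C ^ 2 + 2) * Real.sqrt s := by
        rw [← Real.sqrt_mul (by positivity), h2k]
        exact Real.sqrt_le_sqrt (hsw.trans hsrc)
      have hfl : 2 * Real.sqrt (3 * (((2 ^ j * (2 * N) : ℕ) : ℝ) * h)) ≤ 4 * Real.sqrt s := by
        rw [hkh']
        have h1 : Real.sqrt (3 * τj) ≤ 2 * Real.sqrt s := by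
          apply Real.sqrt_le_iff.2
          refine ⟨by positivity, ?_⟩
          rw [mul_pow, Real.sq_sqrt hs0.le]
          linarith
        linarith
      have hpow : 2 ^ (j + 1) * (2 * N) = 2 * (2 ^ j * (2 * N)) := by ring
      rw [hpow]
      refine hD.trans ?_
      have h1 : ((j + 1 : ℕ) : ℝ) * (G * Real.sqrt s) = j * (G * Real.sqrt s) +
          (Real.sqrt (2004 * C ^ 2 + 2) * Real.sqrt s + 4 * Real.sqrt s) := by
        rw [hG]
        push_cast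
        ring
      rw [h1]
      linarith
  have hfin := hind J le_rfl
  have hfin2 : Real.sqrt (tmu (n := 2 * M + 1) h (2 ^ J * (2 * N)) (tor F)) ≤
      (81 + 2 * G) * (Real.sqrt s * L) := by
    refine hfin.trans ?_
    have h1 : (J : ℝ) * (G * Real.sqrt s) ≤ 2 * L * (G * Real.sqrt s) :=
      mul_le_mul_of_nonneg_right hJL (by positivity)
    have h2 : (81 + 2 * G) * (Real.sqrt s * L) = 81 * (Real.sqrt s * L) +
        2 * L * (G * Real.sqrt s) := by ring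
    rw [h2]
    linarith
  have hfin3 : tmu (n := 2 * M + 1) h (2 ^ J * (2 * N)) (tor F) ≤
      (81 + 2 * G) ^ 2 * (s * L ^ 2) := by
    have h1 := (Real.sqrt_le_iff.1 hfin2).2
    have h2 : ((81 + 2 * G) * (Real.sqrt s * L)) ^ 2 = (81 + 2 * G) ^ 2 * (s * L ^ 2) := by
      rw [mul_pow, mul_pow (Real.sqrt s), Real.sq_sqrt hs0.le]
    rw [h2] at h1
    exact h1
  -- the end
  have hB1 := hN2 (2 ^ J * (2 * N)) (by
    have : 1 ≤ 2 ^ J := Nat.one_le_two_pow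
    nlinarith) (by positivity)
  have hheq : s / ((2 ^ J * (2 * N) : ℕ) : ℝ) = h := by
    rw [hh, ← hτs]
    push_cast
    field_simp
  rw [hheq] at hB1
  have hB2 := U12_err s s i M hs hs0.le le_rfl hi hM1
  have h1 := (abs_le.1 hB1).1
  have h3 : 1 ≤ s * L ^ 2 := by
    have h4 : 1 ≤ L ^ 2 := one_le_pow₀ hlog1
    nlinarith
  have h4 : ((81 + 2 * G) ^ 2 + 2) * L ^ 2 * s = (81 + 2 * G) ^ 2 * (s * L ^ 2) +
      2 * (s * L ^ 2) := by ring
  rw [h4]
  linarith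

/-- the constant does not depend on `m` -/
theorem QQ_line_unif {C : ℝ} (hC : 0 < C) (hQ : Quen C) :
    ∃ C' : ℝ, 0 < C' ∧ ∀ m : ℝ → ((ℤ → ZMod 4) → ℝ) → ℝ, Sol (cyc 4) m → Unif (m 0) →
      ∀ (s : ℝ) (i : ℕ), 2 ≤ s → (i : ℝ) ≤ s →
        m s (fun η => QQ i η ^ 2) ≤ C' * (Real.log s) ^ 2 * s := by
  refine ⟨(81 + 2 * (Real.sqrt (2004 * C ^ 2 + 2) + 4)) ^ 2 + 2 + 3500, by positivity, ?_⟩
  intro m hm h0 s i hs hi
  have hs0 : 0 < s := by linarith
  rcases le_or_gt 400 s with h400 | h400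
  · refine (U12_large hC hQ hm h0 s i h400 hi).trans ?_
    have h1 : 0 ≤ (Real.log s) ^ 2 * s := by positivity
    nlinarith
  · have hlog : 0.69 ≤ Real.log s := by
      have h1 : Real.log 2 ≤ Real.log s := Real.log_le_log (by norm_num) hs
      have := Real.log_two_gt_d9
      linarith
    have hlog2 : 0.47 ≤ (Real.log s) ^ 2 := by nlinarith
    have h1 : m s (fun η => QQ i η ^ 2) ≤ m s (fun _ => 4 * (i : ℝ) ^ 2 * 1) := by
      refine (hm.exp s hs0.le).mono _ _ (Icc (-(i : ℤ)) i) (U12_dep i) (fun _ _ _ => rfl)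
        (fun η => ?_)
      have := (abs_le.1 (U12_QQ2_le i η)).2
      linarith
    rw [(hm.exp s hs0.le).smul (4 * (i : ℝ) ^ 2) (fun _ => 1) ∅ (fun _ _ _ => rfl),
      (hm.exp s hs0.le).one] at h1
    have h2 : (i : ℝ) ^ 2 ≤ s * s := by
      have := pow_le_pow_left₀ (Nat.cast_nonneg i) hi 2
      linarith
    have h3 : 4 * (i : ℝ) ^ 2 * 1 ≤ 1600 * s := by nlinarith
    have h4 : 1600 * s ≤ 3500 * ((Real.log s) ^ 2 * s) := by nlinarith
    have h5 : 0 ≤ ((81 + 2 * (Real.sqrt (2004 * C ^ 2 + 2) + 4)) ^ 2 + 2) *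
        ((Real.log s) ^ 2 * s) := by positivity
    linarith

/-- `s ≥ s_*` large: `J` with `s₀ = s / 2 ^ J ∈ [10 log s, 20 log s)`, `n = 2 ⌈100 s⌉ + 1`,
`h = s / (2 ^ (J + 1) N)`; start: `second_QQ` at time `s₀` and `tor_approx`; `J` times `QQ_double`
and `source_window` with `a = ⌈20 τ⌉`, `τ = 2 ^ j s₀`; end: `tor_approx` at time `s`;
small `s`: `|QQ| ≤ 2 i`. -/
theorem QQ_line (hm : Sol (cyc 4) m) (h0 : Unif (m 0)) {C : ℝ} (hC : 0 < C) (hQ : Quen C) :
    ∃ C' : ℝ, 0 < C' ∧ ∀ (s : ℝ) (i : ℕ), 2 ≤ s → (i : ℝ) ≤ s →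
      m s (fun η => QQ i η ^ 2) ≤ C' * (Real.log s) ^ 2 * s := by
  obtain ⟨C', hC', h⟩ := QQ_line_unif hC hQ
  exact ⟨C', hC', h m hm h0⟩

end CPS84
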