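import Mathlib

/-! The real analysis. -/

namespace CPS84

/-- `t` large: `j = ⌈t^(1/3) (log t)^(2/3)⌉`, `s = t / j`, `l = ⌊s⌋`, `V = C (log s)^2 s`;
small `t`: `ρ t ≤ 1` -/
theorem rate13 (C : ℝ) (hC : 0 < C) : ∃ C' : ℝ, 0 < C' ∧
    ∀ (ρ N : ℝ → ℝ), (∀ t, 0 ≤ t → ρ t ≤ 1) → (∀ t, 0 ≤ t → 0 ≤ N t) →
      (∀ t, 0 < t → N t ≤ 8 / Real.sqrt t) →
      (∀ (s : ℝ) (j l : ℕ), 2 ≤ s → 1 ≤ j → 1 ≤ l → (l : ℝ) ≤ s →
        (j - 1) * s * ρ (j * s) ≤ C * (Real.log s) ^ 2 * s +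
          (j - 1) * s * (2 * N s + Real.sqrt (C * (Real.log s) ^ 2 * s) / l)) →
      ∀ t, 2 ≤ t → ρ t ≤ C' * t ^ (-(1 / 3 : ℝ)) * (Real.log t) ^ (4 / 3 : ℝ) := by
  set c : ℝ := Real.sqrt C with hc
  have hc0 : 0 ≤ c := Real.sqrt_nonneg _
  have hcC : c ^ 2 = C := Real.sq_sqrt hC.le
  refine ⟨200 + C + 4 * c, by positivity, ?_⟩
  intro ρ N hρ hN0 hN H t ht
  have ht0 : 0 < t := by linarith
  have hlog2 : 0.69 < Real.log t := by
    have h1 : Real.log 2 ≤ Real.log t := Real.log_le_log (by norm_num) ht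
    have := Real.log_two_gt_d9
    linarith
  have hlog0 : 0 < Real.log t := by linarith
  set x : ℝ := t ^ (1 / 3 : ℝ) with hx
  set y : ℝ := (Real.log t) ^ (1 / 3 : ℝ) with hy
  have hx0 : 0 < x := Real.rpow_pos_of_pos ht0 _
  have hy0 : 0 < y := Real.rpow_pos_of_pos hlog0 _
  have hx3 : x ^ 3 = t := by
    rw [hx, ← Real.rpow_natCast, ← Real.rpow_mul ht0.le]
    norm_num
  have hy3 : y ^ 3 = Real.log t := by
    rw [hy, ← Real.rpow_natCast, ← Real.rpow_mul hlog0.le]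
    norm_num
  have hxinv : t ^ (-(1 / 3 : ℝ)) = 1 / x := by
    rw [Real.rpow_neg ht0.le, ← hx, one_div]
  have hy4 : (Real.log t) ^ (4 / 3 : ℝ) = y ^ 4 := by
    rw [hy, ← Real.rpow_natCast, ← Real.rpow_mul hlog0.le]
    norm_num
  rw [hxinv, hy4]
  have hgoal : (200 + C + 4 * c) * (1 / x) * y ^ 4 =
      200 * (y ^ 4 / x) + C * (y ^ 4 / x) + 4 * c * (y ^ 4 / x) := by
    field_simp
    try ring
  rw [hgoal]
  set q : ℝ := y ^ 4 / x with hq
  have hq0 : 0 < q := by positivity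
  rcases le_or_gt x (100 * y ^ 4) with hcase | hcase
  · have h1 : 1 ≤ 100 * q := by
      rw [hq, mul_div_assoc', le_div_iff₀ hx0]
      linarith
    have h2 := hρ t ht0.le
    have h3 : 0 ≤ C * q := by positivity
    have h4 : 0 ≤ 4 * c * q := by positivity
    linarith
  have hylow : 0.69 < y ^ 3 := by rw [hy3]; exact hlog2
  have hy6 : 0.47 < y ^ 6 := by
    have h1 : y ^ 6 = y ^ 3 * y ^ 3 := by ring
    rw [h1]
    nlinarith
  -- `j`
  set J : ℝ := x * y ^ 2 with hJ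
  have hJ0 : 0 < J := by positivity
  have hJ1 : 47 < J := by
    have h1 : 100 * y ^ 4 * y ^ 2 ≤ x * y ^ 2 :=
      mul_le_mul_of_nonneg_right hcase.le (by positivity)
    have h2 : 100 * y ^ 4 * y ^ 2 = 100 * y ^ 6 := by ring
    linarith
  set k : ℕ := ⌈J⌉₊ with hk
  have hk1 : J ≤ k := Nat.le_ceil _
  have hk2 : (k : ℝ) < J + 1 := Nat.ceil_lt_add_one hJ0.le
  have hj2 : ((k + 1 : ℕ) : ℝ) ≤ 2 * J := by
    push_cast
    linarith
  have hk0 : (0 : ℝ) < k := by linarith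
  have hj0 : (0 : ℝ) < ((k + 1 : ℕ) : ℝ) := by positivity
  -- `s`
  set s : ℝ := t / ((k + 1 : ℕ) : ℝ) with hs
  have hjs : ((k + 1 : ℕ) : ℝ) * s = t := by
    rw [hs]
    field_simp
  have hst : s ≤ t := by
    rw [hs]
    apply div_le_self ht0.le
    push_cast
    linarith
  have hs1 : (x / (2 * y)) ^ 2 * 2 ≤ s := by
    rw [hs, le_div_iff₀ hj0]
    calc (x / (2 * y)) ^ 2 * 2 * ((k + 1 : ℕ) : ℝ) ≤ (x / (2 * y)) ^ 2 * 2 * (2 * J) :=
          mul_le_mul_of_nonneg_left hj2 (by positivity)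
      _ = x ^ 3 := by
          rw [hJ]
          field_simp
          try ring
      _ = t := hx3
  have hs2 : 2 ≤ s := by
    have h1 : 1 ≤ x / (2 * y) := by
      rw [le_div_iff₀ (by positivity)]
      have h2 : 100 * y ^ 4 = 100 * y ^ 3 * y := by ring
      have h3 : 2 * y ≤ 100 * y ^ 3 * y := by nlinarith
      linarith
    have h2 : 1 ≤ (x / (2 * y)) ^ 2 := one_le_pow₀ h1
    linarith
  have hs0 : 0 < s := by linarith
  set r : ℝ := Real.sqrt s with hr
  have hr2 : r ^ 2 = s := Real.sq_sqrt hs0.le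
  have hr0 : 0 < r := Real.sqrt_pos.2 hs0
  have hrlow : x / (2 * y) ≤ r := by
    apply Real.le_sqrt_of_sq_le
    have : 0 ≤ (x / (2 * y)) ^ 2 := by positivity
    linarith
  -- `l`
  set l : ℕ := ⌊s⌋₊ with hl
  have hl1 : (l : ℝ) ≤ s := Nat.floor_le hs0.le
  have hl2 : s < l + 1 := Nat.lt_floor_add_one s
  have hl3 : s / 2 ≤ l := by linarith
  have hl0 : (0 : ℝ) < l := by linarith
  have hl1' : 1 ≤ l := by
    have : 0 < l := by exact_mod_cast hl0
    omega
  have hlog : Real.log s ≤ y ^ 3 := by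
    rw [hy3]
    exact Real.log_le_log hs0 hst
  have hlogs0 : 0 ≤ Real.log s := Real.log_nonneg (by linarith)
  have hlogsq : (Real.log s) ^ 2 ≤ y ^ 6 := by
    have h1 : y ^ 6 = (y ^ 3) ^ 2 := by ring
    rw [h1]
    exact pow_le_pow_left₀ hlogs0 hlog 2
  have hmain := H s (k + 1) l hs2 (by omega) hl1' hl1
  rw [hjs] at hmain
  have hk' : ((k + 1 : ℕ) : ℝ) - 1 = k := by push_cast; ring
  rw [hk'] at hmain
  -- the bounds
  have hinv : 1 / r ≤ 2 * y / x := by
    rw [div_le_div_iff₀ hr0 hx0]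
    have h1 := (div_le_iff₀ (by positivity)).1 hrlow
    linarith
  have hNs : N s ≤ 16 * (y / x) := by
    refine (hN s hs0).trans ?_
    have h1 : 8 / r = 8 * (1 / r) := by ring
    have h2 : 16 * (y / x) = 8 * (2 * y / x) := by ring
    rw [← hr, h1, h2]
    exact mul_le_mul_of_nonneg_left hinv (by norm_num)
  have hyq : y / x ≤ 1.5 * q := by
    rw [hq, mul_div_assoc', div_le_div_iff_of_pos_right hx0]
    have h1 : (1.5 : ℝ) * y ^ 4 = 1.5 * y ^ 3 * y := by ring
    rw [h1]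
    nlinarith
  have hsq : Real.sqrt (C * (Real.log s) ^ 2 * s) / l ≤ 4 * c * q := by
    have h1 : Real.sqrt (C * (Real.log s) ^ 2 * s) ≤ c * y ^ 3 * r := by
      apply Real.sqrt_le_iff.2
      refine ⟨by positivity, ?_⟩
      have h2 : (c * y ^ 3 * r) ^ 2 = C * y ^ 6 * s := by
        rw [← hcC, ← hr2]
        ring
      rw [h2]
      apply mul_le_mul_of_nonneg_right _ hs0.le
      exact mul_le_mul_of_nonneg_left hlogsq hC.le
    rw [div_le_iff₀ hl0]
    refine h1.trans ?_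
    have h3 : c * y ^ 3 * r ≤ 4 * c * q * (s / 2) := by
      have h4 : 4 * c * q * (s / 2) = (c * y ^ 3 * r) * (r * (2 * y / x)) := by
        rw [← hr2, hq]
        field_simp
        try ring
      rw [h4]
      have h5 : 1 ≤ r * (2 * y / x) := by
        have h6 := mul_le_mul_of_nonneg_left hinv hr0.le
        have h7 : r * (1 / r) = 1 := by field_simp
        linarith
      have h8 : 0 ≤ c * y ^ 3 * r := by positivity
      nlinarith
    refine h3.trans ?_
    exact mul_le_mul_of_nonneg_left hl3 (by positivity)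
  have hfirst : C * (Real.log s) ^ 2 * s ≤ k * s * (C * q) := by
    have h1 : C * (Real.log s) ^ 2 * s ≤ C * y ^ 6 * s := by
      apply mul_le_mul_of_nonneg_right _ hs0.le
      exact mul_le_mul_of_nonneg_left hlogsq hC.le
    have h2 : C * y ^ 6 * s = J * s * (C * q) := by
      rw [hJ, hq]
      field_simp
      try ring
    have h3 : J * s * (C * q) ≤ k * s * (C * q) := by
      apply mul_le_mul_of_nonneg_right _ (by positivity)
      exact mul_le_mul_of_nonneg_right hk1 hs0.le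
    linarith
  have hks : 0 < (k : ℝ) * s := by positivity
  have h1 : (k : ℝ) * s * ρ t ≤ k * s * (C * q + (2 * (16 * (y / x)) + 4 * c * q)) := by
    have h2 : (k : ℝ) * s * (2 * N s + Real.sqrt (C * (Real.log s) ^ 2 * s) / l) ≤
        k * s * (2 * (16 * (y / x)) + 4 * c * q) :=
      mul_le_mul_of_nonneg_left (by linarith) hks.le
    have h3 : (k : ℝ) * s * (C * q + (2 * (16 * (y / x)) + 4 * c * q)) =
        k * s * (C * q) + k * s * (2 * (16 * (y / x)) + 4 * c * q) := by ring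
    rw [h3]
    linarith
  have h2 : ρ t ≤ C * q + (2 * (16 * (y / x)) + 4 * c * q) := le_of_mul_le_mul_left h1 hks
  linarith

end CPS84
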