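import Pool.Agent.LibCPS84.U12
import Pool.Agent.LibCPS84.U13
import Pool.Agent.LibCPS84.TE2
import Pool.Agent.LibCPS92.PJ
import Pool.Agent.LibCPS84.Low4
import Pool.Agent.LibCPS84.FinA
import Pool.Agent.LibCPS84.FinB
import Pool.Agent.LibCPS84.PrF

/-! Four colours: the upper bound with the exponent `1/3`. -/

namespace CPS84

open Finset MeasureTheory Filter Topology

private theorem U14_depQ (l j : ℕ) (hj : j ≤ l) : Dep (QQ j) (Icc (0 : ℤ) l) := by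
  intro η ζ h
  unfold QQ
  refine sum_congr rfl fun i hi => ?_
  rw [mem_range] at hi
  rw [h i (mem_Icc.2 ⟨by omega, by omega⟩), h (i + 1) (mem_Icc.2 ⟨by omega, by omega⟩)]

private theorem U14_depQ2 (l j : ℕ) (hj : j ≤ l) :
    Dep (fun η => QQ j η ^ 2) (Icc (0 : ℤ) l) := by
  intro η ζ h
  show QQ j η ^ 2 = QQ j ζ ^ 2
  rw [U14_depQ l j hj η ζ h]

/-- see `VV_WW_bound` -/
theorem VV_WW_bound2 {E : ((ℤ → ZMod 4) → ℝ) → ℝ} (hE : Exp E) (l : ℕ) (hl : 1 ≤ l) (V : ℝ)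
    (hV : 0 ≤ V) (h : ∀ j : ℕ, j ≤ l → E (fun η => QQ j η ^ 2) ≤ V) :
    E (fun η => |VV l η|) ≤ Real.sqrt V / l ∧ E (fun η => WW l η ^ 2) ≤ V := by
  have hlR : (0 : ℝ) < l := by exact_mod_cast hl
  have hdQ := U14_depQ l l le_rfl
  have hdV : Dep (fun η => |VV l η|) (Icc (0 : ℤ) l) := by
    intro η ζ hh
    show |VV l η| = |VV l ζ|
    unfold VV
    rw [hdQ η ζ hh]
  constructor
  · -- for every `c > 0`
    have key : ∀ c : ℝ, 0 < c → E (fun η => |VV l η|) ≤ V / l ^ 2 / (2 * c) + c / 2 := by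
      intro c hc
      have h1 : E (fun η => |VV l η|) ≤
          E (fun η => 1 / (2 * c * l ^ 2) * QQ l η ^ 2 + c / 2) := by
        refine hE.mono _ _ (Icc (0 : ℤ) l) hdV
          (((U14_depQ2 l l le_rfl).const_mul _).add (dep_const _ _)) (fun η => ?_)
        have e1 : 1 / (2 * c * (l : ℝ) ^ 2) * QQ l η ^ 2 = |VV l η| ^ 2 / (2 * c) := by
          rw [sq_abs]
          unfold VV
          field_simp
        rw [e1, div_add_div _ _ (by positivity) (by norm_num), le_div_iff₀ (by positivity)]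
        nlinarith [sq_nonneg (|VV l η| - c)]
      have h2 : E (fun η => 1 / (2 * c * l ^ 2) * QQ l η ^ 2 + c / 2) =
          1 / (2 * c * l ^ 2) * E (fun η => QQ l η ^ 2) + c / 2 := by
        rw [hE.add (fun η => 1 / (2 * c * (l : ℝ) ^ 2) * QQ l η ^ 2) (fun _ => c / 2)
          (Icc (0 : ℤ) l) ((U14_depQ2 l l le_rfl).const_mul _) (dep_const _ _),
          hE.smul _ (fun η => QQ l η ^ 2) _ (U14_depQ2 l l le_rfl), hE.const]
      rw [h2] at h1
      have h3 : 1 / (2 * c * (l : ℝ) ^ 2) * E (fun η => QQ l η ^ 2) ≤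
          1 / (2 * c * (l : ℝ) ^ 2) * V :=
        mul_le_mul_of_nonneg_left (h l le_rfl) (by positivity)
      have h4 : 1 / (2 * c * (l : ℝ) ^ 2) * V = V / l ^ 2 / (2 * c) := by
        field_simp
      linarith
    rcases hV.eq_or_lt with hV0 | hV0
    · rw [← hV0, Real.sqrt_zero, zero_div]
      refine le_of_forall_pos_le_add fun ε hε => ?_
      have h1 := key ε hε
      rw [← hV0, zero_div, zero_div] at h1
      linarith
    · have hpos : 0 < Real.sqrt V := Real.sqrt_pos.2 hV0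
      have hs : 0 < Real.sqrt V / l := by positivity
      refine (key _ hs).trans (le_of_eq ?_)
      have h2 : V / (l : ℝ) ^ 2 / (2 * (Real.sqrt V / l)) = Real.sqrt V / l / 2 := by
        rw [div_eq_iff (by positivity)]
        have h1 : Real.sqrt V / l / 2 * (2 * (Real.sqrt V / l)) = Real.sqrt V ^ 2 / l ^ 2 := by
          field_simp
        rw [h1, Real.sq_sqrt hV]
      rw [h2]
      ring
  · have hdS : Dep (fun η => ∑ j ∈ range l, QQ j η ^ 2) (Icc (0 : ℤ) l) :=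
      Dep.sum _ _ fun j hj => U14_depQ2 l j (Finset.mem_range.1 hj).le
    have hdW : Dep (fun η => WW l η ^ 2) (Icc (0 : ℤ) l) := by
      intro η ζ hh
      show WW l η ^ 2 = WW l ζ ^ 2
      unfold WW
      rw [Finset.sum_congr rfl fun j hj =>
        U14_depQ l j (Finset.mem_range.1 hj).le η ζ hh]
    have h1 : E (fun η => WW l η ^ 2) ≤ E (fun η => 1 / l * ∑ j ∈ range l, QQ j η ^ 2) := by
      refine hE.mono _ _ (Icc (0 : ℤ) l) hdW (hdS.const_mul _) (fun η => ?_)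
      have h2 : (∑ j ∈ range l, QQ j η) ^ 2 ≤ l * ∑ j ∈ range l, QQ j η ^ 2 := by
        have := sq_sum_le_card_mul_sum_sq (s := range l) (f := fun j => QQ j η)
        rw [Finset.card_range] at this
        exact this
      unfold WW
      rw [div_pow, div_le_iff₀ (by positivity)]
      calc (∑ j ∈ range l, QQ j η) ^ 2 ≤ l * ∑ j ∈ range l, QQ j η ^ 2 := h2
        _ = 1 / l * (∑ j ∈ range l, QQ j η ^ 2) * l ^ 2 := by
            field_simp
    have h2 : E (fun η => 1 / l * ∑ j ∈ range l, QQ j η ^ 2) =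
        1 / l * ∑ j ∈ range l, E (fun η => QQ j η ^ 2) := by
      rw [hE.smul _ (fun η => ∑ j ∈ range l, QQ j η ^ 2) _ hdS,
        hE.sum (Λ := Icc (0 : ℤ) l) (range l) (fun j η => QQ j η ^ 2)
          (fun j hj => U14_depQ2 l j (Finset.mem_range.1 hj).le)]
    have h3 : ∑ j ∈ range l, E (fun η => QQ j η ^ 2) ≤ l * V := by
      calc ∑ j ∈ range l, E (fun η => QQ j η ^ 2) ≤ ∑ j ∈ range l, V :=
            Finset.sum_le_sum fun j hj => h j (Finset.mem_range.1 hj).le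
        _ = l * V := by rw [sum_const, card_range, nsmul_eq_mul]
    rw [h2] at h1
    calc E (fun η => WW l η ^ 2) ≤ 1 / l * ∑ j ∈ range l, E (fun η => QQ j η ^ 2) := h1
      _ ≤ 1 / l * (l * V) := mul_le_mul_of_nonneg_left h3 (by positivity)
      _ = V := by
          field_simp

private theorem U14_meas {Ω : Type} {mΩ : MeasurableSpace Ω} {P : Measure Ω} {𝓕 : Filtration ℝ mΩ}
    {U : ℤ → ℤ → Ω → Set ℝ} {X : ℝ → Ω → ℤ → ZMod 4} (h : IsCPS 4 P 𝓕 U X) (t : ℝ) (ht : 0 ≤ t)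
    (x y : ℤ) : MeasurableSet {ω | X t ω x ≠ X t ω y} := by
  have h1 : {ω | X t ω x ≠ X t ω y}
      = (⋃ a : ZMod 4, ({ω | X t ω x = a} ∩ {ω | X t ω y = a}))ᶜ := by
    ext ω
    simp only [Set.mem_ofPred_eq, Set.mem_compl_iff, Set.mem_iUnion, Set.mem_inter_iff, ne_eq]
    constructor
    · rintro hne ⟨a, ha, hb⟩
      exact hne (ha.trans hb.symm)
    · intro hne he
      exact hne ⟨X t ω y, he, rfl⟩
  rw [h1]
  refine (MeasurableSet.iUnion fun a => ?_).compl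
  exact ((𝓕.le t) _ (h.adapted t ht x a)).inter ((𝓕.le t) _ (h.adapted t ht y a))

private theorem U14_nonneg (p : Prop) : 0 ≤ ind p := by
  unfold ind
  split_ifs <;> norm_num

private theorem U14_le_one (p : Prop) : ind p ≤ 1 := by
  unfold ind
  split_ifs <;> norm_num

private theorem U14_ch : ∀ a b : ZMod 4, a ≠ b → 1 ≤ |ch a b| := by
  decide

private theorem U14_mb : ∀ a b : ZMod 4, (a = b + 1 ∨ b = a + 1 → mb a b = 1) ∧
    (¬ (a = b + 1 ∨ b = a + 1) → mb a b = 0) := by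
  decide

private theorem U14_EW (η : ℤ → ZMod 4) : ind (EW η) ≤ |((ch (η 0) (η 1) : ℤ) : ℝ)| := by
  unfold EW ind
  by_cases h : η 0 ≠ η 1
  · rw [if_pos h]
    have h1 := U14_ch _ _ h
    have h2 : ((1 : ℤ) : ℝ) ≤ ((|ch (η 0) (η 1)| : ℤ) : ℝ) := by exact_mod_cast h1
    push_cast at h2
    exact h2
  · rw [if_neg h]
    exact abs_nonneg _

private theorem U14_mb' (η : ℤ → ZMod 4) : ((mb (η 0) (η 1) : ℤ) : ℝ) =
    ind (η 0 = η 1 + 1 ∨ η 1 = η 0 + 1) := by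
  obtain ⟨h1, h2⟩ := U14_mb (η 0) (η 1)
  unfold ind
  by_cases h : η 0 = η 1 + 1 ∨ η 1 = η 0 + 1
  · rw [if_pos h, h1 h]
    norm_num
  · rw [if_neg h, h2 h]
    norm_num

/-- `rate13` with `ρ = P(wall) ≤ E |ch|`, `N = P(EN 1)`, `E mb = 2 N` (`mov_eq`),
`CPS92.mobile_bound`, `line_main`, `QQ_line`, `VV_WW_bound2`; lower bound `lower`; see
`FinC.final3` -/
theorem final4U {C₀ : ℝ} (hC₀ : 0 < C₀) (hQ : Quen C₀) : ∃ C : ℝ, 0 < C ∧
    ∀ {Ω : Type} {mΩ : MeasurableSpace Ω} {P : Measure Ω} {𝓕 : Filtration ℝ mΩ}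
      {U : ℤ → ℤ → Ω → Set ℝ} {X : ℝ → Ω → ℤ → ZMod 4}, IsCPS 4 P 𝓕 U X →
      ∀ (t : ℝ), 2 ≤ t → ∀ x : ℤ, 1 / (200 * t) ≤ P.real {ω | X t ω x ≠ X t ω (x + 1)} ∧
        P.real {ω | X t ω x ≠ X t ω (x + 1)} ≤
          C * t ^ (-(1 / 3 : ℝ)) * (Real.log t) ^ (4 / 3 : ℝ) := by
  obtain ⟨C₁, hC₁, hQQ⟩ := QQ_line_unif hC₀ hQ
  obtain ⟨C, hC, hrate⟩ := rate13 C₁ hC₁
  refine ⟨C, hC, ?_⟩
  intro Ω mΩ P 𝓕 U X h t ht x
  have hP := h.prob
  have ht0 : (0 : ℝ) ≤ t := by linarith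
  have hsol : Sol (cyc 4) (fun t (f : (ℤ → ZMod 4) → ℝ) => ∫ ω, f (X t ω) ∂P) := h.isPS.sol
  have hunif : Unif (fun f : (ℤ → ZMod 4) → ℝ => ∫ ω, f (X 0 ω) ∂P) := h.unif
  have hinvt : ∀ t, 0 ≤ t → Inv (fun f : (ℤ → ZMod 4) → ℝ => ∫ ω, f (X t ω) ∂P) :=
    fun t ht => inv_of_unif hsol hunif t ht
  have hlow := lower (by norm_num) (by norm_num) hsol hunif t (by linarith)
  have hup : (∫ ω, ind (EW (X t ω)) ∂P) ≤
      C * t ^ (-(1 / 3 : ℝ)) * (Real.log t) ^ (4 / 3 : ℝ) := by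
    refine hrate (fun t => ∫ ω, ind (EW (X t ω)) ∂P)
      (fun t => ∫ ω, ind (EN 1 (X t ω)) ∂P) ?_ ?_ ?_ ?_ t ht
    · intro t ht
      have h1 := (hinvt t ht).exp.mono _ _ (Icc 0 1) (dep_EW (κ := 4)) (dep_const 1 _)
        (fun η => U14_le_one _)
      have h2 := (hinvt t ht).exp.one
      have h3 : (∫ ω, ind (EW (X t ω)) ∂P) ≤ ∫ ω, (fun _ : ℤ → ZMod 4 => (1 : ℝ)) (X t ω) ∂P := h1
      have h4 : (∫ ω, (fun _ : ℤ → ZMod 4 => (1 : ℝ)) (X t ω) ∂P) = 1 := h2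
      linarith
    · intro t ht
      exact (hinvt t ht).exp.nonneg (dep_EN (κ := 4) 1 le_rfl) (fun η => U14_nonneg _)
    · intro t ht
      exact CPS92.mobile_bound hsol hunif t ht
    · intro s j l hs hj hl hls
      have hs0 : (0 : ℝ) < s := by linarith
      have hjr : (1 : ℝ) ≤ j := by exact_mod_cast hj
      have hc0 : 0 ≤ ((j : ℝ) - 1) * s := mul_nonneg (by linarith) hs0.le
      have h1 := line_main hsol hunif s hs0 j l hj hl
      set V : ℝ := C₁ * (Real.log s) ^ 2 * s with hV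
      have hV0 : 0 ≤ V := by positivity
      obtain ⟨h2, h3⟩ := VV_WW_bound2 (hinvt s hs0.le).exp l hl V hV0 (fun i hi => by
        have hil : (i : ℝ) ≤ l := by exact_mod_cast hi
        exact hQQ _ hsol hunif s i hs (hil.trans hls))
      have h4 : (∫ ω, ind (EW (X (j * s) ω)) ∂P) ≤
          ∫ ω, |((ch (X (j * s) ω 0) (X (j * s) ω 1) : ℤ) : ℝ)| ∂P := by
        refine (hinvt (j * s) (by positivity)).exp.mono _ _ (Icc 0 1) (dep_EW (κ := 4)) ?_ U14_EW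
        intro η ζ h
        show |((ch (η 0) (η 1) : ℤ) : ℝ)| = |((ch (ζ 0) (ζ 1) : ℤ) : ℝ)|
        rw [h 0 (by simp), h 1 (by simp)]
      have h5 : (∫ ω, ((mb (X s ω 0) (X s ω 1) : ℤ) : ℝ) ∂P) =
          2 * ∫ ω, ind (EN 1 (X s ω)) ∂P := by
        have h6 := mov_eq (κ := 4) (by norm_num) (hinvt s hs0.le)
        have h7 : (fun η : ℤ → ZMod 4 => ((mb (η 0) (η 1) : ℤ) : ℝ)) =
            fun η => ind (η 0 = η 1 + 1 ∨ η 1 = η 0 + 1) := by
          funext η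
          exact U14_mb' η
        have h8 : (∫ ω, ((mb (X s ω 0) (X s ω 1) : ℤ) : ℝ) ∂P) =
            ∫ ω, (fun η : ℤ → ZMod 4 => ((mb (η 0) (η 1) : ℤ) : ℝ)) (X s ω) ∂P := rfl
        rw [h8, h7]
        exact h6
      have h6 := mul_le_mul_of_nonneg_left h4 hc0
      have h7 := mul_le_mul_of_nonneg_left h2 hc0
      have h1' : ((j : ℝ) - 1) * s * ∫ ω, |((ch (X (j * s) ω 0) (X (j * s) ω 1) : ℤ) : ℝ)| ∂P ≤
        (∫ ω, WW l (X s ω) ^ 2 ∂P) + ((j : ℝ) - 1) * s *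
          ((∫ ω, ((mb (X s ω 0) (X s ω 1) : ℤ) : ℝ) ∂P) + ∫ ω, |VV l (X s ω)| ∂P) := h1
      rw [h5] at h1'
      have h3' : (∫ ω, WW l (X s ω) ^ 2 ∂P) ≤ V := h3
      have h7' : ((j : ℝ) - 1) * s * ∫ ω, |VV l (X s ω)| ∂P ≤
        ((j : ℝ) - 1) * s * (Real.sqrt V / l) := h7
      show ((j : ℝ) - 1) * s * (∫ ω, ind (EW (X (j * s) ω)) ∂P) ≤ V +
        ((j : ℝ) - 1) * s * (2 * (∫ ω, ind (EN 1 (X s ω)) ∂P) + Real.sqrt V / l)
      rw [mul_add] at h1' ⊢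
      linarith
  have hinv := hsol.inv_of_inv (φ := id) (fun _ _ => rfl) (r := 1) (Or.inl rfl) x
    (fun f Λ hf => unif_sym hunif Function.bijective_id (Or.inl rfl) x hf) t ht0
    (f := fun η => ind (EW η)) dep_EW
  have hval : (∫ ω, ind (EW (sym id 1 x (X t ω))) ∂P)
      = P.real {ω | X t ω x ≠ X t ω (x + 1)} := by
    have hfun : (fun ω => ind (EW (sym id 1 x (X t ω))))
        = Set.indicator {ω | X t ω x ≠ X t ω (x + 1)} (1 : Ω → ℝ) := by
      funext ω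
      have hiff : EW (sym id 1 x (X t ω)) ↔ X t ω x ≠ X t ω (x + 1) := by
        simp only [EW, sym, id, mul_zero, mul_one, zero_add]
        rw [add_comm 1 x]
      by_cases hω : X t ω x ≠ X t ω (x + 1)
      · rw [Set.indicator_of_mem (show ω ∈ {ω | X t ω x ≠ X t ω (x + 1)} from hω)]
        simp only [ind]
        rw [if_pos (hiff.2 hω), Pi.one_apply]
      · rw [Set.indicator_of_notMem (show ω ∉ {ω | X t ω x ≠ X t ω (x + 1)} from hω)]
        simp only [ind]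
        rw [if_neg (fun hc => hω (hiff.1 hc))]
    rw [hfun, integral_indicator_one (U14_meas h t ht0 x (x + 1))]
  have hinv' : (∫ ω, ind (EW (sym id 1 x (X t ω))) ∂P) = ∫ ω, ind (EW (X t ω)) ∂P := hinv
  rw [← hval, hinv']
  exact ⟨hlow, hup⟩

end CPS84
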