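import Pool.Agent.LibCPS84.U1

/-! The chain on the cycle and the inner clocks of a set `Λ` which embeds in the cycle. -/

namespace CPS84

open Finset
open scoped Classical

variable {n : ℕ} [NeZero n] {S : Type} {u : Bool → S → S → S} {f : (ℤ → S) → ℝ} {Λ : Finset ℤ}

omit [NeZero n] in
private theorem u2_act (hΛ : Set.InjOn (fun i : ℤ => (i : ZMod n)) Λ) (hf : Dep f Λ)
    (c : ℤ × Bool) (hc : c.1 ∈ Λ) (ξ : ZMod n → S) :
    tor f (tact u ((c.1 : ZMod n), c.2) ξ) = f (actd u c (fun i => ξ (i : ZMod n))) := by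
  have hnb : tnb ((c.1 : ZMod n), c.2) = ((nb c : ℤ) : ZMod n) := by
    unfold tnb nb
    by_cases hd : c.2 = true
    · rw [if_pos hd, if_pos hd]
      push_cast
      rfl
    · rw [if_neg hd, if_neg hd]
      push_cast
      rfl
  unfold tor
  refine hf _ _ fun i hi => ?_
  unfold tact actd
  rw [hnb]
  by_cases hic : i = c.1
  · rw [hic, Function.update_self, Function.update_self]
  · rw [Function.update_of_ne hic, Function.update_of_ne]
    intro h
    exact hic (hΛ hi hc h)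

/-- an inner clock acts on the periodic continuation as on the cycle -/
theorem tor_actd_inner (hΛ : Set.InjOn (fun i : ℤ => (i : ZMod n)) Λ) (hf : Dep f Λ)
    (c : ℤ × Bool) (hc : c ∈ clkI Λ) (ξ : ZMod n → S) :
    tor f (tact u ((c.1 : ZMod n), c.2) ξ) = f (actd u c (fun i => ξ (i : ZMod n))) := by
  exact u2_act hΛ hf c (mem_clkI.1 hc).1 ξ

/-- a boundary clock changes one site of `Λ` only -/
theorem tor_actd_bdry (hΛ : Set.InjOn (fun i : ℤ => (i : ZMod n)) Λ) (hf : Dep f Λ)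
    (w : ℤ → ℝ) (hw : Osc f w) (c : ℤ × Bool) (hc : c ∈ clk Λ) (ξ : ZMod n → S) :
    |tor f (tact u ((c.1 : ZMod n), c.2) ξ) - tor f ξ| ≤ w c.1 := by
  rw [u2_act hΛ hf c (mem_clk.1 hc) ξ]
  unfold tor
  refine hw c.1 _ _ fun i hi => ?_
  unfold actd
  rw [Function.update_of_ne hi]

private theorem u2_gen (hΛ : Set.InjOn (fun i : ℤ => (i : ZMod n)) Λ) (hf : Dep f Λ)
    (ξ : ZMod n → S) :
    tgen u (tor f) ξ =
      ∑ c ∈ clk Λ, (tor f (tact u ((c.1 : ZMod n), c.2) ξ) - tor f ξ) := by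
  unfold tgen
  have hinj : ∀ c ∈ clk Λ, ∀ c' ∈ clk Λ,
      (((c.1 : ZMod n), c.2) : ZMod n × Bool) = ((c'.1 : ZMod n), c'.2) → c = c' := by
    intro c hc c' hc' h
    rw [Prod.mk.injEq] at h
    exact Prod.ext (hΛ (mem_clk.1 hc) (mem_clk.1 hc') h.1) h.2
  rw [← Finset.sum_subset (Finset.subset_univ ((clk Λ).image
    (fun c : ℤ × Bool => (((c.1 : ZMod n), c.2) : ZMod n × Bool)))),
    Finset.sum_image hinj]
  intro c _ hc
  have h1 : tor f (tact u c ξ) = tor f ξ := by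
    unfold tor
    refine hf _ _ fun i hi => ?_
    unfold tact
    rw [Function.update_of_ne]
    intro h
    apply hc
    rw [Finset.mem_image]
    exact ⟨(i, c.2), mem_clk.2 hi, Prod.ext h rfl⟩
  rw [h1, sub_self]

/-- one step: the clocks of the sites of the cycle outside the image of `Λ` have no effect -/
theorem tor_stpd (hΛ : Set.InjOn (fun i : ℤ => (i : ZMod n)) Λ) (hf : Dep f Λ)
    (w : ℤ → ℝ) (hw : Osc f w) (h : ℝ) (h0 : 0 ≤ h) (ξ : ZMod n → S) :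
    |tstp u h (tor f) ξ - tor (stpd u (clkI Λ) h f) ξ| ≤ h * ∑ c ∈ clk Λ \ clkI Λ, w c.1 := by
  have h1 : tstp u h (tor f) ξ - tor (stpd u (clkI Λ) h f) ξ =
      h * ∑ c ∈ clk Λ \ clkI Λ, (tor f (tact u ((c.1 : ZMod n), c.2) ξ) - tor f ξ) := by
    have h2 : ∑ c ∈ clkI Λ, (tor f (tact u ((c.1 : ZMod n), c.2) ξ) - tor f ξ) =
        gend u (clkI Λ) f (fun i => ξ (i : ZMod n)) := by
      unfold gend
      refine Finset.sum_congr rfl fun c hc => ?_
      rw [tor_actd_inner hΛ hf c hc ξ]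
      rfl
    unfold tstp
    rw [u2_gen hΛ hf ξ, ← sum_sdiff (clkI_subset Λ), h2]
    unfold tor stpd
    ring
  rw [h1, abs_mul, abs_of_nonneg h0]
  refine mul_le_mul_of_nonneg_left ?_ h0
  refine le_trans (abs_sum_le_sum_abs _ _) ?_
  exact sum_le_sum fun c hc => tor_actd_bdry hΛ hf w hw c (mem_sdiff.1 hc).1 ξ

/-- the chain on the cycle does not increase the distance in the sup norm -/
private theorem u2_contr (v : Bool → S → S → S) (h : ℝ) (h0 : 0 ≤ h) (hh : h * (2 * n) ≤ 1)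
    (g₁ g₂ : (ZMod n → S) → ℝ) (B : ℝ) (hB : ∀ ξ, |g₁ ξ - g₂ ξ| ≤ B) (ξ : ZMod n → S) :
    |tstp v h g₁ ξ - tstp v h g₂ ξ| ≤ B := by
  have hcard : ((Finset.univ : Finset (ZMod n × Bool)).card : ℝ) = 2 * n := by
    rw [Finset.card_univ, Fintype.card_prod, ZMod.card, Fintype.card_bool]
    push_cast
    ring
  have hrw : tstp v h g₁ ξ - tstp v h g₂ ξ = (1 - h * (2 * n)) * (g₁ ξ - g₂ ξ) +
      h * ∑ c : ZMod n × Bool, (g₁ (tact v c ξ) - g₂ (tact v c ξ)) := by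
    unfold tstp tgen
    rw [sum_sub_distrib, sum_sub_distrib, sum_sub_distrib, sum_const, sum_const, nsmul_eq_mul,
      nsmul_eq_mul, hcard]
    ring
  have hsum : |∑ c : ZMod n × Bool, (g₁ (tact v c ξ) - g₂ (tact v c ξ))| ≤ (2 * n) * B := by
    refine le_trans (abs_sum_le_sum_abs _ _) ?_
    refine le_trans (sum_le_sum (fun c _ => hB (tact v c ξ))) ?_
    rw [sum_const, nsmul_eq_mul, hcard]
  rw [hrw]
  refine le_trans (abs_add_le _ _) ?_
  rw [abs_mul, abs_mul, abs_of_nonneg (by linarith : (0 : ℝ) ≤ 1 - h * (2 * n)),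
    abs_of_nonneg h0]
  have e1 : (1 - h * (2 * n)) * |g₁ ξ - g₂ ξ| ≤ (1 - h * (2 * n)) * B :=
    mul_le_mul_of_nonneg_left (hB ξ) (by linarith)
  have e2 : h * |∑ c : ZMod n × Bool, (g₁ (tact v c ξ) - g₂ (tact v c ξ))| ≤
      h * ((2 * n) * B) := mul_le_mul_of_nonneg_left hsum h0
  calc _ ≤ (1 - h * (2 * n)) * B + h * ((2 * n) * B) := add_le_add e1 e2
    _ = B := by ring

private theorem u2_card (hΛ : Set.InjOn (fun i : ℤ => (i : ZMod n)) Λ) :
    (clkI Λ).card ≤ 2 * n := by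
  have h3 : (clkI Λ).card ≤ (clk Λ).card := card_le_card (filter_subset _ _)
  have h4 : (clk Λ).card = Λ.card * 2 := by
    unfold clk
    rw [card_product, card_univ, Fintype.card_bool]
  have h5 : Λ.card ≤ n := by
    rw [← Finset.card_image_of_injOn hΛ]
    refine (Finset.card_le_univ _).trans ?_
    rw [ZMod.card]
  omega

/-- all steps: induction, `iter_mono`-type contraction, `iterd_props` -/
theorem tor_iterd (hΛ : Set.InjOn (fun i : ℤ => (i : ZMod n)) Λ) (h θ : ℝ) (h0 : 0 ≤ h)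
    (hh : h * (2 * n) ≤ 1) (w : ℤ → ℝ) (hw : ∀ z, 0 ≤ w z) (hθ : 0 ≤ θ)
    (hθ1 : ∀ z, w (z + 1) ≤ θ * w z) (hθ2 : ∀ z, w (z - 1) ≤ θ * w z) (hf : Osc f w)
    (hd : Dep f Λ) {B : ℝ} (h1 : ∀ η, |f η| ≤ B) (N : ℕ) (ξ : ZMod n → S) :
    |((tstp u h)^[N] (tor f)) ξ - tor ((stpd u (clkI Λ) h)^[N] f) ξ| ≤
      (N * h) * ((1 + 2 * θ * h) ^ N * ∑ c ∈ clk Λ \ clkI Λ, w c.1) := by
  have hcard : h * ((clkI Λ).card : ℝ) ≤ 1 := by
    have h5 : ((clkI Λ).card : ℝ) ≤ 2 * n := by exact_mod_cast u2_card hΛ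
    exact (mul_le_mul_of_nonneg_left h5 h0).trans hh
  obtain ⟨E, hE⟩ : ∃ E : ℝ, E = ∑ c ∈ clk Λ \ clkI Λ, w c.1 := ⟨_, rfl⟩
  have hE0 : 0 ≤ E := by
    rw [hE]
    exact sum_nonneg fun c _ => hw c.1
  obtain ⟨q, hq⟩ : ∃ q : ℝ, q = 1 + 2 * θ * h := ⟨_, rfl⟩
  have hq1 : 1 ≤ q := by
    have : 0 ≤ 2 * θ * h := by positivity
    rw [hq]
    linarith
  have hq0 : 0 ≤ q := by linarith
  have key : ∀ r : ℕ, ∀ ξ : ZMod n → S, |((tstp u h)^[r] (tor f)) ξ -
      tor ((stpd u (clkI Λ) h)^[r] f) ξ| ≤ r * (h * (q ^ r * E)) := by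
    intro r
    induction r with
    | zero =>
      intro ξ
      simp
    | succ r ih =>
      intro ξ
      obtain ⟨hd', -, ho⟩ := iterd_props (u := u) (Λ := Λ) h θ h0 hcard w hw hθ hθ1 hθ2 hf hd
        h1 r
      rw [Function.iterate_succ_apply', Function.iterate_succ_apply']
      have e1 := u2_contr u h h0 hh _ _ _ ih ξ
      have e2 := tor_stpd (u := u) hΛ hd' _ ho h h0 ξ
      rw [← mul_sum, ← hE, ← hq] at e2
      have e5 : h * (q ^ r * E) ≤ h * (q ^ (r + 1) * E) := by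
        have : q ^ r ≤ q ^ (r + 1) := pow_le_pow_right₀ hq1 (Nat.le_succ r)
        gcongr
      have e6 : (r : ℝ) * (h * (q ^ r * E)) ≤ r * (h * (q ^ (r + 1) * E)) :=
        mul_le_mul_of_nonneg_left e5 (Nat.cast_nonneg r)
      rw [abs_le] at e1 e2 ⊢
      push_cast
      constructor
      · linarith [e1.1, e2.1]
      · linarith [e1.2, e2.2]
  refine (key N ξ).trans (le_of_eq ?_)
  rw [hq, hE]
  ring

end CPS84
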