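import Pool.Agent.LibCPS84.U2

/-! One box and two boxes. -/

namespace CPS84

open Finset
open scoped Classical

variable {n : ℕ} [NeZero n] {S : Type} {u : Bool → S → S → S} {f : (ℤ → S) → ℝ}

/-- an interval with at most `n` elements embeds in the cycle -/
private theorem u3_inj (a b : ℤ) (hab : b - a < n) :
    Set.InjOn (fun i : ℤ => (i : ZMod n)) (Icc a b : Finset ℤ) := by
  intro i hi j hj hij
  rw [mem_coe, mem_Icc] at hi hj
  have h1 : ((i : ℤ) : ZMod n) = ((j : ℤ) : ZMod n) := hij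
  rw [ZMod.intCast_eq_intCast_iff] at h1
  have h2 : (n : ℤ) ∣ j - i := h1.dvd
  obtain ⟨m, hm⟩ := h2
  have hn : (0 : ℤ) < n := by
    have := NeZero.pos n
    exact_mod_cast this
  have h3 : m = 0 := by
    rcases lt_trichotomy m 0 with h | h | h
    · exfalso
      have : (n : ℤ) * m ≤ n * (-1) := mul_le_mul_of_nonneg_left (by omega) hn.le
      omega
    · exact h
    · exfalso
      have : (n : ℤ) * 1 ≤ n * m := mul_le_mul_of_nonneg_left (by omega) hn.le
      omega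
  rw [h3, mul_zero] at hm
  omega

private theorem u3_exp (h : ℝ) (h0 : 0 ≤ h) (N : ℕ) :
    (1 + 2 * Real.exp 1 * h) ^ N ≤ Real.exp (2 * Real.exp 1 * (N * h)) := by
  have h4 : 1 + 2 * Real.exp 1 * h ≤ Real.exp (2 * Real.exp 1 * h) := by
    have := Real.add_one_le_exp (2 * Real.exp 1 * h)
    linarith
  have h5 : 0 ≤ 1 + 2 * Real.exp 1 * h := by positivity
  calc (1 + 2 * Real.exp 1 * h) ^ N ≤ (Real.exp (2 * Real.exp 1 * h)) ^ N :=
        pow_le_pow_left₀ h5 h4 N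
    _ = Real.exp (2 * Real.exp 1 * (N * h)) := by
        rw [← Real.exp_nat_mul]
        congr 1
        ring

/-- the final computation -/
private theorem u3_fin (k M N : ℕ) (B h σ C : ℝ) (hB : 0 < B) (h0 : 0 ≤ h) (hC : 0 ≤ C)
    (hσ : σ ≤ C * B * Real.exp ((k : ℝ) - M)) :
    (N * h) * ((1 + 2 * Real.exp 1 * h) ^ N * σ) ≤
      C * B * (N * h) * Real.exp (k - M + 2 * Real.exp 1 * (N * h)) := by
  have h1 := u3_exp h h0 N
  have hNh : 0 ≤ (N : ℝ) * h := by positivity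
  have h5 : 0 ≤ 1 + 2 * Real.exp 1 * h := by positivity
  calc (N * h) * ((1 + 2 * Real.exp 1 * h) ^ N * σ)
      ≤ (N * h) * ((1 + 2 * Real.exp 1 * h) ^ N * (C * B * Real.exp ((k : ℝ) - M))) := by
        refine mul_le_mul_of_nonneg_left ?_ hNh
        exact mul_le_mul_of_nonneg_left hσ (by positivity)
    _ ≤ (N * h) * (Real.exp (2 * Real.exp 1 * (N * h)) * (C * B * Real.exp ((k : ℝ) - M))) := by
        refine mul_le_mul_of_nonneg_left ?_ hNh
        exact mul_le_mul_of_nonneg_right h1 (by positivity)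
    _ = C * B * (N * h) * Real.exp (k - M + 2 * Real.exp 1 * (N * h)) := by
        rw [Real.exp_add]
        ring

/-- `tor_iterd` with `w z = 2 B exp (k - |z - p|)`, `θ = e` (`weight_props`, `osc_weight`) -/
theorem tor_box (p : ℤ) (k M : ℕ) (hkM : k ≤ M) (hM : 2 * M + 1 ≤ n)
    (hf : Dep f (Icc (p - k) (p + k))) {B : ℝ} (hB : 0 < B) (h1 : ∀ η, |f η| ≤ B) (h : ℝ)
    (h0 : 0 ≤ h) (hh : h * (2 * n) ≤ 1) (N : ℕ) (ξ : ZMod n → S) :
    |((tstp u h)^[N] (tor f)) ξ - tor ((stpd u (clkI (Icc (p - M) (p + M))) h)^[N] f) ξ| ≤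
      4 * B * (N * h) * Real.exp (k - M + 2 * Real.exp 1 * (N * h)) := by
  obtain ⟨hw0, hw1, hw2⟩ := weight_props p k
  have hkM' : (k : ℤ) ≤ M := by exact_mod_cast hkM
  have hosc : Osc f (fun z => B * (2 * Real.exp (k - |(z : ℝ) - p|))) := by
    have hg : Dep (fun η => B⁻¹ * f η) (Icc (p - k) (p + k)) := hf.const_mul _
    have hg1 : ∀ η, |B⁻¹ * f η| ≤ 1 := by
      intro η
      rw [abs_mul, abs_of_pos (inv_pos.2 hB), inv_mul_le_iff₀ hB, mul_one]
      exact h1 η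
    have ho := osc_weight p k hg hg1
    intro z η ζ hz
    have h2 := ho z η ζ hz
    have h3 : B⁻¹ * f η - B⁻¹ * f ζ = B⁻¹ * (f η - f ζ) := by ring
    rw [h3, abs_mul, abs_of_pos (inv_pos.2 hB), inv_mul_le_iff₀ hB] at h2
    exact h2
  have hdep : Dep f (Icc (p - (M : ℤ)) (p + M)) := by
    apply hf.mono
    apply Icc_subset_Icc <;> omega
  have hinj : Set.InjOn (fun i : ℤ => (i : ZMod n)) (Icc (p - (M : ℤ)) (p + M) : Finset ℤ) := by
    refine u3_inj _ _ ?_
    have : (2 * (M : ℤ) + 1) ≤ n := by exact_mod_cast hM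
    omega
  have key := tor_iterd (u := u) hinj h (Real.exp 1) h0 hh
    (fun z => B * (2 * Real.exp (k - |(z : ℝ) - p|))) (fun z => mul_nonneg hB.le (hw0 z))
    (Real.exp_pos 1).le
    (fun z => by
      have := mul_le_mul_of_nonneg_left (hw1 z) hB.le
      calc B * (2 * Real.exp (k - |((z + 1 : ℤ) : ℝ) - p|)) ≤ _ := this
        _ = Real.exp 1 * (B * (2 * Real.exp (k - |(z : ℝ) - p|))) := by ring)
    (fun z => by
      have := mul_le_mul_of_nonneg_left (hw2 z) hB.le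
      calc B * (2 * Real.exp (k - |((z - 1 : ℤ) : ℝ) - p|)) ≤ _ := this
        _ = Real.exp 1 * (B * (2 * Real.exp (k - |(z : ℝ) - p|))) := by ring)
    hosc hdep h1 N ξ
  refine key.trans (u3_fin k M N B h _ 4 hB h0 (by norm_num) ?_)
  rw [bdry_Icc p M (fun z => B * (2 * Real.exp (k - |(z : ℝ) - p|)))]
  have a1 : |((p - (M : ℤ) : ℤ) : ℝ) - p| = M := by
    push_cast
    rw [show (p : ℝ) - M - p = -(M : ℝ) by ring, abs_neg, abs_of_nonneg (Nat.cast_nonneg M)]
  have a2 : |((p + (M : ℤ) : ℤ) : ℝ) - p| = M := by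
    push_cast
    rw [show (p : ℝ) + M - p = (M : ℝ) by ring, abs_of_nonneg (Nat.cast_nonneg M)]
  refine le_of_eq ?_
  show B * (2 * Real.exp (k - |((p - (M : ℤ) : ℤ) : ℝ) - p|)) +
    B * (2 * Real.exp (k - |((p + (M : ℤ) : ℤ) : ℝ) - p|)) = _
  rw [a1, a2]
  ring

/-- `tor_iterd` with the maximum of the two weights; the two boxes are not adjacent; four boundary
clocks -/
theorem tor_box2 (p q : ℤ) (k M : ℕ) (hkM : k ≤ M) (hpq : p + 2 * M + 1 < q)
    (hn : q - p + 2 * M + 1 ≤ n)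
    (hf : Dep f (Icc (p - k) (p + k) ∪ Icc (q - k) (q + k))) {B : ℝ} (hB : 0 < B)
    (h1 : ∀ η, |f η| ≤ B) (h : ℝ) (h0 : 0 ≤ h) (hh : h * (2 * n) ≤ 1) (N : ℕ)
    (ξ : ZMod n → S) :
    |((tstp u h)^[N] (tor f)) ξ -
        tor ((stpd u (clkI (Icc (p - M) (p + M) ∪ Icc (q - M) (q + M))) h)^[N] f) ξ| ≤
      8 * B * (N * h) * Real.exp (k - M + 2 * Real.exp 1 * (N * h)) := by
  obtain ⟨hp0, hp1, hp2⟩ := weight_props p k
  obtain ⟨hq0, hq1, hq2⟩ := weight_props q k
  have hkM' : (k : ℤ) ≤ M := by exact_mod_cast hkM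
  obtain ⟨w, hw⟩ : ∃ w : ℤ → ℝ, w = fun z : ℤ => B * max (2 * Real.exp (k - |(z : ℝ) - p|))
    (2 * Real.exp (k - |(z : ℝ) - q|)) := ⟨_, rfl⟩
  have hw0 : ∀ z, 0 ≤ w z := by
    intro z
    rw [hw]
    exact mul_nonneg hB.le (le_max_of_le_left (hp0 z))
  have he := Real.exp_pos 1
  have hw1 : ∀ z, w (z + 1) ≤ Real.exp 1 * w z := by
    intro z
    rw [hw]
    have h2 : max (2 * Real.exp (k - |((z + 1 : ℤ) : ℝ) - p|))
        (2 * Real.exp (k - |((z + 1 : ℤ) : ℝ) - q|)) ≤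
        Real.exp 1 * max (2 * Real.exp (k - |(z : ℝ) - p|)) (2 * Real.exp (k - |(z : ℝ) - q|)) :=
      max_le ((hp1 z).trans (mul_le_mul_of_nonneg_left (le_max_left _ _) he.le))
        ((hq1 z).trans (mul_le_mul_of_nonneg_left (le_max_right _ _) he.le))
    calc _ ≤ B * (Real.exp 1 * max (2 * Real.exp (k - |(z : ℝ) - p|))
          (2 * Real.exp (k - |(z : ℝ) - q|))) := mul_le_mul_of_nonneg_left h2 hB.le
      _ = _ := by ring
  have hw2 : ∀ z, w (z - 1) ≤ Real.exp 1 * w z := by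
    intro z
    rw [hw]
    have h2 : max (2 * Real.exp (k - |((z - 1 : ℤ) : ℝ) - p|))
        (2 * Real.exp (k - |((z - 1 : ℤ) : ℝ) - q|)) ≤
        Real.exp 1 * max (2 * Real.exp (k - |(z : ℝ) - p|)) (2 * Real.exp (k - |(z : ℝ) - q|)) :=
      max_le ((hp2 z).trans (mul_le_mul_of_nonneg_left (le_max_left _ _) he.le))
        ((hq2 z).trans (mul_le_mul_of_nonneg_left (le_max_right _ _) he.le))
    calc _ ≤ B * (Real.exp 1 * max (2 * Real.exp (k - |(z : ℝ) - p|))
          (2 * Real.exp (k - |(z : ℝ) - q|))) := mul_le_mul_of_nonneg_left h2 hB.le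
      _ = _ := by ring
  -- sites of the small boxes
  have hnear : ∀ (r z : ℤ), z ∈ Icc (r - k) (r + k) → 1 ≤ Real.exp (k - |(z : ℝ) - r|) := by
    intro r z hz
    rw [mem_Icc] at hz
    have h2 : |(z : ℝ) - r| ≤ k := by
      rw [abs_le]
      have h3 : ((r - k : ℤ) : ℝ) ≤ (z : ℝ) := by exact_mod_cast hz.1
      have h4 : (z : ℝ) ≤ ((r + k : ℤ) : ℝ) := by exact_mod_cast hz.2
      push_cast at h3 h4
      constructor <;> linarith
    exact Real.one_le_exp (by linarith)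
  have hosc : Osc f w := by
    intro z η ζ hz
    by_cases hm : z ∈ Icc (p - (k : ℤ)) (p + k) ∪ Icc (q - (k : ℤ)) (q + k)
    · have h6 := abs_sub (f η) (f ζ)
      have h7 := h1 η
      have h8 := h1 ζ
      have h9 : 2 ≤ max (2 * Real.exp (k - |(z : ℝ) - p|)) (2 * Real.exp (k - |(z : ℝ) - q|)) := by
        rcases mem_union.1 hm with hm | hm
        · exact le_max_of_le_left (by linarith [hnear p z hm])
        · exact le_max_of_le_right (by linarith [hnear q z hm])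
      rw [hw]
      show |f η - f ζ| ≤ B * max (2 * Real.exp (k - |(z : ℝ) - p|))
        (2 * Real.exp (k - |(z : ℝ) - q|))
      have h10 := mul_le_mul_of_nonneg_left h9 hB.le
      linarith
    · have h2 : f η = f ζ := hf η ζ fun i hi => hz i fun h => hm (h ▸ hi)
      rw [h2, sub_self, abs_zero]
      exact hw0 z
  have hdep : Dep f (Icc (p - (M : ℤ)) (p + M) ∪ Icc (q - (M : ℤ)) (q + M)) := by
    apply hf.mono
    apply union_subset_union <;> apply Icc_subset_Icc <;> omega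
  have hinj : Set.InjOn (fun i : ℤ => (i : ZMod n))
      (Icc (p - (M : ℤ)) (p + M) ∪ Icc (q - (M : ℤ)) (q + M) : Finset ℤ) := by
    refine (u3_inj (n := n) (p - M) (q + M) (by omega)).mono ?_
    intro i hi
    rw [mem_coe, mem_union, mem_Icc, mem_Icc] at hi
    rw [mem_coe, mem_Icc]
    omega
  have key := tor_iterd (u := u) hinj h (Real.exp 1) h0 hh w hw0 he.le hw1 hw2 hosc hdep h1 N ξ
  refine key.trans (u3_fin k M N B h _ 8 hB h0 (by norm_num) ?_)
  -- the boundary clocks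
  have hsub : clk (Icc (p - (M : ℤ)) (p + M) ∪ Icc (q - (M : ℤ)) (q + M)) \
      clkI (Icc (p - (M : ℤ)) (p + M) ∪ Icc (q - (M : ℤ)) (q + M)) ⊆
      (clk (Icc (p - (M : ℤ)) (p + M)) \ clkI (Icc (p - (M : ℤ)) (p + M))) ∪
        (clk (Icc (q - (M : ℤ)) (q + M)) \ clkI (Icc (q - (M : ℤ)) (q + M))) := by
    intro c hc
    rw [mem_sdiff, mem_clk, mem_clkI, mem_union, mem_union] at hc
    rw [mem_union, mem_sdiff, mem_sdiff, mem_clk, mem_clk, mem_clkI, mem_clkI]
    tauto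
  have hsum : ∑ c ∈ clk (Icc (p - (M : ℤ)) (p + M) ∪ Icc (q - (M : ℤ)) (q + M)) \
      clkI (Icc (p - (M : ℤ)) (p + M) ∪ Icc (q - (M : ℤ)) (q + M)), w c.1 ≤
      (w (p - M) + w (p + M)) + (w (q - M) + w (q + M)) := by
    rw [← bdry_Icc p M w, ← bdry_Icc q M w]
    refine (sum_le_sum_of_subset_of_nonneg hsub fun c _ _ => hw0 c.1).trans ?_
    have h2 := sum_union_inter (s₁ := clk (Icc (p - (M : ℤ)) (p + M)) \
      clkI (Icc (p - (M : ℤ)) (p + M))) (s₂ := clk (Icc (q - (M : ℤ)) (q + M)) \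
      clkI (Icc (q - (M : ℤ)) (q + M))) (f := fun c : ℤ × Bool => w c.1)
    have h3 : 0 ≤ ∑ c ∈ (clk (Icc (p - (M : ℤ)) (p + M)) \
      clkI (Icc (p - (M : ℤ)) (p + M))) ∩ (clk (Icc (q - (M : ℤ)) (q + M)) \
      clkI (Icc (q - (M : ℤ)) (q + M))), w c.1 := sum_nonneg fun c _ => hw0 c.1
    linarith
  refine hsum.trans ?_
  have hpqR : (p : ℝ) + 2 * M + 1 < q := by exact_mod_cast hpq
  have hM0 : (0 : ℝ) ≤ M := Nat.cast_nonneg M
  -- the weight at a boundary site
  have hwz : ∀ z : ℤ, (M : ℝ) ≤ |(z : ℝ) - p| → (M : ℝ) ≤ |(z : ℝ) - q| →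
      w z ≤ 2 * B * Real.exp ((k : ℝ) - M) := by
    intro z hz1 hz2
    rw [hw]
    show B * max (2 * Real.exp (k - |(z : ℝ) - p|)) (2 * Real.exp (k - |(z : ℝ) - q|)) ≤ _
    have h2 : max (2 * Real.exp (k - |(z : ℝ) - p|)) (2 * Real.exp (k - |(z : ℝ) - q|)) ≤
        2 * Real.exp ((k : ℝ) - M) := by
      refine max_le ?_ ?_
      · have := Real.exp_le_exp.2 (show (k : ℝ) - |(z : ℝ) - p| ≤ k - M by linarith)
        linarith
      · have := Real.exp_le_exp.2 (show (k : ℝ) - |(z : ℝ) - q| ≤ k - M by linarith)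
        linarith
    calc _ ≤ B * (2 * Real.exp ((k : ℝ) - M)) := mul_le_mul_of_nonneg_left h2 hB.le
      _ = _ := by ring
  have b1 := hwz (p - M) (by
    push_cast
    rw [le_abs]
    right
    linarith) (by
    push_cast
    rw [le_abs]
    right
    linarith)
  have b2 := hwz (p + M) (by
    push_cast
    rw [le_abs]
    left
    linarith) (by
    push_cast
    rw [le_abs]
    right
    linarith)
  have b3 := hwz (q - M) (by
    push_cast
    rw [le_abs]
    left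
    linarith) (by
    push_cast
    rw [le_abs]
    right
    linarith)
  have b4 := hwz (q + M) (by
    push_cast
    rw [le_abs]
    left
    linarith) (by
    push_cast
    rw [le_abs]
    left
    linarith)
  linarith

end CPS84
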