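import Pool.Agent.LibCPS84.U1

/-! Products of functions of distant sites. -/

namespace CPS84

open Finset
open scoped Classical

variable {S : Type} {u : Bool → S → S → S} {f g : (ℤ → S) → ℝ}

private theorem u4_nb (c : ℤ × Bool) : nb c = c.1 + 1 ∨ nb c = c.1 - 1 := by
  unfold nb
  split_ifs
  · exact Or.inl rfl
  · exact Or.inr rfl

/-- no clock connects the two boxes -/
theorem clkI_union (p q : ℤ) (M : ℕ) (hpq : p + 2 * M + 1 < q) :
    clkI (Icc (p - M) (p + M) ∪ Icc (q - M) (q + M)) =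
        clkI (Icc (p - M) (p + M)) ∪ clkI (Icc (q - M) (q + M)) ∧
      Disjoint (clkI (Icc (p - M) (p + M))) (clkI (Icc (q - M) (q + M))) := by
  constructor
  · ext c
    simp only [mem_clkI, Finset.mem_union, mem_Icc]
    rcases u4_nb c with h | h
    · rw [h]
      omega
    · rw [h]
      omega
  · rw [Finset.disjoint_left]
    intro c h1 h2
    have h3 := (mem_clkI.1 h1).1
    have h4 := (mem_clkI.1 h2).1
    rw [mem_Icc] at h3 h4
    omega

private theorem u4_notMem {Λ : Finset ℤ} {f : (ℤ → S) → ℝ} (hf : Dep f Λ) {c : ℤ × Bool}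
    (hc : c.1 ∉ Λ) (η : ℤ → S) : f (actd u c η) = f η := by
  apply hf
  intro i hi
  unfold actd
  apply Function.update_of_ne
  intro h
  exact hc (h ▸ hi)

/-- `stpd (f g) = stpd f * stpd g - h^2 gend f * gend g`, see `gen_mul` -/
theorem stpd_mul (p q : ℤ) (M : ℕ) (hpq : p + 2 * M + 1 < q)
    (hf : Dep f (Icc (p - M) (p + M))) (hg : Dep g (Icc (q - M) (q + M))) (h : ℝ) (η : ℤ → S) :
    stpd u (clkI (Icc (p - M) (p + M) ∪ Icc (q - M) (q + M))) h (fun ζ => f ζ * g ζ) η =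
      stpd u (clkI (Icc (p - M) (p + M))) h f η * stpd u (clkI (Icc (q - M) (q + M))) h g η -
        h ^ 2 * (gend u (clkI (Icc (p - M) (p + M))) f η *
          gend u (clkI (Icc (q - M) (q + M))) g η) := by
  obtain ⟨h1, h2⟩ := clkI_union p q M hpq
  have key : gend u (clkI (Icc (p - M) (p + M) ∪ Icc (q - M) (q + M))) (fun ζ => f ζ * g ζ) η =
      gend u (clkI (Icc (p - M) (p + M))) f η * g η +
        f η * gend u (clkI (Icc (q - M) (q + M))) g η := by
    unfold gend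
    rw [h1, Finset.sum_union h2, Finset.sum_mul, Finset.mul_sum]
    congr 1
    · refine Finset.sum_congr rfl fun c hc => ?_
      have h3 := (mem_clkI.1 hc).1
      have h4 : c.1 ∉ Icc (q - (M : ℤ)) (q + M) := by
        rw [mem_Icc] at h3 ⊢
        omega
      beta_reduce
      rw [u4_notMem hg h4 η]
      ring
    · refine Finset.sum_congr rfl fun c hc => ?_
      have h3 := (mem_clkI.1 hc).1
      have h4 : c.1 ∉ Icc (p - (M : ℤ)) (p + M) := by
        rw [mem_Icc] at h3 ⊢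
        omega
      beta_reduce
      rw [u4_notMem hf h4 η]
      ring
  unfold stpd
  rw [key]
  ring

private theorem u4_gend_le {B : ℝ} (hf : ∀ η, |f η| ≤ B) (K : Finset (ℤ × Bool)) (η : ℤ → S) :
    |gend u K f η| ≤ 2 * B * K.card := by
  unfold gend
  calc |∑ c ∈ K, (f (actd u c η) - f η)| ≤ ∑ c ∈ K, |f (actd u c η) - f η| :=
        abs_sum_le_sum_abs _ _
    _ ≤ ∑ _c ∈ K, 2 * B := by
        apply sum_le_sum
        intro c _
        have h1 := abs_le.1 (hf (actd u c η))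
        have h2 := abs_le.1 (hf η)
        exact abs_le.2 ⟨by linarith [h1.1, h2.2], by linarith [h1.2, h2.1]⟩
    _ = 2 * B * K.card := by
        rw [sum_const, nsmul_eq_mul]
        ring

private theorem u4_card (p : ℤ) (M : ℕ) :
    ((clkI (Icc (p - (M : ℤ)) (p + M))).card : ℝ) ≤ 2 * (2 * M + 1) := by
  have h1 : (clkI (Icc (p - (M : ℤ)) (p + M))).card ≤ (clk (Icc (p - (M : ℤ)) (p + M))).card :=
    card_le_card (clkI_subset _)
  have h2 : (clk (Icc (p - (M : ℤ)) (p + M))).card = (2 * M + 1) * 2 := by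
    unfold clk
    rw [card_product, Int.card_Icc, card_univ, Fintype.card_bool]
    congr 1
    omega
  have h3 : (clkI (Icc (p - (M : ℤ)) (p + M))).card ≤ (2 * M + 1) * 2 := h2 ▸ h1
  have h4 : ((clkI (Icc (p - (M : ℤ)) (p + M))).card : ℝ) ≤ (((2 * M + 1) * 2 : ℕ) : ℝ) := by
    exact_mod_cast h3
  push_cast at h4
  linarith

private theorem u4_lin (K : Finset (ℤ × Bool)) (h a : ℝ) (F G : (ℤ → S) → ℝ) :
    stpd u K h (fun ζ => F ζ - a * G ζ) = fun ζ => stpd u K h F ζ - a * stpd u K h G ζ := by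
  funext η
  unfold stpd gend
  have e : ∑ c ∈ K, (F (actd u c η) - a * G (actd u c η) - (F η - a * G η)) =
      ∑ c ∈ K, (F (actd u c η) - F η) - a * ∑ c ∈ K, (G (actd u c η) - G η) := by
    rw [mul_sum, ← sum_sub_distrib]
    refine sum_congr rfl fun c _ => ?_
    ring
  rw [e]
  ring

private theorem u4_iter_lin (K : Finset (ℤ × Bool)) (h a : ℝ) (N : ℕ) :
    ∀ F G : (ℤ → S) → ℝ, (stpd u K h)^[N] (fun ζ => F ζ - a * G ζ) =
      fun ζ => (stpd u K h)^[N] F ζ - a * (stpd u K h)^[N] G ζ := by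
  induction N with
  | zero => intro F G; rfl
  | succ N ih =>
    intro F G
    rw [Function.iterate_succ_apply, u4_lin, ih]
    rfl

private theorem u4_iter_abs (K : Finset (ℤ × Bool)) (h : ℝ) (h0 : 0 ≤ h) (hK : h * K.card ≤ 1)
    {B : ℝ} (N : ℕ) : ∀ F : (ℤ → S) → ℝ, (∀ η, |F η| ≤ B) → ∀ η,
      |(stpd u K h)^[N] F η| ≤ B := by
  induction N with
  | zero => intro F hF η; exact hF η
  | succ N ih =>
    intro F hF η
    rw [Function.iterate_succ_apply]
    exact ih _ (fun η => abs_stpd_le K h h0 hK hF η) η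

theorem iterd_mul (p q : ℤ) (M : ℕ) (hpq : p + 2 * M + 1 < q)
    (hf : Dep f (Icc (p - M) (p + M))) (hg : Dep g (Icc (q - M) (q + M))) {B : ℝ} (hB : 0 ≤ B)
    (h1 : ∀ η, |f η| ≤ B) (h2 : ∀ η, |g η| ≤ B) (h : ℝ) (h0 : 0 ≤ h)
    (hh : h * (8 * (2 * M + 1)) ≤ 1) (N : ℕ) (η : ℤ → S) :
    |(stpd u (clkI (Icc (p - M) (p + M) ∪ Icc (q - M) (q + M))) h)^[N] (fun ζ => f ζ * g ζ) η -
        (stpd u (clkI (Icc (p - M) (p + M))) h)^[N] f η *
          (stpd u (clkI (Icc (q - M) (q + M))) h)^[N] g η| ≤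
      N * h ^ 2 * (4 * B ^ 2 * (2 * (2 * M + 1)) ^ 2) := by
  obtain ⟨hU, hdisj⟩ := clkI_union p q M hpq
  have c1 := u4_card p M
  have c2 := u4_card q M
  have hK1 : h * ((clkI (Icc (p - (M : ℤ)) (p + M))).card : ℝ) ≤ 1 := by
    have := mul_le_mul_of_nonneg_left c1 h0
    have h3 : 0 ≤ h * (2 * M + 1) := by positivity
    nlinarith
  have hK2 : h * ((clkI (Icc (q - (M : ℤ)) (q + M))).card : ℝ) ≤ 1 := by
    have := mul_le_mul_of_nonneg_left c2 h0
    have h3 : 0 ≤ h * (2 * M + 1) := by positivity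
    nlinarith
  have hK : h * ((clkI (Icc (p - (M : ℤ)) (p + M) ∪ Icc (q - (M : ℤ)) (q + M))).card : ℝ) ≤ 1 := by
    rw [hU, card_union_of_disjoint hdisj]
    push_cast
    have := mul_le_mul_of_nonneg_left (add_le_add c1 c2) h0
    have h3 : 0 ≤ h * (2 * M + 1) := by positivity
    nlinarith
  induction N generalizing f g η with
  | zero => simp
  | succ N ih =>
    rw [Function.iterate_succ_apply, Function.iterate_succ_apply, Function.iterate_succ_apply]
    have hf' := dep_stpd (u := u) hf h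
    have hg' := dep_stpd (u := u) hg h
    have h1' := abs_stpd_le (u := u) (clkI (Icc (p - (M : ℤ)) (p + M))) h h0 hK1 h1
    have h2' := abs_stpd_le (u := u) (clkI (Icc (q - (M : ℤ)) (q + M))) h h0 hK2 h2
    have hI := ih hf' hg' h1' h2' η
    have e1 : stpd u (clkI (Icc (p - M) (p + M) ∪ Icc (q - M) (q + M))) h (fun ζ => f ζ * g ζ) =
        fun ζ => (fun ζ => stpd u (clkI (Icc (p - M) (p + M))) h f ζ *
          stpd u (clkI (Icc (q - M) (q + M))) h g ζ) ζ -
          h ^ 2 * (fun ζ => gend u (clkI (Icc (p - M) (p + M))) f ζ *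
          gend u (clkI (Icc (q - M) (q + M))) g ζ) ζ := by
      funext ζ
      exact stpd_mul p q M hpq hf hg h ζ
    rw [e1, u4_iter_lin]
    beta_reduce
    have hG : ∀ ζ, |(fun ζ => gend u (clkI (Icc (p - (M : ℤ)) (p + M))) f ζ *
          gend u (clkI (Icc (q - (M : ℤ)) (q + M))) g ζ) ζ| ≤
          4 * B ^ 2 * (2 * (2 * (M : ℝ) + 1)) ^ 2 := by
      intro ζ
      beta_reduce
      rw [abs_mul]
      have g1 := u4_gend_le (u := u) h1 (clkI (Icc (p - (M : ℤ)) (p + M))) ζ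
      have g2 := u4_gend_le (u := u) h2 (clkI (Icc (q - (M : ℤ)) (q + M))) ζ
      have g1' : |gend u (clkI (Icc (p - (M : ℤ)) (p + M))) f ζ| ≤
          2 * B * (2 * (2 * (M : ℝ) + 1)) :=
        g1.trans (mul_le_mul_of_nonneg_left c1 (by positivity))
      have g2' : |gend u (clkI (Icc (q - (M : ℤ)) (q + M))) g ζ| ≤
          2 * B * (2 * (2 * (M : ℝ) + 1)) :=
        g2.trans (mul_le_mul_of_nonneg_left c2 (by positivity))
      calc |gend u (clkI (Icc (p - (M : ℤ)) (p + M))) f ζ| *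
            |gend u (clkI (Icc (q - (M : ℤ)) (q + M))) g ζ| ≤
            (2 * B * (2 * (2 * (M : ℝ) + 1))) * (2 * B * (2 * (2 * (M : ℝ) + 1))) :=
          mul_le_mul g1' g2' (abs_nonneg _) (by positivity)
        _ = _ := by ring
    have hA := u4_iter_abs (u := u)
      (clkI (Icc (p - (M : ℤ)) (p + M) ∪ Icc (q - (M : ℤ)) (q + M))) h h0 hK N _ hG η
    have hA2 : |h ^ 2 * (stpd u (clkI (Icc (p - (M : ℤ)) (p + M) ∪ Icc (q - (M : ℤ)) (q + M)))
        h)^[N] (fun ζ => gend u (clkI (Icc (p - (M : ℤ)) (p + M))) f ζ *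
          gend u (clkI (Icc (q - (M : ℤ)) (q + M))) g ζ) η| ≤
        h ^ 2 * (4 * B ^ 2 * (2 * (2 * (M : ℝ) + 1)) ^ 2) := by
      rw [abs_mul, abs_of_nonneg (sq_nonneg h)]
      exact mul_le_mul_of_nonneg_left hA (sq_nonneg h)
    push_cast
    rw [abs_le] at hI hA2 ⊢
    constructor
    · linarith [hI.1, hI.2, hA2.1, hA2.2]
    · linarith [hI.1, hI.2, hA2.1, hA2.2]

end CPS84
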