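import Pool.Agent.LibCPS84.UDefs
import Pool.Agent.LibCPS84.SymB

/-! Averages over the colourings of the cycle. -/

namespace CPS84

open Finset
open scoped Classical

variable {n : ℕ} [NeZero n]

private theorem u5_card_col : (Fintype.card (ZMod n → ZMod 4) : ℝ) = 4 ^ n := by
  rw [Fintype.card_fun, ZMod.card, ZMod.card]
  push_cast
  rfl

private theorem u5_tavg_const (c : ℝ) : tavg (n := n) (fun _ => c) = c := by
  unfold tavg
  rw [sum_const, card_univ, nsmul_eq_mul, u5_card_col]
  field_simp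

private theorem u5_tavg_mono {F G : (ZMod n → ZMod 4) → ℝ} (h : ∀ ξ, F ξ ≤ G ξ) :
    tavg F ≤ tavg G := by
  unfold tavg
  exact div_le_div_of_nonneg_right (sum_le_sum fun ξ _ => h ξ) (by positivity)

private theorem u5_tavg_add (F G : (ZMod n → ZMod 4) → ℝ) :
    tavg (fun ξ => F ξ + G ξ) = tavg F + tavg G := by
  unfold tavg
  rw [sum_add_distrib, add_div]

private theorem u5_tavg_mul (a : ℝ) (F : (ZMod n → ZMod 4) → ℝ) :
    tavg (fun ξ => a * F ξ) = a * tavg F := by
  unfold tavg
  rw [← mul_sum, mul_div_assoc]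

private theorem u5_exp : Exp (fun f : (ℤ → ZMod 4) → ℝ => tavg (n := n) (tor f)) where
  add f g _ _ _ := u5_tavg_add (tor f) (tor g)
  smul a f _ _ := u5_tavg_mul a (tor f)
  mono _ _ _ _ _ h := u5_tavg_mono fun _ => h _
  one := u5_tavg_const 1

private theorem u5_cyl {Λ : Finset ℤ} (hΛ : Set.InjOn (fun i : ℤ => (i : ZMod n)) Λ)
    (σ : ℤ → ZMod 4) :
    tavg (n := n) (tor (fun η => if ∀ i ∈ Λ, η i = σ i then (1 : ℝ) else 0)) =
      (1 / 4) ^ Λ.card := by
  let t : ZMod n → Finset (ZMod 4) := fun j =>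
    univ.filter (fun a => ∀ i ∈ Λ, (i : ZMod n) = j → a = σ i)
  let J : Finset (ZMod n) := Λ.image (fun i : ℤ => (i : ZMod n))
  have hJcard : J.card = Λ.card := card_image_of_injOn hΛ
  have hset : (univ.filter fun ξ : ZMod n → ZMod 4 => ∀ i ∈ Λ, ξ (i : ZMod n) = σ i) =
      Fintype.piFinset t := by
    ext ξ
    rw [mem_filter, Fintype.mem_piFinset]
    constructor
    · rintro ⟨_, h⟩ j
      rw [mem_filter]
      refine ⟨mem_univ _, fun i hi hij => ?_⟩
      rw [← hij]
      exact h i hi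
    · intro h
      refine ⟨mem_univ _, fun i hi => ?_⟩
      have := h (i : ZMod n)
      rw [mem_filter] at this
      exact this.2 i hi rfl
  have htcard : ∀ j : ZMod n, (t j).card = if j ∈ J then 1 else 4 := by
    intro j
    by_cases hj : j ∈ J
    · rw [if_pos hj]
      obtain ⟨i₀, hi₀, rfl⟩ := mem_image.mp hj
      rw [card_eq_one]
      refine ⟨σ i₀, ?_⟩
      ext a
      rw [mem_filter, mem_singleton]
      constructor
      · rintro ⟨_, h⟩
        exact h i₀ hi₀ rfl
      · rintro rfl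
        refine ⟨mem_univ _, fun i hi hii => ?_⟩
        have h2 : i = i₀ := hΛ (Finset.mem_coe.2 hi) (Finset.mem_coe.2 hi₀) hii
        rw [h2]
    · rw [if_neg hj]
      have : t j = univ := by
        ext a
        rw [mem_filter]
        refine ⟨fun _ => mem_univ _, fun _ => ⟨mem_univ _, fun i hi hij => ?_⟩⟩
        exact absurd (mem_image.mpr ⟨i, hi, hij⟩) hj
      rw [this, card_univ, ZMod.card]
  have hcount : ((univ.filter fun ξ : ZMod n → ZMod 4 => ∀ i ∈ Λ, ξ (i : ZMod n) = σ i).card : ℝ) =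
      4 ^ (n - Λ.card) := by
    rw [hset, Fintype.card_piFinset]
    simp only [htcard]
    rw [prod_ite, prod_const, prod_const, one_pow, one_mul]
    have : (univ.filter fun j : ZMod n => j ∉ J).card = n - Λ.card := by
      rw [filter_not, card_sdiff_of_subset (filter_subset _ _), filter_mem_eq_inter, univ_inter,
        hJcard, card_univ, ZMod.card]
    rw [this]
    push_cast
    rfl
  have hle : Λ.card ≤ n := by
    rw [← hJcard]
    calc J.card ≤ (univ : Finset (ZMod n)).card := card_le_univ J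
      _ = n := by rw [card_univ, ZMod.card]
  unfold tavg tor
  rw [sum_boole, hcount]
  rw [div_eq_iff (by positivity)]
  rw [one_div, inv_pow]
  have h4 : (4 : ℝ) ^ n = 4 ^ Λ.card * 4 ^ (n - Λ.card) := by
    rw [← pow_add]
    congr 1
    omega
  rw [h4, ← mul_assoc, inv_mul_cancel₀ (by positivity), one_mul]

/-- the average of a local function is its expectation under the product measure -/
theorem tavg_dep {E : ((ℤ → ZMod 4) → ℝ) → ℝ} (hE : Unif E) {Λ : Finset ℤ}
    (hΛ : Set.InjOn (fun i : ℤ => (i : ZMod n)) Λ) {f : (ℤ → ZMod 4) → ℝ} (hf : Dep f Λ) :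
    tavg (n := n) (tor f) = E f := by
  refine Exp.ext_cyl (Λ := Λ)
    (E := fun f : (ℤ → ZMod 4) → ℝ => tavg (n := n) (tor f)) u5_exp hE.exp ?_ hf
  intro σ
  rw [hE.cyl, ZMod.card]
  have e := u5_cyl (n := n) hΛ σ
  have e2 : (fun η : ℤ → ZMod 4 => @ite ℝ (∀ i ∈ Λ, η i = σ i)
      (@decidableDforallFinset ℤ Λ (fun i _ => η i = σ i)
        fun _ _ => Classical.propDecidable _) 1 0) =
      fun η : ℤ → ZMod 4 => if ∀ i ∈ Λ, η i = σ i then (1 : ℝ) else 0 := by
    funext η
    by_cases hc : ∀ i ∈ Λ, η i = σ i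
    · rw [if_pos hc, if_pos hc]
    · rw [if_neg hc, if_neg hc]
  have e3 : ((4 : ℕ) : ℝ) = 4 := by norm_num
  rw [e3]
  refine Eq.trans ?_ e
  exact congrArg (fun F : (ℤ → ZMod 4) → ℝ => tavg (n := n) (tor F)) e2

end CPS84
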