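import Pool.Agent.LibCPS84.U3
import Pool.Agent.LibCPS84.U4
import Pool.Agent.LibCPS84.U5

/-! The two-time correlations of the sources. -/

namespace CPS84

open Finset
open scoped Classical

variable {n : ℕ} [NeZero n]

/-- functions which agree on an invariant set of states -/
private theorem u6_inv {S : Type} {u : Bool → S → S → S} {h : ℝ} {R : (ZMod n → S) → Prop}
    (hR : ∀ c ξ, R ξ → R (tact u c ξ)) {f g : (ZMod n → S) → ℝ} (hfg : ∀ ξ, R ξ → f ξ = g ξ)
    (k : ℕ) : ∀ ξ, R ξ → ((tstp u h)^[k] f) ξ = ((tstp u h)^[k] g) ξ := by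
  induction k with
  | zero => exact hfg
  | succ k ih =>
    intro ξ hξ
    rw [Function.iterate_succ_apply', Function.iterate_succ_apply']
    unfold tstp tgen
    have e1 := ih ξ hξ
    have e2 : ∀ c : ZMod n × Bool, ((fun g ξ => g ξ + h * ∑ c, (g (tact u c ξ) - g ξ))^[k] f)
        (tact u c ξ) = ((fun g ξ => g ξ + h * ∑ c, (g (tact u c ξ) - g ξ))^[k] g)
        (tact u c ξ) := fun c => ih _ (hR c ξ hξ)
    unfold tstp tgen at e1
    rw [e1]
    congr 2
    refine sum_congr rfl fun c _ => ?_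
    rw [e2 c]

private theorem u6_mb (a b : ZMod 4) : 0 ≤ mb a b ∧ mb a b ≤ 1 := by
  unfold mb
  split_ifs <;> norm_num

/-- on the reachable states `∑ |sig| + (moving walls) ≤ moving walls at the beginning ≤ n`, so the
cut off at `B ≥ n` has no effect (`sum_sig_act`; induction over the steps for functions which agree
on an invariant set of states) -/
theorem RR2_cut (hn : 2 ≤ n) (B : ℝ) (hB : (n : ℝ) ≤ B) (h : ℝ) (k : ℕ) (x : ℤ) :
    RR2 n h k x = text (n := n) h k k (tor (fun ξ => sgc B 0 ξ * sgc B x ξ)) := by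
  set R : (ZMod n → ES) → Prop := fun ξ =>
    ∑ z, (|((sig (ξ z) (ξ (z + 1)) : ℤ) : ℝ)| + ((mb (ξ z).1 (ξ (z + 1)).1 : ℤ) : ℝ)) ≤ n with hRdef
  have hR : ∀ c ξ, R ξ → R (tact eu c ξ) := fun c ξ hξ => (sum_sig_act hn c ξ).trans hξ
  have hsg : ∀ ξ : ZMod n → ES, R ξ → ∀ x : ℤ, |sg x (fun i => ξ (i : ZMod n))| ≤ B := by
    intro ξ hξ x
    refine le_trans ?_ hB
    refine le_trans ?_ hξ
    have h1 : sg x (fun i => ξ (i : ZMod n)) =
        ((sig (ξ (x : ZMod n)) (ξ ((x : ZMod n) + 1)) : ℤ) : ℝ) := by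
      unfold sg
      push_cast
      rfl
    rw [h1]
    have h2 : ∀ z ∈ (univ : Finset (ZMod n)), 0 ≤ |((sig (ξ z) (ξ (z + 1)) : ℤ) : ℝ)| +
        ((mb (ξ z).1 (ξ (z + 1)).1 : ℤ) : ℝ) := by
      intro z _
      have h3 : (0 : ℝ) ≤ ((mb (ξ z).1 (ξ (z + 1)).1 : ℤ) : ℝ) := by
        exact_mod_cast (u6_mb _ _).1
      positivity
    refine le_trans ?_ (Finset.single_le_sum h2 (mem_univ (x : ZMod n)))
    have h3 : (0 : ℝ) ≤ ((mb (ξ (x : ZMod n)).1 (ξ ((x : ZMod n) + 1)).1 : ℤ) : ℝ) := by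
      exact_mod_cast (u6_mb _ _).1
    linarith
  have hcut : ∀ ξ : ZMod n → ES, R ξ → ∀ x : ℤ, sgc B x (fun i => ξ (i : ZMod n)) =
      sg x (fun i => ξ (i : ZMod n)) := by
    intro ξ hξ x
    have h1 := abs_le.1 (hsg ξ hξ x)
    unfold sgc
    rw [min_eq_right h1.2, max_eq_right h1.1]
  have hagree : ∀ ξ : ZMod n → ES, R ξ → tor (fun ξ => sg 0 ξ * sg x ξ) ξ =
      tor (fun ξ => sgc B 0 ξ * sgc B x ξ) ξ := by
    intro ξ hξ
    unfold tor
    beta_reduce
    rw [hcut ξ hξ 0, hcut ξ hξ x]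
  have hemb : ∀ η : ZMod n → ZMod 4, R (emb η) := by
    intro η
    have h1 : ∀ z ∈ (univ : Finset (ZMod n)),
        |((sig (emb η z) (emb η (z + 1)) : ℤ) : ℝ)| +
          ((mb (emb η z).1 (emb η (z + 1)).1 : ℤ) : ℝ) ≤ 1 := by
      intro z _
      have h2 : sig (emb η z) (emb η (z + 1)) = 0 := by
        unfold sig emb
        simp
      rw [h2]
      have h3 : ((mb (emb η z).1 (emb η (z + 1)).1 : ℤ) : ℝ) ≤ 1 := by
        exact_mod_cast (u6_mb _ _).2
      simpa using h3
    refine (sum_le_sum h1).trans ?_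
    rw [sum_const, card_univ, ZMod.card, nsmul_eq_mul, mul_one]
  unfold RR2 text
  congr 1
  funext η
  exact u6_inv hR hagree k (emb η) (hemb η)

/-- a symmetry of the states commutes with the chain -/
private theorem u6_comm {S : Type} {u : Bool → S → S → S} {h : ℝ} {φ : S → S}
    (hφ : ∀ d a b, u d (φ a) (φ b) = φ (u d a b)) (g : (ZMod n → S) → ℝ) (k : ℕ) :
    ∀ ξ, ((tstp u h)^[k] (fun ζ => g (fun y => φ (ζ y)))) ξ =
      ((tstp u h)^[k] g) (fun y => φ (ξ y)) := by
  have hact : ∀ (c : ZMod n × Bool) (ξ : ZMod n → S),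
      (fun y => φ (tact u c ξ y)) = tact u c (fun y => φ (ξ y)) := by
    intro c ξ
    funext y
    unfold tact
    by_cases hy : y = c.1
    · subst hy
      rw [Function.update_self, Function.update_self, hφ]
    · rw [Function.update_of_ne hy, Function.update_of_ne hy]
  induction k with
  | zero => intro ξ; rfl
  | succ k ih =>
    intro ξ
    rw [Function.iterate_succ_apply', Function.iterate_succ_apply']
    generalize hG : (tstp u h)^[k] (fun ζ => g (fun y => φ (ζ y))) = G at ih ⊢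
    generalize hH : (tstp u h)^[k] g = H at ih ⊢
    unfold tstp tgen
    rw [ih ξ]
    congr 2
    refine sum_congr rfl fun c _ => ?_
    rw [ih (tact u c ξ), hact]

private theorem u6_par : ∀ a : ZMod 4, par (a + 1) = - par a := by
  decide

private theorem u6_ch : ∀ a b : ZMod 4, ch (a + 1) (b + 1) = - ch a b := by
  decide

/-- the rotation -/
private def u6_rot (a : ES) : ES := (a.1 + 1, a.2.1 + 1, - a.2.2)

private theorem u6_eu (d : Bool) (a b : ES) : eu d (u6_rot a) (u6_rot b) = u6_rot (eu d a b) := by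
  unfold eu u6_rot
  have h1 : (b.1 + 1 = a.1 + 1 - 1) ↔ (b.1 = a.1 - 1) := by
    constructor
    · intro h
      have h2 : b.1 + 1 = a.1 := by rw [h]; ring
      rw [← h2]
      ring
    · intro h
      rw [h]
      ring
  by_cases h : b.1 = a.1 - 1
  · rw [if_pos h, if_pos (h1.2 h)]
    simp only
    rw [u6_par]
    refine Prod.ext rfl (Prod.ext rfl ?_)
    simp only
    split_ifs <;> ring
  · rw [if_neg h, if_neg (fun h2 => h (h1.1 h2))]

private theorem u6_sig (a b : ES) : sig (u6_rot a) (u6_rot b) = - sig a b := by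
  unfold sig u6_rot
  simp only
  rw [u6_ch, u6_ch]
  ring

private theorem u6_sgc (B : ℝ) (hB : 0 ≤ B) (x : ℤ) (ξ : ℤ → ES) :
    sgc B x (fun y => u6_rot (ξ y)) = - sgc B x ξ := by
  have h1 : sg x (fun y => u6_rot (ξ y)) = - sg x ξ := by
    unfold sg
    rw [u6_sig]
    push_cast
    rfl
  unfold sgc
  rw [h1]
  rcases le_total (sg x ξ) B with h2 | h2
  · rcases le_total (-B) (sg x ξ) with h3 | h3
    · rw [min_eq_right h2, max_eq_right h3, min_eq_right (by linarith), max_eq_right (by linarith)]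
    · rw [min_eq_right h2, max_eq_left h3, min_eq_left (by linarith), max_eq_right (by linarith)]
      ring
  · rw [min_eq_left h2, min_eq_right (by linarith), max_eq_left (by linarith),
      max_eq_right (by linarith)]

private theorem u6_tmu (h : ℝ) (k : ℕ) (g : (ZMod n → ZMod 4) → ℝ) :
    tmu h k (fun η => g (fun y => η y + 1)) = tmu h k g := by
  unfold tmu tavg
  congr 1
  have h1 := Equiv.sum_comp ((Equiv.refl (ZMod n)).arrowCongr (Equiv.addRight (1 : ZMod 4)))
    (fun η => ((tstp (fun _ => cyc 4) h)^[k] g) η)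
  rw [← h1]
  refine sum_congr rfl fun η _ => ?_
  have hφ : ∀ (d : Bool) (a b : ZMod 4), (fun _ : Bool => cyc 4) d (a + 1) (b + 1) =
      (fun _ : Bool => cyc 4) d a b + 1 := by
    intro d
    have : ∀ a b : ZMod 4, cyc 4 (a + 1) (b + 1) = cyc 4 a b + 1 := by decide
    exact this
  rw [u6_comm (u := fun _ => cyc 4) (φ := fun a => a + 1) hφ g k η]
  rfl

/-- the rotation `(x, y, φ) ↦ (x + 1, y + 1, -φ)` commutes with the rule and changes the sign of
the sources -/
theorem text_sgc (B : ℝ) (hB : 0 ≤ B) (h : ℝ) (k r : ℕ) (x : ℤ) :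
    text (n := n) h k r (tor (sgc B x)) = 0 := by
  set g : (ZMod n → ES) → ℝ := tor (sgc B x) with hg
  have h1 : text (n := n) h k r (fun ξ => g (fun y => u6_rot (ξ y))) = text h k r g := by
    unfold text
    rw [← u6_tmu h k (fun η => ((tstp eu h)^[r] g) (emb η))]
    congr 1
    funext η
    rw [u6_comm u6_eu g r (emb η)]
    congr 1
  have h2 : (fun ξ : ZMod n → ES => g (fun y => u6_rot (ξ y))) = fun ξ => (-1) * g ξ + 0 * g ξ := by
    funext ξ
    rw [hg]
    unfold tor
    have := u6_sgc B hB x (fun i => ξ (i : ZMod n))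
    rw [this]
    ring
  rw [h2, text_lin] at h1
  linarith

end CPS84
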