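import Pool.Agent.LibCPS84.U6

/-! Near sites: the correlations do not depend on the size of the cycle. -/

namespace CPS84

open Finset
open scoped Classical

/-- the number of the inner clocks of a box -/
theorem U7_card {n : ℕ} (p : ℤ) (M : ℕ) (hM : 2 * M + 1 ≤ n) {h : ℝ} (h0 : 0 ≤ h)
    (hh : h * (2 * n) ≤ 1) : h * ((clkI (Icc (p - M) (p + M))).card : ℝ) ≤ 1 := by
  have h2 : (clkI (Icc (p - M) (p + M))).card ≤ 2 * n := by
    have h3 : (clkI (Icc (p - M) (p + M))).card ≤ (clk (Icc (p - M) (p + M))).card :=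
      card_le_card (filter_subset _ _)
    have h4 : (clk (Icc (p - M) (p + M))).card = (2 * M + 1) * 2 := by
      unfold clk
      rw [card_product, Int.card_Icc, card_univ, Fintype.card_bool]
      congr 1
      omega
    omega
  have h5 : ((clkI (Icc (p - M) (p + M))).card : ℝ) ≤ 2 * n := by exact_mod_cast h2
  exact (mul_le_mul_of_nonneg_left h5 h0).trans hh

/-- the iterates of the chain of the inner clocks -/
theorem U7_iter {S : Type} {u : Bool → S → S → S} {f : (ℤ → S) → ℝ} {Λ : Finset ℤ}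
    (hf : Dep f Λ) {h : ℝ} (h0 : 0 ≤ h) (hK : h * (clkI Λ).card ≤ 1) {B : ℝ}
    (h1 : ∀ η, |f η| ≤ B) (N : ℕ) :
    Dep ((stpd u (clkI Λ) h)^[N] f) Λ ∧ ∀ η, |((stpd u (clkI Λ) h)^[N] f) η| ≤ B := by
  induction N with
  | zero => exact ⟨hf, h1⟩
  | succ N ih =>
    rw [Function.iterate_succ_apply']
    exact ⟨dep_stpd ih.1 h, fun η => abs_stpd_le _ h h0 hK ih.2 η⟩

/-- expectations of two close functions -/
theorem U7_tmu {n : ℕ} [NeZero n] {h : ℝ} (h0 : 0 ≤ h) (hh : h * (2 * n) ≤ 1) (k : ℕ)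
    {F G : (ZMod n → ZMod 4) → ℝ} {c : ℝ} (hFG : ∀ ξ, |F ξ - G ξ| ≤ c) :
    |tmu h k F - tmu h k G| ≤ c := by
  have e1 : tmu h k F ≤ tmu h k G + c := by
    have h1 := tmu_mono (n := n) (h := h) h0 hh k (f := F) (g := fun ξ => 1 * G ξ + c * 1)
      (fun ξ => by
        have := (abs_le.1 (hFG ξ)).2
        linarith)
    rw [tmu_lin (n := n) (h := h) k 1 c G (fun _ => 1), tmu_const] at h1
    linarith
  have e2 : tmu h k G ≤ tmu h k F + c := by
    have h1 := tmu_mono (n := n) (h := h) h0 hh k (f := G) (g := fun ξ => 1 * F ξ + c * 1)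
      (fun ξ => by
        have := (abs_le.1 (hFG ξ)).1
        linarith)
    rw [tmu_lin (n := n) (h := h) k 1 c F (fun _ => 1), tmu_const] at h1
    linarith
  rw [abs_le]
  constructor <;> linarith

/-- the cast to the cycle is injective on short intervals -/
theorem U7_inj {n : ℕ} {a b : ℤ} (hab : b - a < n) :
    Set.InjOn (fun i : ℤ => (i : ZMod n)) (Icc a b : Finset ℤ) := by
  intro i hi j hj hij
  rw [mem_coe, mem_Icc] at hi hj
  have h1 := (ZMod.intCast_eq_intCast_iff_dvd_sub i j n).1 hij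
  have h2 : j - i = 0 := by
    refine Int.eq_zero_of_abs_lt_dvd h1 ?_
    rw [abs_lt]
    constructor <;> omega
  omega

/-- the function on `ℤ` which describes the expectation after the steps of both chains -/
noncomputable def U7_fun (p : ℤ) (j a : ℕ) (h : ℝ) (k : ℕ) (f : (ℤ → ES) → ℝ) :
    (ℤ → ZMod 4) → ℝ :=
  (stpd (fun _ => cyc 4) (clkI (Icc (p - (j + a + a : ℕ)) (p + (j + a + a : ℕ)))) h)^[k]
    (fun η => ((stpd eu (clkI (Icc (p - (j + a : ℕ)) (p + (j + a : ℕ)))) h)^[k] f) (embZ η))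

theorem U7_dep {p : ℤ} {j a : ℕ} {f : (ℤ → ES) → ℝ} (hf : Dep f (Icc (p - j) (p + j)))
    {B : ℝ} (h1 : ∀ ξ, |f ξ| ≤ B) {n : ℕ} (hn : 2 * (j + a + a) + 1 ≤ n) {h : ℝ} (h0 : 0 ≤ h)
    (hh : h * (2 * n) ≤ 1) (k : ℕ) :
    Dep (U7_fun p j a h k f) (Icc (p - (j + a + a : ℕ)) (p + (j + a + a : ℕ))) ∧
      ∀ η, |U7_fun p j a h k f η| ≤ B := by
  have hf' : Dep f (Icc (p - (j + a : ℕ)) (p + (j + a : ℕ))) := by
    refine hf.mono (Icc_subset_Icc ?_ ?_) <;> push_cast <;> omega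
  obtain ⟨d1, b1⟩ := U7_iter (u := eu) hf' h0 (U7_card p (j + a) (by omega) h0 hh) h1 k
  have d2 : Dep (fun η => ((stpd eu (clkI (Icc (p - (j + a : ℕ)) (p + (j + a : ℕ)))) h)^[k] f)
      (embZ η)) (Icc (p - (j + a + a : ℕ)) (p + (j + a + a : ℕ))) := by
    intro η ζ hηζ
    refine d1 _ _ fun i hi => ?_
    have hi' : i ∈ Icc (p - (j + a + a : ℕ)) (p + (j + a + a : ℕ)) := by
      rw [mem_Icc] at hi ⊢
      push_cast at hi ⊢
      omega
    unfold embZ
    rw [hηζ i hi']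
  exact U7_iter (u := fun _ => cyc 4) d2 h0 (U7_card p (j + a + a) (by omega) h0 hh)
    (fun η => b1 (embZ η)) k

/-- the expectation of a local function of the extended chain on a large cycle -/
theorem U7_line {E : ((ℤ → ZMod 4) → ℝ) → ℝ} (hE : Unif E) (n : ℕ) [NeZero n] (p : ℤ)
    (j a : ℕ) (hn : 2 * (j + a + a) + 1 ≤ n) {f : (ℤ → ES) → ℝ}
    (hf : Dep f (Icc (p - j) (p + j))) {B : ℝ} (hB : 0 < B) (h1 : ∀ ξ, |f ξ| ≤ B) (h : ℝ)
    (h0 : 0 ≤ h) (hh : h * (2 * n) ≤ 1) (k : ℕ) :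
    |text (n := n) h k k (tor f) - E (U7_fun p j a h k f)| ≤
      8 * B * (k * h) * Real.exp (-a + 2 * Real.exp 1 * (k * h)) := by
  have hf' : Dep f (Icc (p - (j + a : ℕ)) (p + (j + a : ℕ))) := by
    refine hf.mono (Icc_subset_Icc ?_ ?_) <;> push_cast <;> omega
  obtain ⟨d1, b1⟩ := U7_iter (u := eu) hf' h0 (U7_card p (j + a) (by omega) h0 hh) h1 k
  set F := (stpd eu (clkI (Icc (p - (j + a : ℕ)) (p + (j + a : ℕ)))) h)^[k] f with hF
  have d2 : Dep (fun η => F (embZ η)) (Icc (p - (j + a : ℕ)) (p + (j + a : ℕ))) := by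
    intro η ζ hηζ
    refine d1 _ _ fun i hi => ?_
    unfold embZ
    rw [hηζ i hi]
  have s1 : |text (n := n) h k k (tor f) - tmu (n := n) h k (tor (fun η => F (embZ η)))| ≤
      4 * B * (k * h) * Real.exp (-a + 2 * Real.exp 1 * (k * h)) := by
    refine U7_tmu h0 hh k fun η => ?_
    have h2 := tor_box (n := n) (u := eu) p j (j + a) (by omega) (by omega) hf hB h1 h h0 hh k
      (emb η)
    have h3 : (j : ℝ) - ((j + a : ℕ) : ℝ) = -a := by
      push_cast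
      ring
    rw [h3] at h2
    exact h2
  have s2 : |tmu (n := n) h k (tor (fun η => F (embZ η))) -
      tmu (n := n) h 0 (tor (U7_fun p j a h k f))| ≤
      4 * B * (k * h) * Real.exp (-a + 2 * Real.exp 1 * (k * h)) := by
    refine U7_tmu (F := (tstp (fun _ => cyc 4) h)^[k] (tor (fun η => F (embZ η)))) h0 hh 0
      fun η => ?_
    have h2 := tor_box (n := n) (u := fun _ => cyc 4) p (j + a) (j + a + a) (by omega) hn d2 hB
      (fun η => b1 (embZ η)) h h0 hh k η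
    have h3 : ((j + a : ℕ) : ℝ) - ((j + a + a : ℕ) : ℝ) = -a := by
      push_cast
      ring
    rw [h3] at h2
    exact h2
  have s3 : tmu (n := n) h 0 (tor (U7_fun p j a h k f)) = E (U7_fun p j a h k f) :=
    tavg_dep hE (U7_inj (by push_cast; omega)) (U7_dep hf h1 hn h0 hh k).1
  rw [s3] at s2
  rw [abs_le] at s1 s2 ⊢
  constructor
  · linarith [s1.1, s2.1]
  · linarith [s1.2, s2.2]

/-- the cut off sources -/
theorem U7_sgc (B : ℝ) (hB : 0 ≤ B) (x : ℤ) (ξ : ℤ → ES) : |sgc B x ξ| ≤ B := by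
  unfold sgc
  rw [abs_le]
  constructor
  · exact le_max_left _ _
  · exact max_le (by linarith) (min_le_left _ _)

theorem U7_sgc_dep (B : ℝ) (x : ℤ) : Dep (sgc B x) (Icc (x - (1 : ℕ)) (x + (1 : ℕ))) := by
  intro ξ ζ hh
  unfold sgc sg
  rw [hh x (mem_Icc.2 ⟨by push_cast; omega, by push_cast; omega⟩),
    hh (x + 1) (mem_Icc.2 ⟨by push_cast; omega, by push_cast; omega⟩)]

theorem U7_prod_dep (B : ℝ) (x : ℕ) :
    Dep (fun ξ => sgc B 0 ξ * sgc B x ξ) (Icc ((0 : ℤ) - (x + 1 : ℕ)) (0 + (x + 1 : ℕ))) := by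
  refine Dep.mul ((U7_sgc_dep B 0).mono (Icc_subset_Icc ?_ ?_))
    ((U7_sgc_dep B x).mono (Icc_subset_Icc ?_ ?_)) <;> push_cast <;> omega

theorem U7_prod_abs (B : ℝ) (hB : 0 ≤ B) (x : ℤ) (ξ : ℤ → ES) :
    |sgc B 0 ξ * sgc B x ξ| ≤ B ^ 2 := by
  rw [abs_mul, sq]
  exact mul_le_mul (U7_sgc B hB 0 ξ) (U7_sgc B hB x ξ) (abs_nonneg _) hB

/-- `RR2_cut`; for the extended chain `tor_box 0 (|x| + 1) (|x| + 1 + a)`, for the colours
`tor_box 0 (|x| + 1 + a) (|x| + 1 + 2 a)`, then `tavg_dep` for both cycles -/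
theorem RR2_near {E : ((ℤ → ZMod 4) → ℝ) → ℝ} (hE : Unif E) (n n' : ℕ) [NeZero n] [NeZero n']
    (x a : ℕ) (hx : 2 * (x + 1 + 2 * a) + 1 ≤ n) (hx' : 2 * (x + 1 + 2 * a) + 1 ≤ n') (B : ℝ)
    (hB : (n : ℝ) ≤ B) (hB' : (n' : ℝ) ≤ B) (h : ℝ) (h0 : 0 ≤ h) (hh : h * (2 * n) ≤ 1)
    (hh' : h * (2 * n') ≤ 1) (k : ℕ) :
    |RR2 n h k x - RR2 n' h k x| ≤
      16 * B ^ 2 * (k * h) * Real.exp (-a + 2 * Real.exp 1 * (k * h)) := by
  have hB0 : 0 < B := by
    have h1 : (0 : ℝ) < n := by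
      have : 0 < n := by omega
      exact_mod_cast this
    linarith
  have s1 := U7_line hE n 0 (x + 1) a (by omega) (U7_prod_dep B x) (by positivity)
    (U7_prod_abs B hB0.le x) h h0 hh k
  have s2 := U7_line hE n' 0 (x + 1) a (by omega) (U7_prod_dep B x) (by positivity)
    (U7_prod_abs B hB0.le x) h h0 hh' k
  rw [← RR2_cut (n := n) (by omega) B hB h k x] at s1
  rw [← RR2_cut (n := n') (by omega) B hB' h k x] at s2
  rw [abs_le] at s1 s2 ⊢
  constructor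
  · linarith [s1.1, s2.2]
  · linarith [s1.2, s2.1]

end CPS84
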