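import Pool.Agent.LibCPS84.TA2
import Pool.Agent.LibCPS84.TB1

/-!
# Four colours, part 4: definitions

Rules which depend on the direction on `ℤ`, the number of moving walls on the cycle, the sources.
-/

namespace CPS84

open Finset
open scoped Classical

noncomputable section

section line

variable {S : Type}

/-- the effect of a ring of the clock `c` on `ℤ`, the rule may depend on the direction -/
def actd (u : Bool → S → S → S) (c : ℤ × Bool) (η : ℤ → S) : ℤ → S :=
  Function.update η c.1 (u c.2 (η (nb c)) (η c.1))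

def gend (u : Bool → S → S → S) (K : Finset (ℤ × Bool)) (f : (ℤ → S) → ℝ) (η : ℤ → S) : ℝ :=
  ∑ c ∈ K, (f (actd u c η) - f η)

def stpd (u : Bool → S → S → S) (K : Finset (ℤ × Bool)) (h : ℝ) (f : (ℤ → S) → ℝ)
    (η : ℤ → S) : ℝ :=
  f η + h * gend u K f η

end line

/-- the number of moving walls of a colouring of the cycle -/
def MM {n : ℕ} [NeZero n] (η : ZMod n → ZMod 4) : ℝ := ∑ z, ((mb (η z) (η (z + 1)) : ℤ) : ℝ)

/-- the accumulated sources at the edge `(x, x + 1)` -/
def sg (x : ℤ) (ξ : ℤ → ES) : ℝ := ((sig (ξ x) (ξ (x + 1)) : ℤ) : ℝ)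

/-- the same cut off at `B` -/
def sgc (B : ℝ) (x : ℤ) (ξ : ℤ → ES) : ℝ := max (-B) (min B (sg x ξ))

/-- the extended states at the beginning, on `ℤ` -/
def embZ (η : ℤ → ZMod 4) : ℤ → ES := fun y => (η y, η y, 0)

/-- two-time correlation of the sources in the steps `k, ..., 2 k` -/
def RR2 (n : ℕ) [NeZero n] (h : ℝ) (k : ℕ) (x : ℤ) : ℝ :=
  text (n := n) h k k (tor (fun ξ => sg 0 ξ * sg x ξ))

/-- the quenched bound for the number of moving walls, with the constant `C` -/
def Quen (C : ℝ) : Prop :=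
  ∀ (n : ℕ) [NeZero n] (h : ℝ) (k : ℕ), 0 < h → h * (2 * n) ≤ 1 → 1 ≤ k * h →
    ∀ η : ZMod n → ZMod 4,
      ((tstp (fun _ => cyc 4) h)^[k] MM) η ≤ C * (n / Real.sqrt (k * h) + 1)

end

end CPS84
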