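import Pool.Agent.LibCPS84.MkDefs

/-! Confinement: the Lyapunov function. -/

namespace CPS84

open Finset
open scoped Classical

/-- the sites `0` and `D` have not been overtaken since time `s` and have different parity -/
def EC (D : ℕ) (η : ℤ → MS 4) : Prop :=
  (η 0).2.2 = true ∧ (η D).2.2 = true ∧
    (cur (η D) = cur (η 0) + 1 ∨ cur (η 0) = cur (η D) + 1)

/-- weight of the edge `(z, z + 1)` with the colours `a`, `b` -/
noncomputable def vv (D z : ℕ) (a b : ZMod 4) : ℝ :=
  if b = a then 0 else if a = b + 1 then 3 * D - z else if b = a + 1 then 2 * D + z else 2 * D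

noncomputable def Psi (D : ℕ) (η : ℤ → MS 4) : ℝ :=
  ind (EC D η) * ∑ z ∈ range D, vv D z (cur (η z)) (cur (η (z + 1)))

private theorem vvA_same (D z : ℕ) {a b : ZMod 4} (h : b = a) : vv D z a b = 0 := by
  unfold vv
  rw [if_pos h]

private theorem vvA_dec0 : ∀ a b : ZMod 4, a = b + 1 → b ≠ a := by decide

private theorem vvA_dec1 : ∀ a b : ZMod 4, b = a + 1 → b ≠ a ∧ a ≠ b + 1 := by decide

private theorem vvA_dec2 : ∀ a b : ZMod 4, b = a + 2 → b ≠ a ∧ a ≠ b + 1 ∧ b ≠ a + 1 := by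
  decide

private theorem vvA_cases : ∀ a c : ZMod 4, c = a ∨ c = a + 1 ∨ c = a + 2 ∨ a = c + 1 := by
  decide

private theorem vvA_dec3 : ∀ a : ZMod 4, a - 1 = a + 2 + 1 := by decide

private theorem vvA_dec4 : ∀ c : ZMod 4, c - 1 = c + 1 + 2 := by decide

private theorem vvA_minus (D z : ℕ) {a b : ZMod 4} (h : a = b + 1) :
    vv D z a b = 3 * D - z := by
  unfold vv
  rw [if_neg (vvA_dec0 a b h), if_pos h]

private theorem vvA_plus (D z : ℕ) {a b : ZMod 4} (h : b = a + 1) :
    vv D z a b = 2 * D + z := by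
  unfold vv
  rw [if_neg (vvA_dec1 a b h).1, if_neg (vvA_dec1 a b h).2, if_pos h]

private theorem vvA_two (D z : ℕ) {a b : ZMod 4} (h : b = a + 2) :
    vv D z a b = 2 * D := by
  unfold vv
  rw [if_neg (vvA_dec2 a b h).1, if_neg (vvA_dec2 a b h).2.1, if_neg (vvA_dec2 a b h).2.2]

/-- the site `y` between `a` and `c`, of colour `a - 1`, takes the colour `a` of its left
neighbour; all cases `c - a` -/
theorem vv_left (D y : ℕ) (hy : 1 ≤ y) (hyD : y < D) (a c : ZMod 4) :
    vv D (y - 1) a a + vv D y a c - (vv D (y - 1) a (a - 1) + vv D y (a - 1) c) ≤ -1 := by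
  have hy' : (((y - 1 : ℕ) : ℝ)) = y - 1 := by
    rw [Nat.cast_sub hy, Nat.cast_one]
  have hyD' : (y : ℝ) < D := by exact_mod_cast hyD
  have hy0 : (0 : ℝ) ≤ y := Nat.cast_nonneg y
  rw [vvA_same D (y - 1) (rfl : a = a), vvA_minus D (y - 1) (by ring : a = a - 1 + 1), hy']
  rcases vvA_cases a c with h | h | h | h
  · rw [vvA_same D y h, vvA_plus D y (by rw [h]; ring : c = a - 1 + 1)]
    linarith
  · rw [vvA_plus D y h, vvA_two D y (by rw [h]; ring : c = a - 1 + 2)]
    linarith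
  · have h2 : a - 1 = c + 1 := by
      rw [h]
      exact vvA_dec3 a
    rw [vvA_two D y h, vvA_minus D y h2]
    linarith
  · rw [vvA_minus D y h, vvA_same D y (by rw [h]; ring : c = a - 1)]
    linarith

/-- the site `y` between `a` and `c`, of colour `c - 1`, takes the colour `c` of its right
neighbour -/
theorem vv_right (D y : ℕ) (hy : 1 ≤ y) (hyD : y < D) (a c : ZMod 4) :
    vv D (y - 1) a c + vv D y c c - (vv D (y - 1) a (c - 1) + vv D y (c - 1) c) ≤ -1 := by
  have hy' : (((y - 1 : ℕ) : ℝ)) = y - 1 := by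
    rw [Nat.cast_sub hy, Nat.cast_one]
  have hyD' : (y : ℝ) < D := by exact_mod_cast hyD
  have hy0 : (1 : ℝ) ≤ y := by exact_mod_cast hy
  rw [vvA_same D y (rfl : c = c), vvA_plus D y (by ring : c = c - 1 + 1)]
  rcases vvA_cases a c with h | h | h | h
  · rw [vvA_same D (y - 1) h, vvA_minus D (y - 1) (by rw [h]; ring : a = c - 1 + 1), hy']
    linarith
  · rw [vvA_plus D (y - 1) h, vvA_same D (y - 1) (by rw [h]; ring : c - 1 = a), hy']
    linarith
  · rw [vvA_two D (y - 1) h, vvA_plus D (y - 1) (by rw [h]; ring : c - 1 = a + 1), hy']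
    linarith
  · have h2 : c - 1 = a + 2 := by
      rw [h]
      exact vvA_dec4 c
    rw [vvA_minus D (y - 1) h, vvA_two D (y - 1) h2, hy']
    linarith

theorem vv_nonneg (D z : ℕ) (hz : z < D) (a b : ZMod 4) : 0 ≤ vv D z a b := by
  have hz' : (z : ℝ) < D := by exact_mod_cast hz
  have hz0 : (0 : ℝ) ≤ z := Nat.cast_nonneg z
  unfold vv
  split_ifs <;> linarith

theorem vv_le (D z : ℕ) (hz : z < D) (a b : ZMod 4) : vv D z a b ≤ 3 * D := by
  have hz' : (z : ℝ) < D := by exact_mod_cast hz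
  have hz0 : (0 : ℝ) ≤ z := Nat.cast_nonneg z
  unfold vv
  split_ifs <;> linarith

/-- the edge carries a wall of odd difference: weight at least `2` -/
theorem vv_odd (D z : ℕ) (hz : z < D) (a b : ZMod 4) (h : b = a + 1 ∨ a = b + 1) :
    1 ≤ vv D z a b := by
  have hz' : (z : ℝ) + 1 ≤ D := by exact_mod_cast hz
  have hz0 : (0 : ℝ) ≤ z := Nat.cast_nonneg z
  rcases h with h | h
  · rw [vvA_plus D z h]
    linarith
  · rw [vvA_minus D z h]
    linarith

/-- if the ends have different parity, some edge has odd difference -/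
theorem exists_odd (D : ℕ) (f : ℕ → ZMod 4) (h : f D = f 0 + 1 ∨ f 0 = f D + 1) :
    ∃ z < D, f (z + 1) = f z + 1 ∨ f z = f (z + 1) + 1 := by
  by_contra hcon
  push Not at hcon
  have key : ∀ z : ℕ, z ≤ D → f z = f 0 ∨ f z = f 0 + 2 := by
    intro z
    induction z with
    | zero => intro _; exact Or.inl rfl
    | succ z ih =>
      intro hz
      have h1 := hcon z (by omega)
      have h2 := ih (by omega)
      have hdec : ∀ a b c : ZMod 4, b ≠ a + 1 ∧ a ≠ b + 1 → (a = c ∨ a = c + 2) →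
          (b = c ∨ b = c + 2) := by decide
      exact hdec (f z) (f (z + 1)) (f 0) h1 h2
  have hdec : ∀ a b : ZMod 4, (a = b + 1 ∨ b = a + 1) → (a = b ∨ a = b + 2) → False := by decide
  exact hdec (f D) (f 0) h (key D le_rfl)

theorem Psi_nonneg (D : ℕ) (η : ℤ → MS 4) : 0 ≤ Psi D η := by
  unfold Psi
  refine mul_nonneg ?_ (Finset.sum_nonneg fun z hz => vv_nonneg D z (Finset.mem_range.1 hz) _ _)
  unfold ind
  split_ifs <;> norm_num

theorem Psi_le (D : ℕ) (η : ℤ → MS 4) : Psi D η ≤ 3 * (D : ℝ) ^ 2 := by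
  unfold Psi
  have h1 : ∑ z ∈ range D, vv D z (cur (η z)) (cur (η (z + 1))) ≤ 3 * (D : ℝ) ^ 2 := by
    have h2 : ∑ z ∈ range D, vv D z (cur (η z)) (cur (η (z + 1))) ≤
        ∑ _z ∈ range D, 3 * (D : ℝ) :=
      Finset.sum_le_sum fun z hz => vv_le D z (Finset.mem_range.1 hz) _ _
    rw [Finset.sum_const, Finset.card_range, nsmul_eq_mul] at h2
    refine h2.trans (le_of_eq ?_)
    ring
  have h0 : 0 ≤ ∑ z ∈ range D, vv D z (cur (η z)) (cur (η (z + 1))) :=
    Finset.sum_nonneg fun z hz => vv_nonneg D z (Finset.mem_range.1 hz) _ _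
  unfold ind
  split_ifs
  · rw [one_mul]
    exact h1
  · rw [zero_mul]
    positivity

theorem dep_EC (D : ℕ) : Dep (fun η => ind (EC D η)) (Icc 0 (D : ℤ)) := by
  refine dep_ind _ fun η ζ h => ?_
  have h0 : η 0 = ζ 0 := h 0 (by simp)
  have hD : η D = ζ D := h D (by simp)
  unfold EC
  rw [h0, hD]

theorem dep_Psi (D : ℕ) : Dep (Psi D) (Icc 0 (D : ℤ)) := by
  refine Dep.mul (dep_EC D) ?_
  intro η ζ h
  refine Finset.sum_congr rfl fun z hz => ?_
  have hz' := Finset.mem_range.1 hz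
  have h0 : η z = ζ z := h z (by
    rw [Finset.mem_Icc]
    constructor <;> omega)
  have h1 : η (z + 1) = ζ (z + 1) := h (z + 1) (by
    rw [Finset.mem_Icc]
    constructor <;> omega)
  rw [h0, h1]

end CPS84
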