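import Pool.Agent.LibCPS84.VvA

/-! Confinement: the generator. -/

namespace CPS84

open Finset
open scoped Classical

private theorem vvb_noeff (c : ℤ × Bool) (η : ℤ → MS 4)
    (he : cur (η c.1) ≠ cur (η (nb c)) - 1) : act (cycM 4) c η = η := by
  unfold act cycM
  rw [if_neg he]
  exact Function.update_eq_self _ _

private theorem vvb_mark (c : ℤ × Bool) (η : ℤ → MS 4)
    (he : cur (η c.1) = cur (η (nb c)) - 1) : (act (cycM 4) c η c.1).2.2 = false := by
  rw [act_same]
  unfold cycM
  rw [if_pos he]

/-- the event `EC D` cannot become true -/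
theorem EC_act (D : ℕ) (c : ℤ × Bool) (η : ℤ → MS 4) (h : EC D (act (cycM 4) c η)) : EC D η := by
  by_cases he : cur (η c.1) = cur (η (nb c)) - 1
  · have hm := vvb_mark c η he
    have h0 : (0 : ℤ) ≠ c.1 := by
      intro h0
      have h1 := h.1
      rw [h0, hm] at h1
      exact Bool.false_ne_true h1
    have hD : (D : ℤ) ≠ c.1 := by
      intro h0
      have h1 := h.2.1
      rw [h0, hm] at h1
      exact Bool.false_ne_true h1
    unfold EC at h
    rw [act_of_ne h0, act_of_ne hD] at h
    exact h
  · rwa [vvb_noeff c η he] at h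

theorem gen_EC (D : ℕ) (η : ℤ → MS 4) :
    gen (cycM 4) (clk (Icc 0 (D : ℤ))) (fun η => ind (EC D η)) η ≤ 0 := by
  unfold gen
  apply sum_nonpos
  intro c _
  show ind (EC D (act (cycM 4) c η)) - ind (EC D η) ≤ 0
  unfold ind
  by_cases h : EC D (act (cycM 4) c η)
  · rw [if_pos h, if_pos (EC_act D c η h), sub_self]
  · rw [if_neg h]
    split_ifs <;> norm_num

private theorem vvb_Psi_ge (D : ℕ) (η : ℤ → MS 4) (h : EC D η) : 1 ≤ Psi D η := by
  obtain ⟨z, hz, hzz⟩ := exists_odd D (fun z : ℕ => cur (η z)) (by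
    have := h.2.2
    simpa using this)
  unfold Psi ind
  rw [if_pos h, one_mul]
  have h1 : 1 ≤ vv D z (cur (η z)) (cur (η (z + 1))) := by
    apply vv_odd D z hz
    simpa using hzz
  refine h1.trans ?_
  exact single_le_sum (f := fun z : ℕ => vv D z (cur (η z)) (cur (η (z + 1))))
    (fun i hi => vv_nonneg D i (mem_range.1 hi) _ _) (mem_range.2 hz)

/-- a clock with an effect decreases `Psi` by at least one on `EC D`: sites `0`, `D`: the event is
lost and `Psi ≥ 1`; other sites: `vv_left`, `vv_right`, two edges of the sum change -/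
theorem Psi_act_eff (D : ℕ) (c : ℤ × Bool) (η : ℤ → MS 4) (hc : c.1 ∈ Icc 0 (D : ℤ))
    (hnb : 0 < c.1 → c.1 < D → nb c ∈ Icc 0 (D : ℤ)) (h : EC D η)
    (he : cur (η c.1) = cur (η (nb c)) - 1) :
    Psi D (act (cycM 4) c η) - Psi D η ≤ -1 := by
  have hm := vvb_mark c η he
  have hge := vvb_Psi_ge D η h
  rw [mem_Icc] at hc
  by_cases hend : c.1 = 0 ∨ c.1 = D
  · have hno : ¬ EC D (act (cycM 4) c η) := by
      intro h1
      rcases hend with h0 | h0
      · have h2 := h1.1
        rw [h0] at hm
        rw [hm] at h2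
        exact Bool.false_ne_true h2
      · have h2 := h1.2.1
        rw [h0] at hm
        rw [hm] at h2
        exact Bool.false_ne_true h2
    have : Psi D (act (cycM 4) c η) = 0 := by
      unfold Psi ind
      rw [if_neg hno, zero_mul]
    rw [this]
    linarith
  · rw [not_or] at hend
    have h0 : 0 < c.1 := lt_of_le_of_ne hc.1 (Ne.symm hend.1)
    have h1 : c.1 < D := lt_of_le_of_ne hc.2 hend.2
    obtain ⟨y, hy⟩ : ∃ y : ℕ, (y : ℤ) = c.1 := ⟨c.1.toNat, Int.toNat_of_nonneg hc.1⟩
    have hy1 : 1 ≤ y := by omega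
    have hyD : y < D := by omega
    obtain ⟨k, rfl⟩ : ∃ k, y = k + 1 := ⟨y - 1, by omega⟩
    have hEC : EC D (act (cycM 4) c η) := by
      unfold EC
      rw [act_of_ne (Ne.symm hend.1), act_of_ne (Ne.symm hend.2)]
      exact h
    have hoff : ∀ i : ℤ, i ≠ c.1 → act (cycM 4) c η i = η i := fun i hi => act_of_ne hi η
    have hon : cur (act (cycM 4) c η c.1) = cur (η (nb c)) := by
      rw [act_same, cur_cycM]
      unfold cyc
      rw [if_pos he]
    have hy' : ((k + 1 : ℕ) : ℤ) = c.1 := hy
    have e1 : Psi D (act (cycM 4) c η) - Psi D η =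
        ∑ z ∈ range D, (vv D z (cur (act (cycM 4) c η z)) (cur (act (cycM 4) c η (z + 1))) -
          vv D z (cur (η z)) (cur (η (z + 1)))) := by
      unfold Psi ind
      rw [if_pos hEC, if_pos h, one_mul, one_mul, sum_sub_distrib]
    have e2 : ∑ z ∈ range D, (vv D z (cur (act (cycM 4) c η z)) (cur (act (cycM 4) c η (z + 1))) -
          vv D z (cur (η z)) (cur (η (z + 1)))) =
        ∑ z ∈ ({k, k + 1} : Finset ℕ),
          (vv D z (cur (act (cycM 4) c η z)) (cur (act (cycM 4) c η (z + 1))) -
          vv D z (cur (η z)) (cur (η (z + 1)))) := by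
      symm
      apply sum_subset
      · intro z hz
        rw [mem_insert, mem_singleton] at hz
        rw [mem_range]
        omega
      · intro z _ hz
        rw [mem_insert, mem_singleton, not_or] at hz
        have a1 : (z : ℤ) ≠ c.1 := by
          rw [← hy']
          intro hh
          exact hz.2 (by exact_mod_cast hh)
        have a2 : (z : ℤ) + 1 ≠ c.1 := by
          rw [← hy']
          intro hh
          push_cast at hh
          apply hz.1
          omega
        rw [hoff _ a1, hoff _ a2, sub_self]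
    rw [e1, e2, sum_pair (by omega)]
    have b1 : ((k : ℕ) : ℤ) ≠ c.1 := by rw [← hy']; push_cast; omega
    have b2 : ((k : ℕ) : ℤ) + 1 = c.1 := by rw [← hy']; push_cast; ring
    have b3 : (((k + 1 : ℕ) : ℤ)) + 1 ≠ c.1 := by rw [← hy']; omega
    rw [hoff _ b1, b2, hy', hoff _ (by rw [← hy']; omega : c.1 + 1 ≠ c.1), hon]
    have hk : ((k + 1 : ℕ) - 1 : ℕ) = k := by omega
    rcases hc2 : c.2 with _ | _
    · have hnbc : nb c = (k : ℤ) := by
        unfold nb
        rw [hc2]
        simp only [Bool.false_eq_true, if_false]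
        rw [← hy']
        push_cast
        ring
      have key := vv_left D (k + 1) hy1 hyD (cur (η (k : ℤ))) (cur (η (c.1 + 1)))
      rw [hk] at key
      rw [hnbc] at he ⊢
      rw [he]
      linarith
    · have hnbc : nb c = c.1 + 1 := by
        unfold nb
        rw [hc2]
        simp
      have key := vv_right D (k + 1) hy1 hyD (cur (η (k : ℤ))) (cur (η (c.1 + 1)))
      rw [hk] at key
      rw [hnbc] at he ⊢
      rw [he]
      linarith

/-- a clock without effect changes nothing -/
theorem act_cycM_of_ne (c : ℤ × Bool) (η : ℤ → MS 4) (he : cur (η c.1) ≠ cur (η (nb c)) - 1) :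
    act (cycM 4) c η = η := vvb_noeff c η he

/-- the wall of odd difference of `exists_odd` gives a clock with an effect -/
theorem gen_Psi (D : ℕ) (hD : 1 ≤ D) (η : ℤ → MS 4) :
    gen (cycM 4) (clk (Icc 0 (D : ℤ))) (Psi D) η ≤ - ind (EC D η) := by
  by_cases h : EC D η
  · have hind : ind (EC D η) = 1 := by unfold ind; rw [if_pos h]
    rw [hind]
    have hnbc : ∀ c : ℤ × Bool, 0 < c.1 → c.1 < D → nb c ∈ Icc 0 (D : ℤ) := by
      intro c h0 h1
      rw [mem_Icc]
      unfold nb
      split_ifs <;> omega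
    -- a clock with an effect
    obtain ⟨c0, hc0, he0⟩ : ∃ c0 ∈ clk (Icc 0 (D : ℤ)), cur (η c0.1) = cur (η (nb c0)) - 1 := by
      obtain ⟨z, hz, hzz⟩ := exists_odd D (fun z : ℕ => cur (η z)) (by
        have := h.2.2
        simpa using this)
      rcases hzz with hzz | hzz
      · refine ⟨((z : ℤ), true), mem_clk.2 (mem_Icc.2 ⟨by simp, by simp; omega⟩), ?_⟩
        have e1 : nb ((z : ℤ), true) = ((z + 1 : ℕ) : ℤ) := by
          unfold nb
          simp
        rw [e1]
        have hzz' : cur (η ((z + 1 : ℕ) : ℤ)) = cur (η (z : ℤ)) + 1 := hzz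
        rw [hzz', add_sub_cancel_right]
      · refine ⟨(((z + 1 : ℕ) : ℤ), false), mem_clk.2 (mem_Icc.2 ⟨by positivity, by
          show ((z + 1 : ℕ) : ℤ) ≤ (D : ℤ)
          exact_mod_cast hz⟩), ?_⟩
        have e1 : nb (((z + 1 : ℕ) : ℤ), false) = (z : ℤ) := by
          unfold nb
          simp
        rw [e1]
        have hzz' : cur (η (z : ℤ)) = cur (η ((z + 1 : ℕ) : ℤ)) + 1 := hzz
        rw [hzz', add_sub_cancel_right]
    unfold gen
    calc ∑ c ∈ clk (Icc 0 (D : ℤ)), (Psi D (act (cycM 4) c η) - Psi D η)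
        ≤ ∑ c ∈ clk (Icc 0 (D : ℤ)), (if c = c0 then (-1 : ℝ) else 0) := by
          apply sum_le_sum
          intro c hc
          by_cases he : cur (η c.1) = cur (η (nb c)) - 1
          · have := Psi_act_eff D c η (mem_clk.1 hc) (hnbc c) h he
            split_ifs
            · exact this
            · linarith
          · have hne : c ≠ c0 := by
              intro hh
              rw [hh] at he
              exact he he0
            rw [act_cycM_of_ne c η he, if_neg hne, sub_self]
      _ = -1 := by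
          rw [sum_ite_eq' (clk (Icc 0 (D : ℤ))) c0 (fun _ => (-1 : ℝ)), if_pos hc0]
  · have hind : ind (EC D η) = 0 := by unfold ind; rw [if_neg h]
    rw [hind, neg_zero]
    unfold gen
    apply sum_nonpos
    intro c _
    have h1 : ¬ EC D (act (cycM 4) c η) := fun hh => h (EC_act D c η hh)
    unfold Psi ind
    rw [if_neg h1, if_neg h, zero_mul, zero_mul, sub_self]

end CPS84
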